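import Pool.Agent.FSI.Lam

set_option autoImplicit false

/-! # Cluster points of sequences of sub-probabilities

PROOF. Let `K` be infinite; enumerate it increasingly. The sequences `(l k i)_i` are in the compact
space `ℕ → Set.Icc (0 : ℝ) 1` (first countable, so sequentially compact; or use a diagonal argument /
an ultrafilter containing `K` and all final segments: `a i` = limit of `l k i` along the ultrafilter,
`isCompact_Icc.ultrafilter_le_nhds`). With an ultrafilter `𝓕` on `ℕ` containing `K`, and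
`𝓕 ≤ Filter.atTop`, put `a i = lim`. Then `0 ≤ a i`, all partial sums of `a` are `≤ 1` (limits of
partial sums of `l k`, which are `≤ mass univ (l k) ≤ 1`), `a i = 0` for `i ∉ d`. So `a` is summable
and there is `M` with `∑ i ∈ [M, N), a i ≤ η / 4` for all `N`. For `i < M` choose a rational `x i` with
`0 ≤ x i ≤ a i`, `a i - x i ≤ η / (4 * (M + 1))`, `x i = 0` if `a i = 0` (if `0 < a i` use
`exists_rat_btwn` between `max 0 (a i - η / ..)` and `a i`). `l'` = `x i` for `i < M`, `0` for `i ≥ M`.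
Given `N`, `k0`: the set of `k` with `k ∈ K`, `k0 ≤ k`, `∑ i < N, |l k i - a i| ≤ η / 2` is in `𝓕`, so
nonempty; then `∑ i < N, |l k i - l' i| ≤ η / 2 + ∑ i < N, |a i - l' i| ≤ η / 2 + η / 4 + η / 4`.
(Casts between `ℚ` and `ℝ`: `exact_mod_cast`, `push_cast`.) -/

namespace Pool.Agent.FSI

private theorem clus_sum_le {l : ℕ →₀ ℚ} (h : IsSub l) (T : Finset ℕ) : ∑ i ∈ T, l i ≤ 1 := by
  classical
  have h1 := mass_eq_sum (b := Set.univ) (l := l) (l.support ∪ T) Finset.subset_union_left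
  have h2 : ∑ i ∈ T, l i ≤ ∑ i ∈ l.support ∪ T, l i :=
    Finset.sum_le_sum_of_subset_of_nonneg Finset.subset_union_right (fun i _ _ => h.1 i)
  have h3 : mass Set.univ l = ∑ i ∈ l.support ∪ T, l i := by
    rw [h1]
    apply Finset.sum_congr rfl
    intro i _
    rw [if_pos (Set.mem_univ i)]
  exact (h2.trans h3.ge).trans h.2

theorem clus (l : ℕ → ℕ →₀ ℚ) (hl : ∀ k, IsSub (l k)) {K : Set ℕ} (hK : ∀ k0, ∃ k, k0 ≤ k ∧ k ∈ K)
    {d : Set ℕ} (hd : ∀ k, ∀ i ∈ (l k).support, i ∈ d) {η : ℚ} (hη : 0 < η) :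
    ∃ l' : ℕ →₀ ℚ, IsSub l' ∧ (∀ i ∈ l'.support, i ∈ d) ∧
      ∀ N k0, ∃ k, k0 ≤ k ∧ k ∈ K ∧ ∑ i ∈ Finset.range N, |l k i - l' i| ≤ η := by
  classical
  have hηr : (0 : ℝ) < (η : ℝ) := by exact_mod_cast hη
  -- the ultrafilter
  have hne : (Filter.atTop ⊓ Filter.principal K : Filter ℕ).NeBot := by
    rw [Filter.inf_principal_neBot_iff]
    intro U hU
    rw [Filter.mem_atTop_sets] at hU
    obtain ⟨k0, hk0⟩ := hU
    obtain ⟨k, hk, hkK⟩ := hK k0
    exact ⟨k, hk0 k hk, hkK⟩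
  set F : Ultrafilter ℕ := Ultrafilter.of (Filter.atTop ⊓ Filter.principal K) with hF
  have hFle : (F : Filter ℕ) ≤ Filter.atTop ⊓ Filter.principal K := Ultrafilter.of_le _
  have hFtop : (F : Filter ℕ) ≤ Filter.atTop := hFle.trans inf_le_left
  have hFK : ∀ᶠ k in (F : Filter ℕ), k ∈ K :=
    (hFle.trans inf_le_right) (Filter.mem_principal_self K)
  -- the limits
  have hlim : ∀ i : ℕ, ∃ a : ℝ, a ∈ Set.Icc (0 : ℝ) 1 ∧
      Filter.Tendsto (fun k => ((l k i : ℚ) : ℝ)) (F : Filter ℕ) (nhds a) := by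
    intro i
    have h1 : ((F.map (fun k => ((l k i : ℚ) : ℝ)) : Ultrafilter ℝ) : Filter ℝ) ≤
        Filter.principal (Set.Icc (0 : ℝ) 1) := by
      rw [Filter.le_principal_iff]
      show Set.Icc (0 : ℝ) 1 ∈ Filter.map (fun k => ((l k i : ℚ) : ℝ)) (F : Filter ℕ)
      rw [Filter.mem_map]
      apply Filter.univ_mem'
      intro k
      have h2 : (0 : ℚ) ≤ l k i := (hl k).1 i
      have h3 : (l k i : ℚ) ≤ 1 := by
        have := clus_sum_le (hl k) {i}
        rwa [Finset.sum_singleton] at this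
      constructor
      · show (0 : ℝ) ≤ ((l k i : ℚ) : ℝ)
        exact_mod_cast h2
      · show ((l k i : ℚ) : ℝ) ≤ 1
        exact_mod_cast h3
    obtain ⟨a, ha, ha'⟩ := isCompact_Icc.ultrafilter_le_nhds _ h1
    exact ⟨a, ha, ha'⟩
  choose a ha hta using hlim
  have ha0 : ∀ i, 0 ≤ a i := fun i => (ha i).1
  have had : ∀ i, i ∉ d → a i = 0 := by
    intro i hi
    have h1 : (fun k => ((l k i : ℚ) : ℝ)) = fun _ => (0 : ℝ) := by
      funext k
      have : l k i = 0 := by
        by_contra hcon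
        exact hi (hd k i (Finsupp.mem_support_iff.2 hcon))
      rw [this, Rat.cast_zero]
    have h2 := hta i
    rw [h1] at h2
    exact (tendsto_nhds_unique h2 tendsto_const_nhds)
  have hsum : ∀ T : Finset ℕ, ∑ i ∈ T, a i ≤ 1 := by
    intro T
    have h1 : Filter.Tendsto (fun k => ∑ i ∈ T, ((l k i : ℚ) : ℝ)) (F : Filter ℕ)
        (nhds (∑ i ∈ T, a i)) := tendsto_finsetSum T (fun i _ => hta i)
    apply le_of_tendsto h1
    apply Filter.Eventually.of_forall
    intro k
    have := clus_sum_le (hl k) T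
    exact_mod_cast this
  have hS : Summable a := summable_of_sum_le ha0 hsum
  -- the tail
  obtain ⟨M, hM⟩ : ∃ M : ℕ, ∑' i, a i - ∑ i ∈ Finset.range M, a i ≤ (η : ℝ) / 4 := by
    have h1 := hS.hasSum.tendsto_sum_nat
    have h2 := h1.eventually (lt_mem_nhds (show ∑' i, a i - (η : ℝ) / 4 < ∑' i, a i by linarith))
    obtain ⟨M, hM⟩ := h2.exists
    exact ⟨M, by linarith⟩
  have htail : ∀ N, M ≤ N → ∑ i ∈ Finset.Ico M N, a i ≤ (η : ℝ) / 4 := by
    intro N hN
    have h1 : ∑ i ∈ Finset.range N, a i ≤ ∑' i, a i := hS.sum_le_tsum _ (fun i _ => ha0 i)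
    have h2 := Finset.sum_range_add_sum_Ico a hN
    linarith
  -- the rational approximations
  set ε : ℝ := (η : ℝ) / (4 * ((M : ℝ) + 1)) with hε
  have hM0 : (0 : ℝ) ≤ (M : ℝ) := Nat.cast_nonneg M
  have hεpos : 0 < ε := by positivity
  have hx : ∀ i : ℕ, ∃ x : ℚ, 0 ≤ x ∧ ((x : ℚ) : ℝ) ≤ a i ∧ a i - ((x : ℚ) : ℝ) ≤ ε ∧
      (a i = 0 → x = 0) := by
    intro i
    by_cases h0 : a i = 0
    · refine ⟨0, le_rfl, ?_, ?_, fun _ => rfl⟩
      · rw [h0, Rat.cast_zero]
      · rw [h0, Rat.cast_zero, sub_zero]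
        exact hεpos.le
    · have hpos : 0 < a i := lt_of_le_of_ne (ha0 i) (Ne.symm h0)
      obtain ⟨x, hx1, hx2⟩ := exists_rat_btwn (show max 0 (a i - ε) < a i from
        max_lt hpos (by linarith))
      have h3 : (0 : ℝ) < ((x : ℚ) : ℝ) := lt_of_le_of_lt (le_max_left _ _) hx1
      have h4 : a i - ε < ((x : ℚ) : ℝ) := lt_of_le_of_lt (le_max_right _ _) hx1
      refine ⟨x, ?_, hx2.le, by linarith, fun h => absurd h h0⟩
      exact_mod_cast h3.le
  choose x hx0 hxa hxe hxz using hx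
  set l' : ℕ →₀ ℚ := Finsupp.onFinset (Finset.range M) (fun i => if i < M then x i else 0)
    (by
      intro i hi
      rw [Finset.mem_range]
      by_contra hcon
      apply hi
      rw [if_neg hcon]) with hl'
  have hl'a : ∀ i, l' i = if i < M then x i else 0 := fun i => rfl
  have hl'supp : l'.support ⊆ Finset.range M := Finsupp.support_onFinset_subset
  refine ⟨l', ⟨?_, ?_⟩, ?_, ?_⟩
  · intro i
    rw [hl'a]
    split_ifs
    · exact hx0 i
    · exact le_rfl
  · rw [mass_eq_sum (Finset.range M) hl'supp]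
    have h1 : (((∑ i ∈ Finset.range M, if i ∈ (Set.univ : Set ℕ) then l' i else 0 : ℚ)) : ℝ) ≤ 1 := by
      rw [Rat.cast_sum]
      refine le_trans (Finset.sum_le_sum (g := a) ?_) (hsum (Finset.range M))
      intro i hi
      rw [if_pos (Set.mem_univ i), hl'a, if_pos (Finset.mem_range.1 hi)]
      exact hxa i
    exact_mod_cast h1
  · intro i hi
    by_contra hcon
    rw [Finsupp.mem_support_iff] at hi
    apply hi
    rw [hl'a]
    split_ifs
    · exact hxz i (had i hcon)
    · rfl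
  · intro N k0
    have h1 : Filter.Tendsto (fun k => ∑ i ∈ Finset.range N, |((l k i : ℚ) : ℝ) - a i|)
        (F : Filter ℕ) (nhds (∑ i ∈ Finset.range N, |a i - a i|)) :=
      tendsto_finsetSum _ (fun i _ => ((hta i).sub tendsto_const_nhds).abs)
    have h2 : ∑ i ∈ Finset.range N, |a i - a i| = 0 := by simp
    rw [h2] at h1
    have h3 := h1.eventually (gt_mem_nhds (show (0 : ℝ) < (η : ℝ) / 2 by linarith))
    have h4 : ∀ᶠ k in (F : Filter ℕ), k0 ≤ k := hFtop (Filter.eventually_ge_atTop k0)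
    obtain ⟨k, ⟨hk1, hk2⟩, hk3⟩ := ((h3.and h4).and hFK).exists
    refine ⟨k, hk2, hk3, ?_⟩
    have h5 : ∑ i ∈ Finset.range N, |a i - ((l' i : ℚ) : ℝ)| ≤ (η : ℝ) / 2 := by
      have h6 : ∑ i ∈ Finset.range N, |a i - ((l' i : ℚ) : ℝ)| ≤
          ∑ i ∈ Finset.range (max M N), |a i - ((l' i : ℚ) : ℝ)| := by
        apply Finset.sum_le_sum_of_subset_of_nonneg
        · intro i hi
          rw [Finset.mem_range] at hi ⊢
          exact lt_of_lt_of_le hi (le_max_right _ _)
        · intro i _ _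
          exact abs_nonneg _
      have h7 := Finset.sum_range_add_sum_Ico (fun i => |a i - ((l' i : ℚ) : ℝ)|) (le_max_left M N)
      have h8 : ∑ i ∈ Finset.range M, |a i - ((l' i : ℚ) : ℝ)| ≤ (M : ℝ) * ε := by
        have h9 : ∀ i ∈ Finset.range M, |a i - ((l' i : ℚ) : ℝ)| ≤ ε := by
          intro i hi
          rw [hl'a, if_pos (Finset.mem_range.1 hi), abs_of_nonneg (by linarith [hxa i])]
          exact hxe i
        have := Finset.sum_le_card_nsmul _ _ _ h9
        rwa [Finset.card_range, nsmul_eq_mul] at this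
      have h10 : ∑ i ∈ Finset.Ico M (max M N), |a i - ((l' i : ℚ) : ℝ)| ≤ (η : ℝ) / 4 := by
        refine le_trans (le_of_eq ?_) (htail (max M N) (le_max_left _ _))
        apply Finset.sum_congr rfl
        intro i hi
        rw [hl'a, if_neg (not_lt.2 (Finset.mem_Ico.1 hi).1), Rat.cast_zero, sub_zero,
          abs_of_nonneg (ha0 i)]
      have h11 : (M : ℝ) * ε ≤ (η : ℝ) / 4 := by
        rw [hε]
        have hM1 : (0 : ℝ) < (M : ℝ) + 1 := by linarith
        rw [mul_div_assoc', div_le_div_iff₀ (by positivity) (by norm_num)]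
        nlinarith
      linarith
    have h12 : ((∑ i ∈ Finset.range N, |l k i - l' i| : ℚ) : ℝ) ≤ (η : ℝ) := by
      rw [Rat.cast_sum]
      have h13 : ∀ i ∈ Finset.range N, ((|l k i - l' i| : ℚ) : ℝ) ≤
          |((l k i : ℚ) : ℝ) - a i| + |a i - ((l' i : ℚ) : ℝ)| := by
        intro i _
        rw [Rat.cast_abs, Rat.cast_sub]
        exact abs_sub_le _ _ _
      have h14 := Finset.sum_le_sum h13
      rw [Finset.sum_add_distrib] at h14
      linarith
    exact_mod_cast h12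

end Pool.Agent.FSI
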