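import Pool.Agent.FSI.Sys
import Pool.Agent.FSI.Clus

set_option autoImplicit false

/-! # Averages over the successors

`DD j n t ω` = the successors `e` such that `t ++ [e]` is good for `j` up to `n + 1`; `lamE` chooses a
sub-probability for each of them; `avk` = average over the elements of level `k` (restricted to
`dec t`); `CL j n t m l ω` says that `l` is (up to `gap n`) a cluster point of the averages over the
levels where the proportion of `DD` is more than `1 / m`.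

PROOFS. `lamE_spec` is `sel_spec`. Measurability: `DD_meas` is `Gd_meas`; `lamE_meas`: `MeasF.sel`;
`avk_meas`: `avk` is a function of the pair of `lev k (DD ω)` (`measF_filter`) and of
`W ↦ lamE ω ⟨k, W⟩` (`MeasF.pi`, finite index type, so countably many values), use `MeasF.prod`,
`MeasF.comp`. `CL_meas`: `Meas.all`, `Meas.ex`, `Meas.and`; `{ω | 2 ^ (2 ^ k) < m * cnt k (DD ω)}` by
`meas_cnt` (a countable union over the values) or from `measF_filter`.
`avk_isSub`: `avg_isSub`, `IsSub.res`, and `lamE ω e` is a sub-probability for all `e` (for `e ∉ DD` it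
is `default = 0`; but only `e ∈ DD` matter). `exists_CL`: from `clus` with `d = dec t ∩ [j, ∞)` and
`K = {k | 2 ^ (2 ^ k) < m * cnt k (DD ω)}`: supports of `avk` (`mem_avg_support`, `mem_res_support`). -/

namespace Pool.Agent.FSI

open Classical in
/-- The elements of level `k`. -/
noncomputable def lev (k : ℕ) (D : Set E) : Finset (Finset (Fin (2 ^ k))) :=
  Finset.univ.filter fun W => (⟨k, W⟩ : E) ∈ D

theorem card_lev (k : ℕ) (D : Set E) : (lev k D).card = cnt k D := rfl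

theorem mem_lev {k : ℕ} {D : Set E} {W : Finset (Fin (2 ^ k))} : W ∈ lev k D ↔ (⟨k, W⟩ : E) ∈ D := by
  simp only [lev, Finset.mem_filter, Finset.mem_univ, true_and]

variable {κ : Type} [LinearOrder κ] [WellFoundedLT κ] {Z : Type*} (Y : Sys κ Z)

namespace Sys

/-- Good successors. -/
def DD (j n : ℕ) (t : List E) (ω : Om κ) : Set E := {e | ω ∈ Y.Gd j (n + 1) (t ++ [e])}

/-- A sub-probability for the successor `e`. -/
noncomputable def lamE (j n : ℕ) (t : List E) (ω : Om κ) (e : E) : ℕ →₀ ℚ :=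
  sel fun l => l ∈ Y.Lam j (t ++ [e]) ∧ ω ∈ Y.GG (t ++ [e]) l (Y.bd (n + 1))

/-- The averages. -/
noncomputable def avk (j n : ℕ) (t : List E) (ω : Om κ) (k : ℕ) : ℕ →₀ ℚ :=
  avg (lev k (Y.DD j n t ω)) fun W => res (Y.dec t) (Y.lamE j n t ω ⟨k, W⟩)

/-- One eighth of the difference of the bounds. -/
def gap (n : ℕ) : ℚ := 1 / (8 * ((n : ℚ) + 1) * ((n : ℚ) + 2))

/-- `l` is a cluster point. -/
def CL (j n : ℕ) (t : List E) (m : ℕ) (l : ℕ →₀ ℚ) (ω : Om κ) : Prop :=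
  l ∈ Y.Lam j t ∧ ∀ N k0, ∃ k, k0 ≤ k ∧ 2 ^ (2 ^ k) < m * cnt k (Y.DD j n t ω) ∧
    ∑ i ∈ Finset.range N, |Y.avk j n t ω k i - l i| ≤ gap n

theorem gap_pos (n : ℕ) : 0 < gap n := by
  unfold gap
  positivity

theorem bd_gap (n : ℕ) : Y.bd (n + 1) + 8 * gap n = Y.bd n := by
  unfold bd gap
  push_cast
  field_simp
  ring

theorem lamE_spec {j n : ℕ} {t : List E} {ω : Om κ} {e : E} (h : e ∈ Y.DD j n t ω) :
    Y.lamE j n t ω e ∈ Y.Lam j (t ++ [e]) ∧
      ω ∈ Y.GG (t ++ [e]) (Y.lamE j n t ω e) (Y.bd (n + 1)) := by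
  obtain ⟨l, hl, hω⟩ := h
  exact sel_spec (P := fun l => l ∈ Y.Lam j (t ++ [e]) ∧ ω ∈ Y.GG (t ++ [e]) l (Y.bd (n + 1)))
    ⟨l, hl, hω⟩

theorem DD_meas {j n : ℕ} {t : List E} (e : E) : Meas Y.ρ {ω | e ∈ Y.DD j n t ω} := by
  exact Y.Gd_meas

theorem lamE_meas {j n : ℕ} {t : List E} (e : E) : MeasF Y.ρ fun ω => Y.lamE j n t ω e := by
  exact MeasF.sel fun l => Meas.and (meas_const _) Y.GG_meas

theorem avk_meas {j n : ℕ} {t : List E} (k : ℕ) : MeasF Y.ρ fun ω => Y.avk j n t ω k := by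
  classical
  have h1 : MeasF Y.ρ fun ω => lev k (Y.DD j n t ω) := by
    unfold lev
    exact measF_filter (P := fun W ω => (⟨k, W⟩ : E) ∈ Y.DD j n t ω) fun W => Y.DD_meas _
  have h2 : MeasF Y.ρ fun ω (W : Finset (Fin (2 ^ k))) => Y.lamE j n t ω ⟨k, W⟩ :=
    MeasF.pi fun W => Y.lamE_meas _
  exact (h1.prod h2).comp fun q => avg q.1 fun W => res (Y.dec t) (q.2 W)

theorem CL_meas {j n : ℕ} {t : List E} {m : ℕ} {l : ℕ →₀ ℚ} :
    Meas Y.ρ {ω | Y.CL j n t m l ω} := by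
  have h1 : ∀ k, Meas Y.ρ {ω | 2 ^ (2 ^ k) < m * cnt k (Y.DD j n t ω)} := by
    intro k
    have e : {ω | 2 ^ (2 ^ k) < m * cnt k (Y.DD j n t ω)} =
        {ω | ∃ c, cnt k (Y.DD j n t ω) = c ∧ 2 ^ (2 ^ k) < m * c} := by
      ext ω
      constructor
      · intro h
        exact ⟨_, rfl, h⟩
      · rintro ⟨c, h1, h2⟩
        show 2 ^ (2 ^ k) < m * cnt k (Y.DD j n t ω)
        rw [h1]
        exact h2
    rw [e]
    exact Meas.ex fun c => Meas.and (meas_cnt (fun e => Y.DD_meas e) _ _) (meas_const _)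
  refine Meas.and (meas_const _) (Meas.all fun N => Meas.all fun k0 => Meas.ex fun k =>
    Meas.and (meas_const _) (Meas.and (h1 k) ?_))
  exact (Y.avk_meas k).set {l' | ∑ i ∈ Finset.range N, |l' i - l i| ≤ gap n}

theorem avk_isSub {j n : ℕ} {t : List E} {ω : Om κ} {k : ℕ} : IsSub (Y.avk j n t ω k) := by
  refine avg_isSub fun W hW => IsSub.res ?_
  exact (Y.lamE_spec (mem_lev.1 hW)).1.1

theorem exists_CL {j n : ℕ} {t : List E} {m : ℕ} {ω : Om κ}
    (h : ∀ K : ℕ, ∃ k, K ≤ k ∧ 2 ^ (2 ^ k) < m * cnt k (Y.DD j n t ω)) :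
    ∃ l, Y.CL j n t m l ω := by
  have hd : ∀ k, ∀ i ∈ (Y.avk j n t ω k).support, i ∈ {i | j ≤ i ∧ i ∈ Y.dec t} := by
    intro k i hi
    obtain ⟨W, hW, hi⟩ := mem_avg_support hi
    obtain ⟨hi, hd⟩ := mem_res_support.1 hi
    exact ⟨((Y.lamE_spec (mem_lev.1 hW)).1.2 i hi).1, hd⟩
  obtain ⟨l, h1, h2, h3⟩ := clus (fun k => Y.avk j n t ω k) (fun k => Y.avk_isSub)
    (K := {k | 2 ^ (2 ^ k) < m * cnt k (Y.DD j n t ω)}) h hd (gap_pos n)
  exact ⟨l, ⟨h1, h2⟩, h3⟩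

end Sys

end Pool.Agent.FSI
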