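import Pool.Agent.FSI.Big
import Pool.Agent.FSI.Avk

set_option autoImplicit false

/-! # Averages over a positive proportion of the successors

PROOF. Let `M ≥ 1` be a natural number with `m ≤ η * M`; `Big φ` gives `k1` such that
`M * cnt k φᶜ ≤ 2 ^ (2 ^ k)` for `k ≥ k1`. Let `k ≥ k1`, `2 ^ (2 ^ k) < m * cnt k D`. The number of the
`W ∈ lev k D` with `⟨k, W⟩ ∉ φ` is at most `cnt k φᶜ ≤ 2 ^ (2 ^ k) / M ≤ m * cnt k D / M ≤ η * cnt k D`.
Hence the sum is at most `cnt k D * r + η * cnt k D * 1` (for `⟨k, W⟩ ∈ φ` use `g ≤ r`, for the others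
`g ≤ 1 ≤ r + 1`), and `cnt k D > 0`. -/

namespace Pool.Agent.FSI

theorem avg_big {φ : Set E} (hφ : Big φ) (m : ℕ) {η : ℚ} (hη : 0 < η) :
    ∃ k1 : ℕ, ∀ k, k1 ≤ k → ∀ D : Set E, 2 ^ (2 ^ k) < m * cnt k D → ∀ (g : E → ℚ) (r : ℚ),
      0 ≤ r → (∀ e ∈ D, g e ≤ 1) → (∀ e ∈ D, e ∈ φ → g e ≤ r) →
      ((lev k D).card : ℚ)⁻¹ * ∑ W ∈ lev k D, g ⟨k, W⟩ ≤ r + η := by
  classical
  obtain ⟨M, hM⟩ := exists_nat_ge ((m : ℚ) / η)
  rw [div_le_iff₀ hη] at hM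
  obtain ⟨k1, hk1⟩ := hφ (M + 1)
  refine ⟨k1, fun k hk D hD g r hr hg1 hgr => ?_⟩
  have hcD : 0 < cnt k D := by
    rcases Nat.eq_zero_or_pos (cnt k D) with h | h
    · rw [h, mul_zero] at hD
      exact absurd hD (Nat.not_lt_zero _)
    · exact h
  have hcDq : (0 : ℚ) < (cnt k D : ℚ) := by exact_mod_cast hcD
  have h1 : ∀ W ∈ lev k D, g ⟨k, W⟩ ≤ r + if (⟨k, W⟩ : E) ∈ φᶜ then 1 else 0 := by
    intro W hW
    rw [mem_lev] at hW
    by_cases h : (⟨k, W⟩ : E) ∈ φ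
    · rw [if_neg (fun h' => h' h), add_zero]
      exact hgr _ hW h
    · rw [if_pos (show (⟨k, W⟩ : E) ∈ φᶜ from h)]
      have := hg1 _ hW
      linarith
  have h2 : ∑ W ∈ lev k D, g ⟨k, W⟩ ≤ (cnt k D : ℚ) * r + (cnt k φᶜ : ℚ) := by
    refine (Finset.sum_le_sum h1).trans ?_
    rw [Finset.sum_add_distrib, Finset.sum_const, card_lev, nsmul_eq_mul]
    have h3 : ∑ W ∈ lev k D, (if (⟨k, W⟩ : E) ∈ φᶜ then (1 : ℚ) else 0) ≤ (cnt k φᶜ : ℚ) := by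
      rw [Finset.sum_boole]
      have h4 : ((lev k D).filter fun W => (⟨k, W⟩ : E) ∈ φᶜ).card ≤ cnt k φᶜ := by
        rw [← card_lev]
        refine Finset.card_le_card fun W hW => ?_
        rw [mem_lev]
        exact (Finset.mem_filter.1 hW).2
      exact_mod_cast h4
    linarith
  have h5 : ((M : ℚ) + 1) * (cnt k φᶜ : ℚ) ≤ m * cnt k D := by
    have h6 : (M + 1) * cnt k φᶜ ≤ m * cnt k D := (hk1 k hk).trans hD.le
    exact_mod_cast h6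
  have h7 : (cnt k φᶜ : ℚ) ≤ η * cnt k D := by
    have hM1 : (0 : ℚ) < (M : ℚ) + 1 := by positivity
    have h8 : ((M : ℚ) + 1) * (cnt k φᶜ : ℚ) ≤ ((M : ℚ) + 1) * (η * cnt k D) := by
      refine h5.trans ?_
      have h9 : (m : ℚ) ≤ ((M : ℚ) + 1) * η := by nlinarith
      calc (m : ℚ) * cnt k D ≤ (((M : ℚ) + 1) * η) * cnt k D :=
            mul_le_mul_of_nonneg_right h9 hcDq.le
        _ = ((M : ℚ) + 1) * (η * cnt k D) := by ring
    exact le_of_mul_le_mul_left h8 hM1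
  rw [card_lev, inv_mul_le_iff₀ hcDq]
  linarith

theorem lev_nonempty {k m : ℕ} {D : Set E} (h : 2 ^ (2 ^ k) < m * cnt k D) : (lev k D).Nonempty := by
  rw [← Finset.card_pos, card_lev]
  rcases Nat.eq_zero_or_pos (cnt k D) with h' | h'
  · rw [h', mul_zero] at h
    exact absurd h (Nat.not_lt_zero _)
  · exact h'

end Pool.Agent.FSI
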