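import Mathlib

set_option autoImplicit false

/-! # Finite support iterations with measurable names: basic definitions

`E` = successors `(k, W)`, `W` a set of cells of level `k` (subset of `2 ^ k`). The filter `Big`:
`A` is big if the proportion of the `W` with `(k, W) ∈ A` tends to `1`. `Pos` = positive sets.

`Om κ = κ → ℕ → E` is the space of all sequences of (candidates for) generic reals. `B γ` is the
`σ`-algebra generated by the coordinates below `γ`. A condition has a finite support, actual stems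
(lists) and names: functions `nm γ : Om κ → List E → Set E`, measurable with respect to `B γ`, with
big values. `body p` is the set of the points all whose coordinates in the support are branches.

The order and the null ideals `Nul γ` are defined by recursion on `γ`: `Le p q` holds if the
support of `q` is contained in that of `p`, stems are extended, and for `γ` in the support of `q`
the set of the points of `body (restr p γ)` where the promise of `q` at `γ` is not respected by `p`
is in `Nul γ`. `A ∈ Nul γ` if there are countably many dense sets of `Pset γ` such that `A` contains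
no point extending a filter which meets them. -/

namespace Pool.Agent.FSI

/-- Successors: a level and a set of cells of this level. -/
abbrev E : Type := Σ k : ℕ, Finset (Fin (2 ^ k))

open Classical in
/-- The number of elements of level `k` of `A`. -/
noncomputable def cnt (k : ℕ) (A : Set E) : ℕ :=
  (Finset.univ.filter fun W : Finset (Fin (2 ^ k)) => (⟨k, W⟩ : E) ∈ A).card

/-- Big sets: the proportion tends to `1`. -/
def Big (A : Set E) : Prop := ∀ m : ℕ, ∃ K : ℕ, ∀ k, K ≤ k → m * cnt k Aᶜ ≤ 2 ^ (2 ^ k)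

/-- Positive sets. -/
def Pos (A : Set E) : Prop := ∃ m : ℕ, ∀ K : ℕ, ∃ k, K ≤ k ∧ 2 ^ (2 ^ k) < m * cnt k A

/-- The first `n` values of `x`. -/
def ini (x : ℕ → E) (n : ℕ) : List E := (List.range n).map x

/-- `x` is a branch through the promise `φ` with stem `s`. -/
def Br (s : List E) (φ : List E → Set E) (x : ℕ → E) : Prop :=
  ini x s.length = s ∧ ∀ i, s.length ≤ i → x i ∈ φ (ini x i)

/-- The stem `t` is an extension of `s` allowed by `φ`. -/
def Path (φ : List E → Set E) (s t : List E) : Prop :=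
  s <+: t ∧ ∀ i (h : i < t.length), s.length ≤ i → t[i] ∈ φ (t.take i)

/-- `(t, ψ)` extends `(s, φ)`. -/
def Ok (s : List E) (φ : List E → Set E) (t : List E) (ψ : List E → Set E) : Prop :=
  Path φ s t ∧ ∀ u, t <+: u → ψ u ⊆ φ u

section

variable (κ : Type)

/-- The space of points. -/
abbrev Om : Type := κ → ℕ → E

variable {κ} [LinearOrder κ]

/-- The `σ`-algebra of the coordinates below `γ`. -/
@[instance_reducible] def B (γ : κ) : MeasurableSpace (Om κ) :=
  MeasurableSpace.generateFrom {A | ∃ ξ < γ, ∃ (i : ℕ) (e : E), A = {ω | ω ξ i = e}}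

/-- Sets measurable in the coordinates below `γ`. -/
def Meas (γ : κ) (A : Set (Om κ)) : Prop := @MeasurableSet (Om κ) (B γ) A

variable (κ) in
/-- Conditions. -/
structure Cond where
  /-- the support -/
  supp : Finset κ
  /-- the stems -/
  st : κ → List E
  /-- the promises -/
  nm : κ → Om κ → List E → Set E
  /-- measurability -/
  meas : ∀ γ ∈ supp, ∀ t e, Meas γ {ω | e ∈ nm γ ω t}
  /-- promises are big -/
  big : ∀ γ ∈ supp, ∀ ω t, Big (nm γ ω t)

/-- The points compatible with a condition. -/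
def body (p : Cond κ) : Set (Om κ) := {ω | ∀ γ ∈ p.supp, Br (p.st γ) (p.nm γ ω) (ω γ)}

/-- The restriction to the coordinates below `γ`. -/
def restr (p : Cond κ) (γ : κ) : Cond κ where
  supp := p.supp.filter (· < γ)
  st := p.st
  nm := p.nm
  meas := fun ξ h => p.meas ξ (Finset.mem_filter.1 h).1
  big := fun ξ h => p.big ξ (Finset.mem_filter.1 h).1

/-- The conditions with support below `γ`. -/
def Pset (γ : κ) : Set (Cond κ) := {p | ∀ ξ ∈ p.supp, ξ < γ}

/-- The points where `p` does not respect the promise of `q` at `γ`. -/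
def badAt (γ : κ) (p q : Cond κ) : Set (Om κ) :=
  {ω | ¬ Ok (q.st γ) (q.nm γ ω) (p.st γ) (p.nm γ ω)}

/-- The order, relative to a family of ideals. -/
def LeW (N : κ → Set (Set (Om κ))) (p q : Cond κ) : Prop :=
  q.supp ⊆ p.supp ∧ ∀ γ ∈ q.supp, q.st γ <+: p.st γ ∧ body (restr p γ) ∩ badAt γ p q ∈ N γ

/-- Filters of conditions below `γ`. -/
structure FiltW (N : κ → Set (Set (Om κ))) (γ : κ) (G : Set (Cond κ)) : Prop where
  sub : G ⊆ Pset γ
  ne : G.Nonempty
  up : ∀ p ∈ G, ∀ q ∈ Pset γ, LeW N p q → q ∈ G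
  dir : ∀ p ∈ G, ∀ q ∈ G, ∃ r ∈ G, LeW N r p ∧ LeW N r q

/-- Dense sets of conditions below `γ`. -/
def DenW (N : κ → Set (Set (Om κ))) (γ : κ) (D : Set (Cond κ)) : Prop :=
  D ⊆ Pset γ ∧ ∀ p ∈ Pset γ, ∃ q ∈ D, LeW N q p

/-- The point `ω` extends all stems of the members of `G`. -/
def Ext (G : Set (Cond κ)) (ω : Om κ) : Prop :=
  ∀ p ∈ G, ∀ ξ ∈ p.supp, ini (ω ξ) (p.st ξ).length = p.st ξ

/-- The null sets at `γ`, relative to a family of ideals. -/
def NulW (N : κ → Set (Set (Om κ))) (γ : κ) : Set (Set (Om κ)) :=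
  {A | ∃ D : ℕ → Set (Cond κ), (∀ n, DenW N γ (D n)) ∧
    ∀ G, FiltW N γ G → (∀ n, (G ∩ D n).Nonempty) → ∀ ω, Ext G ω → ω ∉ A}

end

section

variable {κ : Type} [LinearOrder κ] [WellFoundedLT κ]

open Classical in
/-- The null ideals. -/
noncomputable def Nul : κ → Set (Set (Om κ)) :=
  (wellFounded_lt (α := κ)).fix fun γ rec =>
    NulW (fun ξ => if h : ξ < γ then rec ξ h else ∅) γ

/-- The order of conditions. -/
def Le (p q : Cond κ) : Prop := LeW Nul p q

/-- Dense sets. -/
def Den (γ : κ) (D : Set (Cond κ)) : Prop := DenW Nul γ D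

/-- Filters. -/
def Filt (γ : κ) (G : Set (Cond κ)) : Prop := FiltW Nul γ G

omit [WellFoundedLT κ] in
theorem LeW_congr {N N' : κ → Set (Set (Om κ))} {γ : κ} (h : ∀ ξ < γ, N ξ = N' ξ) {p q : Cond κ}
    (hq : q ∈ Pset γ) : LeW N p q ↔ LeW N' p q := by
  unfold LeW
  refine and_congr_right fun _ => forall₂_congr fun ξ hξ => and_congr_right fun _ => ?_
  rw [h ξ (hq ξ hξ)]

omit [WellFoundedLT κ] in
theorem NulW_congr {N N' : κ → Set (Set (Om κ))} {γ : κ} (h : ∀ ξ < γ, N ξ = N' ξ) :
    NulW N γ = NulW N' γ := by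
  have hD : ∀ D, DenW N γ D ↔ DenW N' γ D := fun D => by
    unfold DenW
    refine and_congr_right fun _ => forall₂_congr fun p hp => exists_congr fun q =>
      and_congr_right fun _ => LeW_congr h hp
  have hG : ∀ G, FiltW N γ G ↔ FiltW N' γ G := fun G => by
    constructor
    · rintro ⟨h1, h2, h3, h4⟩
      refine ⟨h1, h2, fun p hp q hq h5 => h3 p hp q hq ((LeW_congr h hq).2 h5), ?_⟩
      intro p hp q hq
      obtain ⟨r, hr, h5, h6⟩ := h4 p hp q hq
      exact ⟨r, hr, (LeW_congr h (h1 hp)).1 h5, (LeW_congr h (h1 hq)).1 h6⟩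
    · rintro ⟨h1, h2, h3, h4⟩
      refine ⟨h1, h2, fun p hp q hq h5 => h3 p hp q hq ((LeW_congr h hq).1 h5), ?_⟩
      intro p hp q hq
      obtain ⟨r, hr, h5, h6⟩ := h4 p hp q hq
      exact ⟨r, hr, (LeW_congr h (h1 hp)).2 h5, (LeW_congr h (h1 hq)).2 h6⟩
  ext A
  show (∃ D : ℕ → Set (Cond κ), (∀ n, DenW N γ (D n)) ∧ _) ↔
    ∃ D : ℕ → Set (Cond κ), (∀ n, DenW N' γ (D n)) ∧ _
  simp only [hD, hG]

theorem Nul_eq (γ : κ) : (Nul γ : Set (Set (Om κ))) = NulW Nul γ := by
  rw [Nul, WellFounded.fix_eq]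
  refine NulW_congr fun ξ hξ => ?_
  rw [dif_pos hξ]

/-- Characterisation of the null sets. -/
theorem mem_Nul {γ : κ} {A : Set (Om κ)} : A ∈ Nul γ ↔ ∃ D : ℕ → Set (Cond κ), (∀ n, Den γ (D n)) ∧
    ∀ G, Filt γ G → (∀ n, (G ∩ D n).Nonempty) → ∀ ω, Ext G ω → ω ∉ A := by
  rw [Nul_eq]
  rfl

/-- The generic quantifier: for all sufficiently generic filters `G` below `γ` and all points
extending `G`. -/
def Ae (γ : κ) (φ : Set (Cond κ) → Om κ → Prop) : Prop :=
  ∃ D : ℕ → Set (Cond κ), (∀ n, Den γ (D n)) ∧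
    ∀ G, Filt γ G → (∀ n, (G ∩ D n).Nonempty) → ∀ ω, Ext G ω → φ G ω

theorem mem_Nul_iff {γ : κ} {A : Set (Om κ)} : A ∈ Nul γ ↔ Ae γ fun _ ω => ω ∉ A := mem_Nul

end

end Pool.Agent.FSI
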