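import Pool.Agent.FSI.Base

set_option autoImplicit false

/-! # Big and positive sets of successors

PROOFS. `cnt` is monotone, `cnt k (A ∪ A') ≤ cnt k A + cnt k A'`, `cnt k univ = 2 ^ (2 ^ k)`
(`Fintype.card_finset`, `Finset.card_univ`, `Fintype.card_fin`), `cnt k A + cnt k Aᶜ = 2 ^ (2 ^ k)`
(`Finset.card_filter_add_card_filter_not`-like). `Big.inter`: `(A ∩ A')ᶜ = Aᶜ ∪ A'ᶜ`, use `2 * m`
twice. `not_pos_iff`: unfold, push negations, `Aᶜᶜ = A`. `Pos.exists_mem`: take `m` from `h`, `K'`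
from `h'` for `m`, and `k ≥ max K K'` with `2 ^ (2 ^ k) < m * cnt k D`; if no element of level `k` of
`D` is in `A` then `cnt k D ≤ cnt k Aᶜ`, contradiction. `Big.exists_mem`: `Pos univ` with `m = 2`. -/

namespace Pool.Agent.FSI

private theorem cnt_ncard (k : ℕ) (A : Set E) :
    cnt k A = {W : Finset (Fin (2 ^ k)) | (⟨k, W⟩ : E) ∈ A}.ncard := by
  classical
  unfold cnt
  rw [← Set.ncard_coe_finset]
  congr 1
  ext W
  simp

theorem cnt_mono {k : ℕ} {A A' : Set E} (h : A ⊆ A') : cnt k A ≤ cnt k A' := by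
  rw [cnt_ncard, cnt_ncard]
  exact Set.ncard_le_ncard (fun W hW => h hW) (Set.toFinite _)

theorem cnt_union (k : ℕ) (A A' : Set E) : cnt k (A ∪ A') ≤ cnt k A + cnt k A' := by
  rw [cnt_ncard, cnt_ncard, cnt_ncard]
  exact Set.ncard_union_le _ _

theorem cnt_univ (k : ℕ) : cnt k Set.univ = 2 ^ (2 ^ k) := by
  rw [cnt_ncard]
  have h : {W : Finset (Fin (2 ^ k)) | (⟨k, W⟩ : E) ∈ (Set.univ : Set E)} = Set.univ := by
    ext W
    simp
  rw [h, Set.ncard_univ, Nat.card_eq_fintype_card, Fintype.card_finset, Fintype.card_fin]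

theorem cnt_compl (k : ℕ) (A : Set E) : cnt k A + cnt k Aᶜ = 2 ^ (2 ^ k) := by
  rw [cnt_ncard, cnt_ncard]
  have h := Set.ncard_add_ncard_compl {W : Finset (Fin (2 ^ k)) | (⟨k, W⟩ : E) ∈ A}
  rw [Nat.card_eq_fintype_card, Fintype.card_finset, Fintype.card_fin] at h
  exact h

theorem big_univ : Big Set.univ := by
  intro m
  refine ⟨0, fun k _ => ?_⟩
  have h1 := cnt_compl k Set.univ
  rw [cnt_univ] at h1
  have h2 : cnt k (Set.univ : Set E)ᶜ = 0 := by omega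
  rw [h2, mul_zero]
  exact Nat.zero_le _

theorem Big.mono {A A' : Set E} (h : Big A) (hs : A ⊆ A') : Big A' := by
  intro m
  obtain ⟨K, hK⟩ := h m
  refine ⟨K, fun k hk => le_trans (Nat.mul_le_mul_left m ?_) (hK k hk)⟩
  exact cnt_mono (Set.compl_subset_compl.2 hs)

theorem Big.inter {A A' : Set E} (h : Big A) (h' : Big A') : Big (A ∩ A') := by
  intro m
  obtain ⟨K, hK⟩ := h (2 * m)
  obtain ⟨K', hK'⟩ := h' (2 * m)
  refine ⟨max K K', fun k hk => ?_⟩
  have h1 := hK k (le_trans (le_max_left _ _) hk)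
  have h2 := hK' k (le_trans (le_max_right _ _) hk)
  have h3 := cnt_union k Aᶜ A'ᶜ
  rw [← Set.compl_inter] at h3
  have h4 := Nat.mul_le_mul_left m h3
  rw [Nat.mul_add] at h4
  rw [Nat.mul_assoc] at h1 h2
  omega

theorem not_pos_iff {A : Set E} : ¬ Pos A ↔ Big Aᶜ := by
  unfold Pos Big
  push Not
  simp only [compl_compl]

theorem Pos.exists_mem {D A : Set E} (h : Pos D) (h' : Big A) (K : ℕ) :
    ∃ e ∈ D, e ∈ A ∧ K ≤ e.1 := by
  classical
  obtain ⟨m, hm⟩ := h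
  obtain ⟨K', hK'⟩ := h' m
  obtain ⟨k, hk, h1⟩ := hm (max K K')
  have h2 := hK' k (le_trans (le_max_right _ _) hk)
  by_contra hcon
  push Not at hcon
  have h3 : cnt k D ≤ cnt k Aᶜ := by
    rw [cnt_ncard, cnt_ncard]
    refine Set.ncard_le_ncard (fun W hW hA => ?_) (Set.toFinite _)
    have h4 := hcon ⟨k, W⟩ hW hA
    have h5 : k < K := h4
    have h6 := le_trans (le_max_left K K') hk
    omega
  have h4 := Nat.mul_le_mul_left m h3
  omega

theorem pos_univ : Pos Set.univ := by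
  refine ⟨2, fun K => ⟨K, le_rfl, ?_⟩⟩
  rw [cnt_univ]
  have : 0 < 2 ^ (2 ^ K) := by positivity
  omega

theorem Big.exists_mem {A : Set E} (h : Big A) (K : ℕ) : ∃ e ∈ A, K ≤ e.1 := by
  obtain ⟨e, -, he, hK⟩ := pos_univ.exists_mem h K
  exact ⟨e, he, hK⟩

end Pool.Agent.FSI
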