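import Pool.Agent.FSI.Base

set_option autoImplicit false

/-! # Lists, initial segments, branches

PROOFS. `ini x n = (List.range n).map x`; `List.range_succ`, `List.map_append`, `List.take_range`
or `List.ext_getElem`. `pre_of_le`: `s = ini x s.length = (ini x t.length).take s.length`,
`List.take_prefix`. `Path.trans`: for `i < u.length` with `s.length ≤ i`: if `i < t.length` then
`u[i] = t[i]` and `u.take i = t.take i` because `t` is a prefix of `u`. `Path.snoc`: the new index
is `t.length`. `Ok.trans`: `Path φ s t`, `Path ψ t u` and `ψ v ⊆ φ v` for `t <+: v`, hence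
`Path φ s u`. `Br.of_ok`: for `s.length ≤ i < t.length` use the path (`ini x t.length = t`), for
`t.length ≤ i` use `x i ∈ ψ (ini x i) ⊆ φ (ini x i)` (`t <+: ini x i`). -/

namespace Pool.Agent.FSI

variable {x : ℕ → E} {n m i : ℕ} {s t u : List E} {e : E} {φ ψ χ : List E → Set E}

@[simp] theorem ini_length : (ini x n).length = n := by
  simp [ini]

theorem ini_zero : ini x 0 = [] := rfl

theorem ini_succ : ini x (n + 1) = ini x n ++ [x n] := by
  simp [ini, List.range_succ]

theorem ini_take : (ini x n).take m = ini x (min m n) := by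
  simp [ini, ← List.map_take, List.take_range]

theorem ini_getElem (h : i < (ini x n).length) : (ini x n)[i] = x i := by
  simp [ini]

theorem ini_prefix (h : n ≤ m) : ini x n <+: ini x m := by
  have h1 : ini x n = (ini x m).take n := by rw [ini_take, min_eq_left h]
  rw [h1]
  exact List.take_prefix _ _

/-- initial segments: elementwise -/
theorem ini_eq_iff : ini x s.length = s ↔ ∀ i (h : i < s.length), x i = s[i] := by
  constructor
  · intro h i hi
    have h1 : i < (ini x s.length).length := by rw [ini_length]; exact hi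
    have h2 := ini_getElem (x := x) h1
    rw [← h2]
    exact List.getElem_of_eq h h1
  · intro h
    apply List.ext_getElem
    · rw [ini_length]
    · intro i h1 h2
      rw [ini_getElem h1]
      exact h i h2

theorem ini_of_prefix (h : s <+: t) (ht : ini x t.length = t) : ini x s.length = s := by
  have h1 : s = t.take s.length := List.prefix_iff_eq_take.1 h
  have h2 : s.length ≤ t.length := h.length_le
  calc ini x s.length = ini x (min s.length t.length) := by rw [min_eq_left h2]
    _ = (ini x t.length).take s.length := by rw [ini_take]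
    _ = t.take s.length := by rw [ht]
    _ = s := h1.symm

theorem pre_of_le (hs : ini x s.length = s) (ht : ini x t.length = t) (h : s.length ≤ t.length) :
    s <+: t := by
  rw [← hs, ← ht]
  exact ini_prefix h

theorem prefix_of_prefix (hs : s <+: u) (ht : t <+: u) (h : s.length ≤ t.length) : s <+: t := by
  exact List.prefix_of_prefix_length_le hs ht h

theorem Path.refl : Path φ s s := by
  exact ⟨List.prefix_rfl, fun i h hi => absurd h (by omega)⟩

theorem take_of_prefix (h : t <+: u) (hi : i ≤ t.length) : u.take i = t.take i := by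
  obtain ⟨r, rfl⟩ := h
  exact List.take_append_of_le_length hi

theorem Path.trans (h : Path φ s t) (h' : Path φ t u) : Path φ s u := by
  refine ⟨h.1.trans h'.1, ?_⟩
  intro i hi hsi
  rcases Nat.lt_or_ge i t.length with hit | hit
  · have h1 := h.2 i hit hsi
    have h2 : t[i] = u[i] := h'.1.getElem hit
    have h3 : u.take i = t.take i := take_of_prefix h'.1 hit.le
    rw [← h2, h3]
    exact h1
  · exact h'.2 i hi hit

theorem Path.mono (h : Path φ s t) (h' : ∀ v, s <+: v → φ v ⊆ ψ v) : Path ψ s t := by
  refine ⟨h.1, ?_⟩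
  intro i hi hsi
  apply h' _ _ (h.2 i hi hsi)
  have h1 : s = t.take s.length := List.prefix_iff_eq_take.1 h.1
  have h2 : s = (t.take i).take s.length := by
    rw [List.take_take, min_eq_left hsi]; exact h1
  rw [h2]
  exact List.take_prefix _ _

theorem Path.snoc (h : Path φ s t) (he : e ∈ φ t) : Path φ s (t ++ [e]) := by
  refine ⟨h.1.trans (List.prefix_append _ _), ?_⟩
  intro i hi hsi
  rcases Nat.lt_or_ge i t.length with hit | hit
  · rw [List.getElem_append_left hit, List.take_append_of_le_length hit.le]
    exact h.2 i hit hsi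
  · have hi' : i = t.length := by
      simp only [List.length_append, List.length_singleton] at hi
      omega
    subst hi'
    simpa using he

/-- a path ends or can be cut in any intermediate list -/
theorem Path.cut (h : Path φ s u) (hs : s <+: t) (ht : t <+: u) : Path φ s t ∧ Path φ t u := by
  constructor
  · refine ⟨hs, ?_⟩
    intro i hi hsi
    have hiu : i < u.length := lt_of_lt_of_le hi ht.length_le
    have h1 := h.2 i hiu hsi
    have h2 : t[i] = u[i] := ht.getElem hi
    rw [h2, ← take_of_prefix ht hi.le]
    exact h1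
  · refine ⟨ht, ?_⟩
    intro i hi hti
    exact h.2 i hi (hs.length_le.trans hti)

theorem Path.of_snoc (h : Path φ s (t ++ [e])) (hs : s <+: t) : Path φ s t ∧ e ∈ φ t := by
  refine ⟨(h.cut hs (List.prefix_append _ _)).1, ?_⟩
  have h1 := h.2 t.length (by simp) hs.length_le
  simpa using h1

/-- induction along a path -/
theorem Path.ind (h : Path φ s t) (C : List E → Prop) (h0 : C s)
    (h1 : ∀ v e, s <+: v → C v → e ∈ φ v → C (v ++ [e])) : C t := by
  obtain ⟨r, rfl⟩ := h.1
  induction r using List.reverseRecOn with
  | nil => rw [List.append_nil]; exact h0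
  | append_singleton r e ih =>
    rw [← List.append_assoc] at h ⊢
    obtain ⟨h2, h3⟩ := h.of_snoc (List.prefix_append _ _)
    exact h1 (s ++ r) e (List.prefix_append _ _) (ih h2) h3

theorem Ok.refl : Ok s φ s φ := by
  exact ⟨Path.refl, fun _ _ => subset_rfl⟩

theorem Ok.trans (h : Ok s φ t ψ) (h' : Ok t ψ u χ) : Ok s φ u χ := by
  exact ⟨h.1.trans (h'.1.mono fun v hv => h.2 v hv),
    fun v hv => (h'.2 v hv).trans (h.2 v (h'.1.1.trans hv))⟩

/-- the same stem and a smaller promise -/
theorem Ok.of_sub (h : ∀ v, ψ v ⊆ φ v) : Ok s φ s ψ := by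
  exact ⟨Path.refl, fun v _ => h v⟩

theorem Br.of_ok (h : Br t ψ x) (h' : Ok s φ t ψ) : Br s φ x := by
  obtain ⟨h1, h2⟩ := h
  obtain ⟨h3, h4⟩ := h'
  refine ⟨ini_of_prefix h3.1 h1, ?_⟩
  intro i hi
  rcases Nat.lt_or_ge i t.length with hit | hit
  · have h5 := h3.2 i hit hi
    rw [← ini_eq_iff.1 h1 i hit] at h5
    have h6 : t.take i = ini x i := by
      conv_lhs => rw [← h1]
      rw [ini_take, min_eq_left hit.le]
    rw [h6] at h5
    exact h5
  · apply h4 _ _ (h2 i hit)
    have h5 := ini_prefix (x := x) hit
    rw [h1] at h5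
    exact h5

theorem Br.of_path (h : Br t φ x) (h' : Path φ s t) : Br s φ x := by
  exact h.of_ok ⟨h', fun _ _ => subset_rfl⟩

theorem Br.path (h : Br s φ x) (hn : s.length ≤ n) : Path φ s (ini x n) := by
  have h1 := ini_prefix (x := x) hn
  rw [h.1] at h1
  refine ⟨h1, ?_⟩
  intro i hi hsi
  rw [ini_getElem hi, ini_take]
  rw [ini_length] at hi
  rw [min_eq_left hi.le]
  exact h.2 i hsi

theorem Br.inter (h : Br s φ x) (h' : Br s ψ x) : Br s (fun v => φ v ∩ ψ v) x := by
  exact ⟨h.1, fun i hi => ⟨h.2 i hi, h'.2 i hi⟩⟩

theorem Br.nil_univ : Br [] (fun _ => Set.univ) x := by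
  exact ⟨rfl, fun _ _ => trivial⟩

end Pool.Agent.FSI
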