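import Pool.Agent.FSI.Main

set_option autoImplicit false

/-! # The forcing calculus

`Fo γ p A` (for `p ∈ Pset γ`): `p` forces (at `γ`) that the generic point is in `A`.

PROOFS. Everything follows from `hyp γ` (files `Hyp`, `Main`).
* `Fo.exists_mem`: if `body p ∩ A = ∅` then `body p \ A = body p` is null, contradiction to `ne`.
* `Fo.iInter`: `body p \ ⋂ A i = ⋃ (body p \ A i)`.
* `exists_lower_of_fo_body` : let `Fo γ p (body q)`. If `p`, `q` were incompatible then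
  `body p ∩ body q` is null (`r2`), so `body p` is null.
* `fo_restr_iff`: `←`: `body p ⊆ body (restr p ξ)` and `Nul_mono`. `→`: suppose not
  `Fo ξ (restr p ξ) A`; by `not_fo` at `ξ` there is `q ∈ Pset ξ`, `Le q (restr p ξ)`, `Fo ξ q Aᶜ`; then
  `r = glue ξ q p` satisfies `Le r p`, `body r ⊆ body q`, so `Fo γ r A` and `Fo γ r Aᶜ`,
  contradiction.
* `fo_select`: `iUnion_select`.
* `fo_countable_value`: for `f : Om κ → Λ`, `Λ` countable, with measurable fibres: the fibres cover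
  everything.
* `fo_of_nul`, `nul_iff_fo`: with `triv` (`body triv = univ`). `fo_null_iff`: if every `p` forces `A`
  (`A` arbitrary) then `Aᶜ` is null: take `p = triv`.
* `fo_nonnul`: if `A` is measurable and `body p ∩ A ∉ Nul γ` then some `q ≤ p` forces `A`
  (`not_fo` for `Aᶜ`). -/

namespace Pool.Agent.FSI

variable {κ : Type} [LinearOrder κ] [WellFoundedLT κ] {γ ξ : κ} {p q r : Cond κ}
  {A A' : Set (Om κ)}

/-- `p` forces that the generic point is in `A`. -/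
def Fo (γ : κ) (p : Cond κ) (A : Set (Om κ)) : Prop := body p \ A ∈ Nul γ

theorem Le.trans (hp : p ∈ Pset γ) (hq : q ∈ Pset γ) (hr : r ∈ Pset γ) (h1 : Le p q)
    (h2 : Le q r) : Le p r :=
  (hyp γ).trans p hp q hq r hr h1 h2

theorem fo_of_subset (h : body p ⊆ A) : Fo γ p A := by
  unfold Fo
  rw [Set.sdiff_eq_empty.2 h]
  exact empty_mem_Nul γ

theorem Fo.mono (h : Fo γ p A) (hs : A ⊆ A') : Fo γ p A' :=
  Nul.subset h (Set.sdiff_subset_sdiff_right hs)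

theorem Fo.le (h : Fo γ p A) (hp : p ∈ Pset γ) (hq : q ∈ Pset γ) (hqp : Le q p) : Fo γ q A :=
  (hyp γ).mono hp hq hqp h

theorem Fo.level (h : Fo ξ p A) (hξ : ξ ≤ γ) : Fo γ p A := Nul_mono hξ h

theorem Fo.inter (h : Fo γ p A) (h' : Fo γ p A') : Fo γ p (A ∩ A') := by
  unfold Fo
  rw [Set.sdiff_inter]
  exact Nul.union h h'

theorem Fo.iInter {ι : Type} [Countable ι] {f : ι → Set (Om κ)} (h : ∀ i, Fo γ p (f i)) :
    Fo γ p (⋂ i, f i) := by
  unfold Fo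
  rw [Set.sdiff_iInter]
  exact Nul.iUnion h

theorem Fo.all {ι : Type} [Countable ι] {f : ι → Om κ → Prop} (h : ∀ i, Fo γ p {ω | f i ω}) :
    Fo γ p {ω | ∀ i, f i ω} := by
  rw [Set.ofPred_forall]
  exact Fo.iInter h

theorem Fo.and {P Q : Om κ → Prop} (h : Fo γ p {ω | P ω}) (h' : Fo γ p {ω | Q ω}) :
    Fo γ p {ω | P ω ∧ Q ω} := Fo.inter h h'

theorem fo_of_nul (h : A ∈ Nul γ) : Fo γ p Aᶜ :=
  Nul.subset h fun _ hω => Classical.not_not.1 hω.2

theorem nul_iff_fo : A ∈ Nul γ ↔ Fo γ (triv : Cond κ) Aᶜ := by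
  constructor
  · exact fun h => fo_of_nul h
  · intro h
    refine Nul.subset h fun ω hω => ⟨?_, fun h' => h' hω⟩
    rw [body_triv]
    trivial

theorem Fo.nonempty (h : Fo γ p A) (hp : p ∈ Pset γ) : (body p ∩ A).Nonempty := by
  by_contra hc
  refine (hyp γ).ne p hp (Nul.subset h fun ω hω => ⟨hω, fun hA => hc ⟨ω, hω, hA⟩⟩)

theorem not_fo_empty (hp : p ∈ Pset γ) : ¬ Fo γ p (∅ : Set (Om κ)) := by
  intro h
  obtain ⟨ω, _, hω⟩ := h.nonempty hp
  exact hω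

theorem Fo.false (h : Fo γ p A) (h' : Fo γ p Aᶜ) (hp : p ∈ Pset γ) : False := by
  have h1 := h.inter h'
  rw [Set.inter_compl_self] at h1
  exact not_fo_empty hp h1

theorem fo_dec (hA : Meas γ A) (hp : p ∈ Pset γ) :
    ∃ q ∈ Pset γ, Le q p ∧ (Fo γ q A ∨ Fo γ q Aᶜ) := by
  obtain ⟨q, hq, h1, h2⟩ := (hyp γ).dec A hA p hp
  refine ⟨q, hq, h1, h2.imp id fun h => ?_⟩
  unfold Fo
  rw [Set.sdiff_compl]
  exact h

theorem not_fo (hA : Meas γ A) (hp : p ∈ Pset γ) (h : ¬ Fo γ p A) :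
    ∃ q ∈ Pset γ, Le q p ∧ Fo γ q Aᶜ := (hyp γ).not_fo hp hA h

theorem fo_nonnul (hA : Meas γ A) (hp : p ∈ Pset γ) (h : body p ∩ A ∉ Nul γ) :
    ∃ q ∈ Pset γ, Le q p ∧ Fo γ q A := by
  have hA' : Meas γ Aᶜ := MeasurableSet.compl hA
  obtain ⟨q, hq, h1, h2⟩ := not_fo (A := Aᶜ) hA' hp (by
    unfold Fo
    rw [Set.sdiff_compl]
    exact h)
  rw [compl_compl] at h2
  exact ⟨q, hq, h1, h2⟩

theorem fo_of_dense (hp : p ∈ Pset γ)
    (h : ∀ q ∈ Pset γ, Le q p → ∃ r ∈ Pset γ, Le r q ∧ Fo γ r A) : Fo γ p A :=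
  (hyp γ).of_dense hp h

theorem fo_select (hp : p ∈ Pset γ) {ι : Type} [Countable ι] {f : ι → Set (Om κ)}
    (hf : ∀ i, Meas γ (f i)) (h : Fo γ p (⋃ i, f i)) :
    ∃ i, ∃ q ∈ Pset γ, Le q p ∧ Fo γ q (f i) := (hyp γ).iUnion_select hp hf h

/-- deciding the value of a function with countably many values -/
theorem fo_value (hp : p ∈ Pset γ) {Λ : Type} [Countable Λ] {f : Om κ → Λ}
    (hf : ∀ l, Meas γ {ω | f ω = l}) : ∃ l, ∃ q ∈ Pset γ, Le q p ∧ Fo γ q {ω | f ω = l} :=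
  fo_select (f := fun l => {ω | f ω = l}) hp hf
    (fo_of_subset fun ω _ => Set.mem_iUnion.2 ⟨f ω, rfl⟩)

theorem fo_body : Fo γ p (body p) := fo_of_subset subset_rfl

theorem fo_body_of_le (hp : p ∈ Pset γ) (hq : q ∈ Pset γ) (h : Le p q) : Fo γ p (body q) :=
  (hyp γ).r1 hp hq h

theorem inter_nul_of_not_compat (hp : p ∈ Pset γ) (hq : q ∈ Pset γ) (h : ¬ Compat γ p q) :
    body p ∩ body q ∈ Nul γ := (hyp γ).r2 hp hq h

theorem compat_of_fo_body (hp : p ∈ Pset γ) (hq : q ∈ Pset γ) (h : Fo γ p (body q)) :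
    Compat γ p q := by
  by_contra hc
  have h1 := inter_nul_of_not_compat hp hq hc
  refine (hyp γ).ne p hp (Nul.subset (Nul.union h1 h) fun ω hω => ?_)
  by_cases hq' : ω ∈ body q
  · exact Or.inl ⟨hω, hq'⟩
  · exact Or.inr ⟨hω, hq'⟩

theorem fo_predense (hp : p ∈ Pset γ) {C : Set (Cond κ)} (hC : C.Countable)
    (hC1 : C ⊆ Pset γ) (hC2 : ∀ q ∈ Pset γ, Le q p → ∃ c ∈ C, Compat γ q c) :
    Fo γ p (⋃ c ∈ C, body c) := (hyp γ).predense hp hC hC1 hC2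

theorem fo_restr_iff (hξ : ξ ≤ γ) (hp : p ∈ Pset γ) (hA : Meas ξ A) :
    Fo γ p A ↔ Fo ξ (restr p ξ) A := by
  constructor
  · intro h
    by_contra hc
    obtain ⟨q, hq, h1, h2⟩ := not_fo hA restr_mem hc
    have hr : glue ξ q p ∈ Pset γ := glue_mem hξ hp
    have h3 : Fo γ (glue ξ q p) A := h.le hp hr (le_glue hq h1)
    have h4 : Fo γ (glue ξ q p) Aᶜ :=
      Nul.subset (Nul_mono hξ h2) (Set.sdiff_subset_sdiff_left (body_glue_subset hq))
    exact h3.false h4 hr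
  · intro h
    exact Nul.subset (Nul_mono hξ h) (Set.sdiff_subset_sdiff_left body_subset_restr)

/-- a null set measurable at a lower level is null at the lower level -/
theorem nul_lower (hξ : ξ ≤ γ) (hA : Meas ξ A) (h : A ∈ Nul γ) : A ∈ Nul ξ := by
  have hA' : Meas ξ Aᶜ := MeasurableSet.compl hA
  rw [nul_iff_fo] at h ⊢
  have h1 := (fo_restr_iff hξ triv_mem hA').1 h
  rwa [restr_eq triv_mem] at h1

theorem exists_long (hp : p ∈ Pset γ) (hξ : ξ < γ) (n : ℕ) :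
    ∃ q ∈ Pset γ, Le q p ∧ ξ ∈ q.supp ∧ n ≤ (q.st ξ).length :=
  exists_ext (fun ξ _ => hyp ξ) hp hξ n

/-- the order between a condition with top coordinate `ρ` and another one -/
theorem Le.fo_path {ρ : κ} (h : Le p q) (hρ : ρ ∈ q.supp) :
    Fo ρ (FSI.restr p ρ) {ω | Ok (q.st ρ) (q.nm ρ ω) (p.st ρ) (p.nm ρ ω)} :=
  Nul.subset (h.2 ρ hρ).2 fun _ hω => ⟨hω.1, hω.2⟩

end Pool.Agent.FSI
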