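import Pool.Agent.FSI.Ideal
import Pool.Agent.RFN.Delta

set_option autoImplicit false

/-! # Compatibility, the Delta system lemma, countable antichains

PROOFS.
* `lower_of_st_eq`: induction on the finite set: `meet` of the condition `f i` and of a lower bound
  `r` of the others does not work directly, because stems of `r` are stems of some member. Better:
  define the lower bound directly: support = union of the supports, stem at `ξ` = the common stem of
  the members with `ξ` in the support (choose one member), promise = intersection over the members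
  with `ξ` in the support (finite intersection: big and measurable by induction, `Finset.induction`);
  then `le_of_same`. (Or: induction with the additional statement: the support of `r` is the union of
  the supports and for `i` in the set and `ξ ∈ (f i).supp` the stem of `r` at `ξ` is `(f i).st ξ`;
  step: `meet (f i) r`.)
* `delta`: first the classical Delta system lemma for finite sets: for an uncountable `S` and
  `f : ι → Finset κ` there are `R` and an uncountable `S' ⊆ S` with `f i ∩ f j = R` for `i ≠ j` in `S'`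
  (see `Pool/Agent/RFN/Delta.lean` or `Pool/Agent/KUR/Delta.lean` for proofs of it in the pool); then
  the map `i ↦ ((f i).st restricted to R)` has countably many values
  (`R → List E` is countable), so it is constant on an uncountable subset. Note `R ⊆ (f i).supp`
  as soon as `S'` has two elements.
* `ccc`: otherwise apply `delta` to the identity on `A` and `lower_of_st_eq` to two elements.
* `exists_max`: Zorn (`zorn_subset`) for the antichains contained in `D`; countable by `ccc`. -/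

namespace Pool.Agent.FSI

variable {κ : Type} [LinearOrder κ] [WellFoundedLT κ] {γ : κ}

/-- Compatible conditions (in `Pset γ`). -/
def Compat (γ : κ) (p q : Cond κ) : Prop := ∃ r ∈ Pset γ, Le r p ∧ Le r q

theorem Compat.symm {p q : Cond κ} (h : Compat γ p q) : Compat γ q p :=
  let ⟨r, h1, h2, h3⟩ := h
  ⟨r, h1, h3, h2⟩

/-- Finitely many conditions whose stems agree on the common supports have a lower bound. -/
theorem lower_of_st_eq {ι : Type*} (T : Finset ι) (f : ι → Cond κ)
    (hf : ∀ i ∈ T, f i ∈ Pset γ)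
    (h : ∀ i ∈ T, ∀ j ∈ T, ∀ ξ ∈ (f i).supp, ξ ∈ (f j).supp → (f i).st ξ = (f j).st ξ) :
    ∃ r ∈ Pset γ, ∀ i ∈ T, Le r (f i) := by
  classical
  have key : ∃ r ∈ Pset γ, ∀ i ∈ T, (f i).supp ⊆ r.supp ∧ ∀ ξ ∈ (f i).supp,
      r.st ξ = (f i).st ξ ∧ ∀ ω t, r.nm ξ ω t ⊆ (f i).nm ξ ω t := by
    induction T using Finset.induction_on with
    | empty => exact ⟨triv, triv_mem, fun i hi => absurd hi (Finset.notMem_empty i)⟩
    | insert a T _ ih =>
      obtain ⟨r, hr, hr'⟩ := ih (fun i hi => hf i (Finset.mem_insert_of_mem hi))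
        (fun i hi j hj => h i (Finset.mem_insert_of_mem hi) j (Finset.mem_insert_of_mem hj))
      refine ⟨meet (f a) r, meet_mem (hf a (Finset.mem_insert_self a T)) hr, ?_⟩
      intro i hi
      rcases Finset.mem_insert.1 hi with rfl | hi'
      · refine ⟨fun ξ hξ => mem_meet_supp.2 (Or.inl hξ), fun ξ hξ => ⟨?_, ?_⟩⟩
        · change (if ξ ∈ (f i).supp then (f i).st ξ else r.st ξ) = _
          rw [if_pos hξ]
        · intro ω t e he
          exact he.1 hξ
      · obtain ⟨h1, h2⟩ := hr' i hi'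
        refine ⟨fun ξ hξ => mem_meet_supp.2 (Or.inr (h1 hξ)), fun ξ hξ => ⟨?_, ?_⟩⟩
        · change (if ξ ∈ (f a).supp then (f a).st ξ else r.st ξ) = _
          by_cases ha : ξ ∈ (f a).supp
          · rw [if_pos ha]
            exact h a (Finset.mem_insert_self a T) i hi ξ ha hξ
          · rw [if_neg ha]
            exact (h2 ξ hξ).1
        · intro ω t e he
          exact (h2 ξ hξ).2 ω t (he.2 (h1 hξ))
  obtain ⟨r, hr, hr'⟩ := key
  exact ⟨r, hr, fun i hi => le_of_same (hr' i hi).1 (fun ξ hξ => ((hr' i hi).2 ξ hξ).1)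
    (fun ξ hξ => ((hr' i hi).2 ξ hξ).2)⟩

private theorem ccc_two {ι : Type*} {S : Set ι} (hS : ¬ S.Countable) (i : ι) :
    ∃ j ∈ S, j ≠ i := by
  by_contra hcon
  push Not at hcon
  exact hS ((Set.countable_singleton i).mono fun j hj => hcon j hj)

/-- Delta system lemma with equal stems on the root. -/
theorem delta {ι : Type*} {S : Set ι} (hS : ¬ S.Countable) (f : ι → Cond κ) :
    ∃ S' ⊆ S, ¬ S'.Countable ∧ ∃ R : Finset κ, (∀ i ∈ S', R ⊆ (f i).supp) ∧
      (∀ i ∈ S', ∀ j ∈ S', i ≠ j → (f i).supp ∩ (f j).supp = R) ∧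
      ∀ i ∈ S', ∀ j ∈ S', ∀ ξ ∈ R, (f i).st ξ = (f j).st ξ := by
  obtain ⟨S1, h1, h2, R, hR⟩ := RFN.delta S hS (fun i => (f i).supp)
  obtain ⟨c, hc⟩ := RFN.pigeon S1 h2 (fun i => fun ξ : R => (f i).st ξ)
  refine ⟨{s ∈ S1 | (fun ξ : R => (f s).st ξ) = c}, (Set.sep_subset _ _).trans h1, hc, R, ?_, ?_, ?_⟩
  · intro i hi
    obtain ⟨j, hj, hji⟩ := ccc_two hc i
    rw [← hR i hi.1 j hj.1 hji.symm]
    exact Finset.inter_subset_left
  · intro i hi j hj hij
    exact hR i hi.1 j hj.1 hij
  · intro i hi j hj ξ hξ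
    have e1 := congrFun hi.2 ⟨ξ, hξ⟩
    have e2 := congrFun hj.2 ⟨ξ, hξ⟩
    exact e1.trans e2.symm

/-- Uncountable families have uncountable centered subfamilies. -/
theorem centered {ι : Type*} {S : Set ι} (hS : ¬ S.Countable) (f : ι → Cond κ)
    (hf : ∀ i ∈ S, f i ∈ Pset γ) :
    ∃ S' ⊆ S, ¬ S'.Countable ∧ ∀ T : Finset ι, (∀ i ∈ T, i ∈ S') →
      ∃ r ∈ Pset γ, ∀ i ∈ T, Le r (f i) := by
  obtain ⟨S', h1, h2, R, _, hR2, hR3⟩ := delta hS f
  refine ⟨S', h1, h2, fun T hT => lower_of_st_eq T f (fun i hi => hf i (h1 (hT i hi))) ?_⟩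
  intro i hi j hj ξ hξ hξ'
  by_cases hij : i = j
  · rw [hij]
  · refine hR3 i (hT i hi) j (hT j hj) ξ ?_
    rw [← hR2 i (hT i hi) j (hT j hj) hij]
    exact Finset.mem_inter.2 ⟨hξ, hξ'⟩

theorem ccc {A : Set (Cond κ)} (hA : A ⊆ Pset γ) (h : ∀ a ∈ A, ∀ b ∈ A, Compat γ a b → a = b) :
    A.Countable := by
  classical
  by_contra hcon
  obtain ⟨S', h1, h2, h3⟩ := centered (γ := γ) hcon (fun p => p) (fun i hi => hA hi)
  have hne : S'.Nonempty := by
    rw [Set.nonempty_iff_ne_empty]
    rintro rfl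
    exact h2 Set.countable_empty
  obtain ⟨a, ha⟩ := hne
  obtain ⟨b, hb, hba⟩ := ccc_two h2 a
  obtain ⟨r, hr, hr'⟩ := h3 {a, b} (by
    intro i hi
    rcases Finset.mem_insert.1 hi with rfl | hi
    · exact ha
    · rw [Finset.mem_singleton.1 hi]; exact hb)
  exact hba (h a (h1 ha) b (h1 hb) ⟨r, hr, hr' a (Finset.mem_insert_self _ _),
    hr' b (Finset.mem_insert_of_mem (Finset.mem_singleton_self _))⟩).symm

/-- Maximal antichains. -/
theorem exists_max {D : Set (Cond κ)} (hD : D ⊆ Pset γ) :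
    ∃ A ⊆ D, A.Countable ∧ (∀ a ∈ A, ∀ b ∈ A, Compat γ a b → a = b) ∧
      ∀ d ∈ D, ∃ a ∈ A, Compat γ d a := by
  obtain ⟨A, hA⟩ := zorn_subset {A : Set (Cond κ) | A ⊆ D ∧ ∀ a ∈ A, ∀ b ∈ A, Compat γ a b → a = b}
    (by
      intro c hc hch
      refine ⟨⋃₀ c, ⟨Set.sUnion_subset fun s hs => (hc hs).1, ?_⟩,
        fun s hs => Set.subset_sUnion_of_mem hs⟩
      rintro a ⟨s, hs, has⟩ b ⟨t, ht, hbt⟩ hab
      rcases hch.total hs ht with h1 | h1
      · exact (hc ht).2 a (h1 has) b hbt hab
      · exact (hc hs).2 a has b (h1 hbt) hab)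
  have hA1 := hA.prop
  refine ⟨A, hA1.1, ccc (hA1.1.trans hD) hA1.2, hA1.2, ?_⟩
  intro d hd
  by_contra hcon
  push Not at hcon
  have h1 : insert d A ∈ {A : Set (Cond κ) | A ⊆ D ∧
      ∀ a ∈ A, ∀ b ∈ A, Compat γ a b → a = b} := by
    refine ⟨Set.insert_subset hd hA1.1, ?_⟩
    rintro a (rfl | ha) b (rfl | hb) hab
    · rfl
    · exact absurd hab (hcon b hb)
    · exact absurd hab.symm (hcon a ha)
    · exact hA1.2 a ha b hb hab
  have h2 : insert d A ⊆ A := hA.2 h1 (Set.subset_insert d A)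
  exact hcon d (h2 (Set.mem_insert d A)) ⟨d, hD hd, Le.refl d, Le.refl d⟩

end Pool.Agent.FSI
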