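import Mathlib

set_option autoImplicit false

/-! # Chebyshev inequality for random subsets

PROOF. Let `N = F.card`. For `z ∈ F`, `W : Finset T` put `ε z W = 1` if `c z ∈ W`, else `-1` (in `ℤ`).
`∑ z ∈ F, ε z W = 2 * X_W - N` with `X_W` the number of the `z ∈ F` with `c z ∈ W`. The sum over `W` of
the square is `∑ z z', ∑ W, ε z W * ε z' W = N * 2 ^ |T|`: for `z = z'` each term is `1`; for `z ≠ z'`
we have `c z ≠ c z'` and the involution `W ↦ W ∆ {c z}` (`Finset.sum_involution`) changes the sign.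
If `W` is in the filtered set then `N < 4 * |2 * X_W - N|`, so `N ^ 2 ≤ 16 * (2 * X_W - N) ^ 2`.
Hence `card * N ^ 2 ≤ 16 * N * 2 ^ |T|`, divide by `N` (trivial if `N = 0`). -/

namespace Pool.Agent.FSI

open Classical in
theorem cheb_offdiag {T : Type*} [Fintype T] (a b : T) (hab : a ≠ b) :
    ∑ W : Finset T, (if a ∈ W then (1 : ℤ) else -1) * (if b ∈ W then (1 : ℤ) else -1) = 0 := by
  refine Finset.sum_involution (fun W _ => symmDiff W {a}) ?_ ?_ ?_ ?_
  · intro W _
    have h1 : (a ∈ symmDiff W {a}) ↔ a ∉ W := by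
      simp [Finset.mem_symmDiff]
    have h2 : (b ∈ symmDiff W {a}) ↔ b ∈ W := by
      simp [Finset.mem_symmDiff, hab.symm]
    by_cases ha : a ∈ W <;> by_cases hb : b ∈ W <;> simp [h1, h2, ha, hb]
  · intro W _ _ h
    have h1 : (a ∈ symmDiff W {a}) ↔ a ∉ W := by
      simp [Finset.mem_symmDiff]
    rw [h] at h1
    tauto
  · intro W _
    exact Finset.mem_univ _
  · intro W _
    simp

open Classical in
theorem cheb_sq {ι T : Type*} [Fintype T] (F : Finset ι) (c : ι → T) (hc : Set.InjOn c F) :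
    ∑ W : Finset T, (∑ z ∈ F, (if c z ∈ W then (1 : ℤ) else -1)) ^ 2 =
      F.card * 2 ^ Fintype.card T := by
  have h1 : ∀ W : Finset T, (∑ z ∈ F, (if c z ∈ W then (1 : ℤ) else -1)) ^ 2 =
      ∑ z ∈ F, ∑ z' ∈ F, (if c z ∈ W then (1 : ℤ) else -1) * (if c z' ∈ W then (1 : ℤ) else -1) := by
    intro W
    rw [sq, Finset.sum_mul_sum]
  rw [Finset.sum_congr rfl (fun W _ => h1 W), Finset.sum_comm]
  have h2 : ∀ z ∈ F, ∑ W : Finset T, ∑ z' ∈ F,
      (if c z ∈ W then (1 : ℤ) else -1) * (if c z' ∈ W then (1 : ℤ) else -1) =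
      2 ^ Fintype.card T := by
    intro z hz
    rw [Finset.sum_comm]
    rw [Finset.sum_eq_single_of_mem z hz]
    · have : ∀ W : Finset T, (if c z ∈ W then (1 : ℤ) else -1) * (if c z ∈ W then (1 : ℤ) else -1) = 1 := by
        intro W
        by_cases h : c z ∈ W <;> simp [h]
      rw [Finset.sum_congr rfl (fun W _ => this W)]
      simp
    · intro z' hz' hne
      apply cheb_offdiag
      intro h
      exact hne (hc hz' hz h.symm)
  rw [Finset.sum_congr rfl h2]
  simp

open Classical in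
theorem cheb {ι T : Type*} [Fintype T] (F : Finset ι) (c : ι → T) (hc : Set.InjOn c F) :
    (Finset.univ.filter fun W : Finset T =>
      (F.card : ℤ) < 4 * |2 * ((F.filter fun z => c z ∈ W).card : ℤ) - F.card|).card * F.card ≤
    16 * 2 ^ Fintype.card T := by
  have hX : ∀ W : Finset T, (∑ z ∈ F, (if c z ∈ W then (1 : ℤ) else -1)) =
      2 * ((F.filter fun z => c z ∈ W).card : ℤ) - F.card := by
    intro W
    rw [Finset.sum_ite]
    simp only [Finset.sum_const, nsmul_eq_mul, mul_one, mul_neg]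
    have h := Finset.card_filter_add_card_filter_not (s := F) (fun z => c z ∈ W)
    have h' : ((F.filter fun z => c z ∈ W).card : ℤ) + ((F.filter fun z => ¬ c z ∈ W).card : ℤ) =
        F.card := by exact_mod_cast h
    linarith
  set G := (Finset.univ.filter fun W : Finset T =>
      (F.card : ℤ) < 4 * |2 * ((F.filter fun z => c z ∈ W).card : ℤ) - F.card|) with hG
  rcases Nat.eq_zero_or_pos F.card with h0 | hpos
  · rw [h0]; simp
  have hsum := cheb_sq F c hc
  have hle : (G.card : ℤ) * (F.card : ℤ) ^ 2 ≤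
      16 * ∑ W : Finset T, (∑ z ∈ F, (if c z ∈ W then (1 : ℤ) else -1)) ^ 2 := by
    have e1 : (G.card : ℤ) * (F.card : ℤ) ^ 2 = ∑ W ∈ G, (F.card : ℤ) ^ 2 := by simp
    rw [e1, Finset.mul_sum]
    calc ∑ W ∈ G, (F.card : ℤ) ^ 2
        ≤ ∑ W ∈ G, 16 * (∑ z ∈ F, (if c z ∈ W then (1 : ℤ) else -1)) ^ 2 := by
          apply Finset.sum_le_sum
          intro W hW
          rw [hG, Finset.mem_filter] at hW
          rw [hX W]
          have h := hW.2
          have hF : (0 : ℤ) ≤ F.card := by positivity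
          have h3 : (F.card : ℤ) ^ 2 ≤ (4 * |2 * ((F.filter fun z => c z ∈ W).card : ℤ) - F.card|) ^ 2 := by
            exact pow_le_pow_left₀ hF h.le 2
          rw [mul_pow, sq_abs] at h3
          linarith
      _ ≤ ∑ W : Finset T, 16 * (∑ z ∈ F, (if c z ∈ W then (1 : ℤ) else -1)) ^ 2 := by
          apply Finset.sum_le_sum_of_subset_of_nonneg (Finset.subset_univ _)
          intro W _ _
          positivity
  rw [hsum] at hle
  have hle' : (G.card * F.card) * F.card ≤ (16 * 2 ^ Fintype.card T) * F.card := by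
    have : (G.card : ℤ) * (F.card : ℤ) * (F.card : ℤ) ≤ (16 * 2 ^ Fintype.card T) * (F.card : ℤ) := by
      nlinarith [hle]
    exact_mod_cast this
  exact Nat.le_of_mul_le_mul_right hle' hpos

end Pool.Agent.FSI
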