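import Pool.Agent.FSI.Avk

set_option autoImplicit false

/-! # Positively many good successors

PROOF of `claim1`. Suppose that the (measurable) set `X` in the statement is not null. `fo_nonnul`
with `triv` gives `q ∈ Pset ρ` with `Fo ρ q X`. `Pos (DD ω)` is `∃ m, ∀ K, ∃ k ≥ K, ..`, so by
`fo_select` there are `m` and `q1 ≤ q` with `Fo ρ q1 {ω | ∀ K, ∃ k, K ≤ k ∧ 2 ^ (2 ^ k) < m * cnt k ..}`,
hence `Fo ρ q1 {ω | ∃ l, CL j n t m l ω}` (`exists_CL`), and by `fo_select` again (`CL_meas`) there are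
`l` and `q' ≤ q1` with `Fo ρ q' {ω | CL j n t m l ω}`. Then `l ∈ Lam j t` (`Fo.nonempty`). If `q'` is in
`GoodC t l (bd n)` then `Fo ρ q' (GG t l (bd n))` (`fo_GG`), so `Fo ρ q' (Gd j n t)`, contradicting
`Fo ρ q' X`. Otherwise apply `exists_family` with the countable set `C` of `exists_ctb`, and `Core`.
The hypothesis `Core` for `p' z`: `CL` by `Fo.le` from `q'`; the last one from
`exists_ctb` by `Fo.le` (`Le (p' z) (restr (p z) ρ)`). -/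

namespace Pool.Agent.FSI

variable {κ : Type} [LinearOrder κ] [WellFoundedLT κ] {Z : Type*} (Y : Sys κ Z)

namespace Sys

/-- The main property to be shown for the two kinds of steps. -/
def Core : Prop := ∀ (j n : ℕ) (t : List E) (m : ℕ) (l : ℕ →₀ ℚ) (S1 : Set Z) (p' : Z → Cond κ),
  S1 ⊆ Y.S → ¬ S1.Countable → (∀ z ∈ S1, p' z ∈ Pset Y.ρ) →
  (∀ z ∈ S1, Le (p' z) (restr (Y.p z) Y.ρ)) →
  (∀ z ∈ S1, Fo Y.ρ (p' z) {ω | Y.CL j n t m l ω}) →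
  (∀ z ∈ S1, Fo Y.ρ (p' z) (Y.Pa t z ∩ Y.Hi t l (Y.bd n) z)) →
  (∀ z ∈ S1, Fo Y.ρ (p' z) {ω | ∀ t l r, ω ∈ Y.GG t l r → ω ∈ Y.Pa t z → V (Y.b t z ω) l ≤ r}) →
  False

theorem claim1 (h : Y.Core) (j n : ℕ) (t : List E) :
    {ω | Pos (Y.DD j n t ω) ∧ ω ∉ Y.Gd j n t} ∈ Nul Y.ρ := by
  by_contra hX
  set X : Set (Om κ) := {ω | Pos (Y.DD j n t ω) ∧ ω ∉ Y.Gd j n t} with hXdef
  have hcnt : ∀ m k : ℕ, Meas Y.ρ {ω : Om κ | 2 ^ (2 ^ k) < m * cnt k (Y.DD j n t ω)} := by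
    intro m k
    have h1 : {ω : Om κ | 2 ^ (2 ^ k) < m * cnt k (Y.DD j n t ω)} =
        {ω : Om κ | ∃ c : ℕ, cnt k (Y.DD j n t ω) = c ∧ 2 ^ (2 ^ k) < m * c} := by
      ext ω
      exact ⟨fun h => ⟨_, rfl, h⟩, fun ⟨c, hc, h⟩ => by rw [← hc] at h; exact h⟩
    rw [h1]
    exact Meas.ex fun c => Meas.and (meas_cnt (fun e => Y.DD_meas e) k c) (meas_const _)
  have hAm : ∀ m : ℕ, Meas Y.ρ
      {ω : Om κ | ∀ K : ℕ, ∃ k, K ≤ k ∧ 2 ^ (2 ^ k) < m * cnt k (Y.DD j n t ω)} :=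
    fun m => Meas.all fun K => Meas.ex fun k => Meas.and (meas_const _) (hcnt m k)
  have hXm : Meas Y.ρ X := by
    have h1 : Meas Y.ρ {ω : Om κ | ω ∉ Y.Gd j n t} := Meas.compl Y.Gd_meas
    exact Meas.and (Meas.ex fun m => hAm m) h1
  obtain ⟨q, hq, -, hqX⟩ := fo_nonnul hXm (triv_mem (γ := Y.ρ)) (by
    rw [body_triv, Set.univ_inter]
    exact hX)
  obtain ⟨m, q1, hq1, hle1, hfo1⟩ := fo_select hq hAm (hqX.mono (by
    intro ω hω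
    obtain ⟨m, hm⟩ := hω.1
    exact Set.mem_iUnion.2 ⟨m, hm⟩))
  obtain ⟨l, q', hq', hle', hfo'⟩ := fo_select (f := fun l : ℕ →₀ ℚ => {ω | Y.CL j n t m l ω}) hq1
    (fun l => Y.CL_meas) (hfo1.mono (by
      intro ω hω
      obtain ⟨l, hl⟩ := Y.exists_CL hω
      exact Set.mem_iUnion.2 ⟨l, hl⟩))
  have hX1 : Fo Y.ρ q1 X := hqX.le hq hq1 hle1
  have hX' : Fo Y.ρ q' X := hX1.le hq1 hq' hle'
  have hlam : l ∈ Y.Lam j t := by
    obtain ⟨ω, -, hω⟩ := hfo'.nonempty hq'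
    exact hω.1
  by_cases hgood : q' ∈ Y.GoodC t l (Y.bd n)
  · have h1 := Y.fo_GG hgood
    have h2 : Fo Y.ρ q' (Y.Gd j n t) := h1.mono fun ω hω => ⟨l, hlam, hω⟩
    have h3 : Fo Y.ρ q' (Y.Gd j n t)ᶜ := hX'.mono fun ω hω => hω.2
    exact h2.false h3 hq'
  · obtain ⟨C, hC, hC2⟩ := Y.exists_ctb
    obtain ⟨S1, hS1, hS1c, p', hp1, hp2, hp3, hp4⟩ := Y.exists_family hq' hgood hC
    refine h j n t m l S1 p' (fun z hz => (hS1 hz).1) hS1c hp1 hp3 ?_ hp4 ?_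
    · intro z hz
      exact hfo'.le hq' (hp1 z hz) (hp2 z hz)
    · intro z hz
      exact (hC2 z (hS1 hz).1 (hS1 hz).2).le restr_mem (hp1 z hz) (hp3 z hz)

end Sys

end Pool.Agent.FSI
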