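import Pool.Agent.FSI.Cl1

set_option autoImplicit false

/-! # The stem `s` is good

`Res Y ρ' b`: `b z` is a name of a set at the level `ρ'`, the successor of `ρ`; for `i ∈ dec t` and
generic points through `t`, `i ∈ b z` is decided to be `i ∈ Y.b t z`; every `i` is finally either
decided or forced to be in `b z`.

PROOF of `claim2`. Write `GA t = ⋂ n, Gd j n t` (measurable). Suppose `(Gd j n s)ᶜ` is not null. Then
`(GA s)ᶜ` is not null and by `fo_nonnul` with `triv` there is `q ∈ Pset ρ` with `Fo ρ q (GA s)ᶜ`.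
Define the promise `φ ω t = {e | ω ∉ GA (t ++ [e]) ∨ ¬ Big {e' | ω ∉ GA (t ++ [e'])}}`. It is big for all
`ω`, `t`, and measurable (`meas_big`). Let `r0 = upd q ρ s φ ∈ Pset ρ'`. By `fo_value` there are
`l` and `r1 ≤ r0` in `Pset ρ'` with `Fo ρ' r1 {ω | f ω = l}`; by `exists_long` (at `ρ`) there is
`r ≤ r1` with `ρ ∈ r.supp` such that `t = r.st ρ` is longer than all `L i`, `i ∈ l.support`
(`L i` from `Res.res`). `l` is a probability with support in `[j, ∞)` (`Fo.nonempty`), and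
`l' = res (dec t) l ∈ Lam j t`.
(A) `Fo ρ (restr r ρ) (GA t)ᶜ`: `Le.fo_path` for `Le r r0` (transitivity `Le.trans` in `Pset ρ'`) gives
`Fo ρ (restr r ρ) {ω | Path (φ ω) s t}` (`Ok` contains `Path`; `r0.st ρ = s`, `r0.nm ρ = φ`);
`Le (restr r ρ) (restr r0 ρ)` (`Le.restr`) and `body (restr r0 ρ) = body (restr q ρ)`
(`body_restr_upd`), `restr q ρ = q`, so `Fo ρ (restr r ρ) (GA s)ᶜ`. For generic `ω` (the null sets of
`h1` for all `n`, `t`): if `ω ∉ GA s` and `Path (φ ω) s t` then `ω ∉ GA t` by `Path.ind`: let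
`ω ∉ GA v` and `e ∈ φ ω v`. There is `n` with `ω ∉ Gd j n v`, so `¬ Pos (DD j n v ω)`, so
`Big (DD j n v ω)ᶜ` (`not_pos_iff`), and `(DD j n v ω)ᶜ ⊆ {e' | ω ∉ GA (v ++ [e'])}` (since
`DD j n v ω = {e' | ω ∈ Gd j (n + 1) (v ++ [e'])}`), so the latter is big and `ω ∉ GA (v ++ [e])`.
(B) For all `n` (indeed all bounds `≥ ε`) `restr r ρ ∈ GoodC t l' (bd n)`, with no exceptions. Let
`z ∈ S` and suppose that the set in the definition is not null. As in `exists_family` (`fo_nonnul`,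
`compat_of_fo_body`) there is `e ∈ Pset ρ`, `Le e (restr r ρ)`, `Le e (restr (p z) ρ)`,
`Fo ρ e (Pa t z ∩ Hi t l' (bd n) z)`. Put `u = glue ρ e (meet r (p z))`. `Le u r` by `amalg_left`,
`Le u (p z)` by `amalg_right` (no element of `(p z).supp` is `> ρ`; `(p z).st ρ = s` is a prefix of
`t` because `Le r r0`; the null set is that of `Fo ρ e (Pa t z)`), `u ∈ Pset ρ'`, `Le u e`. Take
`ω ∈ body u` (`Fo.nonempty`) with `f ω = l`, `mass (b z ω) (f ω) ≤ ε`, `bd n < V (Y.b t z ω) l'`. As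
`ω ∈ body u` and `u.st ρ = t` we have `ini (ω ρ) t.length = t`. So
`V (Y.b t z ω) l' = V (b z ω) l' ≤ V (b z ω) l = mass (b z ω) l ≤ ε ≤ bd n` by `V_congr` (`Res.dec`),
`V_res_le` (`Res.res`), `IsProb.V_eq`; contradiction.
By (B), `fo_GG` and `l' ∈ Lam j t`: `Fo ρ (restr r ρ) (Gd j n t)` for all `n`, i.e. `(GA t)`, contradicting
(A) (`Fo.false`).

PROOF of `claim3`: at a generic point of `body (restr (p z) ρ)` we have `ω ∈ Gd j n s`, so `sel_spec`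
applies, and `ω ∈ Pa s z` by `Path.refl`. -/

namespace Pool.Agent.FSI

variable {κ : Type} [LinearOrder κ] [WellFoundedLT κ] {Z : Type*} (Y : Sys κ Z)

namespace Sys

/-- The relation of the names `b` at the successor and the decided sets. -/
structure Res (ρ' : κ) (b : Z → Om κ → Set ℕ) : Prop where
  suc : Suc Y.ρ ρ'
  mem : ∀ z ∈ Y.S, Y.p z ∈ Pset ρ'
  dec : ∀ (t : List E) (z : Z) (ω : Om κ) (i : ℕ), ini (ω Y.ρ) t.length = t → i ∈ Y.dec t →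
    (i ∈ b z ω ↔ i ∈ Y.b t z ω)
  res : ∀ i : ℕ, ∃ L : ℕ, ∀ t : List E, L ≤ t.length → i ∉ Y.dec t → ∀ (z : Z) (ω : Om κ),
    ini (ω Y.ρ) t.length = t → i ∈ b z ω

theorem claim2 {ρ' : κ} {b : Z → Om κ → Set ℕ} (hR : Y.Res ρ' b) (j : ℕ)
    (h1 : ∀ (n : ℕ) (t : List E), {ω | Pos (Y.DD j n t ω) ∧ ω ∉ Y.Gd j n t} ∈ Nul Y.ρ)
    {f : Om κ → ℕ →₀ ℚ} (hf : MeasF ρ' f) (hp : ∀ ω, IsProb (f ω))
    (hs : ∀ ω, ∀ i ∈ (f ω).support, j ≤ i)
    (hfo : ∀ z ∈ Y.S, Fo ρ' (Y.p z) {ω | mass (b z ω) (f ω) ≤ Y.ε}) (n : ℕ) :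
    (Y.Gd j n Y.s)ᶜ ∈ Nul Y.ρ := by
  by_contra hnot
  have hlt : Y.ρ < ρ' := hR.suc.lt
  let GA : List E → Set (Om κ) := fun t => {ω | ∀ n, ω ∈ Y.Gd j n t}
  have hGA : ∀ t, Meas Y.ρ (GA t) := fun t => Meas.all fun n => Y.Gd_meas
  obtain ⟨q, hq, -, hqfo⟩ := fo_nonnul (γ := Y.ρ) (p := triv) (A := (GA Y.s)ᶜ)
    (Meas.compl (hGA Y.s)) triv_mem (by
      intro h
      apply hnot
      refine Nul.subset h fun ω hω => ⟨?_, fun h' => hω (h' n)⟩
      rw [body_triv]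
      trivial)
  let φ : Om κ → List E → Set E := fun ω t =>
    {e | ω ∉ GA (t ++ [e]) ∨ ¬ Big {e' | ω ∉ GA (t ++ [e'])}}
  have hm : ∀ t e, Meas Y.ρ {ω | e ∈ φ ω t} := fun t e =>
    Meas.or (Meas.not (hGA _)) (Meas.not (meas_big fun e' => Meas.not (hGA _)))
  have hb : ∀ ω t, Big (φ ω t) := by
    intro ω t
    by_cases h : Big {e' | ω ∉ GA (t ++ [e'])}
    · exact h.mono fun e he => Or.inl he
    · exact big_univ.mono fun e _ => Or.inr h
  let r0 : Cond κ := upd q Y.ρ Y.s φ hm hb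
  have hr0 : r0 ∈ Pset ρ' := upd_mem hlt (Pset_mono hlt.le hq)
  obtain ⟨l, r1, hr1, hr10, hr1l⟩ := fo_value (γ := ρ') hr0 (f := f) hf
  choose L hL using hR.res
  obtain ⟨r, hr, hrr1, hρr, hlong⟩ := exists_long hr1 hlt (l.support.sup L)
  have hr_r0 : Le r r0 := Le.trans hr hr1 hr0 hrr1 hr10
  have hρ0 : Y.ρ ∈ r0.supp := Finset.mem_insert_self _ _
  have hst0 : r0.st Y.ρ = Y.s := if_pos rfl
  have hnm0 : r0.nm Y.ρ = φ := if_pos rfl
  set t := r.st Y.ρ with ht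
  have hpre : Y.s <+: t := by
    have := (hr_r0.2 Y.ρ hρ0).1
    rwa [hst0] at this
  have hrl : Fo ρ' r {ω | f ω = l} := hr1l.le hr1 hr hrr1
  obtain ⟨ω0, -, hω0⟩ := hrl.nonempty hr
  have hω0' : f ω0 = l := hω0
  have hlp : IsProb l := hω0' ▸ hp ω0
  have hls : ∀ i ∈ l.support, j ≤ i := hω0' ▸ hs ω0
  have hres : ∀ i ∈ l.support, i ∉ Y.dec t → ∀ (z : Z) (ω : Om κ),
      ini (ω Y.ρ) t.length = t → i ∈ b z ω := by
    intro i hi hid
    exact hL i t ((Finset.le_sup (f := L) hi).trans hlong) hid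
  have hlam : res (Y.dec t) l ∈ Y.Lam j t := by
    refine ⟨hlp.isSub.res, fun i hi => ?_⟩
    rw [mem_res_support] at hi
    exact ⟨hls i hi.1, hi.2⟩
  -- (A)
  have hA : Fo Y.ρ (restr r Y.ρ) (GA t)ᶜ := by
    have f1 : Fo Y.ρ (restr r Y.ρ) {ω | Path (φ ω) Y.s t} := by
      refine (Le.fo_path hr_r0 hρ0).mono ?_
      intro ω hω
      have h2 := hω.1
      rw [hst0, hnm0] at h2
      exact h2
    have f2 : Fo Y.ρ (restr r Y.ρ) (GA Y.s)ᶜ := by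
      have h2 : Fo Y.ρ (restr r0 Y.ρ) (GA Y.s)ᶜ := by
        unfold Fo
        rw [body_restr_upd le_rfl, restr_eq hq]
        exact hqfo
      exact h2.le restr_mem restr_mem (Le.restr hr_r0)
    have f3 : Fo Y.ρ (restr r Y.ρ)
        {ω | ∀ (n : ℕ) (t : List E), ¬ (Pos (Y.DD j n t ω) ∧ ω ∉ Y.Gd j n t)} :=
      Fo.all fun n => Fo.all fun t => fo_of_nul (h1 n t)
    refine ((f1.inter f2).inter f3).mono ?_
    rintro ω ⟨⟨g1, g2⟩, g3⟩
    have g1' : Path (φ ω) Y.s t := g1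
    refine g1'.ind (fun v => ω ∉ GA v) g2 ?_
    intro v e _ hv he
    have hv' : ¬ ∀ n, ω ∈ Y.Gd j n v := hv
    push Not at hv'
    obtain ⟨n', hn'⟩ := hv'
    have h2 : ¬ Pos (Y.DD j n' v ω) := fun h => g3 n' v ⟨h, hn'⟩
    rw [not_pos_iff] at h2
    have h3 : Big {e' | ω ∉ GA (v ++ [e'])} :=
      h2.mono fun e' he' hall => he' (hall (n' + 1))
    rcases he with h4 | h4
    · exact h4
    · exact absurd h3 h4
  -- (B)
  have hB : ∀ n', restr r Y.ρ ∈ Y.GoodC t (res (Y.dec t) l) (Y.bd n') := by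
    intro n'
    refine ⟨restr_mem, ∅, Set.countable_empty, fun z hz _ => ?_⟩
    by_contra hnn
    rw [Set.inter_assoc] at hnn
    have hmA : Meas Y.ρ (body (restr (Y.p z) Y.ρ) ∩
        (Y.Pa t z ∩ Y.Hi t (res (Y.dec t) l) (Y.bd n') z)) :=
      Meas.inter (meas_body restr_mem) (Meas.inter (Y.Pa_meas hz) Y.Hi_meas)
    obtain ⟨q1, hq1, hq1r, hq1fo⟩ := fo_nonnul hmA restr_mem hnn
    obtain ⟨e, he, heq1, hepz⟩ := compat_of_fo_body hq1 (restr_mem (p := Y.p z))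
      (hq1fo.mono Set.inter_subset_left)
    have hefo := (hq1fo.le hq1 he heq1).mono (A' := Y.Pa t z ∩
      Y.Hi t (res (Y.dec t) l) (Y.bd n') z) Set.inter_subset_right
    have her : Le e (restr r Y.ρ) := Le.trans he hq1 restr_mem heq1 hq1r
    have hpz := hR.mem z hz
    have hu : glue Y.ρ e (meet r (Y.p z)) ∈ Pset ρ' := glue_mem hlt.le (meet_mem hr hpz)
    have hur : Le (glue Y.ρ e (meet r (Y.p z))) r := amalg_left he her
    have hup : Le (glue Y.ρ e (meet r (Y.p z))) (Y.p z) := by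
      refine amalg_right he hepz ?_ ?_
      · intro ξ hξ hξ' _
        exact absurd ((hR.suc ξ).1 (hpz ξ hξ)) (not_le.2 hξ')
      · intro _ _
        refine ⟨by rw [Y.hs z hz]; exact hpre, ?_⟩
        refine Nul.subset hefo ?_
        rintro ω ⟨h2, h3⟩
        refine ⟨h2, fun h4 => h3 ?_⟩
        rw [Y.hs z hz]
        exact h4.1
    have u1 : Fo ρ' (glue Y.ρ e (meet r (Y.p z))) {ω | f ω = l} := hrl.le hr hu hur
    have u2 := (hfo z hz).le hpz hu hup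
    have u3 : Fo ρ' (glue Y.ρ e (meet r (Y.p z)))
        (Y.Pa t z ∩ Y.Hi t (res (Y.dec t) l) (Y.bd n') z) :=
      (hefo.level hlt.le).le (Pset_mono hlt.le he) hu (glue_le he)
    obtain ⟨ω, hωu, ⟨g1, g2⟩, g3⟩ := ((u1.inter u2).inter u3).nonempty hu
    have g1' : f ω = l := g1
    have g2' : mass (b z ω) (f ω) ≤ Y.ε := g2
    rw [g1'] at g2'
    have hρu : Y.ρ ∈ (glue Y.ρ e (meet r (Y.p z))).supp :=
      mem_glue_supp.2 (Or.inr ⟨lt_irrefl _, mem_meet_supp.2 (Or.inl hρr)⟩)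
    have hbr := (hωu Y.ρ hρu).1
    have hstu : (glue Y.ρ e (meet r (Y.p z))).st Y.ρ = t :=
      (if_neg (lt_irrefl _)).trans (if_pos hρr)
    rw [hstu] at hbr
    have g4 : Y.bd n' < V (Y.b t z ω) (res (Y.dec t) l) := g3.2
    have g5 : V (Y.b t z ω) (res (Y.dec t) l) = V (b z ω) (res (Y.dec t) l) := by
      apply V_congr
      intro i hi
      rw [mem_res_support] at hi
      exact (hR.dec t z ω i hbr hi.2).symm
    have g6 : V (b z ω) (res (Y.dec t) l) ≤ V (b z ω) l :=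
      V_res_le hlp.1 fun i hi hid => hres i hi hid z ω hbr
    have g7 : V (b z ω) l = mass (b z ω) l := hlp.V_eq
    have g8 : Y.ε ≤ Y.bd n' := by
      unfold bd
      have : (0 : ℚ) ≤ 1 / ((n' : ℚ) + 1) := by positivity
      linarith
    linarith
  have hfin : Fo Y.ρ (restr r Y.ρ) (GA t) := by
    refine Fo.all fun n' => (Y.fo_GG (hB n')).mono ?_
    intro ω hω
    exact ⟨_, hlam, hω⟩
  exact hfin.false hA restr_mem

/-- The consequence for the conditions `p z`. -/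
theorem claim3 (j n : ℕ) (h : (Y.Gd j n Y.s)ᶜ ∈ Nul Y.ρ) {C : Set Z}
    (hC : ∀ z ∈ Y.S, z ∉ C → Fo Y.ρ (restr (Y.p z) Y.ρ) {ω | ∀ t l r, ω ∈ Y.GG t l r →
      ω ∈ Y.Pa t z → V (Y.b t z ω) l ≤ r}) {z : Z} (hz : z ∈ Y.S) (hzC : z ∉ C) :
    Fo Y.ρ (restr (Y.p z) Y.ρ) {ω | (sel fun l => l ∈ Y.Lam j Y.s ∧ ω ∈ Y.GG Y.s l (Y.bd n)) ∈
      Y.Lam j Y.s ∧ V (Y.b Y.s z ω) (sel fun l => l ∈ Y.Lam j Y.s ∧ ω ∈ Y.GG Y.s l (Y.bd n)) ≤
        Y.bd n} := by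
  have h1 : Fo Y.ρ (restr (Y.p z) Y.ρ) (Y.Gd j n Y.s) := by
    have h2 := fo_of_nul (p := restr (Y.p z) Y.ρ) h
    rwa [compl_compl] at h2
  refine (h1.inter (hC z hz hzC)).mono ?_
  rintro ω ⟨h2, h3⟩
  have h4 := sel_spec (P := fun l => l ∈ Y.Lam j Y.s ∧ ω ∈ Y.GG Y.s l (Y.bd n)) (by
    obtain ⟨l, h5, h6⟩ := h2
    exact ⟨l, h5, h6⟩)
  exact ⟨h4.1, h3 _ _ _ h4.2 Path.refl⟩

end Sys

end Pool.Agent.FSI
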