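import Pool.Agent.FSI.AvgBig
import Pool.Agent.FSI.Cl2

set_option autoImplicit false

/-! # The core for the later steps

`laterSys`: everything is decided.

PROOF of `core_later`. Let `j n t m l S1 p'` be as in `Core`, `r1 = bd (n + 1)`, `g = gap n`, so
`bd n = r1 + 8 * g` (`bd_gap`), `0 < g ≤ 1 / 16`. `ρ = Y.ρ`, `A ω k = avk j n t ω k`.
(1) For `z ∈ S1`: `Fo ρ (p' z) {ω | ∃ k1, ∀ k, k1 ≤ k → 2 ^ (2 ^ k) < m * cnt k (DD ω) →
V (b z ω) (A ω k) ≤ r1 + g}`. At a generic point: `φ = (p z).nm ρ ω t` is big; apply `avg_big` with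
`g e = V (b z ω) (res univ (lamE ω e))`; `V_avg`, `lev_nonempty`; for `e ∈ DD ω`, `e ∈ φ`: `ω ∈ Pa t z`
and `Path.snoc` give `ω ∈ Pa (t ++ [e]) z`, and `lamE_spec` and the last hypothesis give
`V (b z ω) (lamE ω e) ≤ r1`.
(2) `fo_select` (measurability: `MeasF.rel`, `avk_meas`, `measF_V`, `DD_meas`, `meas_cnt`) gives
`k1 z` and `p'' z ≤ p' z` forcing the property for `k1 z`.
(3) There is `k1` such that `S2 = {z ∈ S1 | k1 z = k1}` is not countable (`exists_fiber`).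
(4) Let `M` be a bound of `l.support`. For `N` put `N' = max N (max k1 M)`,
`kN ω = sel (fun k : ℕ => N' ≤ k ∧ 2 ^ (2 ^ k) < m * cnt k (DD ω) ∧
∑ i ∈ Finset.range N', |A ω k i - l i| ≤ gap n)` and `ν N ω = tl N' (A ω (kN ω))`. Measurable
(`MeasF.sel`, `MeasF.bind`, `MeasF.comp`), a probability with support in `[N', ∞) ⊆ [N, ∞)`.
(5) If for all `z ∈ S2` and `N` the condition `p'' z` forces `mass (b z ω) (ν N ω) ≤ 1 / 4 - g`, then
this is a violation (`Le (p'' z) (p0 z)` by transitivity through `p' z`, `restr (p z) ρ`). So there are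
`z ∈ S2`, `N` and (`not_fo`, `meas_mass_le`) `q ≤ p'' z` with
`Fo ρ q {ω | mass (b z ω) (ν N ω) ≤ 1 / 4 - g}ᶜ`. Take a point `ω ∈ body q` with all the forced
properties: `CL` (so the defining property of `kN ω` holds), `Hi`, (2). With `k = kN ω ≥ N' ≥ k1`:
`V (b z ω) (A ω k) ≤ r1 + g`, and `V_le_of_tail` gives
`V (b z ω) l ≤ r1 + g + g + g < bd n < V (b z ω) l`. -/

namespace Pool.Agent.FSI

/-- Pigeonhole principle. -/
theorem exists_fiber {Z : Type*} {Λ : Type} [Countable Λ] {S : Set Z} (hS : ¬ S.Countable)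
    (f : Z → Λ) : ∃ l, ¬ {z | z ∈ S ∧ f z = l}.Countable := by
  by_contra hcon
  push Not at hcon
  apply hS
  have h1 : S = ⋃ l, {z | z ∈ S ∧ f z = l} := by
    ext z
    simp only [Set.mem_iUnion]
    exact ⟨fun h => ⟨f z, h, rfl⟩, fun ⟨_, h⟩ => h.1⟩
  rw [h1]
  exact Set.countable_iUnion hcon

variable {κ : Type} [LinearOrder κ] [WellFoundedLT κ] {Z : Type*}

/-- The system for a later step. -/
def laterSys (ρ : κ) (S : Set Z) (p : Z → Cond κ) (s : List E) (b : Z → Om κ → Set ℕ) (ε : ℚ)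
    (hρ : ∀ z ∈ S, ρ ∈ (p z).supp) (hs : ∀ z ∈ S, (p z).st ρ = s)
    (hb : ∀ z i, Meas ρ {ω | i ∈ b z ω}) (hε : 0 ≤ ε) : Sys κ Z where
  ρ := ρ
  S := S
  p := p
  s := s
  dec := fun _ => Set.univ
  b := fun _ => b
  ε := ε
  hρ := hρ
  hs := hs
  hb := fun _ => hb
  hε := hε

private theorem coreL_gap (n : ℕ) : Sys.gap n ≤ 1 / 16 := by
  have h2 : (16 : ℚ) ≤ 8 * ((n : ℚ) + 1) * ((n : ℚ) + 2) := by
    have h3 : (0 : ℚ) ≤ n := Nat.cast_nonneg n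
    nlinarith
  unfold Sys.gap
  exact one_div_le_one_div_of_le (by norm_num) h2

omit [WellFoundedLT κ] in
private theorem coreL_cnt {γ : κ} {S : Om κ → Set E} (h : ∀ e, Meas γ {ω | e ∈ S ω}) (k : ℕ)
    (P : ℕ → Prop) : Meas γ {ω | P (cnt k (S ω))} := by
  have e : {ω | P (cnt k (S ω))} = {ω | ∃ j, cnt k (S ω) = j ∧ P j} := by
    ext ω
    constructor
    · intro h1
      exact ⟨_, rfl, h1⟩
    · rintro ⟨j, h1, h2⟩
      show P (cnt k (S ω))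
      rw [h1]
      exact h2
  rw [e]
  exact Meas.ex fun j => Meas.and (meas_cnt h k j) (meas_const _)

/-- the averages at the levels where the proportion of good successors is large -/
private theorem coreL_avg {ρ : κ} {S : Set Z} {p : Z → Cond κ} {s : List E}
    {b : Z → Om κ → Set ℕ} {ε : ℚ} (hρ : ∀ z ∈ S, ρ ∈ (p z).supp) (hs : ∀ z ∈ S, (p z).st ρ = s)
    (hb : ∀ z i, Meas ρ {ω | i ∈ b z ω}) (hε : 0 ≤ ε) {j n m : ℕ} {t : List E} {z : Z}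
    (hz : z ∈ S) {ω : Om κ}
    (h1 : ω ∈ (laterSys ρ S p s b ε hρ hs hb hε).Pa t z)
    (h2 : ∀ t l r, ω ∈ (laterSys ρ S p s b ε hρ hs hb hε).GG t l r →
      ω ∈ (laterSys ρ S p s b ε hρ hs hb hε).Pa t z → V (b z ω) l ≤ r) :
    ∃ k1 : ℕ, ∀ k, k1 ≤ k →
      2 ^ (2 ^ k) < m * cnt k ((laterSys ρ S p s b ε hρ hs hb hε).DD j n t ω) →
      V (b z ω) ((laterSys ρ S p s b ε hρ hs hb hε).avk j n t ω k) ≤
        (laterSys ρ S p s b ε hρ hs hb hε).bd (n + 1) + Sys.gap n := by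
  obtain ⟨k1, hk1⟩ := avg_big ((p z).big ρ (hρ z hz) ω t) m (Sys.gap_pos n)
  refine ⟨k1, fun k hk hc => ?_⟩
  have hV := hk1 k hk _ hc
    (fun e => V (b z ω) (res Set.univ ((laterSys ρ S p s b ε hρ hs hb hε).lamE j n t ω e)))
    ((laterSys ρ S p s b ε hρ hs hb hε).bd (n + 1))
    ((laterSys ρ S p s b ε hρ hs hb hε).bd_nonneg (n + 1))
    (fun e he => by
      have h3 := ((laterSys ρ S p s b ε hρ hs hb hε).lamE_spec he).1.1
      exact (IsSub.res h3).V_le_one)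
    (fun e he hφ => by
      have h3 := ((laterSys ρ S p s b ε hρ hs hb hε).lamE_spec he).2
      rw [res_univ]
      exact h2 _ _ _ h3 (Path.snoc h1 hφ))
  have hne := lev_nonempty hc
  have h4 := V_avg (b := b z ω) hne
    (fun W => res Set.univ ((laterSys ρ S p s b ε hρ hs hb hε).lamE j n t ω ⟨k, W⟩))
  have h5 : (laterSys ρ S p s b ε hρ hs hb hε).avk j n t ω k =
      avg (lev k ((laterSys ρ S p s b ε hρ hs hb hε).DD j n t ω))
        (fun W => res Set.univ ((laterSys ρ S p s b ε hρ hs hb hε).lamE j n t ω ⟨k, W⟩)) := rfl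
  rw [h5, h4]
  exact hV

theorem core_later {ρ : κ} {S : Set Z} {p p0 : Z → Cond κ} {s : List E} {b : Z → Om κ → Set ℕ} {ε : ℚ}
    (hρ : ∀ z ∈ S, ρ ∈ (p z).supp) (hs : ∀ z ∈ S, (p z).st ρ = s)
    (hb : ∀ z i, Meas ρ {ω | i ∈ b z ω}) (hε : 0 ≤ ε) (hp0 : ∀ z, p0 z ∈ Pset ρ)
    (hle : ∀ z ∈ S, Le (p z) (p0 z)) (hK : ¬ Viol p0 b ρ) :
    (laterSys ρ S p s b ε hρ hs hb hε).Core := by
  intro j n t m l S1 p' hS1 hunc hmem hle' hCL hfo hval
  set Y := laterSys ρ S p s b ε hρ hs hb hε with hY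
  have hYρ : Y.ρ = ρ := rfl
  have hYS : Y.S = S := rfl
  have hYb : ∀ t, Y.b t = b := fun _ => rfl
  have hYp : Y.p = p := rfl
  have hmem' : ∀ z ∈ S1, p' z ∈ Pset ρ := hmem
  have hS1' : S1 ⊆ S := hS1
  -- measurability
  have mDD : ∀ e, Meas ρ {ω | e ∈ Y.DD j n t ω} := fun e => Y.DD_meas e
  have mA : ∀ k, MeasF ρ fun ω => Y.avk j n t ω k := fun k => Y.avk_meas k
  have mV : ∀ z k r, Meas ρ {ω | V (b z ω) (Y.avk j n t ω k) ≤ r} := fun z k r =>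
    MeasF.rel (P := fun l ω => V (b z ω) l ≤ r) (mA k) fun l =>
      MeasF.set (measF_V (hb z) l) {x | x ≤ r}
  have mc : ∀ k, Meas ρ {ω | 2 ^ (2 ^ k) < m * cnt k (Y.DD j n t ω)} := fun k =>
    coreL_cnt mDD k fun c => 2 ^ (2 ^ k) < m * c
  have mS : ∀ N k, Meas ρ {ω | ∑ i ∈ Finset.range N, |Y.avk j n t ω k i - l i| ≤ Sys.gap n} :=
    fun N k => MeasF.set (mA k) {x | ∑ i ∈ Finset.range N, |x i - l i| ≤ Sys.gap n}
  -- step 1 and 2
  have step2 : ∀ z ∈ S1, ∃ k1 : ℕ, ∃ q ∈ Pset ρ, Le q (p' z) ∧ Fo ρ q {ω | ∀ k, k1 ≤ k →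
      2 ^ (2 ^ k) < m * cnt k (Y.DD j n t ω) → V (b z ω) (Y.avk j n t ω k) ≤
        Y.bd (n + 1) + Sys.gap n} := by
    intro z hz
    refine fo_select (f := fun k1 : ℕ => {ω | ∀ k, k1 ≤ k →
      2 ^ (2 ^ k) < m * cnt k (Y.DD j n t ω) → V (b z ω) (Y.avk j n t ω k) ≤
        Y.bd (n + 1) + Sys.gap n}) (hmem' z hz) (fun k1 => ?_) ?_
    · exact Meas.all fun k => Meas.imp (meas_const _) (Meas.imp (mc k) (mV z k _))
    · have h1 : Fo ρ (p' z) (Y.Pa t z ∩ Y.Hi t l (Y.bd n) z) := hfo z hz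
      have h2 : Fo ρ (p' z) {ω | ∀ t l r, ω ∈ Y.GG t l r → ω ∈ Y.Pa t z →
        V (Y.b t z ω) l ≤ r} := hval z hz
      refine (h1.inter h2).mono ?_
      rintro ω ⟨⟨h3, -⟩, h4⟩
      exact Set.mem_iUnion.2 (coreL_avg hρ hs hb hε (hS1' hz) h3 h4)
  have hne : Nonempty (Cond κ) := ⟨triv⟩
  choose! K1 Q hQ hQle hQfo using step2
  -- step 3
  obtain ⟨k1, hk1⟩ := exists_fiber hunc K1
  -- step 4
  obtain ⟨M, hM⟩ : ∃ M : ℕ, ∀ i ∈ l.support, i < M := by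
    refine ⟨l.support.sup id + 1, fun i hi => ?_⟩
    have h1 : i ≤ l.support.sup id := Finset.le_sup (f := id) hi
    omega
  let N' : ℕ → ℕ := fun N => max N (max k1 M)
  let kN : ℕ → Om κ → ℕ := fun N ω => sel (fun k : ℕ => N' N ≤ k ∧
    2 ^ (2 ^ k) < m * cnt k (Y.DD j n t ω) ∧
      ∑ i ∈ Finset.range (N' N), |Y.avk j n t ω k i - l i| ≤ Sys.gap n)
  let ν : ℕ → Om κ → ℕ →₀ ℚ := fun N ω => tl (N' N) (Y.avk j n t ω (kN N ω))
  have mk : ∀ N, MeasF ρ (kN N) := fun N =>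
    MeasF.sel fun k => Meas.and (meas_const _) (Meas.and (mc k) (mS _ k))
  have mν : ∀ N, MeasF ρ (ν N) := fun N =>
    MeasF.comp (MeasF.bind (h := fun k ω => Y.avk j n t ω k) (mk N) mA) (tl (N' N))
  have hg1 := Sys.gap_pos n
  have hg2 := coreL_gap n
  -- step 5
  have hex : ∃ z, (z ∈ S1 ∧ K1 z = k1) ∧ ∃ N,
      ¬ Fo ρ (Q z) {ω | mass (b z ω) (ν N ω) ≤ 1 / 4 - Sys.gap n} := by
    by_contra hcon
    push Not at hcon
    apply hK
    refine ⟨1 / 4 - Sys.gap n, by linarith, by linarith, {z | z ∈ S1 ∧ K1 z = k1}, Q, ν, hk1,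
      fun z hz => hQ z hz.1, fun z hz => ?_, mν, fun N ω => ?_, fun N ω i hi => ?_,
      fun z hz N => hcon z hz N⟩
    · have h1 : Le (p' z) (restr (p z) ρ) := hle' z hz.1
      have h2 : Le (restr (p z) ρ) (p0 z) := (hle z (hS1' hz.1)).restr_left (hp0 z)
      exact Le.trans (hQ z hz.1) (hmem' z hz.1) (hp0 z) (hQle z hz.1)
        (Le.trans (hmem' z hz.1) restr_mem (hp0 z) h1 h2)
    · exact tl_isProb Y.avk_isSub
    · exact le_trans (le_max_left _ _) (tl_support hi)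
  obtain ⟨z, ⟨hz, hzk⟩, N, hN⟩ := hex
  obtain ⟨q, hq, hqle, hqfo⟩ := not_fo (meas_mass_le (hb z) (mν N) _) (hQ z hz) hN
  have hqp : Le q (p' z) := Le.trans hq (hQ z hz) (hmem' z hz) hqle (hQle z hz)
  have f1 : Fo ρ (p' z) {ω | Y.CL j n t m l ω} := hCL z hz
  have f2 : Fo ρ (p' z) (Y.Pa t z ∩ Y.Hi t l (Y.bd n) z) := hfo z hz
  obtain ⟨ω, -, ⟨⟨hω1, hω2⟩, hω3⟩, hω4⟩ := (((f1.le (hmem' z hz) hq hqp).inter
    (f2.le (hmem' z hz) hq hqp)).inter ((hQfo z hz).le (hQ z hz) hq hqle)).inter hqfo |>.nonempty hq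
  obtain ⟨hl, hcl⟩ := hω1
  have hsel := sel_spec (P := fun k : ℕ => N' N ≤ k ∧
    2 ^ (2 ^ k) < m * cnt k (Y.DD j n t ω) ∧
      ∑ i ∈ Finset.range (N' N), |Y.avk j n t ω k i - l i| ≤ Sys.gap n) (hcl (N' N) (N' N))
  obtain ⟨s1, s2, s3⟩ := hsel
  have hb1 : k1 ≤ kN N ω :=
    le_trans (le_trans (le_max_left _ _) (le_max_right _ _)) s1
  have hω3' : V (b z ω) (Y.avk j n t ω (kN N ω)) ≤ Y.bd (n + 1) + Sys.gap n :=
    hω3 (kN N ω) (by rw [hzk]; exact hb1) s2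
  have hhi : Y.bd n < V (b z ω) l := hω2.2
  have hω5 : ¬ mass (b z ω) (ν N ω) ≤ 1 / 4 - Sys.gap n := hω4
  have hfin := V_le_of_tail (b := b z ω) (l := Y.avk j n t ω (kN N ω)) (l' := l) (N := N' N)
    Y.avk_isSub (fun i hi => lt_of_lt_of_le (hM i hi)
      (le_trans (le_max_right _ _) (le_max_right _ _))) s3 hg1.le (not_le.1 hω5).le
  have hbd := Y.bd_gap n
  linarith

end Pool.Agent.FSI
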