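import Pool.Agent.FSI.OwnPW
import Pool.Agent.FSI.CoreL

set_option autoImplicit false

/-! # The core for the own step

`Dat`: the names of pairwise different reals `x z` and the conditions `p0 z` below the coordinate `δ`.
`bD X σ z` = the indices which are not valid or such that `x z ∈ U_i ↔ σ`.

PROOF of `core_own`. Let `j n t m l S1 p'` be as in `Core`, `r1 = bd (n + 1)`, `g = gap n`,
`bd n = r1 + 8 * g`. `decO t` is finite with bound `M`. For each `z ∈ S1` let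
`B z ω = (Finset.range M).filter (· ∈ bO σ t (x z ω))`, measurable (`measF_support`, `bO_meas`). By
`fo_value` there are `p'' z ≤ p' z` and `B0 z` with `Fo δ (p'' z) {ω | B z ω = B0 z}`. By `exists_fiber`
there is `B0` with `S2 = {z ∈ S1 | B0 z = B0}` not countable. By `centered` there is an uncountable
`S3 ⊆ S2` whose finite subsets have lower bounds. Let `N ≥ 1` with `8 * t.length ≤ N` and
`4 * m ≤ g * N`, `F ⊆ S3` a finset with `N` elements and `r ∈ Pset δ` a lower bound of the `p'' z`,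
`z ∈ F`. Take a point `ω ∈ body r` at which all the properties forced by the `p'' z`, `z ∈ F`, hold
(finitely many: `Fo.le`, `Fo.inter`, `Fo.all` over the finite type `F`): `CL`; `Pa t z ∩ Hi ..`;
`∀ t l r, GG → Pa → V ≤ r`; `B z ω = B0`; the three properties from `X` (`Le (p'' z) (X.p0 z)` by
transitivity through `p' z` and `restr (Y.p z) δ`; distinctness `hne` for each pair `z ≠ z'` in `F` and the
common extension `r`). Apply `ownPW` with `x z = X.x z ω`, `D = DD ω`, `f = lamE ω`,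
`φ z = (p z).nm δ ω t`, `r = r1`, `η = g`, `b0 = ↑B0`: `hV`: `ω ∈ Pa (t ++ [e]) z` by `Path.snoc`, and
`lamE_spec`. We get `k1`; by `CL` with `N = M`, `k0 = k1` there is `k ≥ k1` in the set with
`∑ i < M, |avk ω k i - l i| ≤ g`, so `V_le_of_close` (supports of `avk` and `l` are in
`decO t ⊆ [0, M)`) gives `V B0 l ≤ r1 + 2 * g + g < bd n`. But `ω ∈ Hi t l (bd n) z` for a `z ∈ F`, and
`V (bO σ t (x z ω)) l = V B0 l` by `V_congr` (`l.support ⊆ decO t`, `i < M`). -/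

namespace Pool.Agent.FSI

variable {κ : Type} [LinearOrder κ] [WellFoundedLT κ] {Z : Type*}

/-- The names of the reals. -/
structure Dat (κ : Type) [LinearOrder κ] [WellFoundedLT κ] (Z : Type*) where
  /-- the coordinate -/
  δ : κ
  /-- the reals -/
  x : Z → Om κ → ℝ
  /-- the integer part -/
  a : ℤ
  /-- the base conditions -/
  p0 : Z → Cond κ
  hx : ∀ z, ∀ q : ℚ, Meas δ {ω | (q : ℝ) < x z ω}
  hp0 : ∀ z, p0 z ∈ Pset δ
  hnd : ∀ z, Fo δ (p0 z) {ω | ∀ (k : ℕ) (c : ℤ), 2 ^ k * x z ω ≠ c}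
  hfl : ∀ z, Fo δ (p0 z) {ω | ⌊x z ω⌋ = a}
  hne : ∀ z z', z ≠ z' → ∀ e ∈ Pset δ, Le e (p0 z) → Le e (p0 z') → Fo δ e {ω | x z ω ≠ x z' ω}

/-- The names of sets of indices. -/
def bD (X : Dat κ Z) (σ : Prop) (z : Z) (ω : Om κ) : Set ℕ := bF σ (ω X.δ) (X.x z ω)

/-- The system for the own step. -/
noncomputable def ownSys (X : Dat κ Z) (σ : Prop) (S : Set Z) (p : Z → Cond κ) (s : List E) (ε : ℚ)
    (hρ : ∀ z ∈ S, X.δ ∈ (p z).supp) (hs : ∀ z ∈ S, (p z).st X.δ = s) (hε : 0 ≤ ε) : Sys κ Z where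
  ρ := X.δ
  S := S
  p := p
  s := s
  dec := decO
  b := fun t z ω => bO σ t (X.x z ω)
  ε := ε
  hρ := hρ
  hs := hs
  hb := fun t z i => bO_meas (X.hx z) σ t i
  hε := hε

private theorem co_ball {γ : κ} {p : Cond κ} (F : Finset Z) {P : Z → Om κ → Prop}
    (h : ∀ z ∈ F, Fo γ p {ω | P z ω}) : Fo γ p {ω | ∀ z ∈ F, P z ω} := by
  classical
  induction F using Finset.induction_on with
  | empty => exact fo_of_subset fun ω _ z hz => absurd hz (Finset.notMem_empty z)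
  | insert a F _ ih =>
    have h1 := h a (Finset.mem_insert_self a F)
    have h2 := ih fun z hz => h z (Finset.mem_insert_of_mem hz)
    refine (h1.and h2).mono ?_
    rintro ω ⟨g1, g2⟩ z hz
    rcases Finset.mem_insert.1 hz with rfl | hz
    · exact g1
    · exact g2 z hz

theorem core_own (X : Dat κ Z) (σ : Prop) {S : Set Z} {p : Z → Cond κ} {s : List E} {ε : ℚ}
    (hρ : ∀ z ∈ S, X.δ ∈ (p z).supp) (hs : ∀ z ∈ S, (p z).st X.δ = s) (hε : 0 ≤ ε)
    (hle : ∀ z ∈ S, Le (p z) (X.p0 z)) : (ownSys X σ S p s ε hρ hs hε).Core := by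
  classical
  intro j n t m l S1 p' hS1 hc hp' hle' hCL hHi hV
  have hpm : ∀ z ∈ S1, p' z ∈ Pset X.δ := hp'
  have hne : Nonempty (Cond κ) := ⟨triv⟩
  obtain ⟨M, hM⟩ := exists_decO_bound t
  have hBm : ∀ z, MeasF X.δ fun ω => (Finset.range M).filter (· ∈ bO σ t (X.x z ω)) :=
    fun z => measF_support (fun i => bO_meas (X.hx z) σ t i) _
  have h1 : ∀ z ∈ S1, ∃ B0 : Finset ℕ, ∃ q ∈ Pset X.δ, Le q (p' z) ∧
      Fo X.δ q {ω | (Finset.range M).filter (· ∈ bO σ t (X.x z ω)) = B0} :=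
    fun z hz => fo_value (hpm z hz) (hBm z)
  choose! B0 p'' hp2 hle2 hB0 using h1
  obtain ⟨B1, hB1⟩ := exists_fiber hc B0
  obtain ⟨S3, hS3, hS3c, hcen⟩ := centered (γ := X.δ) hB1 p'' fun z hz => hp2 z hz.1
  have hinf : S3.Infinite := fun h => hS3c h.countable
  have hg : 0 < Sys.gap n := Sys.gap_pos n
  obtain ⟨N0, hN0⟩ := exists_nat_ge ((4 * (m : ℚ)) / Sys.gap n)
  obtain ⟨F, hF, hFc⟩ := hinf.exists_subset_card_eq (N0 + 8 * t.length + 1)
  have hFS : ∀ z ∈ F, z ∈ S1 := fun z hz => (hS3 (hF hz)).1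
  have hFB : ∀ z ∈ F, B0 z = B1 := fun z hz => (hS3 (hF hz)).2
  have hFne : F.Nonempty := Finset.card_pos.1 (by omega)
  obtain ⟨r, hr, hr'⟩ := hcen F fun z hz => hF hz
  have hr1 : ∀ z ∈ F, Le r (p' z) := fun z hz =>
    Le.trans hr (hp2 z (hFS z hz)) (hpm z (hFS z hz)) (hr' z hz) (hle2 z (hFS z hz))
  have hr2 : ∀ z ∈ F, Le r (X.p0 z) := fun z hz =>
    Le.trans hr (hpm z (hFS z hz)) (X.hp0 z) (hr1 z hz)
      (Le.trans (hpm z (hFS z hz)) restr_mem (X.hp0 z) (hle' z (hFS z hz))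
        (Le.restr_left (hle z (hS1 (hFS z hz))) (X.hp0 z)))
  have F1 := co_ball (γ := X.δ) (p := r) F fun z hz =>
    (hCL z (hFS z hz)).le (hpm z (hFS z hz)) hr (hr1 z hz)
  have F2 := co_ball (γ := X.δ) (p := r) F
    (P := fun z ω => ω ∈ (ownSys X σ S p s ε hρ hs hε).Pa t z ∩
      (ownSys X σ S p s ε hρ hs hε).Hi t l ((ownSys X σ S p s ε hρ hs hε).bd n) z) fun z hz =>
    (hHi z (hFS z hz)).le (hpm z (hFS z hz)) hr (hr1 z hz)
  have F3 := co_ball (γ := X.δ) (p := r) F fun z hz =>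
    (hV z (hFS z hz)).le (hpm z (hFS z hz)) hr (hr1 z hz)
  have F4 := co_ball (γ := X.δ) (p := r) F fun z hz =>
    (hB0 z (hFS z hz)).le (hp2 z (hFS z hz)) hr (hr' z hz)
  have F5 := co_ball (γ := X.δ) (p := r) F fun z hz =>
    (X.hnd z).le (X.hp0 z) hr (hr2 z hz)
  have F6 := co_ball (γ := X.δ) (p := r) F fun z hz =>
    (X.hfl z).le (X.hp0 z) hr (hr2 z hz)
  have F7 : Fo X.δ r {ω | ∀ z ∈ F, ∀ z' ∈ F, z ≠ z' → X.x z ω ≠ X.x z' ω} := by
    refine co_ball F fun z hz => co_ball F fun z' hz' => ?_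
    by_cases hzz : z = z'
    · exact fo_of_subset fun ω _ h => absurd hzz h
    · exact (X.hne z z' hzz r hr (hr2 z hz) (hr2 z' hz')).mono fun ω h _ => h
  obtain ⟨ω, -, ⟨⟨⟨g1, g2⟩, g3⟩, g4⟩, ⟨g5, g6⟩, g7⟩ :=
    ((((F1.inter F2).inter F3).inter F4).inter ((F5.inter F6).inter F7)).nonempty hr
  have g1' : ∀ z ∈ F, (ownSys X σ S p s ε hρ hs hε).CL j n t m l ω := g1
  have g2' : ∀ z ∈ F, Path ((p z).nm X.δ ω) s t ∧
      (ownSys X σ S p s ε hρ hs hε).bd n < V (bO σ t (X.x z ω)) l := g2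
  have g3' : ∀ z ∈ F, ∀ (t : List E) (l : ℕ →₀ ℚ) (r : ℚ),
      ω ∈ (ownSys X σ S p s ε hρ hs hε).GG t l r → Path ((p z).nm X.δ ω) s t →
        V (bO σ t (X.x z ω)) l ≤ r := g3
  have g4' : ∀ z ∈ F, (Finset.range M).filter (· ∈ bO σ t (X.x z ω)) = B0 z := g4
  have g5' : ∀ z ∈ F, ∀ (k : ℕ) (c : ℤ), 2 ^ k * X.x z ω ≠ c := g5
  have g6' : ∀ z ∈ F, ⌊X.x z ω⌋ = X.a := g6
  have g7' : ∀ z ∈ F, ∀ z' ∈ F, z ≠ z' → X.x z ω ≠ X.x z' ω := g7
  have h0 : ∀ z ∈ F, ∀ i ∈ decO t, (i ∈ bO σ t (X.x z ω) ↔ i ∈ (B1 : Set ℕ)) := by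
    intro z hz i hi
    rw [← hFB z hz, ← g4' z hz, Finset.mem_coe, Finset.mem_filter, Finset.mem_range]
    exact ⟨fun h => ⟨hM i hi, h⟩, fun h => h.2⟩
  obtain ⟨z0, hz0⟩ := hFne
  obtain ⟨k1, hk1⟩ := ownPW σ F ⟨z0, hz0⟩ (fun z => X.x z ω) X.a
    (fun z hz z' hz' h => by
      by_contra hc'
      exact g7' z hz z' hz' hc' h) g6' g5' t (by omega)
    ((ownSys X σ S p s ε hρ hs hε).DD j n t ω) (fun e => (ownSys X σ S p s ε hρ hs hε).lamE j n t ω e)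
    (fun e he => by
      obtain ⟨⟨q1, q2⟩, -⟩ := (ownSys X σ S p s ε hρ hs hε).lamE_spec he
      exact ⟨q1, fun i hi => (q2 i hi).2⟩)
    (fun z => (p z).nm X.δ ω t) (fun z hz => (p z).big X.δ (hρ z (hS1 (hFS z hz))) ω t)
    ((ownSys X σ S p s ε hρ hs hε).bd_nonneg (n + 1))
    (fun z hz e he he' => by
      have q1 := (ownSys X σ S p s ε hρ hs hε).lamE_spec he
      exact g3' z hz (t ++ [e]) _ _ q1.2 (Path.snoc (g2' z hz).1 he'))
    (B1 : Set ℕ) h0 m hg (by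
      rw [div_le_iff₀ hg] at hN0
      rw [hFc]
      push_cast
      nlinarith [hg, hN0, mul_nonneg hg.le (Nat.cast_nonneg (α := ℚ) t.length)])
  obtain ⟨hl1, hl2⟩ := g1' z0 hz0
  obtain ⟨k, hk, hk2, hk3⟩ := hl2 M k1
  have h5 := hk1 k hk hk2
  have hlM : ∀ i ∈ l.support, i ∈ decO t := fun i hi => (hl1.2 i hi).2
  have h6 : V (B1 : Set ℕ) l ≤ V (B1 : Set ℕ)
      ((ownSys X σ S p s ε hρ hs hε).avk j n t ω k) + Sys.gap n := by
    refine V_le_of_close (N := M) (fun i hi => ?_) (fun i hi => hM i (hlM i hi)) hk3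
    obtain ⟨W, -, hW⟩ := mem_avg_support hi
    exact hM i (mem_res_support.1 hW).2
  have h7 : V (bO σ t (X.x z0 ω)) l = V (B1 : Set ℕ) l :=
    V_congr fun i hi => h0 z0 hz0 i (hlM i hi)
  have h8 := (g2' z0 hz0).2
  have h9 := (ownSys X σ S p s ε hρ hs hε).bd_gap n
  have h10 : V (B1 : Set ℕ) ((ownSys X σ S p s ε hρ hs hε).avk j n t ω k) ≤
      (ownSys X σ S p s ε hρ hs hε).bd (n + 1) + 2 * Sys.gap n := h5
  rw [h7] at h8
  linarith

end Pool.Agent.FSI
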