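import Pool.Agent.FSI.Ms

set_option autoImplicit false

/-! # The open sets and their indices

`cz k a` = the residue of the integer `a` modulo `2 ^ k`. `UU e O` (for `e = (k, W)`, `O` a finite set of
integers) = the union of the open intervals `(a / 2 ^ k, (a + 1) / 2 ^ k)` with residue of `a` in `W` and
of the intervals `((a - 1) / 2 ^ k, (a + 1) / 2 ^ k)`, `a ∈ O`. An index `i` codes `(n, O) = idx i`; it is
valid for `g : ℕ → E` if `vld n (g n) O`. `bF σ g x`: the `i` which are not valid or such that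
`x ∈ UU (g n) O ↔ σ`. `decO t`, `bO σ t x`: the same for a stem `t`.

PROOFS.
* `decO_finite`: `n < t.length` and `O` is a subset of the integers in `[-n * 2 ^ k, n * 2 ^ k]`, `k` the
  level of `t.getD n _`; the image of a finite set under `idx.symm`.
* `decO_bF`, `res_bF`: `t.getD n _ = g n` for `n < t.length` (`ini_getElem`, `ini g t.length = t`).
* `decO_snoc`, `bO_snoc_old`, `bO_snoc_new`: `List.getD_append`, `List.getD_append_right`.
* `UU_meas`: `{ω | (q : ℝ) < x ω}` for rational `q` generate: `{ω | x ω < q}` is the complement of the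
  intersection over `m` of `{ω | q - 1 / (m + 1) < x ω}`; `(a : ℝ) < 2 ^ k * x` iff
  `((a / 2 ^ k : ℚ) : ℝ) < x`; countable unions over `a`. -/

namespace Pool.Agent.FSI

/-- The residue modulo `2 ^ k`. -/
def cz (k : ℕ) (a : ℤ) : Fin (2 ^ k) :=
  ⟨(a % 2 ^ k).toNat, by
    have h : (0 : ℤ) < 2 ^ k := by positivity
    have h1 := Int.emod_nonneg a h.ne'
    have h2 := Int.emod_lt_of_pos a h
    zify
    rw [Int.toNat_of_nonneg h1]
    exact h2⟩

/-- The open sets. -/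
def UU (e : E) (O : Finset ℤ) : Set ℝ :=
  {x | (∃ a : ℤ, cz e.1 a ∈ e.2 ∧ (a : ℝ) < 2 ^ e.1 * x ∧ 2 ^ e.1 * x < a + 1) ∨
    ∃ a ∈ O, (a : ℝ) - 1 < 2 ^ e.1 * x ∧ 2 ^ e.1 * x < a + 1}

/-- Validity of the index `(n, O)`. -/
def vld (n : ℕ) (e : E) (O : Finset ℤ) : Prop := O.card ≤ n ∧ ∀ a ∈ O, |a| ≤ n * 2 ^ e.1

/-- Coding of the indices. -/
noncomputable def idx : ℕ ≃ ℕ × Finset ℤ := (Denumerable.eqv (ℕ × Finset ℤ)).symm

/-- The indices which are decided and valid. -/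
def decO (t : List E) : Set ℕ :=
  {i | (idx i).1 < t.length ∧ vld (idx i).1 (t.getD (idx i).1 ⟨0, ∅⟩) (idx i).2}

/-- Decided membership. -/
def bO (σ : Prop) (t : List E) (x : ℝ) : Set ℕ :=
  {i | x ∈ UU (t.getD (idx i).1 ⟨0, ∅⟩) (idx i).2 ↔ σ}

/-- Not valid, or membership of `x` as prescribed. -/
def bF (σ : Prop) (g : ℕ → E) (x : ℝ) : Set ℕ :=
  {i | vld (idx i).1 (g (idx i).1) (idx i).2 → (x ∈ UU (g (idx i).1) (idx i).2 ↔ σ)}

theorem decO_finite (t : List E) : (decO t).Finite := by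
  classical
  have hfin : (⋃ n ∈ Finset.range t.length, (fun O => idx.symm (n, O)) ''
      ((Finset.Icc (-((n : ℤ) * 2 ^ (t.getD n ⟨0, ∅⟩).1)) ((n : ℤ) * 2 ^ (t.getD n ⟨0, ∅⟩).1)).powerset :
        Set (Finset ℤ))).Finite :=
    Set.Finite.biUnion (Finset.finite_toSet _) fun n _ => (Finset.finite_toSet _).image _
  refine hfin.subset fun i hi => ?_
  obtain ⟨h1, h2, h3⟩ := hi
  simp only [Set.mem_iUnion]
  refine ⟨(idx i).1, Finset.mem_range.2 h1, (idx i).2, ?_, ?_⟩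
  · rw [Finset.mem_coe, Finset.mem_powerset]
    intro a ha
    rw [Finset.mem_Icc, ← abs_le]
    exact h3 a ha
  · exact idx.symm_apply_apply i

theorem exists_decO_bound (t : List E) : ∃ M, ∀ i ∈ decO t, i < M := by
  obtain ⟨M, hM⟩ := (decO_finite t).bddAbove
  exact ⟨M + 1, fun i hi => Nat.lt_succ_of_le (hM hi)⟩

variable {σ : Prop} {t : List E} {g : ℕ → E} {x : ℝ} {i : ℕ} {e : E}

private theorem geo_getD (hg : ini g t.length = t) {n : ℕ} (hn : n < t.length) (d : E) :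
    t.getD n d = g n := by
  rw [List.getD_eq_getElem _ _ hn]
  exact (ini_eq_iff.1 hg n hn).symm

theorem decO_bF (hg : ini g t.length = t) (hi : i ∈ decO t) : i ∈ bF σ g x ↔ i ∈ bO σ t x := by
  obtain ⟨h1, h2⟩ := hi
  unfold bF bO
  rw [Set.mem_ofPred_eq, Set.mem_ofPred_eq]
  rw [geo_getD hg h1] at h2 ⊢
  exact ⟨fun h => h h2, fun h _ => h⟩

theorem res_bF (hg : ini g t.length = t) (hi : i ∉ decO t) (hl : (idx i).1 < t.length) :
    i ∈ bF σ g x := by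
  intro h
  refine absurd ⟨hl, ?_⟩ hi
  rw [geo_getD hg hl]
  exact h

theorem decO_snoc : i ∈ decO (t ++ [e]) ↔
    i ∈ decO t ∨ (idx i).1 = t.length ∧ vld t.length e (idx i).2 := by
  unfold decO
  rw [Set.mem_ofPred_eq, Set.mem_ofPred_eq, List.length_append, List.length_singleton]
  constructor
  · rintro ⟨h1, h2⟩
    rcases Nat.lt_succ_iff_lt_or_eq.1 h1 with h3 | h3
    · left
      rw [List.getD_append _ _ _ _ h3] at h2
      exact ⟨h3, h2⟩
    · right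
      rw [List.getD_append_right _ _ _ _ h3.ge, h3, Nat.sub_self] at h2
      exact ⟨h3, h2⟩
  · rintro (⟨h1, h2⟩ | ⟨h1, h2⟩)
    · refine ⟨Nat.lt_succ_of_lt h1, ?_⟩
      rw [List.getD_append _ _ _ _ h1]
      exact h2
    · refine ⟨by rw [h1]; exact Nat.lt_succ_self _, ?_⟩
      rw [List.getD_append_right _ _ _ _ h1.ge, h1, Nat.sub_self]
      exact h2

theorem bO_snoc_old (h : (idx i).1 < t.length) : i ∈ bO σ (t ++ [e]) x ↔ i ∈ bO σ t x := by
  unfold bO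
  rw [Set.mem_ofPred_eq, Set.mem_ofPred_eq, List.getD_append _ _ _ _ h]

theorem bO_snoc_new (h : (idx i).1 = t.length) :
    i ∈ bO σ (t ++ [e]) x ↔ (x ∈ UU e (idx i).2 ↔ σ) := by
  unfold bO
  rw [Set.mem_ofPred_eq, List.getD_append_right _ _ _ _ h.ge, h, Nat.sub_self]
  rfl

section

variable {κ : Type} [LinearOrder κ] {δ γ : κ} {y : Om κ → ℝ}

private theorem geo_lt (hy : ∀ q : ℚ, Meas δ {ω | (q : ℝ) < y ω}) (q : ℚ) :
    Meas δ {ω | y ω < (q : ℝ)} := by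
  have e : {ω | y ω < (q : ℝ)} = {ω | ∃ m : ℕ, ¬ (((q - 1 / ((m : ℚ) + 1) : ℚ) : ℝ) < y ω)} := by
    ext ω
    rw [Set.mem_ofPred_eq, Set.mem_ofPred_eq]
    constructor
    · intro h
      obtain ⟨m, hm⟩ := exists_nat_one_div_lt (sub_pos.2 h)
      refine ⟨m, ?_⟩
      push_cast
      linarith
    · rintro ⟨m, hm⟩
      push_cast at hm
      have : (0 : ℝ) < 1 / ((m : ℝ) + 1) := by positivity
      linarith
  rw [e]
  exact Meas.ex fun m => Meas.not (hy _)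

private theorem geo_real (hy : ∀ q : ℚ, Meas δ {ω | (q : ℝ) < y ω}) (k : ℕ) (c : ℤ) :
    Meas δ {ω | (c : ℝ) < 2 ^ k * y ω} ∧ Meas δ {ω | 2 ^ k * y ω < c} := by
  have hk : (0 : ℝ) < 2 ^ k := by positivity
  constructor
  · have e : {ω | (c : ℝ) < 2 ^ k * y ω} = {ω | (((c : ℚ) / 2 ^ k : ℚ) : ℝ) < y ω} := by
      ext ω
      rw [Set.mem_ofPred_eq, Set.mem_ofPred_eq]
      push_cast
      rw [div_lt_iff₀ hk, mul_comm]
    rw [e]
    exact hy _
  · have e : {ω | 2 ^ k * y ω < (c : ℝ)} = {ω | y ω < (((c : ℚ) / 2 ^ k : ℚ) : ℝ)} := by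
      ext ω
      rw [Set.mem_ofPred_eq, Set.mem_ofPred_eq]
      push_cast
      rw [lt_div_iff₀ hk, mul_comm]
    rw [e]
    exact geo_lt hy _

theorem UU_meas (hy : ∀ q : ℚ, Meas δ {ω | (q : ℝ) < y ω}) (e : E) (O : Finset ℤ) :
    Meas δ {ω | y ω ∈ UU e O} := by
  have h1 : ∀ a : ℤ, Meas δ {ω | 2 ^ e.1 * y ω < (a : ℝ) + 1} := fun a => by
    have h := (geo_real hy e.1 (a + 1)).2
    push_cast at h
    exact h
  have h2 : ∀ a : ℤ, Meas δ {ω | (a : ℝ) - 1 < 2 ^ e.1 * y ω} := fun a => by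
    have h := (geo_real hy e.1 (a - 1)).1
    push_cast at h
    exact h
  exact Meas.or
    (Meas.ex fun a => Meas.and (meas_const _) (Meas.and (geo_real hy e.1 a).1 (h1 a)))
    (Meas.ex fun a => Meas.and (meas_const _) (Meas.and (h2 a) (h1 a)))

private theorem geo_iff {P : Om κ → Prop} (h : Meas δ {ω | P ω}) (σ : Prop) :
    Meas δ {ω | P ω ↔ σ} := by
  have e : {ω | P ω ↔ σ} = {ω | (P ω → σ) ∧ (σ → P ω)} := by
    ext ω
    exact iff_iff_implies_and_implies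
  rw [e]
  exact Meas.and (Meas.imp h (meas_const _)) (Meas.imp (meas_const _) h)

theorem bO_meas (hy : ∀ q : ℚ, Meas δ {ω | (q : ℝ) < y ω}) (σ : Prop) (t : List E) (i : ℕ) :
    Meas δ {ω | i ∈ bO σ t (y ω)} :=
  geo_iff (UU_meas hy _ _) σ

private theorem geo_subst (hδ : δ < γ) (n : ℕ) {P : E → Om κ → Prop}
    (h : ∀ e, Meas γ {ω | P e ω}) : Meas γ {ω | P (ω δ n) ω} := by
  have e : {ω : Om κ | P (ω δ n) ω} = {ω | ∃ e : E, ω δ n = e ∧ P e ω} := by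
    ext ω
    constructor
    · intro h1
      exact ⟨_, rfl, h1⟩
    · rintro ⟨e, h1, h2⟩
      show P (ω δ n) ω
      rw [h1]
      exact h2
  rw [e]
  exact Meas.ex fun e => Meas.and (meas_coord hδ n e) (h e)

theorem bF_meas (hy : ∀ q : ℚ, Meas δ {ω | (q : ℝ) < y ω}) (hδ : δ < γ) (σ : Prop) (i : ℕ) :
    Meas γ {ω | i ∈ bF σ (ω δ) (y ω)} :=
  geo_subst hδ (idx i).1 (P := fun e ω => vld (idx i).1 e (idx i).2 → (y ω ∈ UU e (idx i).2 ↔ σ))
    fun e => Meas.imp (meas_const _) (Meas.mono hδ.le (geo_iff (UU_meas hy e _) σ))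

theorem vld_meas (hδ : δ < γ) (n : ℕ) (O : Finset ℤ) : Meas γ {ω : Om κ | vld n (ω δ n) O} :=
  geo_subst hδ n (P := fun e _ => vld n e O) fun _ => meas_const _

theorem UUF_meas (hy : ∀ q : ℚ, Meas δ {ω | (q : ℝ) < y ω}) (hδ : δ < γ) (n : ℕ) (O : Finset ℤ) :
    Meas γ {ω | y ω ∈ UU (ω δ n) O} :=
  geo_subst hδ n (P := fun e ω => y ω ∈ UU e O) fun e => Meas.mono hδ.le (UU_meas hy e O)

/-- integer comparisons -/
theorem real_lt_meas (hy : ∀ q : ℚ, Meas δ {ω | (q : ℝ) < y ω}) (k : ℕ) (c : ℤ) :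
    Meas δ {ω | (c : ℝ) < 2 ^ k * y ω} ∧ Meas δ {ω | 2 ^ k * y ω < c} :=
  geo_real hy k c

theorem floor_meas (hy : ∀ q : ℚ, Meas δ {ω | (q : ℝ) < y ω}) (a : ℤ) :
    Meas δ {ω | ⌊y ω⌋ = a} := by
  have e : {ω | ⌊y ω⌋ = a} = {ω | ¬ (y ω < ((a : ℚ) : ℝ)) ∧ y ω < (((a + 1 : ℤ) : ℚ) : ℝ)} := by
    ext ω
    rw [Set.mem_ofPred_eq, Set.mem_ofPred_eq, Int.floor_eq_iff]
    push_cast
    rw [not_lt]
  rw [e]
  exact Meas.and (Meas.not (geo_lt hy _)) (geo_lt hy _)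

theorem real_eq_meas {y' : Om κ → ℝ} (hy : ∀ q : ℚ, Meas δ {ω | (q : ℝ) < y ω})
    (hy' : ∀ q : ℚ, Meas δ {ω | (q : ℝ) < y' ω}) : Meas δ {ω | y ω = y' ω} := by
  have e : {ω | y ω = y' ω} =
      {ω | ∀ q : ℚ, ((q : ℝ) < y ω → (q : ℝ) < y' ω) ∧ ((q : ℝ) < y' ω → (q : ℝ) < y ω)} := by
    ext ω
    rw [Set.mem_ofPred_eq, Set.mem_ofPred_eq]
    constructor
    · intro h q
      rw [h]
      exact ⟨id, id⟩
    · intro h
      apply le_antisymm
      · by_contra h1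
        obtain ⟨q, hq1, hq2⟩ := exists_rat_btwn (not_le.1 h1)
        exact absurd ((h q).1 hq2) (not_lt.2 hq1.le)
      · by_contra h1
        obtain ⟨q, hq1, hq2⟩ := exists_rat_btwn (not_le.1 h1)
        exact absurd ((h q).2 hq2) (not_lt.2 hq1.le)
  rw [e]
  exact Meas.all fun q => Meas.and (Meas.imp (hy q) (hy' q)) (Meas.imp (hy' q) (hy q))

end

end Pool.Agent.FSI
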