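import Pool.Agent.FSI.Ccc

set_option autoImplicit false

/-! # The induction hypothesis and its consequences at one level

`Hyp γ`: the order is transitive on `Pset γ`; truth lemma for bodies in both directions; decision of
measurable sets; bodies of conditions are not null.

PROOFS (all from `h : Hyp γ`, at the level `γ`).
* `Hyp.r1`: if `Le p q` then `body p \ body q ∈ Nul γ`: (`Ae`: `ω ∈ body p → p ∈ G` by `t2`,
  `p ∈ G → q ∈ G` (`FiltW.up`), `q ∈ G → ω ∈ body q` by `t1`).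
* `Hyp.r2`: if `p`, `q` are incompatible then `body p ∩ body q ∈ Nul γ` (both would be in the filter).
* `Hyp.mono`: `body q \ A ⊆ (body q \ body p) ∪ (body p \ A)`.
* `Hyp.not_fo`: by `dec` for `A` below each `r`; suppose no `q ≤ p` has `body q ∩ A ∈ Nul γ`. Then
  `D = {q | Le q p ∧ body q \ A ∈ Nul γ}` is dense below `p`; let `C` be a maximal antichain in `D`
  (`exists_max`, countable). `Ae`: if `ω ∈ body p` then `p ∈ G`, and `G` meets the dense set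
  `{r | (∃ c ∈ C, Le r c) ∨ ¬ Compat γ r p}` (dense: given `r`, if it is compatible with `p` take
  `q ≤ r, p`, then `q' ≤ q` in `D`, then `q' ` is compatible with some `c ∈ C`), so some `c ∈ C` is in
  `G` (not the second case, as `G` is directed), `ω ∈ body c` (t1 for the countably many `c ∈ C`), and
  `ω ∈ A`. Hence `body p \ A ∈ Nul γ`.
* `Hyp.predense`: the same argument with `C` given.
* `Hyp.iUnion_select`: if for all `i` and `q ≤ p` not `body q \ A i ∈ Nul γ`, then (by `dec` and the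
  previous item applied to `(A i)ᶜ`) `body p ∩ A i ∈ Nul γ` for all `i`, so `body p ∩ ⋃ A i` is null,
  but `body p \ ⋃ A i` is null, so `body p` is null, contradicting `ne`. -/

namespace Pool.Agent.FSI

variable {κ : Type} [LinearOrder κ] [WellFoundedLT κ]

/-- The properties at level `γ` proved by induction. -/
structure Hyp (γ : κ) : Prop where
  trans : ∀ p ∈ Pset γ, ∀ q ∈ Pset γ, ∀ r ∈ Pset γ, Le p q → Le q r → Le p r
  t1 : ∀ q ∈ Pset γ, Ae γ fun G ω => q ∈ G → ω ∈ body q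
  t2 : ∀ q ∈ Pset γ, Ae γ fun G ω => ω ∈ body q → q ∈ G
  dec : ∀ A, Meas γ A → ∀ p ∈ Pset γ, ∃ q ∈ Pset γ, Le q p ∧
    (body q \ A ∈ Nul γ ∨ body q ∩ A ∈ Nul γ)
  ne : ∀ p ∈ Pset γ, body p ∉ Nul γ

variable {γ : κ} {p q : Cond κ} {A : Set (Om κ)}

theorem Hyp.r1 (h : Hyp γ) (hp : p ∈ Pset γ) (hq : q ∈ Pset γ) (hpq : Le p q) :
    body p \ body q ∈ Nul γ := by
  rw [mem_Nul_iff]
  refine ((h.t2 p hp).and ((h.t1 q hq).and (Ae.filt γ))).mono ?_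
  rintro G ω ⟨h2, h1, hf, _⟩ ⟨hωp, hωq⟩
  exact hωq (h1 (hf.up p (h2 hωp) q hq hpq))

theorem Hyp.r2 (h : Hyp γ) (hp : p ∈ Pset γ) (hq : q ∈ Pset γ) (hpq : ¬ Compat γ p q) :
    body p ∩ body q ∈ Nul γ := by
  rw [mem_Nul_iff]
  refine ((h.t2 p hp).and ((h.t2 q hq).and (Ae.filt γ))).mono ?_
  rintro G ω ⟨h2, h1, hf, _⟩ ⟨hωp, hωq⟩
  obtain ⟨r, hr, hrp, hrq⟩ := hf.dir p (h2 hωp) q (h1 hωq)
  exact hpq ⟨r, hf.sub hr, hrp, hrq⟩

theorem Hyp.mono (h : Hyp γ) (hp : p ∈ Pset γ) (hq : q ∈ Pset γ) (hqp : Le q p)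
    (hA : body p \ A ∈ Nul γ) : body q \ A ∈ Nul γ := by
  refine Nul.subset (Nul.union (h.r1 hq hp hqp) hA) ?_
  rintro ω ⟨h1, h2⟩
  by_cases h3 : ω ∈ body p
  · exact Or.inr ⟨h3, h2⟩
  · exact Or.inl ⟨h1, h3⟩

/-- A countable predense set. -/
theorem Hyp.predense (h : Hyp γ) (hp : p ∈ Pset γ) {C : Set (Cond κ)} (hC : C.Countable)
    (hC1 : C ⊆ Pset γ) (hC2 : ∀ q ∈ Pset γ, Le q p → ∃ c ∈ C, Compat γ q c) :
    body p \ (⋃ c ∈ C, body c) ∈ Nul γ := by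
  have hD : Den γ {r | r ∈ Pset γ ∧ ((∃ c ∈ C, Le r c) ∨ ¬ Compat γ r p)} := by
    refine ⟨fun r hr => hr.1, fun r hr => ?_⟩
    by_cases hrp : Compat γ r p
    · obtain ⟨q, hq, hqr, hqp⟩ := hrp
      obtain ⟨c, hc, s, hs, hsq, hsc⟩ := hC2 q hq hqp
      exact ⟨s, ⟨hs, Or.inl ⟨c, hc, hsc⟩⟩, h.trans s hs q hq r hr hsq hqr⟩
    · exact ⟨r, ⟨hr, Or.inr hrp⟩, Le.refl r⟩
  rw [mem_Nul_iff]
  refine ((h.t2 p hp).and ((Ae.ball (φ := fun c G ω => c ∈ G → ω ∈ body c) hC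
    (fun c hc => h.t1 c (hC1 hc))).and ((Ae.filt γ).and (Ae.dense hD)))).mono ?_
  rintro G ω ⟨h2, h1, ⟨hf, _⟩, r, hrG, _, hr⟩ ⟨hωp, hωq⟩
  rcases hr with ⟨c, hc, hrc⟩ | hr
  · exact hωq (Set.mem_iUnion₂.2 ⟨c, hc, h1 c hc (hf.up r hrG c (hC1 hc) hrc)⟩)
  · obtain ⟨s, hs, hsr, hsp⟩ := hf.dir r hrG p (h2 hωp)
    exact hr ⟨s, hf.sub hs, hsr, hsp⟩

/-- If densely many conditions below `p` force `A` then `p` forces `A`. -/
theorem Hyp.of_dense (h : Hyp γ) (hp : p ∈ Pset γ)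
    (hA : ∀ q ∈ Pset γ, Le q p → ∃ r ∈ Pset γ, Le r q ∧ body r \ A ∈ Nul γ) :
    body p \ A ∈ Nul γ := by
  obtain ⟨C, hC1, hC2, _, hC4⟩ := exists_max (γ := γ)
    (D := {r | r ∈ Pset γ ∧ Le r p ∧ body r \ A ∈ Nul γ}) (fun r hr => hr.1)
  have h1 := h.predense hp hC2 (fun c hc => (hC1 hc).1) (by
    intro q hq hqp
    obtain ⟨r, hr, hrq, hrA⟩ := hA q hq hqp
    obtain ⟨a, ha, s, hs, hsr, hsa⟩ := hC4 r ⟨hr, h.trans r hr q hq p hp hrq hqp, hrA⟩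
    exact ⟨a, ha, s, hs, h.trans s hs r hr q hq hsr hrq, hsa⟩)
  have h2 : (⋃ c ∈ C, body c \ A) ∈ Nul γ := Nul.biUnion hC2 (fun c hc => (hC1 hc).2.2)
  refine Nul.subset (Nul.union h1 h2) ?_
  rintro ω ⟨hω, hωA⟩
  by_cases h3 : ω ∈ ⋃ c ∈ C, body c
  · obtain ⟨c, hc, hωc⟩ := Set.mem_iUnion₂.1 h3
    exact Or.inr (Set.mem_iUnion₂.2 ⟨c, hc, hωc, hωA⟩)
  · exact Or.inl ⟨hω, h3⟩

theorem Hyp.not_fo (h : Hyp γ) (hp : p ∈ Pset γ) (hA : Meas γ A) (hn : body p \ A ∉ Nul γ) :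
    ∃ q ∈ Pset γ, Le q p ∧ body q \ Aᶜ ∈ Nul γ := by
  by_contra hcon
  push Not at hcon
  apply hn
  apply h.of_dense hp
  intro q hq hqp
  obtain ⟨r, hr, hrq, hr1⟩ := h.dec A hA q hq
  refine ⟨r, hr, hrq, ?_⟩
  rcases hr1 with h1 | h1
  · exact h1
  · exfalso
    refine hcon r hr (h.trans r hr q hq p hp hrq hqp) ?_
    rw [Set.sdiff_compl]
    exact h1

theorem Hyp.iUnion_select (h : Hyp γ) (hp : p ∈ Pset γ) {ι : Type} [Countable ι]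
    {A : ι → Set (Om κ)} (hA : ∀ i, Meas γ (A i)) (hn : body p \ (⋃ i, A i) ∈ Nul γ) :
    ∃ i, ∃ q ∈ Pset γ, Le q p ∧ body q \ A i ∈ Nul γ := by
  by_contra hcon
  push Not at hcon
  have h1 : ∀ i, body p \ (A i)ᶜ ∈ Nul γ := by
    intro i
    apply h.of_dense hp
    intro q hq hqp
    obtain ⟨r, hr, hrq, hr1⟩ := h.dec (A i) (hA i) q hq
    refine ⟨r, hr, hrq, ?_⟩
    rcases hr1 with h1 | h1
    · exact absurd h1 (hcon i r hr (h.trans r hr q hq p hp hrq hqp))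
    · rw [Set.sdiff_compl]
      exact h1
  apply h.ne p hp
  refine Nul.subset (Nul.union hn (Nul.iUnion h1)) ?_
  intro ω hω
  by_cases h3 : ω ∈ ⋃ i, A i
  · obtain ⟨i, hi⟩ := Set.mem_iUnion.1 h3
    exact Or.inr (Set.mem_iUnion.2 ⟨i, hω, fun h => h hi⟩)
  · exact Or.inl ⟨hω, h3⟩

end Pool.Agent.FSI
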