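import Pool.Agent.FSI.Ops

set_option autoImplicit false

/-! # Null sets and the order: facts which need no induction

PROOFS.
* `empty_mem_Nul`: strong induction on `γ`. Take `D n = Pset γ` (`mem_Nul`); it is dense because
  `Le p p` for `p ∈ Pset γ`: for `ξ ∈ p.supp` we have `ξ < γ`, `badAt ξ p p = ∅` (`Ok.refl`), and
  `∅ ∈ Nul ξ` by induction. Afterwards `Le.refl` holds for all `p`.
* `Nul.subset`, `Nul.iUnion`: from `mem_Nul`; for a countable union take all the dense sets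
  (`Nat.pair` or `Encodable`/`exists_surjective_nat`); if `ι` is empty the union is `∅`.
* `le_of_same`: `badAt ξ p q = ∅` for `ξ ∈ q.supp` (`Ok.of_sub`).
* `Le.restr`: for `ξ ∈ (restr q γ).supp`: `ξ < γ`, `restr (restr p γ) ξ = restr p ξ`, and `badAt` is
  unchanged.
* `le_glue`: at `ξ ∈ r.supp` with `ξ < γ`: from `h` (`ξ ∈ (restr r γ).supp`), with
  `body (restr (glue γ d r) ξ) = body (restr d ξ)`; at `¬ ξ < γ`: same stem and promise, so
  `badAt = ∅`.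
* `amalg_left`, `amalg_right`: the same; stems of `meet p q` on `p.supp` are those of `p`. At
  `ξ = γ ∈ q.supp`, `γ ∈ p.supp`: `badAt γ (glue ..) q ⊆ {ω | ¬ Path ..}` and the body of the
  restriction to `γ` is the body of `restr e γ = e`.
* `Ae` facts: interleave the sequences of dense sets. `Ae.filt`: the filter and the extension
  property hold by definition of the quantifier (use `D n = Pset γ`).
* `Filt.restr`: `G ∩ Pset δ` is a filter of `Pset δ`: it contains `triv` (`le_triv`), directed by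
  `restr`. `Den.lift`: for `D` dense in `Pset δ` the set `{r ∈ Pset γ | restr r δ ∈ D}` is dense in
  `Pset γ`: given `p`, take `d ∈ D` with `Le d (restr p δ)`, then `glue δ d p`; its restriction to
  `δ` need not be equal to `d`, so use instead `{r ∈ Pset γ | ∃ d ∈ D, Le r d}` which is dense by
  `le_glue` and `glue_le`. `Ae.proj`: if `r ∈ G`, `Le r d`, `d ∈ D ⊆ Pset δ`, then `d ∈ G ∩ Pset δ`.
* `Nul_mono`: from `Ae.proj` (`Ext (G ∩ Pset δ) ω` follows from `Ext G ω`). -/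

namespace Pool.Agent.FSI

variable {κ : Type} [LinearOrder κ] [WellFoundedLT κ] {γ δ ξ : κ} {p q r d e : Cond κ}
  {A A' : Set (Om κ)}

theorem empty_mem_Nul (γ : κ) : (∅ : Set (Om κ)) ∈ Nul γ := by
  induction γ using WellFoundedLT.induction with
  | ind γ ih =>
    rw [mem_Nul]
    refine ⟨fun _ => Pset γ, fun _ => ⟨subset_rfl, fun p hp => ⟨p, hp, subset_rfl,
      fun ξ hξ => ⟨List.prefix_rfl, ?_⟩⟩⟩, fun G _ _ ω _ => Set.notMem_empty ω⟩
    have h1 : body (restr p ξ) ∩ badAt ξ p p = ∅ := by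
      ext ω
      simp only [badAt, Set.mem_inter_iff, Set.mem_ofPred_eq, Set.mem_empty_iff_false, iff_false]
      exact fun h => h.2 Ok.refl
    rw [h1]
    exact ih ξ (hp ξ hξ)

theorem Le.refl (p : Cond κ) : Le p p := by
  refine ⟨subset_rfl, fun ξ _ => ⟨List.prefix_rfl, ?_⟩⟩
  have h1 : body (FSI.restr p ξ) ∩ badAt ξ p p = ∅ := by
    ext ω
    simp only [badAt, Set.mem_inter_iff, Set.mem_ofPred_eq, Set.mem_empty_iff_false, iff_false]
    exact fun h => h.2 Ok.refl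
  rw [h1]
  exact empty_mem_Nul ξ

private theorem ideal_den (γ : κ) : Den γ (Pset γ : Set (Cond κ)) :=
  ⟨subset_rfl, fun p hp => ⟨p, hp, Le.refl p⟩⟩

theorem Ae.mono {φ ψ : Set (Cond κ) → Om κ → Prop} (h : Ae γ φ) (h' : ∀ G ω, φ G ω → ψ G ω) :
    Ae γ ψ := by
  obtain ⟨D, hD, h1⟩ := h
  exact ⟨D, hD, fun G hG h2 ω hω => h' G ω (h1 G hG h2 ω hω)⟩

theorem Ae.all {ι : Type} [Countable ι] {φ : ι → Set (Cond κ) → Om κ → Prop}
    (h : ∀ i, Ae γ (φ i)) : Ae γ fun G ω => ∀ i, φ i G ω := by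
  rcases isEmpty_or_nonempty ι with hι | hι
  · exact ⟨fun _ => Pset γ, fun _ => ideal_den γ, fun G _ _ ω _ i => (hι.false i).elim⟩
  · choose D hD h1 using h
    obtain ⟨f, hf⟩ := exists_surjective_nat (ι × ℕ)
    refine ⟨fun n => D (f n).1 (f n).2, fun n => hD _ _, fun G hG h2 ω hω i => ?_⟩
    refine h1 i G hG (fun n => ?_) ω hω
    obtain ⟨m, hm⟩ := hf (i, n)
    have h3 : (G ∩ D (f m).1 (f m).2).Nonempty := h2 m
    rw [hm] at h3
    exact h3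

theorem Ae.ball {S : Set (Cond κ)} (hS : S.Countable) {φ : Cond κ → Set (Cond κ) → Om κ → Prop}
    (h : ∀ i ∈ S, Ae γ (φ i)) : Ae γ fun G ω => ∀ i ∈ S, φ i G ω := by
  have := hS.to_subtype
  exact (Ae.all (ι := S) (φ := fun i => φ i) fun i => h i i.2).mono
    fun G ω h1 i hi => h1 ⟨i, hi⟩

theorem Ae.and {φ ψ : Set (Cond κ) → Om κ → Prop} (h : Ae γ φ) (h' : Ae γ ψ) :
    Ae γ fun G ω => φ G ω ∧ ψ G ω := by
  have h1 : ∀ b : Bool, Ae γ (fun G ω => cond b (φ G ω) (ψ G ω)) := by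
    intro b
    cases b
    · exact h'
    · exact h
  exact (Ae.all h1).mono fun G ω h2 => ⟨h2 true, h2 false⟩

theorem Ae.filt (γ : κ) : Ae γ fun G ω => Filt γ G ∧ Ext G ω :=
  ⟨fun _ => Pset γ, fun _ => ideal_den γ, fun G hG _ ω hω => ⟨hG, hω⟩⟩

theorem Ae.dense {D : Set (Cond κ)} (hD : Den γ D) : Ae γ fun G _ => (G ∩ D).Nonempty :=
  ⟨fun _ => D, fun _ => hD, fun G _ h ω _ => h 0⟩

theorem Nul.subset (h : A ∈ Nul γ) (hs : A' ⊆ A) : A' ∈ Nul γ := by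
  rw [mem_Nul_iff] at h ⊢
  exact h.mono fun G ω h1 h2 => h1 (hs h2)

theorem Nul.iUnion {ι : Type} [Countable ι] {f : ι → Set (Om κ)} (h : ∀ i, f i ∈ Nul γ) :
    (⋃ i, f i) ∈ Nul γ := by
  rw [mem_Nul_iff]
  refine (Ae.all fun i => mem_Nul_iff.1 (h i)).mono fun G ω h1 h2 => ?_
  obtain ⟨i, hi⟩ := Set.mem_iUnion.1 h2
  exact h1 i hi

theorem Nul.union (h : A ∈ Nul γ) (h' : A' ∈ Nul γ) : A ∪ A' ∈ Nul γ := by
  rw [Set.union_eq_iUnion]
  refine Nul.iUnion fun b => ?_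
  cases b
  · exact h'
  · exact h

theorem Nul.biUnion {ι : Type} {S : Set ι} (hS : S.Countable) {f : ι → Set (Om κ)}
    (h : ∀ i ∈ S, f i ∈ Nul γ) : (⋃ i ∈ S, f i) ∈ Nul γ := by
  have := hS.to_subtype
  rw [Set.biUnion_eq_iUnion]
  exact Nul.iUnion fun i => h i i.2

theorem le_triv : Le p (triv : Cond κ) :=
  ⟨Finset.empty_subset _, fun ξ h => absurd h (Finset.notMem_empty ξ)⟩

private theorem ideal_bad {s t : List E} {φ ψ : Om κ → List E → Set E} {B : Set (Om κ)}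
    (h1 : t = s) (h2 : ∀ ω u, ψ ω u ⊆ φ ω u) :
    B ∩ {ω | ¬ Ok s (φ ω) t (ψ ω)} ∈ Nul γ := by
  have h3 : B ∩ {ω | ¬ Ok s (φ ω) t (ψ ω)} = ∅ := by
    ext ω
    simp only [Set.mem_inter_iff, Set.mem_ofPred_eq, Set.mem_empty_iff_false, iff_false]
    intro h
    subst h1
    exact h.2 (Ok.of_sub (h2 ω))
  rw [h3]
  exact empty_mem_Nul γ

theorem le_of_same (h : q.supp ⊆ p.supp) (h1 : ∀ ξ ∈ q.supp, p.st ξ = q.st ξ)
    (h2 : ∀ ξ ∈ q.supp, ∀ ω t, p.nm ξ ω t ⊆ q.nm ξ ω t) : Le p q := by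
  refine ⟨h, fun ξ hξ => ⟨?_, ideal_bad (h1 ξ hξ) (h2 ξ hξ)⟩⟩
  rw [h1 ξ hξ]

theorem le_restr : Le p (restr p γ) :=
  le_of_same (Finset.filter_subset _ _) (fun _ _ => rfl) fun _ _ _ _ => subset_rfl

theorem Le.restr (h : Le p q) : Le (restr p γ) (restr q γ) := by
  refine ⟨fun ξ hξ => ?_, fun ξ hξ => ?_⟩
  · rw [mem_restr_supp] at hξ ⊢
    exact ⟨h.1 hξ.1, hξ.2⟩
  · rw [mem_restr_supp] at hξ
    have h1 := h.2 ξ hξ.1
    refine ⟨h1.1, ?_⟩
    rw [restr_restr hξ.2.le]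
    exact h1.2

/-- restriction of the left side -/
theorem Le.restr_left (h : Le p q) (hq : q ∈ Pset γ) : Le (FSI.restr p γ) q := by
  have h1 := Le.restr (γ := γ) h
  rw [restr_eq hq] at h1
  exact h1

theorem Le.restr_right (h : Le p q) : Le p (FSI.restr q γ) := by
  refine ⟨(Finset.filter_subset _ _).trans h.1, fun ξ hξ => ?_⟩
  rw [mem_restr_supp] at hξ
  exact h.2 ξ hξ.1

private theorem ideal_low {a b : Cond κ} (h : Le d (restr a γ)) (hξ : ξ ∈ a.supp) (hlt : ξ < γ) :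
    a.st ξ <+: (glue γ d b).st ξ ∧
      body (restr (glue γ d b) ξ) ∩ badAt ξ (glue γ d b) a ∈ Nul ξ := by
  have h1 := h.2 ξ (mem_restr_supp.2 ⟨hξ, hlt⟩)
  have h2 : (glue γ d b).st ξ = d.st ξ := if_pos hlt
  have h3 : (glue γ d b).nm ξ = d.nm ξ := if_pos hlt
  rw [h2, body_restr_glue hlt.le]
  refine ⟨h1.1, ?_⟩
  have h4 : badAt ξ (glue γ d b) a = badAt ξ d (restr a γ) := by
    unfold badAt
    rw [h2, h3]
    rfl
  rw [h4]
  exact h1.2

theorem le_glue (hd : d ∈ Pset γ) (h : Le d (restr r γ)) : Le (glue γ d r) r := by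
  refine ⟨fun ξ hξ => ?_, fun ξ hξ => ?_⟩
  · rw [mem_glue_supp]
    by_cases hlt : ξ < γ
    · exact Or.inl ⟨hlt, h.1 (mem_restr_supp.2 ⟨hξ, hlt⟩)⟩
    · exact Or.inr ⟨hlt, hξ⟩
  · by_cases hlt : ξ < γ
    · exact ideal_low h hξ hlt
    · have h2 : (glue γ d r).st ξ = r.st ξ := if_neg hlt
      have h3 : (glue γ d r).nm ξ = r.nm ξ := if_neg hlt
      refine ⟨by rw [h2], ideal_bad h2 fun ω u => by rw [h3]⟩

theorem glue_le (hd : d ∈ Pset γ) : Le (glue γ d r) d := by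
  refine le_of_same (fun ξ hξ => ?_) (fun ξ hξ => if_pos (hd ξ hξ)) fun ξ hξ ω t => ?_
  · rw [mem_glue_supp]
    exact Or.inl ⟨hd ξ hξ, hξ⟩
  · have h3 : (glue γ d r).nm ξ = d.nm ξ := if_pos (hd ξ hξ)
    rw [h3]

theorem amalg_left (he : e ∈ Pset γ) (h : Le e (restr p γ)) : Le (glue γ e (meet p q)) p := by
  refine ⟨fun ξ hξ => ?_, fun ξ hξ => ?_⟩
  · rw [mem_glue_supp]
    by_cases hlt : ξ < γ
    · exact Or.inl ⟨hlt, h.1 (mem_restr_supp.2 ⟨hξ, hlt⟩)⟩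
    · exact Or.inr ⟨hlt, mem_meet_supp.2 (Or.inl hξ)⟩
  · by_cases hlt : ξ < γ
    · exact ideal_low h hξ hlt
    · have h2 : (glue γ e (meet p q)).st ξ = p.st ξ := (if_neg hlt).trans (if_pos hξ)
      have h3 : (glue γ e (meet p q)).nm ξ = (meet p q).nm ξ := if_neg hlt
      refine ⟨by rw [h2], ideal_bad h2 fun ω u => ?_⟩
      rw [h3]
      exact fun x hx => hx.1 hξ

theorem amalg_right (he : e ∈ Pset γ) (h : Le e (restr q γ))
    (h1 : ∀ ξ ∈ q.supp, γ < ξ → ξ ∈ p.supp → p.st ξ = q.st ξ)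
    (h2 : γ ∈ q.supp → γ ∈ p.supp → q.st γ <+: p.st γ ∧
      body e ∩ {ω | ¬ Path (q.nm γ ω) (q.st γ) (p.st γ)} ∈ Nul γ) :
    Le (glue γ e (meet p q)) q := by
  refine ⟨fun ξ hξ => ?_, fun ξ hξ => ?_⟩
  · rw [mem_glue_supp]
    by_cases hlt : ξ < γ
    · exact Or.inl ⟨hlt, h.1 (mem_restr_supp.2 ⟨hξ, hlt⟩)⟩
    · exact Or.inr ⟨hlt, mem_meet_supp.2 (Or.inr hξ)⟩
  · by_cases hlt : ξ < γ
    · exact ideal_low h hξ hlt
    · have h3 : (glue γ e (meet p q)).st ξ = (meet p q).st ξ := if_neg hlt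
      have h4 : (glue γ e (meet p q)).nm ξ = (meet p q).nm ξ := if_neg hlt
      have h5 : ∀ ω u, (glue γ e (meet p q)).nm ξ ω u ⊆ q.nm ξ ω u := by
        intro ω u
        rw [h4]
        exact fun x hx => hx.2 hξ
      by_cases hp : ξ ∈ p.supp
      · have h6 : (glue γ e (meet p q)).st ξ = p.st ξ := h3.trans (if_pos hp)
        rcases (not_lt.1 hlt).eq_or_lt with heq | hgt
        · subst heq
          obtain ⟨h7, h8⟩ := h2 hξ hp
          rw [h6]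
          refine ⟨h7, Nul.subset h8 ?_⟩
          rw [body_restr_glue le_rfl, restr_eq he]
          rintro ω ⟨h9, h10⟩
          refine ⟨h9, fun h11 => h10 ?_⟩
          rw [h6]
          exact ⟨h11, fun u _ => h5 ω u⟩
        · have h7 := h6.trans (h1 ξ hξ hgt hp)
          exact ⟨by rw [h7], ideal_bad h7 h5⟩
      · have h7 : (glue γ e (meet p q)).st ξ = q.st ξ := h3.trans (if_neg hp)
        exact ⟨by rw [h7], ideal_bad h7 h5⟩

/-- adding a coordinate with empty stem -/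
theorem upd_le_of_notMem (h : γ ∉ p.supp) {s : List E} {φ : Om κ → List E → Set E}
    {hm : ∀ t e, Meas γ {ω | e ∈ φ ω t}} {hb : ∀ ω t, Big (φ ω t)} :
    Le (upd p γ s φ hm hb) p := by
  have h0 : ∀ ξ ∈ p.supp, ξ ≠ γ := fun ξ hξ heq => h (heq ▸ hξ)
  refine le_of_same (Finset.subset_insert _ _) (fun ξ hξ => if_neg (h0 ξ hξ)) fun ξ hξ ω t => ?_
  have h3 : (upd p γ s φ hm hb).nm ξ = p.nm ξ := if_neg (h0 ξ hξ)
  rw [h3]

theorem Filt.restr {G : Set (Cond κ)} (h : Filt γ G) (hδ : δ ≤ γ) : Filt δ (G ∩ Pset δ) := by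
  refine ⟨Set.inter_subset_right, ?_, ?_, ?_⟩
  · obtain ⟨p, hp⟩ := h.ne
    exact ⟨triv, h.up p hp triv triv_mem le_triv, triv_mem⟩
  · intro p hp q hq h1
    exact ⟨h.up p hp.1 q (Pset_mono hδ hq) h1, hq⟩
  · intro p hp q hq
    obtain ⟨r, hr, h1, h2⟩ := h.dir p hp.1 q hq.1
    refine ⟨FSI.restr r δ, ⟨h.up r hr _ (Pset_mono hδ restr_mem) le_restr, restr_mem⟩, ?_, ?_⟩
    · exact Le.restr_left h1 hp.2
    · exact Le.restr_left h2 hq.2

theorem Den.lift {D : Set (Cond κ)} (hD : Den δ D) (hδ : δ ≤ γ) :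
    Den γ {r | r ∈ Pset γ ∧ ∃ d ∈ D, Le r d} := by
  refine ⟨fun r hr => hr.1, fun p hp => ?_⟩
  obtain ⟨d, hd, h1⟩ := hD.2 (restr p δ) restr_mem
  have hd' := hD.1 hd
  exact ⟨glue δ d p, ⟨glue_mem hδ hp, d, hd, glue_le hd'⟩, le_glue hd' h1⟩

theorem Ae.proj {φ : Set (Cond κ) → Om κ → Prop} (h : Ae δ φ) (hδ : δ ≤ γ) :
    Ae γ fun G ω => φ (G ∩ Pset δ) ω := by
  obtain ⟨D, hD, h1⟩ := h
  refine ⟨fun n => {r | r ∈ Pset γ ∧ ∃ d ∈ D n, Le r d}, fun n => Den.lift (hD n) hδ,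
    fun G hG h2 ω hω => ?_⟩
  refine h1 _ (Filt.restr hG hδ) (fun n => ?_) ω fun p hp => hω p hp.1
  obtain ⟨r, hr, -, d, hd, h3⟩ := h2 n
  have hd' := (hD n).1 hd
  exact ⟨d, ⟨hG.up r hr d (Pset_mono hδ hd') h3, hd'⟩, hd⟩

theorem Nul_mono (h : δ ≤ γ) (hA : A ∈ Nul δ) : A ∈ Nul γ := by
  rw [mem_Nul_iff] at hA ⊢
  exact hA.proj h

end Pool.Agent.FSI
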