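import Mathlib

set_option autoImplicit false

/-! # Finitely supported rational sub-probabilities on the natural numbers

`mass b l` = the mass of `b`, `V b l` = the cost: the mass of `b` plus one quarter of the missing mass.
`res d l` = restriction to `d`, `avg D f` = average, `nrm l` = normalisation.

PROOFS. `mass` is `l.sum`; use `Finsupp.sum` and `Finset.sum_subset` to enlarge supports.
`mass_eq_sum`: for a finset `T` containing the support. Additivity from `Finsupp.sum_add_index'`,
scalars from `Finsupp.sum_smul_index'`; sums by `Finset.induction`.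
`V_avg`: `V b` is affine. `V_res_le`: the difference is
`∑ i ∉ d, l i * (1 - 1 / 4) ≥ 0` because the `i ∈ l.support` outside `d` are in `b`.
`nrm`: if `V b l ≤ r < 1 / 4` then `mass univ l ≠ 0`; with `M = mass univ l ∈ (0, 1]`:
`mass b l = V b l - (1 - M) / 4 ≤ r - (1 - M) / 4` and `(r - (1 - M) / 4) / M ≤ r` because
`r - 1 / 4 + M / 4 ≤ r * M` iff `(1 - M) * r ≤ (1 - M) / 4`. -/

namespace Pool.Agent.FSI

open Classical in
/-- The mass of `b`. -/
noncomputable def mass (b : Set ℕ) (l : ℕ →₀ ℚ) : ℚ := l.sum fun i x => if i ∈ b then x else 0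

/-- Sub-probabilities. -/
def IsSub (l : ℕ →₀ ℚ) : Prop := (∀ i, 0 ≤ l i) ∧ mass Set.univ l ≤ 1

/-- Probabilities. -/
def IsProb (l : ℕ →₀ ℚ) : Prop := (∀ i, 0 ≤ l i) ∧ mass Set.univ l = 1

/-- The cost. -/
noncomputable def V (b : Set ℕ) (l : ℕ →₀ ℚ) : ℚ := mass b l + (1 - mass Set.univ l) / 4

open Classical in
/-- Restriction. -/
noncomputable def res (d : Set ℕ) (l : ℕ →₀ ℚ) : ℕ →₀ ℚ := l.filter (· ∈ d)

/-- Average. -/
noncomputable def avg {ι : Type} (D : Finset ι) (f : ι → ℕ →₀ ℚ) : ℕ →₀ ℚ :=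
  (D.card : ℚ)⁻¹ • ∑ i ∈ D, f i

/-- Normalisation. -/
noncomputable def nrm (l : ℕ →₀ ℚ) : ℕ →₀ ℚ := (mass Set.univ l)⁻¹ • l

variable {b b' d : Set ℕ} {l l' : ℕ →₀ ℚ}

open Classical in
theorem mass_eq_sum (T : Finset ℕ) (h : l.support ⊆ T) :
    mass b l = ∑ i ∈ T, if i ∈ b then l i else 0 := by
  unfold mass
  rw [Finsupp.sum]
  apply Finset.sum_subset h
  intro i _ hi
  rw [Finsupp.notMem_support_iff] at hi
  simp [hi]

theorem mass_zero : mass b 0 = 0 := by
  unfold mass
  exact Finsupp.sum_zero_index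

theorem mass_add : mass b (l + l') = mass b l + mass b l' := by
  classical
  rw [mass_eq_sum (b := b) (l := l) (l.support ∪ l'.support) Finset.subset_union_left,
    mass_eq_sum (b := b) (l := l') (l.support ∪ l'.support) Finset.subset_union_right,
    mass_eq_sum (b := b) (l := l + l') (l.support ∪ l'.support) Finsupp.support_add,
    ← Finset.sum_add_distrib]
  apply Finset.sum_congr rfl
  intro i _
  by_cases h : i ∈ b
  · simp [h]
  · simp [h]

theorem mass_smul (c : ℚ) : mass b (c • l) = c * mass b l := by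
  classical
  rw [mass_eq_sum (b := b) (l := l) l.support (Finset.Subset.refl _),
    mass_eq_sum (b := b) (l := c • l) l.support Finsupp.support_smul, Finset.mul_sum]
  apply Finset.sum_congr rfl
  intro i _
  by_cases h : i ∈ b
  · simp [h]
  · simp [h]

theorem mass_sum {ι : Type} (D : Finset ι) (f : ι → ℕ →₀ ℚ) :
    mass b (∑ i ∈ D, f i) = ∑ i ∈ D, mass b (f i) := by
  classical
  induction D using Finset.induction_on with
  | empty =>
    rw [Finset.sum_empty, Finset.sum_empty]
    exact mass_zero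
  | insert a D ha ih =>
    rw [Finset.sum_insert ha, Finset.sum_insert ha, mass_add, ih]

theorem mass_single (i : ℕ) (x : ℚ) : mass Set.univ (Finsupp.single i x) = x := by
  classical
  rw [mass_eq_sum (b := Set.univ) (l := Finsupp.single i x) {i} Finsupp.support_single_subset]
  simp

theorem mass_nonneg (h : ∀ i, 0 ≤ l i) : 0 ≤ mass b l := by
  classical
  rw [mass_eq_sum (b := b) (l := l) l.support (Finset.Subset.refl _)]
  apply Finset.sum_nonneg
  intro i _
  split_ifs
  · exact h i
  · exact le_rfl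

theorem mass_mono (h : ∀ i, 0 ≤ l i) (hb : b ⊆ b') : mass b l ≤ mass b' l := by
  classical
  rw [mass_eq_sum (b := b) (l := l) l.support (Finset.Subset.refl _),
    mass_eq_sum (b := b') (l := l) l.support (Finset.Subset.refl _)]
  apply Finset.sum_le_sum
  intro i _
  by_cases h1 : i ∈ b
  · rw [if_pos h1, if_pos (hb h1)]
  · rw [if_neg h1]
    split_ifs
    · exact h i
    · exact le_rfl

theorem mass_congr (h : ∀ i ∈ l.support, (i ∈ b ↔ i ∈ b')) : mass b l = mass b' l := by
  classical
  rw [mass_eq_sum (b := b) (l := l) l.support (Finset.Subset.refl _),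
    mass_eq_sum (b := b') (l := l) l.support (Finset.Subset.refl _)]
  apply Finset.sum_congr rfl
  intro i hi
  have := h i hi
  by_cases h1 : i ∈ b
  · rw [if_pos h1, if_pos (this.1 h1)]
  · rw [if_neg h1, if_neg (fun h2 => h1 (this.2 h2))]

theorem V_congr (h : ∀ i ∈ l.support, (i ∈ b ↔ i ∈ b')) : V b l = V b' l := by
  unfold V
  rw [mass_congr h]

theorem IsSub.V_nonneg (h : IsSub l) : 0 ≤ V b l := by
  have h1 : 0 ≤ mass b l := mass_nonneg h.1
  have h2 := h.2
  unfold V
  linarith

theorem IsSub.V_le_one (h : IsSub l) : V b l ≤ 1 := by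
  have h1 : mass b l ≤ mass Set.univ l := mass_mono h.1 (Set.subset_univ b)
  have h2 := h.2
  unfold V
  linarith

theorem IsProb.isSub (h : IsProb l) : IsSub l := ⟨h.1, h.2.le⟩

theorem IsProb.V_eq (h : IsProb l) : V b l = mass b l := by
  unfold V
  rw [h.2]
  ring

theorem isProb_single (i : ℕ) : IsProb (Finsupp.single i 1) := by
  classical
  refine ⟨?_, mass_single i 1⟩
  intro j
  rw [Finsupp.single_apply]
  split_ifs
  · exact zero_le_one
  · exact le_rfl

theorem isSub_zero : IsSub 0 := by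
  refine ⟨fun i => le_rfl, ?_⟩
  rw [mass_zero]
  exact zero_le_one

theorem V_zero : V b 0 = 1 / 4 := by
  unfold V
  rw [mass_zero, mass_zero]
  norm_num

theorem res_apply (i : ℕ) [Decidable (i ∈ d)] : res d l i = if i ∈ d then l i else 0 := by
  classical
  unfold res
  by_cases h : i ∈ d
  · rw [if_pos h, Finsupp.filter_apply_pos _ _ h]
  · rw [if_neg h, Finsupp.filter_apply_neg _ _ h]

theorem res_univ : res Set.univ l = l := by
  classical
  ext i
  rw [res_apply, if_pos (Set.mem_univ i)]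

theorem mem_res_support {i : ℕ} : i ∈ (res d l).support ↔ i ∈ l.support ∧ i ∈ d := by
  classical
  rw [Finsupp.mem_support_iff, Finsupp.mem_support_iff, res_apply]
  by_cases h : i ∈ d
  · simp [h]
  · simp [h]

theorem mass_res : mass b (res d l) = mass (b ∩ d) l := by
  classical
  rw [mass_eq_sum (b := b) (l := res d l) l.support (fun i hi => (mem_res_support.1 hi).1),
    mass_eq_sum (b := b ∩ d) (l := l) l.support (Finset.Subset.refl _)]
  apply Finset.sum_congr rfl
  intro i _
  rw [res_apply]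
  by_cases h1 : i ∈ b
  · by_cases h2 : i ∈ d
    · rw [if_pos h1, if_pos h2, if_pos ⟨h1, h2⟩]
    · rw [if_pos h1, if_neg h2, if_neg (fun h => h2 h.2)]
  · rw [if_neg h1, if_neg (fun h => h1 h.1)]

theorem IsSub.res (h : IsSub l) : IsSub (FSI.res d l) := by
  classical
  refine ⟨?_, ?_⟩
  · intro i
    rw [res_apply]
    split_ifs
    · exact h.1 i
    · exact le_rfl
  · rw [mass_res]
    exact (mass_mono h.1 (Set.subset_univ _)).trans h.2

/-- restriction to `d` does not increase the cost if the rest of the support is in `b` -/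
theorem V_res_le (h : ∀ i, 0 ≤ l i) (hd : ∀ i ∈ l.support, i ∉ d → i ∈ b) :
    V b (res d l) ≤ V b l := by
  classical
  have h1 : mass b l + mass d l = mass (b ∩ d) l + mass Set.univ l := by
    rw [mass_eq_sum (b := b) (l := l) l.support (Finset.Subset.refl _),
      mass_eq_sum (b := d) (l := l) l.support (Finset.Subset.refl _),
      mass_eq_sum (b := b ∩ d) (l := l) l.support (Finset.Subset.refl _),
      mass_eq_sum (b := Set.univ) (l := l) l.support (Finset.Subset.refl _),
      ← Finset.sum_add_distrib, ← Finset.sum_add_distrib]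
    apply Finset.sum_congr rfl
    intro i hi
    rw [if_pos (Set.mem_univ i)]
    by_cases h2 : i ∈ d
    · by_cases h3 : i ∈ b
      · rw [if_pos h3, if_pos h2, if_pos ⟨h3, h2⟩]
      · rw [if_neg h3, if_pos h2, if_neg (fun h => h3 h.1)]
    · have h3 := hd i hi h2
      rw [if_pos h3, if_neg h2, if_neg (fun h => h2 h.2)]
      ring
  have h4 : mass d l ≤ mass Set.univ l := mass_mono h (Set.subset_univ d)
  unfold V
  rw [mass_res, mass_res, Set.univ_inter]
  linarith

theorem avg_apply {ι : Type} (D : Finset ι) (f : ι → ℕ →₀ ℚ) (j : ℕ) :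
    avg D f j = (D.card : ℚ)⁻¹ * ∑ i ∈ D, f i j := by
  unfold avg
  rw [Finsupp.smul_apply, smul_eq_mul, Finsupp.finsetSum_apply]

theorem mass_avg {ι : Type} (D : Finset ι) (f : ι → ℕ →₀ ℚ) :
    mass b (avg D f) = (D.card : ℚ)⁻¹ * ∑ i ∈ D, mass b (f i) := by
  unfold avg
  rw [mass_smul, mass_sum]

theorem avg_isSub {ι : Type} {D : Finset ι} {f : ι → ℕ →₀ ℚ} (h : ∀ i ∈ D, IsSub (f i)) :
    IsSub (avg D f) := by
  have hc : 0 ≤ (D.card : ℚ)⁻¹ := inv_nonneg.mpr (Nat.cast_nonneg _)
  refine ⟨?_, ?_⟩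
  · intro j
    rw [avg_apply]
    exact mul_nonneg hc (Finset.sum_nonneg fun i hi => (h i hi).1 j)
  · rw [mass_avg]
    have h1 : ∑ i ∈ D, mass Set.univ (f i) ≤ (D.card : ℚ) := by
      have := Finset.sum_le_card_nsmul D (fun i => mass Set.univ (f i)) 1 fun i hi => (h i hi).2
      simpa using this
    calc (D.card : ℚ)⁻¹ * ∑ i ∈ D, mass Set.univ (f i) ≤ (D.card : ℚ)⁻¹ * (D.card : ℚ) :=
          mul_le_mul_of_nonneg_left h1 hc
      _ ≤ 1 := inv_mul_le_one

theorem mem_avg_support {ι : Type} {D : Finset ι} {f : ι → ℕ →₀ ℚ} {i : ℕ}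
    (h : i ∈ (avg D f).support) : ∃ j ∈ D, i ∈ (f j).support := by
  by_contra hcon
  push Not at hcon
  rw [Finsupp.mem_support_iff, avg_apply] at h
  apply h
  rw [Finset.sum_eq_zero, mul_zero]
  intro j hj
  exact Finsupp.notMem_support_iff.mp (hcon j hj)

theorem V_avg {ι : Type} {D : Finset ι} (hD : D.Nonempty) (f : ι → ℕ →₀ ℚ) :
    V b (avg D f) = (D.card : ℚ)⁻¹ * ∑ i ∈ D, V b (f i) := by
  have hc : (D.card : ℚ) ≠ 0 := Nat.cast_ne_zero.mpr (Finset.card_ne_zero.mpr hD)
  unfold V
  rw [mass_avg, mass_avg, Finset.sum_add_distrib, ← Finset.sum_div, Finset.sum_sub_distrib]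
  simp only [Finset.sum_const, nsmul_eq_mul, mul_one]
  field_simp

theorem mass_ne_zero (h : IsSub l) {r : ℚ} (hr : r < 1 / 4) (hV : V b l ≤ r) :
    mass Set.univ l ≠ 0 := by
  intro h0
  have h1 : 0 ≤ mass b l := mass_nonneg h.1
  unfold V at hV
  rw [h0] at hV
  linarith

theorem nrm_support {i : ℕ} (h : i ∈ (nrm l).support) : i ∈ l.support :=
  Finsupp.support_smul h

theorem nrm_isProb (h : ∀ i, 0 ≤ l i) (h' : mass Set.univ l ≠ 0) : IsProb (nrm l) := by
  have h0 : 0 ≤ mass Set.univ l := mass_nonneg h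
  refine ⟨?_, ?_⟩
  · intro i
    unfold nrm
    rw [Finsupp.smul_apply, smul_eq_mul]
    exact mul_nonneg (inv_nonneg.mpr h0) (h i)
  · unfold nrm
    rw [mass_smul, inv_mul_cancel₀ h']

theorem nrm_spec (h : IsSub l) {r : ℚ} (hr : r < 1 / 4) (hV : V b l ≤ r) :
    IsProb (nrm l) ∧ mass b (nrm l) ≤ r := by
  have hne := mass_ne_zero h hr hV
  have h0 : 0 ≤ mass Set.univ l := mass_nonneg h.1
  have hpos : 0 < mass Set.univ l := lt_of_le_of_ne h0 (Ne.symm hne)
  refine ⟨nrm_isProb h.1 hne, ?_⟩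
  unfold nrm
  rw [mass_smul, inv_mul_le_iff₀ hpos]
  have h1 := h.2
  unfold V at hV
  nlinarith

/-- the cost of `l'` compared with that of `l` if they are close -/
theorem V_le_of_close {N : ℕ} {η : ℚ} (hl : ∀ i ∈ l.support, i < N) (hl' : ∀ i ∈ l'.support, i < N)
    (h : ∑ i ∈ Finset.range N, |l i - l' i| ≤ η) : V b l' ≤ V b l + η := by
  classical
  have e1 : ∀ (c : Set ℕ), mass c l = ∑ i ∈ Finset.range N, if i ∈ c then l i else 0 :=
    fun c => mass_eq_sum _ (fun i hi => Finset.mem_range.mpr (hl i hi))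
  have e2 : ∀ (c : Set ℕ), mass c l' = ∑ i ∈ Finset.range N, if i ∈ c then l' i else 0 :=
    fun c => mass_eq_sum _ (fun i hi => Finset.mem_range.mpr (hl' i hi))
  have h1 : V b l' - V b l = ∑ i ∈ Finset.range N,
      (((if i ∈ b then l' i else 0) - (if i ∈ b then l i else 0)) - (l' i - l i) / 4) := by
    unfold V
    rw [e1 b, e2 b, e1 Set.univ, e2 Set.univ]
    simp only [Set.mem_univ, if_true]
    rw [Finset.sum_sub_distrib, Finset.sum_sub_distrib, ← Finset.sum_div, Finset.sum_sub_distrib]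
    ring
  have h2 : ∑ i ∈ Finset.range N,
      (((if i ∈ b then l' i else 0) - (if i ∈ b then l i else 0)) - (l' i - l i) / 4) ≤
      ∑ i ∈ Finset.range N, |l i - l' i| := by
    apply Finset.sum_le_sum
    intro i _
    have h3 := abs_nonneg (l i - l' i)
    have h4 := le_abs_self (l i - l' i)
    have h5 := neg_abs_le (l i - l' i)
    split_ifs
    · linarith
    · linarith
  linarith

end Pool.Agent.FSI
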