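import Pool.Agent.FSI.Lam

set_option autoImplicit false

/-! # Normalised tails

`tl N l` = the normalised restriction of `l` to `[N, ∞)`, the point mass at `N` if this has no mass.

PROOF of `V_le_of_tail`. Write `m₁(i) = 1` if `i ∈ b`, else `0`. All sums are over a finset containing
both supports and `Finset.range N`. `V b l' = 1 / 4 + ∑ i < N, l' i * (m₁ i - 1 / 4)` and
`V b l = 1 / 4 + ∑ i < N, l i * (m₁ i - 1 / 4) + ∑ i ≥ N, l i * (m₁ i - 1 / 4)`. The difference of the
sums over `i < N` is at most `∑ |l i - l' i| ≤ η`, as `|m₁ i - 1 / 4| ≤ 1`. With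
`M = ∑ i ≥ N, l i = mass [N, ∞) l ∈ [0, 1]` the last sum is `M * (mass b (tl N l) - 1 / 4) ≥ -η'` if
`M ≠ 0`, and is `0` if `M = 0` (then all `l i`, `i ≥ N`, are `0`). -/

namespace Pool.Agent.FSI

open Classical in
/-- Normalised tail. -/
noncomputable def tl (N : ℕ) (l : ℕ →₀ ℚ) : ℕ →₀ ℚ :=
  if mass Set.univ (res {i | N ≤ i} l) = 0 then Finsupp.single N 1 else nrm (res {i | N ≤ i} l)

variable {b : Set ℕ} {l l' : ℕ →₀ ℚ} {N : ℕ}

theorem tl_isProb (h : IsSub l) : IsProb (tl N l) := by
  unfold tl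
  split_ifs with h0
  · exact isProb_single N
  · exact nrm_isProb h.res.1 h0

theorem tl_support {i : ℕ} (h : i ∈ (tl N l).support) : N ≤ i := by
  unfold tl at h
  split_ifs at h with h0
  · have h1 := Finsupp.support_single_subset h
    rw [Finset.mem_singleton] at h1
    exact h1.ge
  · exact (mem_res_support.1 (nrm_support h)).2

theorem V_le_of_tail (h : IsSub l) (h' : ∀ i ∈ l'.support, i < N) {η η' : ℚ}
    (h1 : ∑ i ∈ Finset.range N, |l i - l' i| ≤ η) (hη' : 0 ≤ η')
    (h2 : 1 / 4 - η' ≤ mass b (tl N l)) : V b l' ≤ V b l + η + η' := by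
  classical
  obtain ⟨r, hr⟩ : ∃ r : ℕ →₀ ℚ, r = res {i | N ≤ i} l := ⟨_, rfl⟩
  obtain ⟨l₁, hl₁⟩ : ∃ l₁ : ℕ →₀ ℚ, l₁ = res {i | i < N} l := ⟨_, rfl⟩
  have hsum : l = l₁ + r := by
    ext i
    rw [Finsupp.add_apply, hl₁, hr, res_apply, res_apply]
    by_cases hi : i < N
    · have hi2 : ¬ N ≤ i := by omega
      simp [hi, hi2]
    · have hi2 : N ≤ i := by omega
      simp [hi, hi2]
  have hr0 : ∀ i, 0 ≤ r i := by rw [hr]; exact h.res.1
  have hrM : mass Set.univ r ≤ 1 := by rw [hr]; exact h.res.2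
  have hV : V b l = V b l₁ + (mass b r - mass Set.univ r / 4) := by
    unfold V
    rw [hsum, mass_add, mass_add]
    ring
  have hS : -η' ≤ mass b r - mass Set.univ r / 4 := by
    by_cases hM : mass Set.univ r = 0
    · have h3 : 0 ≤ mass b r := mass_nonneg hr0
      rw [hM]
      linarith
    · have hMpos : 0 < mass Set.univ r := lt_of_le_of_ne (mass_nonneg hr0) (Ne.symm hM)
      have htl : tl N l = nrm r := by
        unfold tl
        rw [← hr, if_neg hM]
      rw [htl] at h2
      unfold nrm at h2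
      rw [mass_smul] at h2
      have h3 : mass b r = mass Set.univ r * ((mass Set.univ r)⁻¹ * mass b r) := by
        field_simp
      have h4 : mass Set.univ r * (1 / 4 - η') ≤
          mass Set.univ r * ((mass Set.univ r)⁻¹ * mass b r) :=
        mul_le_mul_of_nonneg_left h2 hMpos.le
      have h5 : mass Set.univ r * η' ≤ η' := by nlinarith
      rw [← h3] at h4
      linarith
  have hclose : V b l' ≤ V b l₁ + η := by
    apply V_le_of_close (N := N) _ h'
    · refine le_trans (le_of_eq ?_) h1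
      apply Finset.sum_congr rfl
      intro i hi
      rw [Finset.mem_range] at hi
      rw [hl₁, res_apply]
      simp [hi]
    · intro i hi
      rw [hl₁] at hi
      exact (mem_res_support.1 hi).2
  linarith

end Pool.Agent.FSI
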