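import Pool.Agent.FSI.ThmK

set_option autoImplicit false

/-! # No comparable traces

PROOF of `exists_base`.
(1) For `z ∈ S` the set `{ω | ∃ k c, 2 ^ k * x z ω = c}` is in `Meas δ` (`real_lt_meas`). Suppose that
for uncountably many `z ∈ S` there are `q' ≤ q z` in `Pset θ` and `(k, c)` with
`Fo θ q' {ω | 2 ^ k * x z ω = c}`. By `exists_fiber` the pair `(k, c)` is the same for all `z` in an
uncountable set, and by `centered` two different `z`, `z'` of this set have a common extension `e` of the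
conditions `q'`; then `e` forces `x z ω = x z' ω` and `x z ω ≠ x z' ω`. So for all but countably many
`z ∈ S` there are no such `q'`, hence (`not_fo`, `fo_select`) `Fo θ (q z) {ω | ∀ k c, 2 ^ k * x z ω ≠ c}`.
(2) By `fo_value` (`floor_meas`) choose `q1 z ≤ q z` deciding `⌊x z ω⌋`, and fix the value `a` on an
uncountable set (`exists_fiber`). (3) `delta` for `q1` gives `S1` with equal stems on common supports
(the common support of two different members is the root). Pairwise compatible: `lower_of_st_eq` (for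
`z = z'` trivial). (4) `Fo θ (q1 z) A` implies `Fo δ (restr (q1 z) δ) A` for `Meas δ A`
(`fo_restr_iff`). (5) Let `e ∈ Pset δ` be below `restr (q1 z) δ` and `restr (q1 z') δ`, and suppose that
`e` does not force `x z ω ≠ x z' ω`; take (`not_fo`, `real_eq_meas`) `e' ≤ e` forcing equality, and
`t = glue δ e' (meet (q1 z) (q1 z'))`, which is below `q1 z` and `q1 z'` by `amalg_left`,
`amalg_right` (stems are equal on the common support; at `δ` use `Path.refl`), and below `e'`; at a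
point of `body t` we have a contradiction (`Fo.level`).

PROOF of `thmA`. Take `S1`, `q1`, `a` from `exists_base` and let `X : Dat κ S1` be the corresponding
structure on the subtype with `p0 z = restr (q1 z) δ` (`restr_mem`). `aa z ω = J ω ∩ Ux δ (x z) ω`.
Everything is measurable (`Meas.all`, `Meas.ex`, `UUF_meas`; finiteness of a subset of `ℕ` is
`∃ m, ∀ i, i ∈ A → i < m`).
Case A: for uncountably many `z ∈ S1` some `q' ≤ q1 z` forces `(J ω \ aa z ω).Finite`. By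
`fo_select` there are `m z` and `q'' ≤ q'` forcing `∀ i ∈ J ω, m z ≤ i → i ∈ aa z ω`; fix
`m z = m` on an uncountable set. `thmK_set` with `σ = False`, `γ = θ`, `J`: `i ∈ aa z ω` is valid and
`x z ω ∈ UU ..`, so `i ∉ bF False ..`. (`J ω` is infinite as `aa z ω` is.)
Case B: otherwise there is `z0 ∈ S1` such that no `q' ≤ q1 z0` forces `(J ω \ aa z0 ω).Finite`, so
`q1 z0` forces `(J ω \ aa z0 ω).Infinite` (`not_fo`). For `z ∈ S1`, `z ≠ z0` take a common extension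
`e` of `q1 z`, `q1 z0`; by `htau` and `fo_select` some `e' ≤ e` forces
`(aa z0 ω \ Ux δ (x z) ω).Finite` (first kind) or `(aa z ω \ Ux δ (x z0) ω).Finite` (second kind), and
even (again `fo_select`) with a bound `m z`. Fix the kind and `m` on an uncountable set.
First kind: `thmK_set` with `σ = False`, `J' ω = aa z0 ω`: for `i ∈ aa z0 ω`, `m ≤ i`: `i ∈ Ux δ (x z) ω`,
valid. Second kind: `σ = True`, `J' ω = J ω \ aa z0 ω`: for `i ∈ J' ω`, `m ≤ i`: `i ∉ Ux δ (x z0) ω`, so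
`i ∉ aa z ω`, so `x z ω ∉ UU ..`, `i` valid, `i ∉ bF True ..`. The conditions `e'` are below `q1 z0`, so
they force that `J' ω` is infinite. -/

namespace Pool.Agent.FSI

variable {κ : Type} [LinearOrder κ] [WellFoundedLT κ] {Z : Type*}

/-- The indices of the sets containing `x`. -/
def Ux (δ : κ) (x : Om κ → ℝ) (ω : Om κ) : Set ℕ := {i | x ω ∈ UU (ω δ (idx i).1) (idx i).2}

/-- The valid indices. -/
def Vl (δ : κ) (ω : Om κ) : Set ℕ := {i | vld (idx i).1 (ω δ (idx i).1) (idx i).2}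

private theorem two_ta {ι : Type*} {S : Set ι} (hS : ¬ S.Countable) :
    ∃ i ∈ S, ∃ j ∈ S, i ≠ j := by
  by_contra hcon
  push Not at hcon
  exact hS (Set.Subsingleton.countable fun i hi j hj => hcon i hi j hj)

omit [WellFoundedLT κ] in
private theorem eqm_ta {δ : κ} {y : Om κ → ℝ} (hy : ∀ r : ℚ, Meas δ {ω | (r : ℝ) < y ω}) (k : ℕ)
    (c : ℤ) : Meas δ {ω | 2 ^ k * y ω ≠ c} := by
  have e : {ω | 2 ^ k * y ω ≠ c} = {ω | (c : ℝ) < 2 ^ k * y ω ∨ 2 ^ k * y ω < c} := by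
    ext ω
    exact ne_iff_lt_or_gt.trans or_comm
  rw [e]
  exact Meas.or (real_lt_meas hy k c).1 (real_lt_meas hy k c).2

private theorem unc_ta {S T : Set Z} (hS : ¬ S.Countable) (hT : T.Countable) :
    ¬ (S \ T).Countable := by
  intro h
  refine hS ((h.union hT).mono fun z hz => ?_)
  by_cases hzT : z ∈ T
  · exact Or.inr hzT
  · exact Or.inl ⟨hz, hzT⟩

theorem exists_base {δ θ : κ} (hδ : δ < θ) {S : Set Z} (hS : ¬ S.Countable) {q : Z → Cond κ}
    (hq : ∀ z ∈ S, q z ∈ Pset θ) {x : Z → Om κ → ℝ}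
    (hx : ∀ z, ∀ r : ℚ, Meas δ {ω | (r : ℝ) < x z ω})
    (hne : ∀ z ∈ S, ∀ z' ∈ S, z ≠ z' → ∀ e ∈ Pset θ, Le e (q z) → Le e (q z') →
      Fo θ e {ω | x z ω ≠ x z' ω}) :
    ∃ S1 ⊆ S, ¬ S1.Countable ∧ ∃ (q1 : Z → Cond κ) (a : ℤ),
      (∀ z ∈ S1, q1 z ∈ Pset θ ∧ Le (q1 z) (q z)) ∧
      (∀ z ∈ S1, ∀ z' ∈ S1, Compat θ (q1 z) (q1 z')) ∧
      (∀ z ∈ S1, Fo δ (restr (q1 z) δ) {ω | ∀ (k : ℕ) (c : ℤ), 2 ^ k * x z ω ≠ c}) ∧
      (∀ z ∈ S1, Fo δ (restr (q1 z) δ) {ω | ⌊x z ω⌋ = a}) ∧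
      ∀ z ∈ S1, ∀ z' ∈ S1, z ≠ z' → ∀ e ∈ Pset δ, Le e (restr (q1 z) δ) →
        Le e (restr (q1 z') δ) → Fo δ e {ω | x z ω ≠ x z' ω} := by
  classical
  have : Nonempty (Cond κ) := ⟨triv⟩
  obtain ⟨T, hT⟩ : ∃ T : Set Z, T = {z | z ∈ S ∧ ∃ (q' : Cond κ) (k : ℕ) (c : ℤ),
      q' ∈ Pset θ ∧ Le q' (q z) ∧ Fo θ q' {ω | 2 ^ k * x z ω = c}} := ⟨_, rfl⟩
  have hTc : T.Countable := by
    by_contra hcon
    have h1 : ∀ z, z ∈ T → ∃ (q' : Cond κ) (k : ℕ) (c : ℤ),
        q' ∈ Pset θ ∧ Le q' (q z) ∧ Fo θ q' {ω | 2 ^ k * x z ω = c} := by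
      intro z hz
      rw [hT] at hz
      exact hz.2
    choose! q' k c h2 h3 h4 using h1
    obtain ⟨l, hl⟩ := exists_fiber hcon (fun z => (k z, c z))
    obtain ⟨S', hS', hS'c, hcen⟩ := centered (γ := θ) hl q' (fun z hz => h2 z hz.1)
    obtain ⟨z, hz, z', hz', hne'⟩ := two_ta hS'c
    obtain ⟨r, hr, hrT⟩ := hcen {z, z'} (by
      intro i hi
      rcases Finset.mem_insert.1 hi with rfl | hi
      · exact hz
      · rw [Finset.mem_singleton.1 hi]; exact hz')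
    have hrz := hrT z (Finset.mem_insert_self _ _)
    have hrz' := hrT z' (Finset.mem_insert_of_mem (Finset.mem_singleton_self _))
    have hzT : z ∈ T := (hS' hz).1
    have hzT' : z' ∈ T := (hS' hz').1
    have hkc : k z = k z' ∧ c z = c z' := by
      have e := (hS' hz).2.trans (hS' hz').2.symm
      exact ⟨congrArg Prod.fst e, congrArg Prod.snd e⟩
    have hTS : ∀ y ∈ T, y ∈ S := by
      intro y hy
      rw [hT] at hy
      exact hy.1
    have h5 := (h4 z hzT).le (h2 z hzT) hr hrz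
    have h6 := (h4 z' hzT').le (h2 z' hzT') hr hrz'
    have h7 : Fo θ r {ω | x z ω ≠ x z' ω}ᶜ := by
      refine (h5.inter h6).mono ?_
      rintro ω ⟨h8, h9⟩ h10
      apply h10
      have h8' : 2 ^ k z * x z ω = c z := h8
      have h9' : 2 ^ k z' * x z' ω = c z' := h9
      rw [← hkc.1, ← hkc.2, ← h8'] at h9'
      exact (mul_left_cancel₀ (by positivity) h9').symm
    have h8 := hne z (hTS z hzT) z' (hTS z' hzT') hne' r hr
      (hrz.trans hr (h2 z hzT) (hq z (hTS z hzT)) (h3 z hzT))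
      (hrz'.trans hr (h2 z' hzT') (hq z' (hTS z' hzT')) (h3 z' hzT'))
    exact h8.false h7 hr
  have hS0 := unc_ta hS hTc
  have hnd : ∀ z ∈ S \ T, Fo θ (q z) {ω | ∀ (k : ℕ) (c : ℤ), 2 ^ k * x z ω ≠ c} := by
    intro z hz
    refine Fo.all fun k => Fo.all fun c => ?_
    by_contra hcon
    obtain ⟨q', hq', hle, hfo⟩ := not_fo (Meas.mono hδ.le (eqm_ta (hx z) k c)) (hq z hz.1) hcon
    apply hz.2
    rw [hT]
    refine ⟨hz.1, q', k, c, hq', hle, hfo.mono ?_⟩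
    intro ω hω
    exact not_not.1 hω
  have hfl : ∀ z, z ∈ S → ∃ (a : ℤ) (q1 : Cond κ), q1 ∈ Pset θ ∧ Le q1 (q z) ∧
      Fo θ q1 {ω | ⌊x z ω⌋ = a} := by
    intro z hz
    obtain ⟨a, q1, h1, h2, h3⟩ := fo_value (f := fun ω => ⌊x z ω⌋) (hq z hz)
      (fun a => Meas.mono hδ.le (floor_meas (hx z) a))
    exact ⟨a, q1, h1, h2, h3⟩
  choose! a q1 h1 h2 h3 using hfl
  obtain ⟨a0, ha0⟩ := exists_fiber hS0 a
  obtain ⟨S1, hS1, hS1c, R, -, hR2, hR3⟩ := delta ha0 q1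
  have hS1S : ∀ z ∈ S1, z ∈ S := fun z hz => (hS1 hz).1.1
  have hst : ∀ z ∈ S1, ∀ z' ∈ S1, ∀ ξ ∈ (q1 z).supp, ξ ∈ (q1 z').supp →
      (q1 z).st ξ = (q1 z').st ξ := by
    intro z hz z' hz' ξ hξ hξ'
    by_cases h : z = z'
    · rw [h]
    · refine hR3 z hz z' hz' ξ ?_
      rw [← hR2 z hz z' hz' h]
      exact Finset.mem_inter.2 ⟨hξ, hξ'⟩
  refine ⟨S1, fun z hz => hS1S z hz, hS1c, q1, a0,
    fun z hz => ⟨h1 z (hS1S z hz), h2 z (hS1S z hz)⟩, ?_, ?_, ?_, ?_⟩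
  · intro z hz z' hz'
    obtain ⟨r, hr, hrT⟩ := lower_of_st_eq (γ := θ) ({z, z'} : Finset Z) q1 (by
      intro i hi
      rcases Finset.mem_insert.1 hi with rfl | hi
      · exact h1 _ (hS1S _ hz)
      · rw [Finset.mem_singleton.1 hi]; exact h1 _ (hS1S _ hz')) (by
      have hm : ∀ i ∈ ({z, z'} : Finset Z), i ∈ S1 := by
        intro i hi
        rcases Finset.mem_insert.1 hi with rfl | hi
        · exact hz
        · rw [Finset.mem_singleton.1 hi]; exact hz'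
      intro i hi j hj
      exact hst i (hm i hi) j (hm j hj))
    exact ⟨r, hr, hrT z (Finset.mem_insert_self _ _),
      hrT z' (Finset.mem_insert_of_mem (Finset.mem_singleton_self _))⟩
  · intro z hz
    refine (fo_restr_iff hδ.le (h1 z (hS1S z hz))
      (Meas.all fun k => Meas.all fun c => eqm_ta (hx z) k c)).1 ?_
    exact (hnd z (hS1 hz).1).le (hq z (hS1S z hz)) (h1 z (hS1S z hz)) (h2 z (hS1S z hz))
  · intro z hz
    have e : a z = a0 := (hS1 hz).2
    rw [← e]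
    exact (fo_restr_iff hδ.le (h1 z (hS1S z hz)) (floor_meas (hx z) (a z))).1 (h3 z (hS1S z hz))
  · intro z hz z' hz' hzz e he hez hez'
    by_contra hcon
    obtain ⟨e', he', hle, hfo⟩ := not_fo (Meas.not (real_eq_meas (hx z) (hx z'))) he hcon
    have hz1 : Le e' (restr (q1 z) δ) := hle.trans he' he restr_mem hez
    have hz1' : Le e' (restr (q1 z') δ) := hle.trans he' he restr_mem hez'
    have ht : glue δ e' (meet (q1 z) (q1 z')) ∈ Pset θ :=
      glue_mem hδ.le (meet_mem (h1 z (hS1S z hz)) (h1 z' (hS1S z' hz')))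
    have ht1 : Le (glue δ e' (meet (q1 z) (q1 z'))) (q1 z) := amalg_left he' hz1
    have ht2 : Le (glue δ e' (meet (q1 z) (q1 z'))) (q1 z') := by
      refine amalg_right he' hz1' (fun ξ hξ _ hξ' => hst z hz z' hz' ξ hξ' hξ) ?_
      intro hξ hξ'
      have e1 := hst z hz z' hz' δ hξ' hξ
      rw [e1]
      refine ⟨List.prefix_rfl, Nul.subset (empty_mem_Nul δ) ?_⟩
      rintro ω ⟨-, hω⟩
      exact absurd Path.refl hω
    have h4 := hne z (hS1S z hz) z' (hS1S z' hz') hzz _ ht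
      (ht1.trans ht (h1 z (hS1S z hz)) (hq z (hS1S z hz)) (h2 z (hS1S z hz)))
      (ht2.trans ht (h1 z' (hS1S z' hz')) (hq z' (hS1S z' hz')) (h2 z' (hS1S z' hz')))
    have h5 := (hfo.level hδ.le).le (Pset_mono hδ.le he') ht (glue_le he')
    exact h4.false h5 ht

omit [WellFoundedLT κ] in
private theorem ux_ta {δ θ : κ} (hδ : δ < θ) {y : Om κ → ℝ}
    (hy : ∀ r : ℚ, Meas δ {ω | (r : ℝ) < y ω}) (i : ℕ) : Meas θ {ω | i ∈ Ux δ y ω} :=
  UUF_meas hy hδ _ _

omit [WellFoundedLT κ] in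
private theorem fin_ta {θ : κ} {A : Om κ → Set ℕ} (hA : ∀ i, Meas θ {ω | i ∈ A ω}) :
    Meas θ {ω | (A ω).Finite} := by
  have e : {ω | (A ω).Finite} = {ω | ∃ m : ℕ, ∀ i : ℕ, i ∈ A ω → i < m} := by
    ext ω
    constructor
    · intro h
      obtain ⟨m, hm⟩ := (h : (A ω).Finite).bddAbove
      exact ⟨m + 1, fun i hi => Nat.lt_succ_of_le (hm hi)⟩
    · rintro ⟨m, hm⟩
      exact (Set.finite_Iio m).subset fun i hi => hm i hi
  rw [e]
  exact Meas.ex fun m => Meas.all fun i => Meas.imp (hA i) (meas_const _)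

theorem thmA {δ θ : κ} (hδ : δ < θ) {S : Set Z} (hS : ¬ S.Countable) {q : Z → Cond κ}
    (hq : ∀ z ∈ S, q z ∈ Pset θ) {x : Z → Om κ → ℝ}
    (hx : ∀ z, ∀ r : ℚ, Meas δ {ω | (r : ℝ) < x z ω})
    (hne : ∀ z ∈ S, ∀ z' ∈ S, z ≠ z' → ∀ e ∈ Pset θ, Le e (q z) → Le e (q z') →
      Fo θ e {ω | x z ω ≠ x z' ω})
    {J : Om κ → Set ℕ} (hJ : ∀ i, Meas θ {ω | i ∈ J ω})
    (hval : ∀ z ∈ S, Fo θ (q z) {ω | J ω ⊆ Vl δ ω})
    (hinf : ∀ z ∈ S, Fo θ (q z) {ω | (J ω ∩ Ux δ (x z) ω).Infinite})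
    (htau : ∀ z ∈ S, ∀ z' ∈ S, z ≠ z' → ∀ e ∈ Pset θ, Le e (q z) → Le e (q z') →
      Fo θ e {ω | ((J ω ∩ Ux δ (x z) ω) \ Ux δ (x z') ω).Finite ∨
        ((J ω ∩ Ux δ (x z') ω) \ Ux δ (x z) ω).Finite}) : False := by
  classical
  have : Nonempty (Cond κ) := ⟨triv⟩
  obtain ⟨S1, hS1, hS1c, q1, a, hq1, hcomp, hnd, hfl, hne1⟩ := exists_base hδ hS hq hx hne
  have hq1m : ∀ z : S1, q1 z ∈ Pset θ := fun z => (hq1 z z.2).1
  have hq1l : ∀ z : S1, Le (q1 z) (q z) := fun z => (hq1 z z.2).2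
  have hqm : ∀ z : S1, q z ∈ Pset θ := fun z => hq z (hS1 z.2)
  let X : Dat κ S1 :=
    { δ := δ
      x := fun z => x z
      a := a
      p0 := fun z => restr (q1 z) δ
      hx := fun z => hx z
      hp0 := fun z => restr_mem
      hnd := fun z => hnd z z.2
      hfl := fun z => hfl z z.2
      hne := fun z z' hzz => hne1 z z.2 z' z'.2 fun h => hzz (Subtype.ext h) }
  have hunc : ¬ (Set.univ : Set S1).Countable := by
    intro h
    apply hS1c
    have h1 := h.image (fun z : S1 => (z : Z))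
    have h2 : S1 ⊆ (fun z : S1 => (z : Z)) '' Set.univ := fun z hz => ⟨⟨z, hz⟩, trivial, rfl⟩
    exact h1.mono h2
  -- measurability
  have hU : ∀ (z : S1) (i : ℕ), Meas θ {ω | i ∈ Ux δ (x z) ω} := fun z i => ux_ta hδ (hx z) i
  by_cases hA : ∃ SA : Set S1, ¬ SA.Countable ∧ ∀ z ∈ SA, ∃ q' ∈ Pset θ, Le q' (q1 z) ∧
      Fo θ q' {ω | (J ω \ (J ω ∩ Ux δ (x z) ω)).Finite}
  · obtain ⟨SA, hSAc, hSA⟩ := hA
    have h1 : ∀ z : S1, z ∈ SA → ∃ (m : ℕ) (q'' : Cond κ), q'' ∈ Pset θ ∧ Le q'' (q1 z) ∧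
        Fo θ q'' {ω | ∀ i ∈ J ω, m ≤ i → i ∈ Ux δ (x z) ω} := by
      intro z hz
      obtain ⟨q', hq', hle, hfo⟩ := hSA z hz
      have hfo' : Fo θ q' (⋃ m : ℕ, {ω | ∀ i, i ∈ J ω → m ≤ i → i ∈ Ux δ (x z) ω}) := by
        refine hfo.mono ?_
        intro ω hω
        obtain ⟨m, hm⟩ := (hω : (J ω \ (J ω ∩ Ux δ (x z) ω)).Finite).bddAbove
        refine Set.mem_iUnion.2 ⟨m + 1, fun i hi hmi => ?_⟩
        by_contra hni
        have h2 : i ≤ m := hm ⟨hi, fun h => hni h.2⟩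
        omega
      obtain ⟨m, q'', hq'', hle', hfo''⟩ := fo_select
        (f := fun m : ℕ => {ω | ∀ i, i ∈ J ω → m ≤ i → i ∈ Ux δ (x z) ω}) hq'
        (fun m => Meas.all fun i => Meas.imp (hJ i) (Meas.imp (meas_const _) (hU z i))) hfo'
      exact ⟨m, q'', hq'', hle'.trans hq'' hq' (hq1m z) hle, hfo''⟩
    choose! m q'' h2 h3 h4 using h1
    obtain ⟨m0, hm0⟩ := exists_fiber hSAc m
    refine thmK_set X False (γ := θ) hδ hm0 (p := q'') (fun z hz => h2 z hz.1)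
      (fun z hz => Le.restr_right (h3 z hz.1)) m0 hJ ?_ ?_
    · intro z hz
      refine ((hinf z (hS1 z.2)).le (hqm z) (h2 z hz.1)
        ((h3 z hz.1).trans (h2 z hz.1) (hq1m z) (hqm z) (hq1l z))).mono ?_
      intro ω hω
      exact (hω : (J ω ∩ Ux δ (x z) ω).Infinite).mono Set.inter_subset_left
    · intro z hz
      have h5 := (hval z (hS1 z.2)).le (hqm z) (h2 z hz.1)
        ((h3 z hz.1).trans (h2 z hz.1) (hq1m z) (hqm z) (hq1l z))
      refine (h5.inter (h4 z hz.1)).mono ?_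
      rintro ω ⟨hω1, hω2⟩ i hi hmi hb
      have e : m z = m0 := hz.2
      exact (hb (hω1 hi)).1 (hω2 i hi (by rw [e]; exact hmi))
  · -- a member for which the difference is infinite
    obtain ⟨z0, hz0⟩ : ∃ z0 : S1, ¬ ∃ q' ∈ Pset θ, Le q' (q1 z0) ∧
        Fo θ q' {ω | (J ω \ (J ω ∩ Ux δ (x z0) ω)).Finite} := by
      by_contra hcon
      push Not at hcon
      apply hA
      refine ⟨Set.univ, hunc, fun z _ => ?_⟩
      by_contra h
      obtain ⟨q', hq', h5, h6⟩ := hcon z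
      exact h ⟨q', hq', h5, h6⟩
    have hD : ∀ i, Meas θ {ω | i ∈ J ω \ (J ω ∩ Ux δ (x z0) ω)} := fun i =>
      Meas.and (hJ i) (Meas.not (Meas.and (hJ i) (hU z0 i)))
    have hinf0 : Fo θ (q1 z0) {ω | (J ω \ (J ω ∩ Ux δ (x z0) ω)).Infinite} := by
      by_contra hcon
      obtain ⟨q', hq', hle, hfo⟩ := not_fo (Meas.not (fin_ta hD)) (hq1m z0) hcon
      apply hz0
      refine ⟨q', hq', hle, hfo.mono ?_⟩
      intro ω hω
      exact not_not.1 hω
    have hunc' : ¬ (Set.univ \ {z0} : Set S1).Countable :=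
      unc_ta hunc (Set.countable_singleton z0)
    have h1 : ∀ z : S1, z ∈ (Set.univ \ {z0} : Set S1) → ∃ (l : Bool × ℕ) (e' : Cond κ),
        e' ∈ Pset θ ∧ Le e' (q1 z) ∧ Le e' (q1 z0) ∧
        Fo θ e' {ω | ∀ i, i ∈ J ω → l.2 ≤ i →
          if l.1 = true then i ∈ Ux δ (x z0) ω → i ∈ Ux δ (x z) ω
          else i ∈ Ux δ (x z) ω → i ∈ Ux δ (x z0) ω} := by
      intro z hz
      have hzz : (z : Z) ≠ z0 := fun h => hz.2 (Subtype.ext h)
      obtain ⟨e, he, hez, hez0⟩ := hcomp z z.2 z0 z0.2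
      have h2 := htau z (hS1 z.2) z0 (hS1 z0.2) hzz e he
        (hez.trans he (hq1m z) (hqm z) (hq1l z)) (hez0.trans he (hq1m z0) (hqm z0) (hq1l z0))
      have h3 : Fo θ e (⋃ l : Bool × ℕ, {ω | ∀ i, i ∈ J ω → l.2 ≤ i →
          if l.1 = true then i ∈ Ux δ (x z0) ω → i ∈ Ux δ (x z) ω
          else i ∈ Ux δ (x z) ω → i ∈ Ux δ (x z0) ω}) := by
        refine h2.mono ?_
        rintro ω (hω | hω)
        · obtain ⟨m, hm⟩ := hω.bddAbove
          refine Set.mem_iUnion.2 ⟨(false, m + 1), fun i hi hmi => ?_⟩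
          rw [if_neg (by simp)]
          intro h4
          by_contra hni
          have h5 : i ≤ m := hm ⟨⟨hi, h4⟩, hni⟩
          have h6 : m + 1 ≤ i := hmi
          omega
        · obtain ⟨m, hm⟩ := hω.bddAbove
          refine Set.mem_iUnion.2 ⟨(true, m + 1), fun i hi hmi => ?_⟩
          rw [if_pos rfl]
          intro h4
          by_contra hni
          have h5 : i ≤ m := hm ⟨⟨hi, h4⟩, hni⟩
          have h6 : m + 1 ≤ i := hmi
          omega
      obtain ⟨l, e', he', hle, hfo⟩ := fo_select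
        (f := fun l : Bool × ℕ => {ω | ∀ i, i ∈ J ω → l.2 ≤ i →
          if l.1 = true then i ∈ Ux δ (x z0) ω → i ∈ Ux δ (x z) ω
          else i ∈ Ux δ (x z) ω → i ∈ Ux δ (x z0) ω}) he (fun l : Bool × ℕ => Meas.all fun i =>
        Meas.imp (hJ i) (Meas.imp (meas_const _) (by
          rcases l with ⟨b, m⟩
          cases b
          · exact Meas.imp (hU z i) (hU z0 i)
          · exact Meas.imp (hU z0 i) (hU z i)))) h3
      exact ⟨l, e', he', hle.trans he' he (hq1m z) hez, hle.trans he' he (hq1m z0) hez0, hfo⟩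
    choose! l e' h2 h3 h4 h5 using h1
    obtain ⟨l0, hl0⟩ := exists_fiber hunc' l
    have hval' : ∀ z : S1, z ∈ (Set.univ \ {z0} : Set S1) → Fo θ (e' z) {ω | J ω ⊆ Vl δ ω} :=
      fun z hz => (hval z (hS1 z.2)).le (hqm z) (h2 z hz)
        ((h3 z hz).trans (h2 z hz) (hq1m z) (hqm z) (hq1l z))
    by_cases hb : l0.1 = true
    · -- first kind
      refine thmK_set X False (γ := θ) hδ hl0 (p := e') (fun z hz => h2 z hz.1)
        (fun z hz => Le.restr_right (h3 z hz.1)) l0.2 (J := fun ω => J ω ∩ Ux δ (x z0) ω)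
        (fun i => Meas.and (hJ i) (hU z0 i)) ?_ ?_
      · intro z hz
        exact (hinf z0 (hS1 z0.2)).le (hqm z0) (h2 z hz.1)
          ((h4 z hz.1).trans (h2 z hz.1) (hq1m z0) (hqm z0) (hq1l z0))
      · intro z hz
        refine ((hval' z hz.1).inter (h5 z hz.1)).mono ?_
        rintro ω ⟨hω1, hω2⟩ i ⟨hi, hi0⟩ hmi hbb
        have e : l z = l0 := hz.2
        have h6 := hω2 i hi (by rw [e]; exact hmi)
        rw [if_pos (by rw [e]; exact hb)] at h6
        exact (hbb (hω1 hi)).1 (h6 hi0)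
    · -- second kind
      refine thmK_set X True (γ := θ) hδ hl0 (p := e') (fun z hz => h2 z hz.1)
        (fun z hz => Le.restr_right (h3 z hz.1)) l0.2
        (J := fun ω => J ω \ (J ω ∩ Ux δ (x z0) ω)) hD ?_ ?_
      · intro z hz
        exact hinf0.le (hq1m z0) (h2 z hz.1) (h4 z hz.1)
      · intro z hz
        refine ((hval' z hz.1).inter (h5 z hz.1)).mono ?_
        rintro ω ⟨hω1, hω2⟩ i ⟨hi, hi0⟩ hmi hbb
        have e : l z = l0 := hz.2
        have h6 := hω2 i hi (by rw [e]; exact hmi)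
        rw [if_neg (by rw [e]; exact hb)] at h6
        exact hi0 ⟨hi, h6 ((hbb (hω1 hi)).2 trivial)⟩

end Pool.Agent.FSI
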