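import Pool.Agent.FSI.MNm
import Pool.Agent.FSI.ThmA

set_option autoImplicit false

/-! # Reals of the earlier stage and the generic cover

PROOFS.
* `pos_out`: `y ∈ UU ⟨k, W⟩ ∅` implies `cz k ⌊2 ^ k * y⌋ ∈ W` (the `a` in the definition is the floor), so
  the set contains all `⟨k, W⟩` with `cz k ⌊2 ^ k * y⌋ ∉ W`; there are `2 ^ (2 ^ k - 1)` such `W` (the
  subsets of the complement of a point; `Finset.card_powerset`), and `2 ^ (2 ^ k) < 3 * 2 ^ (2 ^ k - 1)`.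
* `ext_choose`: let `ξ ∈ q.supp`, `ξ < γ`, `t = q.st ξ`. For all `ω` there is `e ∈ S ω` with
  `e ∈ q.nm ξ ω t` (`Pos.exists_mem`, `q.big`). The sets `{ω | e ∈ S ω ∧ e ∈ q.nm ξ ω t}`, `e : E`, are
  in `Meas ξ` and cover everything, so by `fo_select` at level `ξ` for `restr q ξ` there are `e` and
  `q' ≤ restr q ξ` in `Pset ξ` forcing it. `r = glue ξ q' (upd q ξ (t ++ [e]) (q.nm ξ) ..)` (as in the proof
  of `ext_one` in `Trans.lean`): `Le r q`, `r ∈ Pset γ`, `r.st ξ = t ++ [e]`, `restr r ξ` has the same body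
  as `q'`. At a point of `body r`: `ini (ω ξ) (t.length + 1) = t ++ [e]`, so `ω ξ t.length = e`; hence
  `Fo γ r {ω | ω ξ t.length ∈ S ω}`.
* `coh1`: the set is in `Meas θ` (`UUF_meas`). If it is not null some `q ∈ Pset θ` forces it
  (`fo_nonnul` with `triv`), and by `fo_select` some `q1 ≤ q` and `N` force
  `∀ n, N ≤ n → y ω ∈ UU (ω δ n) ∅`. By `exists_long` take `q2 ≤ q1` with `δ ∈ q2.supp`,
  `N ≤ (q2.st δ).length`, and apply `ext_choose` with `S ω = {e | y ω ∉ UU e ∅}`.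
* `coh2`: it is enough (countable union) to show for each `K` that `{ω | ¬ ∃ N, ∀ n, N ≤ n → K ≤ (ω δ n).1}`
  is null. Otherwise some `q ∈ Pset θ` forces it; by `exists_long` let `δ ∈ q.supp`. Let `r = upd q δ
  (q.st δ) (fun ω t => q.nm δ ω t ∩ {e | K ≤ e.1})` (big because `cnt k {e | K ≤ e.1}ᶜ = 0` for `k ≥ K`);
  `Le r q` (`le_of_same`); at the points of `body r` all `ω δ n`, `n ≥ (q.st δ).length`, have level
  `≥ K`. Contradiction.
* `exists_index`: let `B` be a natural number with `|x| + 1 ≤ B` for `x ∈ F`, `d > 0` smaller than all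
  `|x - y|`, `x ∈ F`, `K` with `1 ≤ 2 ^ K * d`; take `n ≥ F.card, B` such that the level `k = (g n).1` is
  `≥ K` and `y ∉ UU (g n) ∅`. `O = F.image (fun x => ⌊2 ^ k * x⌋)`, `i = idx.symm (n, O)`.
  `|⌊2 ^ k * x⌋| ≤ 2 ^ k * |x| + 1 ≤ n * 2 ^ k`. For `a = ⌊2 ^ k * x⌋` we have
  `a - 1 < 2 ^ k * x < a + 1`, and `2 ^ k * y` is not in `(a - 1, a + 1)`, because
  otherwise `|2 ^ k * x - 2 ^ k * y| < 2`; so take `K` with `2 ≤ 2 ^ K * d`. -/

namespace Pool.Agent.FSI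

variable {κ : Type} [LinearOrder κ] [WellFoundedLT κ]

private theorem mc_le {k : ℕ} {A : Set E} {T : Finset (Finset (Fin (2 ^ k)))}
    (h : ∀ W ∈ T, (⟨k, W⟩ : E) ∈ A) : T.card ≤ cnt k A := by
  classical
  unfold cnt
  exact Finset.card_le_card fun W hW => Finset.mem_filter.2 ⟨Finset.mem_univ _, h W hW⟩

private theorem mc_zero {k : ℕ} {A : Set E} (h : ∀ W, (⟨k, W⟩ : E) ∉ A) : cnt k A = 0 := by
  classical
  unfold cnt
  exact Finset.card_eq_zero.2 (Finset.eq_empty_of_forall_notMem fun W hW =>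
    h W (Finset.mem_filter.1 hW).2)

theorem pos_out (y : ℝ) : Pos {e | y ∉ UU e ∅} := by
  classical
  refine ⟨3, fun K => ⟨K, le_rfl, ?_⟩⟩
  have h1 : ((Finset.univ.erase (cz K ⌊2 ^ K * y⌋)).powerset).card ≤
      cnt K {e | y ∉ UU e ∅} := by
    refine mc_le ?_
    intro W hW
    rw [Finset.mem_powerset] at hW
    rintro (⟨a, h2, h3, h4⟩ | ⟨a, h2, -⟩)
    · have h5 : ⌊2 ^ K * y⌋ = a := Int.floor_eq_iff.2 ⟨h3.le, h4⟩
      have h6 : cz K a ∈ W := h2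
      have h7 := hW h6
      rw [h5] at h7
      exact (Finset.mem_erase.1 h7).1 rfl
    · exact absurd h2 (Finset.notMem_empty a)
  rw [Finset.card_powerset, Finset.card_erase_of_mem (Finset.mem_univ _), Finset.card_univ,
    Fintype.card_fin] at h1
  have h2 : (2 : ℕ) ^ (2 ^ K) = 2 * 2 ^ (2 ^ K - 1) := by
    rw [← pow_succ']
    congr 1
    have : 0 < 2 ^ K := by positivity
    omega
  have h3 : 0 < 2 ^ (2 ^ K - 1) := by positivity
  omega

/-- One step of the generic sequence at `ξ` in a given positive set. -/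
theorem ext_choose {γ ξ : κ} {q : Cond κ} (hq : q ∈ Pset γ) (hξ : ξ ∈ q.supp) {S : Om κ → Set E}
    (hS : ∀ e, Meas ξ {ω | e ∈ S ω}) (hp : ∀ ω, Pos (S ω)) :
    ∃ r ∈ Pset γ, Le r q ∧ Fo γ r {ω | ω ξ (q.st ξ).length ∈ S ω} := by
  have hξγ : ξ < γ := hq ξ hξ
  obtain ⟨A, hA⟩ : ∃ A : E → Set (Om κ), ∀ e, A e = {ω | e ∈ S ω ∧ e ∈ q.nm ξ ω (q.st ξ)} :=
    ⟨_, fun _ => rfl⟩
  have hAm : ∀ e, Meas ξ (A e) := by
    intro e
    rw [hA]
    exact Meas.and (hS e) (q.meas ξ hξ (q.st ξ) e)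
  have hcov : Fo ξ (restr q ξ) (⋃ e, A e) := by
    refine fo_of_subset ?_
    intro ω _
    obtain ⟨e, he, he', _⟩ := (hp ω).exists_mem (q.big ξ hξ ω (q.st ξ)) 0
    exact Set.mem_iUnion.2 ⟨e, by rw [hA]; exact ⟨he, he'⟩⟩
  obtain ⟨e, p', hp', hle, hnul⟩ := fo_select restr_mem hAm hcov
  rw [hA] at hnul
  have hm : ∀ t e, Meas ξ {ω | e ∈ q.nm ξ ω t} := q.meas ξ hξ
  have hb : ∀ ω t, Big (q.nm ξ ω t) := q.big ξ hξ
  have hrm : glue ξ p' (upd q ξ (q.st ξ ++ [e]) (q.nm ξ) hm hb) ∈ Pset γ :=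
    glue_mem hξγ.le (upd_mem hξγ hq)
  have est : (glue ξ p' (upd q ξ (q.st ξ ++ [e]) (q.nm ξ) hm hb)).st ξ = q.st ξ ++ [e] := by
    have : (glue ξ p' (upd q ξ (q.st ξ ++ [e]) (q.nm ξ) hm hb)).st ξ =
      (upd q ξ (q.st ξ ++ [e]) (q.nm ξ) hm hb).st ξ := if_neg (lt_irrefl ξ)
    rw [this]
    exact if_pos rfl
  have hsupp : ξ ∈ (glue ξ p' (upd q ξ (q.st ξ ++ [e]) (q.nm ξ) hm hb)).supp := by
    rw [mem_glue_supp]
    exact Or.inr ⟨lt_irrefl ξ, Finset.mem_insert_self _ _⟩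
  refine ⟨glue ξ p' (upd q ξ (q.st ξ ++ [e]) (q.nm ξ) hm hb), hrm, ⟨?_, ?_⟩, ?_⟩
  · intro η hη
    rw [mem_glue_supp]
    by_cases hηξ : η < ξ
    · left
      exact ⟨hηξ, hle.1 (mem_restr_supp.2 ⟨hη, hηξ⟩)⟩
    · right
      exact ⟨hηξ, Finset.mem_insert_of_mem hη⟩
  · intro η hη
    rcases lt_trichotomy η ξ with hηξ | hηξ | hηξ
    · have hη' : η ∈ (restr q ξ).supp := mem_restr_supp.2 ⟨hη, hηξ⟩
      obtain ⟨h1, h2⟩ := hle.2 η hη'
      have e1 : (glue ξ p' (upd q ξ (q.st ξ ++ [e]) (q.nm ξ) hm hb)).st η = p'.st η := if_pos hηξ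
      have e2 : (glue ξ p' (upd q ξ (q.st ξ ++ [e]) (q.nm ξ) hm hb)).nm η = p'.nm η := if_pos hηξ
      refine ⟨by rw [e1]; exact h1, ?_⟩
      rw [body_restr_glue hηξ.le]
      have e3 : badAt η (glue ξ p' (upd q ξ (q.st ξ ++ [e]) (q.nm ξ) hm hb)) q =
          badAt η p' (restr q ξ) := by
        unfold badAt
        rw [e1, e2]
        rfl
      rw [e3]
      exact h2
    · subst hηξ
      have e2 : (glue η p' (upd q η (q.st η ++ [e]) (q.nm η) hm hb)).nm η = q.nm η := by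
        have : (glue η p' (upd q η (q.st η ++ [e]) (q.nm η) hm hb)).nm η =
          (upd q η (q.st η ++ [e]) (q.nm η) hm hb).nm η := if_neg (lt_irrefl η)
        rw [this]
        exact if_pos rfl
      refine ⟨by rw [est]; exact List.prefix_append _ _, ?_⟩
      rw [body_restr_glue (le_refl η), restr_eq hp']
      refine Nul.subset hnul ?_
      rintro ω ⟨hω1, hω2⟩
      refine ⟨hω1, fun hωA => hω2 ?_⟩
      rw [est, e2]
      exact ⟨Path.snoc Path.refl hωA.2, fun u _ => le_refl _⟩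
    · have hn : ¬ η < ξ := not_lt.2 hηξ.le
      have e1 : (glue ξ p' (upd q ξ (q.st ξ ++ [e]) (q.nm ξ) hm hb)).st η = q.st η := by
        have : (glue ξ p' (upd q ξ (q.st ξ ++ [e]) (q.nm ξ) hm hb)).st η =
          (upd q ξ (q.st ξ ++ [e]) (q.nm ξ) hm hb).st η := if_neg hn
        rw [this]
        exact if_neg hηξ.ne'
      have e2 : (glue ξ p' (upd q ξ (q.st ξ ++ [e]) (q.nm ξ) hm hb)).nm η = q.nm η := by
        have : (glue ξ p' (upd q ξ (q.st ξ ++ [e]) (q.nm ξ) hm hb)).nm η =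
          (upd q ξ (q.st ξ ++ [e]) (q.nm ξ) hm hb).nm η := if_neg hn
        rw [this]
        exact if_neg hηξ.ne'
      refine ⟨by rw [e1], ?_⟩
      refine Nul.subset (empty_mem_Nul η) ?_
      rintro ω ⟨_, hω2⟩
      exfalso
      apply hω2
      rw [e1, e2]
      exact Ok.refl
  · have h1 : Fo γ (glue ξ p' (upd q ξ (q.st ξ ++ [e]) (q.nm ξ) hm hb))
        {ω | e ∈ S ω ∧ e ∈ q.nm ξ ω (q.st ξ)} :=
      (hnul.level hξγ.le).le (Pset_mono hξγ.le hp') hrm (glue_le hp')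
    refine (h1.inter fo_body).mono ?_
    rintro ω ⟨h2, h3⟩
    have h4 := (h3 ξ hsupp).1
    rw [est] at h4
    have h5 := ini_eq_iff.1 h4 (q.st ξ).length (by simp)
    have h6 : ω ξ (q.st ξ).length = e := by
      rw [h5]
      simp
    show ω ξ (q.st ξ).length ∈ S ω
    rw [h6]
    exact h2.1

theorem coh1 {δ θ : κ} (hδ : δ < θ) {y : Om κ → ℝ} (hy : MeasR δ y) :
    {ω : Om κ | ¬ ∀ N : ℕ, ∃ n, N ≤ n ∧ y ω ∉ UU (ω δ n) ∅} ∈ Nul θ := by
  have key : Fo θ (triv : Cond κ) {ω | ∀ N : ℕ, ∃ n, N ≤ n ∧ y ω ∉ UU (ω δ n) ∅} := by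
    refine Fo.all fun N => ?_
    by_contra hcon
    have hM : Meas θ {ω | ∃ n, N ≤ n ∧ y ω ∉ UU (ω δ n) ∅} :=
      Meas.ex fun n => Meas.and (meas_const _) (Meas.not (UUF_meas hy hδ n ∅))
    obtain ⟨q, hq, -, hfo⟩ := not_fo hM triv_mem hcon
    obtain ⟨q2, hq2, hle, hs, hlen⟩ := exists_long hq hδ N
    obtain ⟨r, hr, hle2, hfo2⟩ := ext_choose hq2 hs (S := fun ω => {e | y ω ∉ UU e ∅})
      (fun e => Meas.not (UU_meas hy e ∅)) (fun ω => pos_out (y ω))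
    have h3 := hfo.le hq hr (Le.trans hr hq2 hq hle2 hle)
    obtain ⟨ω, -, h4, h5⟩ := (h3.inter hfo2).nonempty hr
    exact h4 ⟨_, hlen, h5⟩
  rw [nul_iff_fo]
  refine key.mono ?_
  intro ω hω h
  exact h hω

theorem coh2 {δ θ : κ} (hδ : δ < θ) :
    {ω : Om κ | ¬ ∀ K : ℕ, ∃ N : ℕ, ∀ n, N ≤ n → K ≤ (ω δ n).1} ∈ Nul θ := by
  have key : Fo θ (triv : Cond κ)
      {ω | ∀ K : ℕ, ∃ N : ℕ, ∀ n, N ≤ n → K ≤ (ω δ n).1} := by
    refine Fo.all fun K => ?_
    by_contra hcon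
    have hM : Meas θ {ω : Om κ | ∃ N : ℕ, ∀ n, N ≤ n → K ≤ (ω δ n).1} := by
      refine Meas.ex fun N => Meas.all fun n => Meas.imp (meas_const _) ?_
      have e : {ω : Om κ | K ≤ (ω δ n).1} = {ω | ∃ e : E, ω δ n = e ∧ K ≤ e.1} := by
        ext ω
        constructor
        · intro h
          exact ⟨_, rfl, h⟩
        · rintro ⟨e, h1, h2⟩
          show K ≤ (ω δ n).1
          rw [h1]
          exact h2
      rw [e]
      exact Meas.ex fun e => Meas.and (meas_coord hδ n e) (meas_const _)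
    obtain ⟨q0, hq0, -, hfo⟩ := not_fo hM triv_mem hcon
    obtain ⟨q, hq, hle, hs, -⟩ := exists_long hq0 hδ 0
    have hm : ∀ t e, Meas δ {ω | e ∈ q.nm δ ω t ∩ {e | K ≤ e.1}} := fun t e =>
      Meas.and (q.meas δ hs t e) (meas_const _)
    have hK : Big {e : E | K ≤ e.1} := by
      intro m
      refine ⟨K, fun k hk => ?_⟩
      have h1 : cnt k {e : E | K ≤ e.1}ᶜ = 0 := by
        exact mc_zero fun W hW => hW hk
      rw [h1, mul_zero]
      exact Nat.zero_le _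
    have hb : ∀ ω t, Big (q.nm δ ω t ∩ {e | K ≤ e.1}) := fun ω t => (q.big δ hs ω t).inter hK
    have hr : upd q δ (q.st δ) (fun ω t => q.nm δ ω t ∩ {e | K ≤ e.1}) hm hb ∈ Pset θ :=
      upd_mem hδ hq
    have hle2 : Le (upd q δ (q.st δ) (fun ω t => q.nm δ ω t ∩ {e | K ≤ e.1}) hm hb) q := by
      refine le_of_same (Finset.subset_insert _ _) (fun ξ hξ => ?_) fun ξ hξ ω t => ?_
      · show (if ξ = δ then q.st δ else q.st ξ) = q.st ξ
        split_ifs with h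
        · rw [h]
        · rfl
      · by_cases h : ξ = δ
        · subst h
          have e1 : (upd q ξ (q.st ξ) (fun ω t => q.nm ξ ω t ∩ {e | K ≤ e.1}) hm hb).nm ξ =
            fun ω t => q.nm ξ ω t ∩ {e | K ≤ e.1} := if_pos rfl
          rw [e1]
          exact Set.inter_subset_left
        · have e1 : (upd q δ (q.st δ) (fun ω t => q.nm δ ω t ∩ {e | K ≤ e.1}) hm hb).nm ξ =
            q.nm ξ := if_neg h
          rw [e1]
    have h3 := hfo.le hq0 hr (Le.trans hr hq hq0 hle2 hle)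
    have h4 : Fo θ (upd q δ (q.st δ) (fun ω t => q.nm δ ω t ∩ {e | K ≤ e.1}) hm hb)
        {ω : Om κ | ∃ N : ℕ, ∀ n, N ≤ n → K ≤ (ω δ n).1} := by
      refine fo_of_subset ?_
      intro ω hω
      refine ⟨(q.st δ).length, fun n hn => ?_⟩
      have h5 := hω δ (Finset.mem_insert_self _ _)
      have e1 : (upd q δ (q.st δ) (fun ω t => q.nm δ ω t ∩ {e | K ≤ e.1}) hm hb).nm δ =
        fun ω t => q.nm δ ω t ∩ {e | K ≤ e.1} := if_pos rfl
      have e2 : (upd q δ (q.st δ) (fun ω t => q.nm δ ω t ∩ {e | K ≤ e.1}) hm hb).st δ =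
        q.st δ := if_pos rfl
      rw [e1, e2] at h5
      exact (h5.2 n hn).2
    exact h4.false h3 hr
  rw [nul_iff_fo]
  refine key.mono ?_
  intro ω hω h
  exact h hω

/-- A member of the cover which contains `F` and does not contain `y`. -/
theorem exists_index {g : ℕ → E} {y : ℝ} (h1 : ∀ N : ℕ, ∃ n, N ≤ n ∧ y ∉ UU (g n) ∅)
    (h2 : ∀ K : ℕ, ∃ N : ℕ, ∀ n, N ≤ n → K ≤ (g n).1) (F : Finset ℝ) (hF : y ∉ F) :
    ∃ i, vld (idx i).1 (g (idx i).1) (idx i).2 ∧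
      (∀ x ∈ F, x ∈ UU (g (idx i).1) (idx i).2) ∧ y ∉ UU (g (idx i).1) (idx i).2 := by
  classical
  obtain ⟨B, K, hBK⟩ : ∃ B K : ℕ, ∀ x ∈ F, |x| + 1 ≤ B ∧ ∀ k, K ≤ k → 2 ≤ 2 ^ k * |x - y| := by
    clear h1 h2
    induction F using Finset.induction_on with
    | empty => exact ⟨0, 0, fun x hx => absurd hx (Finset.notMem_empty x)⟩
    | insert a F _ ih =>
      obtain ⟨B, K, hBK⟩ := ih fun h => hF (Finset.mem_insert_of_mem h)
      have hay : a ≠ y := fun h => hF (h ▸ Finset.mem_insert_self _ _)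
      have hpos : 0 < |a - y| := abs_pos.2 (sub_ne_zero.2 hay)
      obtain ⟨B', hB'⟩ := exists_nat_ge (|a| + 1)
      obtain ⟨K', hK'⟩ := pow_unbounded_of_one_lt (2 / |a - y|) (one_lt_two : (1 : ℝ) < 2)
      rw [div_lt_iff₀ hpos] at hK'
      refine ⟨max B B', max K K', fun x hx => ?_⟩
      rcases Finset.mem_insert.1 hx with rfl | hx
      · refine ⟨le_trans hB' (by exact_mod_cast le_max_right _ _), fun k hk => ?_⟩
        refine le_trans hK'.le (mul_le_mul_of_nonneg_right ?_ hpos.le)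
        exact pow_le_pow_right₀ (by norm_num) (le_trans (le_max_right _ _) hk)
      · refine ⟨le_trans (hBK x hx).1 (by exact_mod_cast le_max_left _ _), fun k hk => ?_⟩
        exact (hBK x hx).2 k (le_trans (le_max_left _ _) hk)
  obtain ⟨N, hN⟩ := h2 K
  obtain ⟨n, hn, hy⟩ := h1 (max N (F.card + B))
  have hn1 : N ≤ n := le_trans (le_max_left _ _) hn
  have hn2 : F.card + B ≤ n := le_trans (le_max_right _ _) hn
  have hk := hN n hn1
  refine ⟨idx.symm (n, F.image fun x => ⌊2 ^ (g n).1 * x⌋), ?_⟩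
  rw [Equiv.apply_symm_apply]
  refine ⟨⟨?_, ?_⟩, ?_, ?_⟩
  · exact le_trans Finset.card_image_le (by show F.card ≤ n; omega)
  · intro a ha
    obtain ⟨x, hx, rfl⟩ := Finset.mem_image.1 ha
    have hB := (hBK x hx).1
    have h3 := Int.floor_le ((2 : ℝ) ^ (g n).1 * x)
    have h4 := Int.lt_floor_add_one ((2 : ℝ) ^ (g n).1 * x)
    have hp1 : (1 : ℝ) ≤ 2 ^ (g n).1 := one_le_pow₀ (by norm_num)
    have h5 : |(2 : ℝ) ^ (g n).1 * x| = 2 ^ (g n).1 * |x| := by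
      rw [abs_mul, abs_of_pos (by positivity : (0 : ℝ) < 2 ^ (g n).1)]
    have h6 := abs_le.1 (le_refl |(2 : ℝ) ^ (g n).1 * x|)
    rw [h5] at h6
    have h7 : (2 : ℝ) ^ (g n).1 * |x| + 1 ≤ n * 2 ^ (g n).1 := by
      have h8 : (B : ℝ) ≤ n := by exact_mod_cast (by omega : B ≤ n)
      have h9 : (2 : ℝ) ^ (g n).1 * (|x| + 1) ≤ 2 ^ (g n).1 * n :=
        mul_le_mul_of_nonneg_left (hB.trans h8) (by positivity)
      linarith
    have h10 : ((|⌊(2 : ℝ) ^ (g n).1 * x⌋| : ℤ) : ℝ) ≤ ((n * 2 ^ (g n).1 : ℤ) : ℝ) := by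
      push_cast
      rw [abs_le]
      constructor <;> linarith
    exact_mod_cast h10
  · intro x hx
    refine Or.inr ⟨⌊2 ^ (g n).1 * x⌋, Finset.mem_image.2 ⟨x, hx, rfl⟩, ?_, ?_⟩
    · have h3 := Int.floor_le ((2 : ℝ) ^ (g n).1 * x)
      linarith
    · exact Int.lt_floor_add_one ((2 : ℝ) ^ (g n).1 * x)
  · rintro (h3 | ⟨a, ha, h4, h5⟩)
    · exact hy (Or.inl h3)
    · obtain ⟨x, hx, rfl⟩ := Finset.mem_image.1 ha
      have h6 := Int.floor_le ((2 : ℝ) ^ (g n).1 * x)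
      have h7 := Int.lt_floor_add_one ((2 : ℝ) ^ (g n).1 * x)
      have h8 := (hBK x hx).2 (g n).1 hk
      have h9 : (2 : ℝ) ^ (g n).1 * |x - y| = |2 ^ (g n).1 * x - 2 ^ (g n).1 * y| := by
        rw [← mul_sub, abs_mul, abs_of_pos (by positivity : (0 : ℝ) < 2 ^ (g n).1)]
      rw [h9] at h8
      have h10 : |2 ^ (g n).1 * x - 2 ^ (g n).1 * y| < 2 := by
        rw [abs_lt]
        constructor <;> linarith
      linarith

/-- The open sets are open. -/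
theorem UU_open (e : E) (O : Finset ℤ) : IsOpen (UU e O) := by
  have e1 : UU e O = (⋃ a : ℤ, ⋃ _ : cz e.1 a ∈ e.2,
      ({x : ℝ | (a : ℝ) < 2 ^ e.1 * x} ∩ {x : ℝ | 2 ^ e.1 * x < a + 1})) ∪
      ⋃ a : ℤ, ⋃ _ : a ∈ O, ({x : ℝ | (a : ℝ) - 1 < 2 ^ e.1 * x} ∩
        {x : ℝ | 2 ^ e.1 * x < a + 1}) := by
    ext x
    simp only [UU, Set.mem_union, Set.mem_iUnion, Set.mem_inter_iff, Set.mem_ofPred_eq,
      exists_prop]
  rw [e1]
  refine IsOpen.union ?_ ?_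
  · refine isOpen_iUnion fun a => isOpen_iUnion fun _ => IsOpen.inter ?_ ?_
    · exact isOpen_lt continuous_const (continuous_const.mul continuous_id)
    · exact isOpen_lt (continuous_const.mul continuous_id) continuous_const
  · refine isOpen_iUnion fun a => isOpen_iUnion fun _ => IsOpen.inter ?_ ?_
    · exact isOpen_lt continuous_const (continuous_const.mul continuous_id)
    · exact isOpen_lt (continuous_const.mul continuous_id) continuous_const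

/-- Rational intervals in the open sets. -/
theorem mem_UU_iff_Ioc {e : E} {O : Finset ℤ} {x : ℝ} : x ∈ UU e O ↔
    ∃ q q' : ℚ, Set.Ioc (q : ℝ) q' ⊆ UU e O ∧ (q : ℝ) < x ∧ x ≤ q' := by
  constructor
  · intro h
    obtain ⟨l, u, ⟨h1, h2⟩, h3⟩ := mem_nhds_iff_exists_Ioo_subset.1 ((UU_open e O).mem_nhds h)
    obtain ⟨q, hq1, hq2⟩ := exists_rat_btwn h1
    obtain ⟨q', hq3, hq4⟩ := exists_rat_btwn h2
    exact ⟨q, q', fun z hz => h3 ⟨hq1.trans hz.1, lt_of_le_of_lt hz.2 hq4⟩, hq2, hq3.le⟩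
  · rintro ⟨q, q', h1, h2, h3⟩
    exact h1 ⟨h2, h3⟩

end Pool.Agent.FSI
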