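import Pool.Agent.FSI.MDict

set_option autoImplicit false

/-! # The generic cover

`Vi A δ ω i` = the trace on `A` of the open set with the index `i`; `CV A δ ω` = the family of the traces
for valid `i` which are different from `A`. `VM α τ i`, `vM τ i`: the same in the model, where `τ` is the
value of `nmT δ` and `α = sZ A`.

PROOFS. `α : Mod X g` with `α.1 = sZ A`, `τ = el X g (nmT δ) _`.
* `vM_iff`: `mem_omega_iff` (elements of `omega` are the `eN m`), `mem_nmT`; for valid `i` and any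
  `q ≥ q'` the interval is empty, so `ω ∈ TS δ i (encode 0) (encode 0)`.
* `VM_val`: the elements of `α` are (with values) the `qZ x`, `x ∈ A`; the elements of `VM α τ (eN i)` are
  the `qZ x`, `x ∈ A`, such that there are `m`, `m'` with `ω ∈ TS δ i m m'`, `natZ m ∈ qZ x`,
  `natZ m' ∉ qZ x`, i.e. `(q : ℝ) < x`, `¬ (q' : ℝ) < x` (`natZ_mem_qZ`, `Encodable.encode_injective`);
  `mem_UU_iff_Ioc`. Use `Mod_trans` for elements of elements, `Subtype.ext`, `mem_sep`,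
  `(eN X g m).1 = natZ m` (`val_eN`).
* `CV_mem`: it is the value of `sep (pow α) (fun V => V ≠ α ∧ ∃ i, i ∈ omega ∧ vM τ i ∧ V = VM α τ i)`
  (`mem_sep`, `mem_pow`, `sub_def`; `sZ (Subtype.val '' V) = sZ A` iff `V = univ` by `sZ_inj`).
* `J_mem`: the value of `sep omega (fun i => vM τ i ∧ VM α τ i ∈ d ∧ ∀ i', i' ∈ i → vM τ i' →
  VM α τ i' ≠ VM α τ i)` with `d.1 = fZ D`; the elements of `eN n` are the `eN m`, `m < n`
  (`mem_natZ`). -/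

namespace Pool.Agent.FSI

open Pool.Agent.ChoicelessEmb Pool.Agent.ChoicelessEmb.LName Pool.Agent.RFN Pool.Agent.RFN.GX

open Pool.Agent.H78.ZF (ZFM opair omega sep pow DF DR)

open Pool.Agent.H97Tau

/-- The trace on `A` of the open set with the index `i`. -/
def Vi {κ : Type} (A : Set ℝ) (δ : κ) (ω : Om κ) (i : ℕ) : Set A :=
  {x | (x : ℝ) ∈ UU (ω δ (idx i).1) (idx i).2}

/-- The cover. -/
def CV {κ : Type} [LinearOrder κ] (A : Set ℝ) (δ : κ) (ω : Om κ) : Set (Set A) :=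
  {V | ∃ i ∈ Vl δ ω, V = Vi A δ ω i ∧ V ≠ Set.univ}

/-- The least indices of the members of `D`. -/
def JD {κ : Type} [LinearOrder κ] {A : Set ℝ} (δ : κ) (ω : Om κ) (D : Set (Set A)) : Set ℕ :=
  {i | i ∈ Vl δ ω ∧ Vi A δ ω i ∈ D ∧ ∀ i' < i, i' ∈ Vl δ ω → Vi A δ ω i' ≠ Vi A δ ω i}

section zf

variable {N : Type*} [ZFM N] {ι : Type}

/-- The trace, in the model. -/
noncomputable def VM (α τ i : N) : N :=
  sep α fun x => ∃ q, q ∈ (omega : N) ∧ ∃ q', q' ∈ (omega : N) ∧ opair i (opair q q') ∈ τ ∧ q ∈ x ∧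
    ¬ q' ∈ x

instance DF.VM (α τ i : (ι → N) → N) [DF α] [DF τ] [DF i] : DF fun v => FSI.VM (α v) (τ v) (i v) := by
  unfold FSI.VM
  infer_instance

/-- Validity, in the model. -/
def vM (τ i : N) : Prop :=
  ∃ q, q ∈ (omega : N) ∧ ∃ q', q' ∈ (omega : N) ∧ opair i (opair q q') ∈ τ

instance DR.vM (τ i : (ι → N) → N) [DF τ] [DF i] : DR fun v => FSI.vM (τ v) (i v) := by
  unfold FSI.vM
  infer_instance

end zf

variable {κ : Type} [LinearOrder κ] [WellFoundedLT κ] {θ : κ} {X : Set (LName (Pc θ))}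
  {g : Set (Pc θ)} [hs : SB X g] (h : StF X hs.g0 g) {ω : Om κ} (hω : Ext (Gs g) ω)

include h hω

theorem vM_iff {δ : κ} (hδ : Hu X δ) (hθ : δ < θ) (i : ℕ) :
    vM (el X g (nmT δ) (h.nT δ hδ)) (eN X g i) ↔ i ∈ Vl δ ω := by
  constructor
  · rintro ⟨q, hq, q', hq', hm⟩
    obtain ⟨m, rfl⟩ := mem_omega_iff.1 hq
    obtain ⟨m', rfl⟩ := mem_omega_iff.1 hq'
    exact ((mem_nmT h hω hδ hθ i m m').1 hm).1
  · intro hi
    refine ⟨eN X g (Encodable.encode (0 : ℚ)), mem_omega_iff.2 ⟨_, rfl⟩,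
      eN X g (Encodable.encode (0 : ℚ)), mem_omega_iff.2 ⟨_, rfl⟩, ?_⟩
    refine (mem_nmT h hω hδ hθ i _ _).2 ⟨hi, 0, 0, rfl, rfl, ?_⟩
    rw [Set.Ioc_self]
    exact Set.empty_subset _

theorem VM_val {δ : κ} (hδ : Hu X δ) (hθ : δ < θ) {A : Set ℝ} {α : Mod X g} (hα : α.1 = sZ A)
    {i : ℕ} (hi : i ∈ Vl δ ω) : (VM α (el X g (nmT δ) (h.nT δ hδ)) (eN X g i)).1 =
      sZ (Subtype.val '' Vi A δ ω i) := by
  apply ZFSet.ext
  intro z
  have hz0 : z ∈ (VM α (el X g (nmT δ) (h.nT δ hδ)) (eN X g i)).1 → z ∈ Mod X g := fun hz =>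
    Pool.Agent.RFN.Mod_trans _ (VM α (el X g (nmT δ) (h.nT δ hδ)) (eN X g i)).2 z hz
  have hz1 : ∀ hz : z ∈ Mod X g, (z ∈ (VM α (el X g (nmT δ) (h.nT δ hδ)) (eN X g i)).1 ↔
      z ∈ α.1 ∧ ∃ q, q ∈ (omega : Mod X g) ∧ ∃ q', q' ∈ (omega : Mod X g) ∧
        opair (eN X g i) (opair q q') ∈ el X g (nmT δ) (h.nT δ hδ) ∧ q.1 ∈ z ∧ ¬ q'.1 ∈ z) := by
    intro hz
    exact Pool.Agent.H78.ZF.mem_sep α (fun x => ∃ q, q ∈ (omega : Mod X g) ∧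
      ∃ q', q' ∈ (omega : Mod X g) ∧
      opair (eN X g i) (opair q q') ∈ el X g (nmT δ) (h.nT δ hδ) ∧ q ∈ x ∧ ¬ q' ∈ x) ⟨z, hz⟩
  constructor
  · intro hz
    obtain ⟨ha, q, hq, q', hq', hm, h1, h2⟩ := (hz1 (hz0 hz)).1 hz
    obtain ⟨m, rfl⟩ := mem_omega_iff.1 hq
    obtain ⟨m', rfl⟩ := mem_omega_iff.1 hq'
    rw [hα] at ha
    obtain ⟨x, hx, rfl⟩ := mem_sZ.1 ha
    obtain ⟨_, r, r', rfl, rfl, hr⟩ := (mem_nmT h hω hδ hθ i m m').1 hm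
    rw [val_eN, natZ_mem_qZ] at h1 h2
    obtain ⟨r1, e1, h1⟩ := h1
    rw [Encodable.encode_injective e1] at h1
    have h3 : x ≤ r' := by
      by_contra hc
      exact h2 ⟨r', rfl, not_le.1 hc⟩
    refine mem_sZ.2 ⟨x, ⟨⟨x, hx⟩, ?_, rfl⟩, rfl⟩
    exact mem_UU_iff_Ioc.2 ⟨r, r', hr, h1, h3⟩
  · intro hz
    obtain ⟨_, ⟨⟨x, hx⟩, hU, rfl⟩, rfl⟩ := mem_sZ.1 hz
    obtain ⟨r, r', hr, h1, h3⟩ := mem_UU_iff_Ioc.1 hU
    have hxα : qZ x ∈ α.1 := by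
      rw [hα]
      exact mem_sZ.2 ⟨x, hx, rfl⟩
    have hxM : qZ x ∈ Mod X g := Pool.Agent.RFN.Mod_trans _ α.2 _ hxα
    refine (hz1 hxM).2 ⟨hxα, eN X g (Encodable.encode r), mem_omega_iff.2 ⟨_, rfl⟩,
      eN X g (Encodable.encode r'), mem_omega_iff.2 ⟨_, rfl⟩, ?_, ?_, ?_⟩
    · exact (mem_nmT h hω hδ hθ i _ _).2 ⟨hi, r, r', rfl, rfl, hr⟩
    · rw [val_eN, natZ_mem_qZ]
      exact ⟨r, rfl, h1⟩
    · rw [val_eN, natZ_mem_qZ]
      rintro ⟨r2, e2, h2⟩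
      rw [Encodable.encode_injective e2] at h2
      exact absurd h3 (not_le.2 h2)

private theorem ne_univ_iff {δ : κ} (hδ : Hu X δ) (hθ : δ < θ) {A : Set ℝ} {α : Mod X g}
    (hα : α.1 = sZ A) {i : ℕ} (hi : i ∈ Vl δ ω) :
    VM α (el X g (nmT δ) (h.nT δ hδ)) (eN X g i) = α ↔ Vi A δ ω i = Set.univ := by
  rw [Subtype.ext_iff, VM_val h hω hδ hθ hα hi, hα, sZ_inj.eq_iff]
  constructor
  · intro e
    apply Set.eq_univ_of_forall
    rintro ⟨x, hx⟩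
    have h1 : x ∈ Subtype.val '' Vi A δ ω i := by
      rw [e]
      exact hx
    obtain ⟨y, hy, rfl⟩ := h1
    exact hy
  · intro e
    rw [e, Set.image_univ, Subtype.range_coe]

theorem CV_mem {δ : κ} (hδ : Hu X δ) (hθ : δ < θ) {A : Set ℝ} (hA : sZ A ∈ Mod X g) :
    fZ (CV A δ ω) ∈ Mod X g := by
  set τ : Mod X g := el X g (nmT δ) (h.nT δ hδ) with hτ
  set α : Mod X g := ⟨sZ A, hA⟩ with hα
  have hα1 : α.1 = sZ A := rfl
  set D : Mod X g := sep (pow α) (fun V => V ≠ α ∧ ∃ i, i ∈ (omega : Mod X g) ∧ vM τ i ∧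
    V = VM α τ i) with hD
  have hmem : ∀ V : Mod X g, V ∈ D ↔ V ∈ pow α ∧ (V ≠ α ∧ ∃ i, i ∈ (omega : Mod X g) ∧ vM τ i ∧
      V = VM α τ i) := fun V => Pool.Agent.H78.ZF.mem_sep (pow α) (fun V => V ≠ α ∧
        ∃ i, i ∈ (omega : Mod X g) ∧ vM τ i ∧ V = VM α τ i) V
  have e : D.1 = fZ (CV A δ ω) := by
    apply ZFSet.ext
    intro z
    constructor
    · intro hz
      have hzM : z ∈ Mod X g := Pool.Agent.RFN.Mod_trans _ D.2 z hz
      obtain ⟨_, hne, i, hi, hv, e⟩ := (hmem ⟨z, hzM⟩).1 hz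
      obtain ⟨n, rfl⟩ := mem_omega_iff.1 hi
      have hn := (vM_iff h hω hδ hθ n).1 hv
      refine mem_fZ.2 ⟨Vi A δ ω n, ⟨n, hn, rfl, ?_⟩, ?_⟩
      · intro hu
        exact hne (e.trans ((ne_univ_iff h hω hδ hθ hα1 hn).2 hu))
      · rw [← VM_val h hω hδ hθ hα1 hn]
        exact congrArg Subtype.val e
    · intro hz
      obtain ⟨U, ⟨n, hn, rfl, hne⟩, rfl⟩ := mem_fZ.1 hz
      rw [← VM_val h hω hδ hθ hα1 hn]
      refine (hmem (VM α τ (eN X g n))).2 ⟨?_, ?_, eN X g n, mem_omega_iff.2 ⟨_, rfl⟩,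
        (vM_iff h hω hδ hθ n).2 hn, rfl⟩
      · rw [Pool.Agent.H78.ZF.mem_pow, Pool.Agent.H78.ZF.sub_def]
        intro z hz
        exact ((Pool.Agent.H78.ZF.mem_sep α (fun x => ∃ q, q ∈ (omega : Mod X g) ∧
          ∃ q', q' ∈ (omega : Mod X g) ∧
          opair (eN X g n) (opair q q') ∈ τ ∧ q ∈ x ∧ ¬ q' ∈ x) z).1 hz).1
      · intro he
        exact hne ((ne_univ_iff h hω hδ hθ hα1 hn).1 he)
  rw [← e]
  exact D.2

theorem J_mem {δ : κ} (hδ : Hu X δ) (hθ : δ < θ) {A : Set ℝ} (hA : sZ A ∈ Mod X g)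
    {D : Set (Set A)} (hD : fZ D ∈ Mod X g) : nZ (JD δ ω D) ∈ Mod X g := by
  set τ : Mod X g := el X g (nmT δ) (h.nT δ hδ) with hτ
  set α : Mod X g := ⟨sZ A, hA⟩ with hα
  set d : Mod X g := ⟨fZ D, hD⟩ with hd
  have hα1 : α.1 = sZ A := rfl
  set S : Mod X g := sep (omega : Mod X g) (fun i => vM τ i ∧ VM α τ i ∈ d ∧
    ∀ i', i' ∈ i → vM τ i' → VM α τ i' ≠ VM α τ i) with hS
  have hmem : ∀ i : Mod X g, i ∈ S ↔ i ∈ (omega : Mod X g) ∧ (vM τ i ∧ VM α τ i ∈ d ∧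
      ∀ i', i' ∈ i → vM τ i' → VM α τ i' ≠ VM α τ i) := fun i =>
    Pool.Agent.H78.ZF.mem_sep (omega : Mod X g) (fun i => vM τ i ∧ VM α τ i ∈ d ∧
    ∀ i', i' ∈ i → vM τ i' → VM α τ i' ≠ VM α τ i) i
  have hVd : ∀ n ∈ Vl δ ω, (VM α τ (eN X g n) ∈ d ↔ Vi A δ ω n ∈ D) := by
    intro n hn
    have h1 : VM α τ (eN X g n) ∈ d ↔ (VM α τ (eN X g n)).1 ∈ fZ D := Iff.rfl
    rw [h1, VM_val h hω hδ hθ hα1 hn, sZ_mem_fZ]
  have hVe : ∀ n ∈ Vl δ ω, ∀ m ∈ Vl δ ω, (VM α τ (eN X g n) = VM α τ (eN X g m) ↔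
      Vi A δ ω n = Vi A δ ω m) := by
    intro n hn m hm
    rw [Subtype.ext_iff, VM_val h hω hδ hθ hα1 hn, VM_val h hω hδ hθ hα1 hm, sZ_inj.eq_iff]
    exact (Set.image_injective.2 Subtype.val_injective).eq_iff
  have e : S.1 = nZ (JD δ ω D) := by
    apply ZFSet.ext
    intro z
    constructor
    · intro hz
      have hzM : z ∈ Mod X g := Pool.Agent.RFN.Mod_trans _ S.2 z hz
      obtain ⟨hi, hv, hd1, hmin⟩ := (hmem ⟨z, hzM⟩).1 hz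
      obtain ⟨n, hn⟩ := mem_omega_iff.1 hi
      rw [hn] at hv hd1 hmin
      have hn1 := (vM_iff h hω hδ hθ n).1 hv
      refine mem_nZ.2 ⟨n, ⟨hn1, (hVd n hn1).1 hd1, ?_⟩, ?_⟩
      · intro m hm hmv
        have h2 : eN X g m ∈ eN X g n := by
          show (eN X g m).1 ∈ (eN X g n).1
          rw [val_eN, val_eN]
          exact mem_natZ.2 ⟨m, hm, rfl⟩
        intro he
        exact hmin (eN X g m) h2 ((vM_iff h hω hδ hθ m).2 hmv) ((hVe m hmv n hn1).2 he)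
      · rw [← val_eN (X := X) (g := g) n]
        exact congrArg Subtype.val hn
    · intro hz
      obtain ⟨n, ⟨hn1, hn2, hn3⟩, rfl⟩ := mem_nZ.1 hz
      rw [← val_eN (X := X) (g := g) n]
      refine (hmem (eN X g n)).2 ⟨mem_omega_iff.2 ⟨_, rfl⟩, (vM_iff h hω hδ hθ n).2 hn1,
        (hVd n hn1).2 hn2, ?_⟩
      intro i' hi' hv
      have h2 : i'.1 ∈ natZ n := by
        rw [← val_eN (X := X) (g := g) n]
        exact hi'
      obtain ⟨m, hm, e2⟩ := mem_natZ.1 h2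
      have e3 : i' = eN X g m := Subtype.ext (by rw [val_eN]; exact e2)
      rw [e3] at hv ⊢
      have hmv := (vM_iff h hω hδ hθ m).1 hv
      intro he
      exact hn3 m hm hmv ((hVe m hmv n hn1).1 he)
  rw [← e]
  exact S.2

end Pool.Agent.FSI
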