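import Pool.Agent.FSI.MDefs
import Pool.Agent.GEX.Base

set_option autoImplicit false

/-! # In the model, countable sets have the property for gamma-covers

`Mod X g` is a transitive model of ZFC (`GEX/Base.lean`; `choice_mod`).

PROOF. Let `α.1 = sZ A`, `σ.1 = qsZ s`, `A ⊆ range s`, `C` an omega-cover with `c.1 = fZ C`.
`SnM c σ α n` (below) = the set of the `U ∈ c` containing all `s i ∈ A`, `i ∈ n`. For `n = eN k` its
elements are the (codes of the) `U ∈ C` with `s i ∈ U` for all `i < k` with `s i ∈ A`; it is not empty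
since `C` is an omega-cover (`F` = the finset of these `s i`). Let
`z = sep (pow c) (fun S => ∃ n, n ∈ omega ∧ S = SnM c σ α n)`, `f` a choice function for `z`
(`choice_mod`), and `d = sep c (fun U => ∃ n, n ∈ omega ∧ U = ap f (SnM c σ α n))`. `D` = the set of the
`U ∈ C` with `sZ (Subtype.val '' U) ∈ d.1`; `fZ D = d.1`. Let `U k` be the member of `C` with code
`ap f (SnM c σ α (eN k))`; `D = {U k : k ∈ ℕ}` and `s i ∈ U k` if `i < k`, `s i ∈ A`. Members of `D` are open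
and different from `univ`, since `D ⊆ C`. For `x = s i ∈ A` the set `{V ∈ D | x ∉ V}` is contained in
`{U k : k ≤ i}`, finite. `D` is infinite: if `D` is finite choose for each `V ∈ D` a point `x_V ∉ V` of
`A`; for large `k` the set `U k ∈ D` contains all `x_V`, in particular `x_(U k)`, contradiction.
(If `A` is empty there is no omega-cover: `F = ∅` gives a member, which is `∅ = univ`.)
The elements of `eN k` are the `eN i`, `i < k` (values `natZ`, `mem_natZ`), `opair` in the model is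
`ZFSet.pair` of the values (`emb_val.opair`). -/

namespace Pool.Agent.FSI

open Pool.Agent.ChoicelessEmb Pool.Agent.ChoicelessEmb.LName Pool.Agent.RFN Pool.Agent.RFN.GX

open Pool.Agent.H78.ZF (ZFM opair omega sep pow DF DR)

section zf

variable {N : Type*} [ZFM N] {ι : Type}

/-- The members of `c` containing the first `n` elements. -/
noncomputable def SnM (c σ α n : N) : N :=
  sep c fun U => ∀ i, i ∈ n → ∀ x, opair i x ∈ σ → x ∈ α → x ∈ U

instance DF.SnM (c σ α n : (ι → N) → N) [DF c] [DF σ] [DF α] [DF n] :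
    DF fun v => FSI.SnM (c v) (σ v) (α v) (n v) := by
  unfold FSI.SnM
  infer_instance

theorem mem_SnM (c σ α n U : N) : U ∈ SnM c σ α n ↔
    U ∈ c ∧ ∀ i, i ∈ n → ∀ x, opair i x ∈ σ → x ∈ α → x ∈ U := by
  unfold SnM
  rw [Pool.Agent.H78.ZF.mem_sep]

end zf

variable {P : Type} [Preorder P] [OrderTop P] {X : Set (LName P)} {g : Set P} [hs : SB X g]

theorem ctb_og {A : Set ℝ} (hA : sZ A ∈ Mod X g) (hC : Ctb (Mod X g) A) : OG (Mod X g) A := by
  classical
  obtain ⟨s, hs1, hAs⟩ := hC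
  intro C hC1 hCo
  have htr : ∀ x ∈ Mod X g, ∀ z ∈ x, z ∈ Mod X g := fun x hx z hz =>
    Pool.Agent.RFN.Mod_trans x hx z hz
  set α : Mod X g := ⟨sZ A, hA⟩ with hα
  set σ : Mod X g := ⟨qsZ s, hs1⟩ with hσ
  set c : Mod X g := ⟨fZ C, hC1⟩ with hc
  have memc : ∀ y : Mod X g, y ∈ c ↔ ∃ U ∈ C, y.1 = sZ (Subtype.val '' U) := by
    intro y
    have h1 : y ∈ c ↔ y.1 ∈ fZ C := Iff.rfl
    rw [h1, mem_fZ]
  -- elements of the set `SnM`
  have memS : ∀ (k : ℕ) (y : Mod X g), y ∈ SnM c σ α (eN X g k) ↔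
      ∃ U ∈ C, y.1 = sZ (Subtype.val '' U) ∧ ∀ i < k, s i ∈ A → s i ∈ (Subtype.val '' U) := by
    intro k y
    rw [mem_SnM, memc]
    constructor
    · rintro ⟨⟨U, hU, hy⟩, h⟩
      refine ⟨U, hU, hy, ?_⟩
      intro i hi hiA
      have hq : qZ (s i) ∈ Mod X g := htr _ hA _ (qZ_mem_sZ.2 hiA)
      have h1 : (eN X g i) ∈ (eN X g k) := by
        have h2 : (eN X g i).1 ∈ (eN X g k).1 := by
          rw [val_eN, val_eN]
          exact mem_natZ.2 ⟨i, hi, rfl⟩
        exact h2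
      have h3 : opair (eN X g i) (⟨qZ (s i), hq⟩ : Mod X g) ∈ σ := by
        rw [emb_val.opair_mem]
        show ZFSet.pair (eN X g i).1 (qZ (s i)) ∈ qsZ s
        rw [val_eN]
        exact mem_qsZ.2 ⟨i, rfl⟩
      have h4 : (⟨qZ (s i), hq⟩ : Mod X g) ∈ α := by
        show qZ (s i) ∈ sZ A
        exact qZ_mem_sZ.2 hiA
      have h5 := h _ h1 _ h3 h4
      have h6 : qZ (s i) ∈ y.1 := h5
      rw [hy] at h6
      exact qZ_mem_sZ.1 h6
    · rintro ⟨U, hU, hy, h⟩
      refine ⟨⟨U, hU, hy⟩, ?_⟩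
      intro i hi x hx hxα
      have h1 : i.1 ∈ (eN X g k).1 := hi
      rw [val_eN] at h1
      obtain ⟨j, hj, hij⟩ := mem_natZ.1 h1
      rw [emb_val.opair_mem] at hx
      have hx' : ZFSet.pair i.1 x.1 ∈ qsZ s := hx
      obtain ⟨n, hn⟩ := mem_qsZ.1 hx'
      obtain ⟨h2, h3⟩ := ZFSet.pair_injective hn
      have hjn : j = n := natZ_injective (hij.symm.trans h2)
      subst hjn
      have hxA : x.1 ∈ sZ A := hxα
      rw [h3] at hxA
      have h4 : s j ∈ A := qZ_mem_sZ.1 hxA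
      have h5 := h j hj h4
      show x.1 ∈ y.1
      rw [hy, h3]
      exact qZ_mem_sZ.2 h5
  have neS : ∀ k : ℕ, ∃ y, y ∈ SnM c σ α (eN X g k) := by
    intro k
    obtain ⟨U, hU, hF⟩ := hCo.2.2 (((Finset.range k).image s).subtype (· ∈ A))
    have hm : sZ (Subtype.val '' U) ∈ Mod X g := htr _ hC1 _ (sZ_mem_fZ.2 hU)
    refine ⟨⟨sZ (Subtype.val '' U), hm⟩, (memS k _).2 ⟨U, hU, rfl, ?_⟩⟩
    intro i hi hiA
    refine ⟨⟨s i, hiA⟩, hF _ ?_, rfl⟩
    rw [Finset.mem_subtype]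
    exact Finset.mem_image.2 ⟨i, Finset.mem_range.2 hi, rfl⟩
  -- the set of these sets
  set z : Mod X g := sep (pow c) (fun S => ∃ n, n ∈ (omega : Mod X g) ∧ S = SnM c σ α n) with hz
  have memz : ∀ S : Mod X g, S ∈ z ↔ S ∈ pow c ∧ ∃ n, n ∈ (omega : Mod X g) ∧ S = SnM c σ α n := by
    intro S
    rw [hz, Pool.Agent.H78.ZF.mem_sep]
  have hSz : ∀ k : ℕ, SnM c σ α (eN X g k) ∈ z := by
    intro k
    rw [memz]
    refine ⟨?_, eN X g k, mem_omega_iff.2 ⟨k, rfl⟩, rfl⟩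
    rw [Pool.Agent.H78.ZF.mem_pow]
    intro w hw
    exact ((mem_SnM _ _ _ _ _).1 hw).1
  obtain ⟨f, -, hf⟩ := choice_mod (X := X) (g := g) z (by
    intro y hy
    obtain ⟨-, n, hn, rfl⟩ := (memz y).1 hy
    obtain ⟨k, rfl⟩ := mem_omega_iff.1 hn
    exact neS k)
  set d : Mod X g := sep c (fun U => ∃ n, n ∈ (omega : Mod X g) ∧
    U = Pool.Agent.H78.ZF.ap f (SnM c σ α n)) with hd
  have memd : ∀ S : Mod X g, S ∈ d ↔ S ∈ c ∧ ∃ n, n ∈ (omega : Mod X g) ∧
      S = Pool.Agent.H78.ZF.ap f (SnM c σ α n) := by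
    intro S
    rw [hd, Pool.Agent.H78.ZF.mem_sep]
  have hU : ∀ k : ℕ, ∃ U ∈ C, (Pool.Agent.H78.ZF.ap f (SnM c σ α (eN X g k))).1 =
      sZ (Subtype.val '' U) ∧ ∀ i < k, s i ∈ A → s i ∈ (Subtype.val '' U) := by
    intro k
    exact (memS k _).1 (hf _ (hSz k))
  choose U hUC hUv hUs using hU
  refine ⟨Set.range U, ?_, ?_, ?_⟩
  · rintro V ⟨k, rfl⟩
    exact hUC k
  · have : fZ (Set.range U) = d.1 := by
      ext v
      rw [mem_fZ]
      constructor
      · rintro ⟨V, ⟨k, rfl⟩, rfl⟩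
        rw [← hUv k]
        have h1 : Pool.Agent.H78.ZF.ap f (SnM c σ α (eN X g k)) ∈ d := by
          rw [memd]
          refine ⟨?_, eN X g k, mem_omega_iff.2 ⟨k, rfl⟩, rfl⟩
          exact ((mem_SnM _ _ _ _ _).1 (hf _ (hSz k))).1
        exact h1
      · intro hv
        have hvM : v ∈ Mod X g := htr _ d.2 _ hv
        have h1 : (⟨v, hvM⟩ : Mod X g) ∈ d := hv
        rw [memd] at h1
        obtain ⟨-, n, hn, h2⟩ := h1
        obtain ⟨k, rfl⟩ := mem_omega_iff.1 hn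
        refine ⟨U k, ⟨k, rfl⟩, ?_⟩
        rw [← hUv k, ← h2]
    rw [this]
    exact d.2
  · have hmem : ∀ k i (hi : s i ∈ A), i < k → (⟨s i, hi⟩ : A) ∈ U k := by
      intro k i hi hik
      obtain ⟨x, hx, hxe⟩ := hUs k i hik hi
      have : x = ⟨s i, hi⟩ := Subtype.ext hxe
      rw [← this]
      exact hx
    have hidx : ∀ x : A, ∃ i, s i = x := fun x => hAs x.2
    choose idx hidx using hidx
    refine ⟨?_, ?_, ?_, ?_⟩
    · rintro V ⟨k, rfl⟩
      exact hCo.1 _ (hUC k)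
    · rintro ⟨k, hk⟩
      exact hCo.2.1 (hk ▸ hUC k)
    · intro hfin
      have hne : ∀ V : Set A, ∃ x : A, V ∈ Set.range U → x ∉ V := by
        intro V
        by_cases hV : V ∈ Set.range U
        · obtain ⟨k, rfl⟩ := hV
          have h1 : U k ≠ Set.univ := fun h => hCo.2.1 (h ▸ hUC k)
          obtain ⟨x, hx⟩ := (Set.ne_univ_iff_exists_notMem _).1 h1
          exact ⟨x, fun _ => hx⟩
        · have h1 : U 0 ≠ Set.univ := fun h => hCo.2.1 (h ▸ hUC 0)
          obtain ⟨x, hx⟩ := (Set.ne_univ_iff_exists_notMem _).1 h1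
          exact ⟨x, fun h => absurd h hV⟩
      choose xi hxi using hne
      obtain ⟨B, hB⟩ := (hfin.image fun V => idx (xi V)).bddAbove
      have h1 : idx (xi (U (B + 1))) ≤ B := hB ⟨U (B + 1), ⟨B + 1, rfl⟩, rfl⟩
      have h2 := hxi (U (B + 1)) ⟨B + 1, rfl⟩
      apply h2
      have h3 : s (idx (xi (U (B + 1)))) ∈ A := by
        rw [hidx]
        exact (xi (U (B + 1))).2
      have h4 := hmem (B + 1) _ h3 (Nat.lt_succ_of_le h1)
      have h5 : (⟨s (idx (xi (U (B + 1)))), h3⟩ : A) = xi (U (B + 1)) := Subtype.ext (hidx _)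
      rw [h5] at h4
      exact h4
    · intro x
      refine Set.Finite.subset ((Set.finite_Iic (idx x)).image U) ?_
      rintro V ⟨⟨k, rfl⟩, hx⟩
      refine ⟨k, ?_, rfl⟩
      rw [Set.mem_Iic]
      by_contra hk
      push Not at hk
      apply hx
      have h3 : s (idx x) ∈ A := by
        rw [hidx]
        exact x.2
      have h4 := hmem k _ h3 hk
      have h5 : (⟨s (idx x), h3⟩ : A) = x := Subtype.ext (hidx _)
      rw [h5] at h4
      exact h4

end Pool.Agent.FSI
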