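import Pool.Agent.H97Tau.Defs
import Pool.Agent.ChoicelessEmb.Ground
import Pool.Agent.RFN.TDefs

set_option autoImplicit false

/-! # Covers of sets of reals in a transitive model of set theory

`M` is a transitive set, a model of ZFC (or the universe, `M = Set.univ`). The natural number `n` is
coded by the von Neumann number `natZ n`.
* `qZ r` = the Dedekind cut of the real `r`, the set of the (codes of the) rational numbers `q < r`; the
  real `r` is in `M` if `qZ r ∈ M`.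
* `sZ A` = the set of reals `A`; it is in `M` if `sZ A ∈ M`.
* `fZ C` = the family `C` of subsets of `A`; it is in `M` if `fZ C ∈ M`.
* `OT M A` : in `M`, every open omega-cover of `A` contains a tau-cover; `OG M A` : in `M`, every open
  omega-cover of `A` contains a gamma-cover. (The notions of an omega-cover, a tau-cover and a
  gamma-cover do not depend on the model: a subset `U ∈ M` of `A` is open in `A` iff it is open in `A`
  in the sense of `M`, and a set in `M` is finite iff it is finite in the sense of `M`. So only the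
  quantifiers over families are restricted to `M`.)
* `Ctb M A` : `A` is countable in `M` (contained in the range of a sequence of reals of `M`, which is
  in `M`).

PROOFS. `natZ_mem_qZ`: `ZFSet.mem_range`, `natZ_injective`, `Encodable.encode_injective`. `qZ_inj`:
density of the rationals. `mem_sZ`, `mem_fZ`: `ZFSet.mem_range`. `univ_iff`: all codes are in
`Set.univ`. `tau_of_gamma`: a gamma-cover is infinite and each point is in all but finitely many
members, so in infinitely many; the sets in the last clause are subsets of the finite sets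
`{U ∈ C : y ∉ U}`. `og_ot`: from `tau_of_gamma`. -/

namespace Pool.Agent.FSI

open Pool.Agent.ChoicelessEmb Pool.Agent.H97Tau

/-- The Dedekind cut of a real, as a set. -/
noncomputable def qZ (r : ℝ) : ZFSet.{0} :=
  ZFSet.range fun q : {q : ℚ // (q : ℝ) < r} => natZ (Encodable.encode q.1)

/-- A set of reals, as a set. -/
noncomputable def sZ (A : Set ℝ) : ZFSet.{0} := ZFSet.range fun x : A => qZ x

/-- A family of subsets of `A`, as a set. -/
noncomputable def fZ {A : Set ℝ} (C : Set (Set A)) : ZFSet.{0} :=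
  ZFSet.range fun U : C => sZ (Subtype.val '' U.1)

/-- A sequence of reals, as a set. -/
noncomputable def qsZ (s : ℕ → ℝ) : ZFSet.{0} := ZFSet.range fun n => (natZ n).pair (qZ (s n))

/-- In `M`, every open omega-cover of `A` contains a tau-cover. -/
def OT (M : Set ZFSet.{0}) (A : Set ℝ) : Prop :=
  ∀ C : Set (Set A), fZ C ∈ M → IsOmegaCover C → ∃ D ⊆ C, fZ D ∈ M ∧ IsTauCover D

/-- In `M`, every open omega-cover of `A` contains a gamma-cover. -/
def OG (M : Set ZFSet.{0}) (A : Set ℝ) : Prop :=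
  ∀ C : Set (Set A), fZ C ∈ M → IsOmegaCover C → ∃ D ⊆ C, fZ D ∈ M ∧ IsGammaCover D

/-- `A` is countable in `M`. -/
def Ctb (M : Set ZFSet.{0}) (A : Set ℝ) : Prop := ∃ s : ℕ → ℝ, qsZ s ∈ M ∧ A ⊆ Set.range s

theorem natZ_mem_qZ {r : ℝ} {n : ℕ} : natZ n ∈ qZ r ↔ ∃ q : ℚ, Encodable.encode q = n ∧ (q : ℝ) < r := by
  rw [qZ, ZFSet.mem_range]
  constructor
  · rintro ⟨⟨q, hq⟩, e⟩
    exact ⟨q, natZ_injective e, hq⟩
  · rintro ⟨q, rfl, hq⟩
    exact ⟨⟨q, hq⟩, rfl⟩

private theorem qZ_lt_aux {r s : ℝ} (h : r < s) : qZ r ≠ qZ s := by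
  intro e
  obtain ⟨q, hq1, hq2⟩ := exists_rat_btwn h
  have h1 : natZ (Encodable.encode q) ∈ qZ s := natZ_mem_qZ.2 ⟨q, rfl, hq2⟩
  rw [← e] at h1
  obtain ⟨q', he, hq'⟩ := natZ_mem_qZ.1 h1
  rw [Encodable.encode_injective he] at hq'
  exact lt_asymm hq1 hq'

theorem qZ_inj : Function.Injective qZ := by
  intro r s e
  rcases lt_trichotomy r s with h | h | h
  · exact absurd e (qZ_lt_aux h)
  · exact h
  · exact absurd e.symm (qZ_lt_aux h)

theorem mem_sZ {A : Set ℝ} {v : ZFSet.{0}} : v ∈ sZ A ↔ ∃ x ∈ A, v = qZ x := by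
  rw [sZ, ZFSet.mem_range]
  constructor
  · rintro ⟨⟨x, hx⟩, e⟩
    exact ⟨x, hx, e.symm⟩
  · rintro ⟨x, hx, rfl⟩
    exact ⟨⟨x, hx⟩, rfl⟩

theorem qZ_mem_sZ {A : Set ℝ} {x : ℝ} : qZ x ∈ sZ A ↔ x ∈ A := by
  rw [mem_sZ]
  constructor
  · rintro ⟨y, hy, e⟩
    rw [qZ_inj e]
    exact hy
  · intro hx
    exact ⟨x, hx, rfl⟩

theorem sZ_inj : Function.Injective sZ := by
  intro A B e
  ext x
  rw [← qZ_mem_sZ, e, qZ_mem_sZ]

theorem mem_fZ {A : Set ℝ} {C : Set (Set A)} {v : ZFSet.{0}} :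
    v ∈ fZ C ↔ ∃ U ∈ C, v = sZ (Subtype.val '' U) := by
  rw [fZ, ZFSet.mem_range]
  constructor
  · rintro ⟨⟨U, hU⟩, e⟩
    exact ⟨U, hU, e.symm⟩
  · rintro ⟨U, hU, rfl⟩
    exact ⟨⟨U, hU⟩, rfl⟩

theorem sZ_mem_fZ {A : Set ℝ} {C : Set (Set A)} {U : Set A} :
    sZ (Subtype.val '' U) ∈ fZ C ↔ U ∈ C := by
  rw [mem_fZ]
  constructor
  · rintro ⟨W, hW, e⟩
    rw [Set.image_injective.2 Subtype.val_injective (sZ_inj e)]
    exact hW
  · intro hU
    exact ⟨U, hU, rfl⟩

theorem mem_qsZ {s : ℕ → ℝ} {v : ZFSet.{0}} : v ∈ qsZ s ↔ ∃ n, v = (natZ n).pair (qZ (s n)) := by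
  rw [qsZ, ZFSet.mem_range]
  constructor
  · rintro ⟨n, e⟩
    exact ⟨n, e.symm⟩
  · rintro ⟨n, rfl⟩
    exact ⟨n, rfl⟩

theorem tau_of_gamma {A : Set ℝ} {C : Set (Set A)} (h : IsGammaCover C) : IsTauCover C := by
  obtain ⟨h1, h2, h3, h4⟩ := h
  refine ⟨h1, h2, fun x hfin => h3 ((hfin.union (h4 x)).subset ?_), fun x y => Or.inl ?_⟩
  · intro U hU
    by_cases hx : x ∈ U
    · exact Or.inl ⟨hU, hx⟩
    · exact Or.inr ⟨hU, hx⟩
  · exact (h4 y).subset fun U hU => ⟨hU.1, hU.2.2⟩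

theorem og_ot {M : Set ZFSet.{0}} {A : Set ℝ} (h : OG M A) : OT M A := by
  intro C hC hω
  obtain ⟨D, hD, hM, hγ⟩ := h C hC hω
  exact ⟨D, hD, hM, tau_of_gamma hγ⟩

theorem ot_univ {A : Set ℝ} : OT Set.univ A ↔
    ∀ C : Set (Set A), IsOmegaCover C → ∃ D ⊆ C, IsTauCover D := by
  constructor
  · intro h C hω
    obtain ⟨D, hD, _, hτ⟩ := h C (Set.mem_univ _) hω
    exact ⟨D, hD, hτ⟩
  · intro h C _ hω
    obtain ⟨D, hD, hτ⟩ := h C hω
    exact ⟨D, hD, Set.mem_univ _, hτ⟩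

theorem og_univ {A : Set ℝ} : OG Set.univ A ↔
    ∀ C : Set (Set A), IsOmegaCover C → ∃ D ⊆ C, IsGammaCover D := by
  constructor
  · intro h C hω
    obtain ⟨D, hD, _, hγ⟩ := h C (Set.mem_univ _) hω
    exact ⟨D, hD, hγ⟩
  · intro h C _ hω
    obtain ⟨D, hD, hγ⟩ := h C hω
    exact ⟨D, hD, Set.mem_univ _, hγ⟩

end Pool.Agent.FSI
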