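import Pool.Agent.FSI.MSt

set_option autoImplicit false

/-! # Dictionary: the reals of the model are the values of the measurable functions in the hull

PROOFS.
* `truth`: `→` `h.tr`; `←`: for `p ∈ g` take `p0 ∈ g0`, `p0 ≤ p` (`hs.st.op.atom.gen`), `Fo.le`, `h.fo`.
  (`hs.st : StB X hs.g0 g`, `hs.st.op.atom : AtomG ..` extends `GFil`.)
* `mem_nmS`: `mem_val_relG`, `truth`, `val_eN` (the value of `nN n` is `natZ n`:
  `hs.st.natZ_mem (Or.inr ⟨n, rfl⟩)`), `hs.st.nat`.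
* `mem_name`: `natZ n ∈ val X g u` iff `fmem (nN n) u p` for some `p ∈ g` (`val_mem_iff
  hs.st.op.atom`), `fo_FN`, `truth` (`h.lv (FN u) (h.fn u hu) n`, `FN_meas`).
* `exists_setN`: `nZ J0 = val X g u` with `u ∈ X`; `J = FN u`.
* `val_nmR`: `mem_nmS` for `cutF F`, `natZ_mem_qZ`, `ZFSet.ext`. `real_iff`: `←` `val_nmR`; `→`:
  `qZ r = val X g u`, `F = uncut (FN u)`: `FN u ω = cut r` by `mem_name` and `natZ_mem_qZ`;
  `uncut_cut`.
* `inA_iff`: `val_mem_iff`, `val_nmR`, `qZ_mem_sZ`; `inA_g0`: take `p0 ∈ g0` below `p` (`InA.mono`).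
* `seq_mem`: the value of `nmQ s` is `qsZ _`: `mem_val_relG`, `Pool.Agent.RFN.val_opairN`,
  `mem_qsZ`.
* `TS_meas`: countable union over the values `e` of `ω δ n`. `mem_nmT`: `mem_rel`, `opair_el`, `opair_inj`,
  `eN_inj` (as `opair_eq` in `GEX/Base.lean`), `truth`. -/

namespace Pool.Agent.FSI

open Pool.Agent.ChoicelessEmb Pool.Agent.ChoicelessEmb.LName Pool.Agent.RFN Pool.Agent.RFN.GX

open Pool.Agent.H78.ZF (ZFM opair omega)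

variable {κ : Type} [LinearOrder κ] [WellFoundedLT κ] {θ : κ}

/-- A set of natural numbers, as a set. -/
noncomputable def nZ (J : Set ℕ) : ZFSet.{0} := ZFSet.range fun n : J => natZ n

theorem mem_nZ {J : Set ℕ} {v : ZFSet.{0}} : v ∈ nZ J ↔ ∃ n ∈ J, v = natZ n := by
  unfold nZ
  rw [ZFSet.mem_range]
  constructor
  · rintro ⟨⟨n, hn⟩, rfl⟩
    exact ⟨n, hn, rfl⟩
  · rintro ⟨n, hn, rfl⟩
    exact ⟨⟨n, hn⟩, rfl⟩

theorem TS_meas {δ : κ} (hδ : δ < θ) (i m m' : ℕ) : Meas θ (TS δ i m m') := by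
  have key : TS δ i m m' = ⋃ e : E, {ω : Om κ | ω δ (idx i).1 = e} ∩ {_ω : Om κ |
      vld (idx i).1 e (idx i).2 ∧ ∃ q q' : ℚ, Encodable.encode q = m ∧ Encodable.encode q' = m' ∧
        Set.Ioc (q : ℝ) q' ⊆ UU e (idx i).2} := by
    ext ω
    rw [Set.mem_iUnion]
    constructor
    · intro h
      exact ⟨ω δ (idx i).1, rfl, h⟩
    · rintro ⟨e, h1, h2⟩
      have h1' : ω δ (idx i).1 = e := h1
      subst h1'
      exact h2
  rw [key]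
  exact Meas.iUnion fun e => (meas_coord hδ _ e).inter (meas_const _)

variable {X : Set (LName (Pc θ))} {g : Set (Pc θ)} [hs : SB X g] (h : StF X hs.g0 g) {ω : Om κ}
  (hω : Ext (Gs g) ω)

include h hω

theorem truth {A : Set (Om κ)} (hA : Hu X A) (hm : Meas θ A) : ω ∈ A ↔ ∃ p ∈ g, Fo θ p.val A := by
  constructor
  · intro hx
    obtain ⟨p, hp, h1⟩ := h.tr A hA hm ω hω hx
    exact ⟨p, hs.st.op.atom.sub hp, h1⟩
  · rintro ⟨p, hp, h1⟩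
    obtain ⟨p0, hp0, hle⟩ := hs.st.op.atom.gen p hp
    exact h.fo A hA p0 hp0 (h1.le p.mem p0.mem hle) ω hω

omit h hω in
private theorem val_nN (n : ℕ) : val X g (nN n) = natZ n :=
  hs.st.natZ_mem (Or.inr ⟨n, rfl⟩)

theorem mem_nmS {G : Om κ → Set ℕ} (hG : Hu X G) (hm : MeasN θ G) {v : ZFSet.{0}} :
    v ∈ val X g (nmS G) ↔ ∃ n ∈ G ω, v = natZ n := by
  unfold nmS
  rw [mem_val_relG]
  constructor
  · rintro ⟨n, _, hp, rfl⟩
    exact ⟨n, (truth h hω (h.lv G hG n) (hm n)).2 hp, val_nN n⟩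
  · rintro ⟨n, hn, rfl⟩
    exact ⟨n, hs.st.nat n, (truth h hω (h.lv G hG n) (hm n)).1 hn, (val_nN n).symm⟩

theorem mem_name {u : LName (Pc θ)} (hu : u ∈ X) {n : ℕ} : natZ n ∈ val X g u ↔ n ∈ FN u ω := by
  have h1 : n ∈ FN u ω ↔ ∃ p ∈ g, Fo θ p.val {ω | n ∈ FN u ω} :=
    truth (A := {ω | n ∈ FN u ω}) h hω (h.lv (FN u) (h.fn u hu) n) (FN_meas u n)
  rw [h1, ← val_nN (X := X) (g := g) n, Pool.Agent.RFN.val_mem_iff hs.st.op.atom (hs.st.nat n) hu]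
  constructor
  · rintro ⟨p, hp, h2⟩
    exact ⟨p, hp, fo_FN.2 h2⟩
  · rintro ⟨p, hp, h2⟩
    exact ⟨p, hp, fo_FN.1 h2⟩

theorem exists_setN {J0 : Set ℕ} (hJ : nZ J0 ∈ Mod X g) :
    ∃ J : Om κ → Set ℕ, Hu X J ∧ MeasN θ J ∧ J ω = J0 := by
  obtain ⟨u, hu, e⟩ := hJ
  refine ⟨FN u, h.fn u hu, FN_meas u, ?_⟩
  ext n
  rw [← mem_name h hω hu, e, mem_nZ]
  constructor
  · rintro ⟨m, hm, e1⟩
    rw [natZ_injective e1]
    exact hm
  · intro hn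
    exact ⟨n, hn, rfl⟩

omit h hω hs in
private theorem mem_qZ {r : ℝ} {v : ZFSet.{0}} : v ∈ qZ r ↔ ∃ n ∈ cut r, v = natZ n := by
  unfold qZ
  rw [ZFSet.mem_range]
  constructor
  · rintro ⟨⟨q, hq⟩, rfl⟩
    exact ⟨_, ⟨q, rfl, hq⟩, rfl⟩
  · rintro ⟨_, ⟨q, rfl, hq⟩, rfl⟩
    exact ⟨⟨q, hq⟩, rfl⟩

theorem val_nmR {F : Om κ → ℝ} (hF : Hu X F) (hm : MeasR θ F) :
    nmR F ∈ X ∧ val X g (nmR F) = qZ (F ω) := by
  refine ⟨h.nS (cutF F) (h.ct F hF), ?_⟩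
  ext v
  unfold nmR
  rw [mem_nmS h hω (h.ct F hF) (cutF_meas hm), mem_qZ]
  exact Iff.rfl

theorem real_iff {r : ℝ} : qZ r ∈ Mod X g ↔ ∃ F : Om κ → ℝ, Hu X F ∧ MeasR θ F ∧ F ω = r := by
  constructor
  · rintro ⟨u, hu, e⟩
    refine ⟨uncut (FN u), h.uc _ (h.fn u hu), uncut_meas (FN_meas u), uncut_cut ?_⟩
    ext n
    rw [← mem_name h hω hu, e, mem_qZ]
    constructor
    · rintro ⟨m, hm, e1⟩
      rw [natZ_injective e1]
      exact hm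
    · intro hn
      exact ⟨n, hn, rfl⟩
  · rintro ⟨F, hF, hm, rfl⟩
    obtain ⟨h1, h2⟩ := val_nmR h hω hF hm
    exact ⟨_, h1, h2⟩

theorem inA_iff {a : LName (Pc θ)} (ha : a ∈ X) {A : Set ℝ} (hA : val X g a = sZ A) {F : Om κ → ℝ}
    (hF : Hu X F) (hm : MeasR θ F) : F ω ∈ A ↔ ∃ p ∈ g, InA a F p := by
  obtain ⟨h1, h2⟩ := val_nmR h hω hF hm
  have h3 := Pool.Agent.RFN.val_mem_iff hs.st.op.atom h1 ha
  rw [h2, hA, qZ_mem_sZ] at h3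
  exact h3

theorem inA_g0 {a : LName (Pc θ)} (ha : a ∈ X) {A : Set ℝ} (hA : val X g a = sZ A) {F : Om κ → ℝ}
    (hF : Hu X F) (hm : MeasR θ F) (hx : F ω ∈ A) : ∃ p ∈ hs.g0, InA a F p := by
  obtain ⟨p, hp, h1⟩ := (inA_iff h hω ha hA hF hm).1 hx
  obtain ⟨p0, hp0, hle⟩ := hs.st.op.atom.gen p hp
  exact ⟨p0, hp0, h1.mono hle⟩

/-- every element of `A` is the value of a function in the hull -/
theorem exists_fun {A : Set ℝ} (hA : sZ A ∈ Mod X g) {x : ℝ} (hx : x ∈ A) :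
    ∃ F : Om κ → ℝ, Hu X F ∧ MeasR θ F ∧ F ω = x :=
  (real_iff h hω).1 (Pool.Agent.RFN.Mod_trans _ hA _ (qZ_mem_sZ.2 hx))

theorem seq_mem {s : ℕ → Om κ → ℝ} (hs' : Hu X s) (hm : ∀ n, MeasR θ (s n)) :
    qsZ (fun n => s n ω) ∈ Mod X g := by
  have key : ∀ n, opairN (nN n) (nmR (s n)) ∈ X ∧
      val X g (opairN (nN n) (nmR (s n))) = (natZ n).pair (qZ (s n ω)) := by
    intro n
    obtain ⟨h1, h2⟩ := val_nmR h hω (h.sq s hs' n) (hm n)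
    refine ⟨hs.st.opair _ (hs.st.nat n) _ h1, ?_⟩
    rw [Pool.Agent.RFN.val_opairN hs.st.op.atom.fil hs.st.op.pair (hs.st.nat n) h1, h2, val_nN]
  refine ⟨nmQ s, h.nQ s hs', ?_⟩
  ext v
  unfold nmQ
  rw [mem_val_relG, mem_qsZ]
  constructor
  · rintro ⟨n, _, _, rfl⟩
    exact ⟨n, (key n).2⟩
  · rintro ⟨n, rfl⟩
    exact ⟨n, (key n).1, ⟨⊤, top_g (hs := hs), trivial⟩, (key n).2.symm⟩

theorem mem_nmT {δ : κ} (hδ : Hu X δ) (hθ : δ < θ) (i m m' : ℕ) :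
    opair (eN X g i) (opair (eN X g m) (eN X g m')) ∈ el X g (nmT δ) (h.nT δ hδ) ↔
      ω ∈ TS δ i m m' := by
  have h0 : (relG (nm2 nN (nm2 nN nN)) fun t (p : Pc θ) => Fo θ p.val (TS δ t.1 t.2.1 t.2.2)) ∈ X :=
    h.nT δ hδ
  have h1 : opair (eN X g i) (opair (eN X g m) (eN X g m')) ∈ el X g (nmT δ) (h.nT δ hδ) ↔
      ∃ t : ℕ × ℕ × ℕ, ∃ ht : nm2 nN (nm2 nN nN) t ∈ X, (∃ p ∈ g, Fo θ p.val
        (TS δ t.1 t.2.1 t.2.2)) ∧ opair (eN X g i) (opair (eN X g m) (eN X g m')) =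
          el X g (nm2 nN (nm2 nN nN) t) ht := mem_rel h0
  rw [h1]
  constructor
  · rintro ⟨⟨i', m1, m2⟩, ht, hp, e⟩
    obtain ⟨e1, e2⟩ := opair_eq (u := nN i') (v := (opairN (nN m1) (nN m2) : LName (Pc θ))) ht e
    obtain ⟨e3, e4⟩ := opair_eq (u := nN m1) (v := nN m2) (hs.st.proj _ _ ht).2 e2
    have f1 : i = i' := eN_inj (X := X) (g := g) e1
    have f2 : m = m1 := eN_inj (X := X) (g := g) e3
    have f3 : m' = m2 := eN_inj (X := X) (g := g) e4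
    subst f1 f2 f3
    exact (truth h hω (h.ts δ hδ i m m') (TS_meas hθ i m m')).2 hp
  · intro hx
    have h2 : (opairN (nN m) (nN m') : LName (Pc θ)) ∈ X :=
      hs.st.opair _ (hs.st.nat m) _ (hs.st.nat m')
    refine ⟨(i, m, m'), hs.st.opair _ (hs.st.nat i) _ h2,
      (truth h hω (h.ts δ hδ i m m') (TS_meas hθ i m m')).1 hx, ?_⟩
    have h3 : opair (eN X g m) (eN X g m') = el X g (opairN (nN m) (nN m')) h2 :=
      opair_el (hs.st.nat m) (hs.st.nat m')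
    rw [h3]
    exact opair_el (hs.st.nat i) h2

end Pool.Agent.FSI
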