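import Pool.Agent.FSI.MMix

set_option autoImplicit false

/-! # The index set of the iteration

`Kp` = the ordinal `ω₂` with a greatest element `⊤` added.

PROOF of `kap_bdd`. Let `S` be a set of at most `ℵ₁` elements below `⊤`; it is the image of a set `S'` of
elements of `(ord (ℵ_ 2)).ToType` with `#S' ≤ ℵ₁` (`WithTop.coe`, injective). `Order.cof` of this type is
`(ord (ℵ_ 2)).cof = ℵ_ 2` (`Ordinal.cof_toType`, `Cardinal.isRegular_succ`, `Cardinal.succ_aleph`), so
`S'` is not cofinal (`Order.cof_le` or the corresponding lemma): there is `δ'` with no element of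
`S'` above or equal to it, so all elements of `S'` are `< δ'` (linear order). `δ = (δ' : Kp) < ⊤`. -/

namespace Pool.Agent.FSI

open scoped Cardinal

/-- The index set. -/
abbrev Kp : Type := WithTop (Cardinal.ord (ℵ_ 2)).ToType

theorem kap_bdd : Bdd (⊤ : Kp) := by
  intro S hS hlt
  let T : Type := (Cardinal.ord (ℵ_ 2)).ToType
  have hcof : Order.cof (Cardinal.ord (ℵ_ 2)).ToType = ℵ_ 2 := by
    rw [Ordinal.cof_toType]
    have h2 : (ℵ_ 2 : Cardinal) = ℵ_ (Order.succ 1) := by
      congr 1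
      rw [Order.succ_eq_add_one]
      norm_num
    have h3 : Cardinal.IsRegular (ℵ_ (Order.succ 1)) := Cardinal.isRegular_aleph_succ 1
    rw [h2]
    exact h3.cof_eq
  have h12 : (ℵ₁ : Cardinal) < ℵ_ 2 := by
    rw [Cardinal.aleph_lt_aleph]
    norm_num
  let S' : Set T := {x | (x : WithTop T) ∈ S}
  have hS' : #S' ≤ ℵ₁ := by
    refine le_trans ?_ hS
    refine Cardinal.mk_le_of_injective (f := fun x : S' => (⟨(x.1 : WithTop T), x.2⟩ : S)) ?_
    intro x y hxy
    simp only [Subtype.mk.injEq] at hxy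
    exact Subtype.ext (WithTop.coe_injective hxy)
  have hn : ¬ IsCofinal S' := by
    intro hc
    have := Order.cof_le hc
    rw [hcof] at this
    exact absurd (lt_of_lt_of_le h12 (this.trans hS')) (lt_irrefl _)
  unfold IsCofinal at hn
  push Not at hn
  obtain ⟨δ', hδ'⟩ := hn
  refine ⟨(δ' : WithTop T), WithTop.coe_lt_top _, ?_⟩
  intro ξ hξ
  obtain ⟨x, rfl⟩ := WithTop.ne_top_iff_exists.1 (ne_of_lt (hlt ξ hξ))
  exact WithTop.coe_lt_coe.2 (hδ' x hξ)

end Pool.Agent.FSI
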