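import Pool.Agent.FSI.MMain
import Pool.Agent.FSI.MCtb
import Pool.Agent.FSI.MKap

set_option autoImplicit false

/-! # The model

PROOF. `(req_StF (θ := (⊤ : Kp))).exists` gives `X`, `g0`, `g` with `X` countable, `GFil g0 g`,
`StF X g0 g`; `SB X g := ⟨g0, h.base⟩`. `M = Mod X g` is countable (the image of `X` under `val X g`),
transitive (`Mod_trans`), a model of ZF (`StB.isZF`) with choice (`GX.choice_mod`; its `ZFM` instance is
`instZFM`, which is `⟨_, h.base.isZF⟩`). For the last part: `ot_ctb kap_bdd h`, `ctb_og`, `og_ot`. -/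

namespace Pool.Agent.FSI

open Pool.Agent.ChoicelessEmb Pool.Agent.RFN Pool.Agent.RFN.GX

open Pool.Agent.H78.ZF (ZFM IsZFModel)

/-- `M` is a countable transitive model of ZFC. -/
def IsCTM (M : Set ZFSet.{0}) : Prop :=
  M.Countable ∧ (∀ x ∈ M, ∀ y ∈ x, y ∈ M) ∧
    ∃ h : IsZFModel fun x y : M => x.1 ∈ y.1, letI : ZFM M := ⟨_, h⟩; Choice M

theorem exists_model : ∃ M : Set ZFSet.{0}, IsCTM M ∧
    ∀ A : Set ℝ, sZ A ∈ M → (OT M A ↔ Ctb M A) ∧ (OG M A ↔ Ctb M A) := by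
  obtain ⟨X, g0, g, hc, -, h⟩ := (req_StF (θ := (⊤ : Kp))).exists
  let hs : SB X g := ⟨g0, h.base⟩
  have h' : StF X hs.g0 g := h
  refine ⟨Mod X g, ⟨hc.image _, Mod_trans, h.base.isZF, GX.choice_mod⟩, fun A hA => ?_⟩
  have e1 : OT (Mod X g) A → Ctb (Mod X g) A := ot_ctb kap_bdd h' hA
  have e2 : Ctb (Mod X g) A → OG (Mod X g) A := ctb_og hA
  exact ⟨⟨e1, fun hC => og_ot (e2 hC)⟩, fun hO => e1 (og_ot hO), e2⟩


end Pool.Agent.FSI
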