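import Pool.Agent.FSI.MCov

set_option autoImplicit false

/-! # The generic cover is an omega-cover; least indices

PROOFS.
* `CV_omega`: members are preimages of open sets (`UU_open`); `Set.univ` is excluded. Let `F` be a
  finite subset of `A`. `r ∈ g` forces that the `s m ω` are in `a` and pairwise different: so
  `s m ω ∈ A` (`inA_iff`, `h.sq`, `MeasR.mono`) and `s m ω ≠ s n ω` for `m ≠ n` (`h.fo`, `h.ds`). Take `m`
  with `s m ω ∉ F`. `coh1` (for `s m`), `coh2` with `h.nul`, `h.c1`, `h.c2` give the hypotheses of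
  `exists_index` for `g = ω δ`, `y = s m ω`, and the finite set of the reals in `F`. The index `i` is
  valid, `F ⊆ Vi i` and `s m ω ∉ Vi i`, so `Vi i ≠ univ`.
* `JD_spec`: `D ⊆ CV A δ ω`. `i ↦ Vi A δ ω i` is a bijection from `JD δ ω D` to `D`: surjective, because
  every `V ∈ D` is `Vi i` for some valid `i`, take the least one (`Nat.find`); injective by the last
  clause (compare the smaller one). For `x ∈ A` the set `{V ∈ D | x ∈ V}` is the image of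
  `JD ∩ {i | x ∈ U_i}`, so the latter is infinite; and `{V ∈ D | x ∈ V, y ∉ V}` is the image of
  `(JD ∩ {i | x ∈ U_i}) \ {i | y ∈ U_i}` under an injective map (`Set.Finite.of_finite_image` or
  `Set.Finite.preimage`). -/

namespace Pool.Agent.FSI

open Pool.Agent.ChoicelessEmb Pool.Agent.ChoicelessEmb.LName Pool.Agent.RFN Pool.Agent.RFN.GX

open Pool.Agent.H97Tau

open Classical in
private theorem jd_least {κ : Type} [LinearOrder κ] {A : Set ℝ} {δ : κ} {ω : Om κ} {D : Set (Set A)}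
    (hD : D ⊆ CV A δ ω) {V : Set A} (hV : V ∈ D) : ∃ i ∈ JD δ ω D, Vi A δ ω i = V := by
  have h0 : ∃ i, i ∈ Vl δ ω ∧ Vi A δ ω i = V := by
    obtain ⟨i, hi, hiV, _⟩ := hD hV
    exact ⟨i, hi, hiV.symm⟩
  refine ⟨Nat.find h0, ⟨(Nat.find_spec h0).1, ?_, fun i' hi' hv he => ?_⟩, (Nat.find_spec h0).2⟩
  · rw [(Nat.find_spec h0).2]
    exact hV
  · exact Nat.find_min h0 hi' ⟨hv, he.trans (Nat.find_spec h0).2⟩

private theorem jd_inj {κ : Type} [LinearOrder κ] {A : Set ℝ} {δ : κ} {ω : Om κ}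
    {D : Set (Set A)} : Set.InjOn (Vi A δ ω) (JD δ ω D) := by
  intro i hi j hj he
  rcases lt_trichotomy i j with h | h | h
  · exact absurd he (hj.2.2 i h hi.1)
  · exact h
  · exact absurd he.symm (hi.2.2 j h hj.1)

private theorem jd_fin {κ : Type} [LinearOrder κ] {A : Set ℝ} {δ : κ} {ω : Om κ}
    {D : Set (Set A)} {x y : A} (h : {U | U ∈ D ∧ x ∈ U ∧ y ∉ U}.Finite) :
    ((JD δ ω D ∩ {i | (x : ℝ) ∈ UU (ω δ (idx i).1) (idx i).2}) \
      {i | (y : ℝ) ∈ UU (ω δ (idx i).1) (idx i).2}).Finite := by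
  refine Set.Finite.of_finite_image (f := Vi A δ ω) (h.subset ?_)
    (jd_inj.mono fun i hi => hi.1.1)
  rintro _ ⟨i, ⟨⟨hi, hx⟩, hy⟩, rfl⟩
  exact ⟨hi.2.1, hx, hy⟩

theorem JD_spec {κ : Type} [LinearOrder κ] {A : Set ℝ} {δ : κ} {ω : Om κ} {D : Set (Set A)}
    (hD : D ⊆ CV A δ ω) (hT : IsTauCover D) :
    (∀ x ∈ A, (JD δ ω D ∩ {i | x ∈ UU (ω δ (idx i).1) (idx i).2}).Infinite) ∧
      ∀ x ∈ A, ∀ y ∈ A,
        ((JD δ ω D ∩ {i | x ∈ UU (ω δ (idx i).1) (idx i).2}) \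
          {i | y ∈ UU (ω δ (idx i).1) (idx i).2}).Finite ∨
        ((JD δ ω D ∩ {i | y ∈ UU (ω δ (idx i).1) (idx i).2}) \
          {i | x ∈ UU (ω δ (idx i).1) (idx i).2}).Finite := by
  refine ⟨fun x hx hfin => ?_, fun x hx y hy => ?_⟩
  · refine hT.2.2.1 ⟨x, hx⟩ ((hfin.image (Vi A δ ω)).subset ?_)
    rintro V ⟨hV, hxV⟩
    obtain ⟨i, hi, hiV⟩ := jd_least hD hV
    exact ⟨i, ⟨hi, (by rw [← hiV] at hxV; exact hxV)⟩, hiV⟩
  · rcases hT.2.2.2 ⟨x, hx⟩ ⟨y, hy⟩ with h1 | h1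
    · exact Or.inl (jd_fin (x := ⟨x, hx⟩) (y := ⟨y, hy⟩) h1)
    · exact Or.inr (jd_fin (x := ⟨y, hy⟩) (y := ⟨x, hx⟩) h1)

variable {κ : Type} [LinearOrder κ] [WellFoundedLT κ] {θ : κ} {X : Set (LName (Pc θ))}
  {g : Set (Pc θ)} [hs : SB X g] (h : StF X hs.g0 g) {ω : Om κ} (hω : Ext (Gs g) ω)

include h hω

theorem CV_omega {a : LName (Pc θ)} (ha : a ∈ X) {A : Set ℝ} (hA : val X g a = sZ A) {r : Pc θ}
    (hr : r ∈ hs.g0) {δ : κ} {s : ℕ → Om κ → ℝ} (hδ : Hu X δ) (hs' : Hu X s)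
    (hN : Nice a r (δ, s)) : IsOmegaCover (CV A δ ω) := by
  classical
  obtain ⟨hδθ, _, hsn, hds⟩ := hN
  have hrg : r ∈ g := hs.st.op.atom.sub hr
  have hD : ω ∈ Ds s := h.fo (Ds s) (h.ds s hs') r hr hds ω hω
  refine ⟨?_, ?_, fun F => ?_⟩
  · rintro _ ⟨i, _, rfl, _⟩
    exact (UU_open _ _).preimage continuous_subtype_val
  · rintro ⟨i, _, _, hne⟩
    exact hne rfl
  · obtain ⟨m, hm⟩ : ∃ m, s m ω ∉ F.image (Subtype.val : A → ℝ) := by
      by_contra hcon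
      push Not at hcon
      have hinj : Function.Injective fun m => s m ω := by
        intro m n hmn
        by_contra hne
        exact hD m n hne hmn
      have : (Set.range fun m => s m ω).Finite :=
        ((F.image (Subtype.val : A → ℝ)).finite_toSet).subset (by
          rintro _ ⟨m, rfl⟩
          exact hcon m)
      exact Set.infinite_range_of_injective hinj this
    have hmA : s m ω ∈ A :=
      (inA_iff h hω ha hA (h.sq s hs' m) ((hsn m).1.mono hδθ.le)).2 ⟨r, hrg, (hsn m).2⟩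
    have hc1 : ω ∉ C1 δ (s m) :=
      h.nul _ (h.c1 δ (s m) hδ (h.sq s hs' m)) (coh1 hδθ (hsn m).1) ω hω
    have hc2 : ω ∉ C2 δ := h.nul _ (h.c2 δ hδ) (coh2 hδθ) ω hω
    have hc1' : ∀ N : ℕ, ∃ n, N ≤ n ∧ s m ω ∉ UU (ω δ n) ∅ := not_not.1 hc1
    have hc2' : ∀ K : ℕ, ∃ N : ℕ, ∀ n, N ≤ n → K ≤ (ω δ n).1 := not_not.1 hc2
    obtain ⟨i, hi, hF, hy⟩ := exists_index hc1' hc2' (F.image (Subtype.val : A → ℝ)) hm
    refine ⟨Vi A δ ω i, ⟨i, hi, rfl, fun he => ?_⟩, fun x hx => ?_⟩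
    · have : (⟨s m ω, hmA⟩ : A) ∈ Vi A δ ω i := by
        rw [he]
        exact Set.mem_univ _
      exact hy this
    · exact hF x.1 (Finset.mem_image_of_mem _ hx)

end Pool.Agent.FSI
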