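import Pool.Agent.FSI.MRich
import Pool.Agent.FSI.MOme

set_option autoImplicit false

/-! # In the model, sets with the property for tau-covers are countable

PROOF. Let `sZ A = val X g a`, `a ∈ X`, and suppose that `A` is not countable in the model. Let
`r0 ∈ g0` with `Rich a r0` (`rich_or_ctb`); `exists_nice` and `h.nice` give `δ`, `s` in the hull with
`Nice a r0 (δ, s)`, with the uncountable set `Ψ`. By `CV_mem`, `CV_omega` and `OT` there is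
`D ⊆ CV A δ ω`, `fZ D ∈ Mod X g`, `IsTauCover D`. By `J_mem`, `exists_setN` there is `J` in the hull
with `J ω = JD δ ω D`.
`JD ⊆ Vl δ ω`, so `ω ∈ ValJ J δ` (in the hull by `h.vj`, in `Meas θ` by `vld_meas`), and some `r1 ∈ g0`
forces `ValJ J δ` (`h.tr`).
`h.b1 a ha J δ`: in the first case `F ω ∈ A` (`inA_iff`) and `ω ∈ FinJ J δ F` (`h.fo`, `h.fj`),
contradicting `JD_spec`; so there is `r2 ∈ g0` as in the second case. `h.b2`: in the first case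
`F ω, F' ω ∈ A` and `ω ∈ IncJ J δ F F'` contradict `JD_spec`; so there is `r3`.
Let `r ∈ g0` be below `r0`, `r1`, `r2`, `r3` (`hs.st.op.atom.dir0` three times). Apply `thmA` with
`S = Ψ`, `q z = r.val`, `x z = z` for `z ∈ Ψ` and `0` otherwise (measurable), `J`:
`hne` from `Nice` (`Fo.le`); `hval` from `r1`; `hinf`: for `z ∈ Ψ` we have `InA a z r`; if `r` does not
force the complement of `FinJ J δ z` then some `q ≤ r` forces `FinJ J δ z` (`not_fo`, complement of the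
complement; measurable by `UUF_meas`), contradicting `r2`; `htau`: for `e ≤ r` the same with `IncJ` and
`r3` (`e` as an element of `Pc θ`). -/

namespace Pool.Agent.FSI

open Pool.Agent.ChoicelessEmb Pool.Agent.ChoicelessEmb.LName Pool.Agent.RFN Pool.Agent.RFN.GX

variable {κ : Type} [LinearOrder κ] [WellFoundedLT κ] {θ : κ} {X : Set (LName (Pc θ))}
  {g : Set (Pc θ)} [hs : SB X g]

private theorem fin_mm {θ : κ} {A : Om κ → Set ℕ} (hA : ∀ i, Meas θ {ω | i ∈ A ω}) :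
    Meas θ {ω | (A ω).Finite} := by
  have e : {ω | (A ω).Finite} = {ω | ∃ m : ℕ, ∀ i : ℕ, i ∈ A ω → i < m} := by
    ext ω
    constructor
    · intro h
      obtain ⟨m, hm⟩ := (h : (A ω).Finite).bddAbove
      exact ⟨m + 1, fun i hi => Nat.lt_succ_of_le (hm hi)⟩
    · rintro ⟨m, hm⟩
      exact (Set.finite_Iio m).subset fun i hi => hm i hi
  rw [e]
  exact Meas.ex fun m => Meas.all fun i => Meas.imp (hA i) (meas_const _)

private theorem ux_mm {δ : κ} (hδ : δ < θ) {F : Om κ → ℝ} (hF : MeasR δ F) (i : ℕ) :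
    Meas θ {ω | i ∈ Ux δ F ω} := UUF_meas hF hδ _ _

theorem FinJ_meas {J : Om κ → Set ℕ} (hJ : MeasN θ J) {δ : κ} (hδ : δ < θ) {F : Om κ → ℝ}
    (hF : MeasR δ F) : Meas θ (FinJ J δ F) := by
  exact fin_mm fun i => Meas.and (hJ i) (ux_mm hδ hF i)

theorem IncJ_meas {J : Om κ → Set ℕ} (hJ : MeasN θ J) {δ : κ} (hδ : δ < θ) {F F' : Om κ → ℝ}
    (hF : MeasR δ F) (hF' : MeasR δ F') : Meas θ (IncJ J δ F F') := by
  refine Meas.not (Meas.or (fin_mm fun i => ?_) (fin_mm fun i => ?_))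
  · exact Meas.and (Meas.and (hJ i) (ux_mm hδ hF i)) (Meas.not (ux_mm hδ hF' i))
  · exact Meas.and (Meas.and (hJ i) (ux_mm hδ hF' i)) (Meas.not (ux_mm hδ hF i))

theorem ot_ctb (hb : Bdd θ) (h : StF X hs.g0 g) {A : Set ℝ} (hA : sZ A ∈ Mod X g)
    (hO : OT (Mod X g) A) : Ctb (Mod X g) A := by
  classical
  by_contra hc
  obtain ⟨ω, hω⟩ := exists_Ext hs.st.op.atom.fil
  obtain ⟨a, ha, hA'⟩ := hA
  have hA0 : sZ A ∈ Mod X g := ⟨a, ha, hA'⟩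
  rcases rich_or_ctb h hω ha hA' with h0 | ⟨r0, hr0, hrich⟩
  · exact hc h0
  obtain ⟨δ, s, hδ, hsq, hN⟩ := h.nice a ha r0 hr0 (exists_nice hb hrich)
  have hδθ : δ < θ := hN.1
  obtain ⟨Ψ, hΨ, hΨ1, hΨ2⟩ := hN.2.1
  obtain ⟨D, hDs, hDM, hT⟩ := hO (CV A δ ω) (CV_mem h hω hδ hδθ hA0)
    (CV_omega h hω ha hA' hr0 hδ hsq hN)
  obtain ⟨J, hJ, hJm, hJω⟩ := exists_setN h hω (J_mem h hω hδ hδθ hA0 hDM)
  obtain ⟨hj1, hj2⟩ := JD_spec hDs hT
  have hVm : Meas θ (ValJ J δ) :=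
    Meas.all fun i => Meas.imp (hJm i) (vld_meas hδθ _ _)
  have hVω : ω ∈ ValJ J δ := by
    intro i hi
    rw [hJω] at hi
    exact hi.1
  obtain ⟨r1, hr1, hf1⟩ := h.tr _ (h.vj J δ hJ hδ) hVm ω hω hVω
  have hsub := hs.st.op.atom.sub
  have hr2 : ∃ r ∈ hs.g0, ∀ q ≤ r, ∀ F : Om κ → ℝ, MeasR θ F → InA a F q →
      ¬ Fo θ q.val (FinJ J δ F) := by
    rcases h.b1 a ha J δ hJ hδ with ⟨p, hp, F, hF, hFm, hin, hfo⟩ | h2
    · exfalso
      have h3 : F ω ∈ A := (inA_iff h hω ha hA' hF hFm).2 ⟨p, hsub hp, hin⟩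
      have h4 : ω ∈ FinJ J δ F := h.fo _ (h.fj J δ F hJ hδ hF) p hp hfo ω hω
      have h5 : (J ω ∩ Ux δ F ω).Finite := h4
      rw [hJω] at h5
      exact hj1 _ h3 h5
    · exact h2
  have hr3 : ∃ r ∈ hs.g0, ∀ q ≤ r, ∀ F F' : Om κ → ℝ, MeasR θ F → MeasR θ F' → InA a F q →
      InA a F' q → ¬ Fo θ q.val (IncJ J δ F F') := by
    rcases h.b2 a ha J δ hJ hδ with ⟨p, hp, F, F', hF, hF', hFm, hFm', hin, hin', hfo⟩ | h2
    · exfalso
      have h3 : F ω ∈ A := (inA_iff h hω ha hA' hF hFm).2 ⟨p, hsub hp, hin⟩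
      have h3' : F' ω ∈ A := (inA_iff h hω ha hA' hF' hFm').2 ⟨p, hsub hp, hin'⟩
      have h4 : ω ∈ IncJ J δ F F' := h.fo _ (h.ij J δ F F' hJ hδ hF hF') p hp hfo ω hω
      have h5 : ¬ (((J ω ∩ Ux δ F ω) \ Ux δ F' ω).Finite ∨
        ((J ω ∩ Ux δ F' ω) \ Ux δ F ω).Finite) := h4
      rw [hJω] at h5
      exact h5 (hj2 _ h3 _ h3')
    · exact h2
  obtain ⟨r2, hr2, hb1⟩ := hr2
  obtain ⟨r3, hr3, hb2⟩ := hr3
  obtain ⟨t1, ht1, hl1, hl2⟩ := hs.st.op.atom.dir0 (hsub hr0) (hsub hr1)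
  obtain ⟨t2, ht2, hl3, hl4⟩ := hs.st.op.atom.dir0 (hsub hr2) (hsub hr3)
  obtain ⟨r, hr, hl5, hl6⟩ := hs.st.op.atom.dir0 (hsub ht1) (hsub ht2)
  have e0 : r ≤ r0 := hl5.trans hl1
  have e1 : r ≤ r1 := hl5.trans hl2
  have e2 : r ≤ r2 := hl6.trans hl3
  have e3 : r ≤ r3 := hl6.trans hl4
  have hMθ : ∀ z ∈ Ψ, MeasR θ z := fun z hz => (hΨ1 z hz).1.mono hδθ.le
  have hxz : ∀ z ∈ Ψ, (if z ∈ Ψ then z else (0 : Om κ → ℝ)) = z := fun z hz => if_pos hz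
  refine thmA (Z := Om κ → ℝ) hδθ hΨ (q := fun _ => r.val) (fun _ _ => r.mem)
    (x := fun z => if z ∈ Ψ then z else 0) ?_ ?_ (J := J) hJm ?_ ?_ ?_
  · intro z q
    by_cases hz : z ∈ Ψ
    · rw [hxz z hz]
      exact (hΨ1 z hz).1 q
    · have hz0 : (if z ∈ Ψ then z else (0 : Om κ → ℝ)) = 0 := if_neg hz
      rw [hz0]
      exact meas_const (κ := κ) (γ := δ) ((q : ℝ) < 0)
  · intro z hz z' hz' hne e he he1 he2
    rw [hxz z hz, hxz z' hz']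
    have hle : (⟨e, he⟩ : Pc θ) ≤ r0 := le_trans (b := r) he1 e0
    exact (hΨ2 z hz z' hz' hne).le r0.mem he hle
  · intro z hz
    exact Fo.le hf1 r1.mem r.mem e1
  · intro z hz
    rw [hxz z hz]
    by_contra hcon
    have hm : Meas θ {ω | (J ω ∩ Ux δ z ω).Infinite} :=
      Meas.not (FinJ_meas hJm hδθ (hΨ1 z hz).1)
    obtain ⟨q, hq, hle, hfo⟩ := not_fo hm r.mem hcon
    have hle' : (⟨q, hq⟩ : Pc θ) ≤ r := hle
    refine hb1 ⟨q, hq⟩ (hle'.trans e2) z (hMθ z hz) ((hΨ1 z hz).2.mono (hle'.trans e0)) ?_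
    refine Fo.mono hfo fun ω' hω' => ?_
    exact not_not.1 hω'
  · intro z hz z' hz' hne e he he1 he2
    rw [hxz z hz, hxz z' hz']
    by_contra hcon
    have hm : Meas θ {ω | ((J ω ∩ Ux δ z ω) \ Ux δ z' ω).Finite ∨
        ((J ω ∩ Ux δ z' ω) \ Ux δ z ω).Finite} := by
      refine Meas.or (fin_mm fun i => ?_) (fin_mm fun i => ?_)
      · exact Meas.and (Meas.and (hJm i) (ux_mm hδθ (hΨ1 z hz).1 i))
          (Meas.not (ux_mm hδθ (hΨ1 z' hz').1 i))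
      · exact Meas.and (Meas.and (hJm i) (ux_mm hδθ (hΨ1 z' hz').1 i))
          (Meas.not (ux_mm hδθ (hΨ1 z hz).1 i))
    obtain ⟨q, hq, hle, hfo⟩ := not_fo hm he hcon
    have hle1 : (⟨q, hq⟩ : Pc θ) ≤ ⟨e, he⟩ := hle
    have hle2 : (⟨e, he⟩ : Pc θ) ≤ r := he1
    have hle' := hle1.trans hle2
    exact hb2 ⟨q, hq⟩ (hle'.trans e3) z z' (hMθ z hz) (hMθ z' hz')
      ((hΨ1 z hz).2.mono (hle'.trans e0)) ((hΨ1 z' hz').2.mono (hle'.trans e0)) hfo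

end Pool.Agent.FSI
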