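import Pool.Agent.FSI.MNm

set_option autoImplicit false

/-! # Mixing, a large family of reals in an uncountable set

`InA a F p`: `p` forces that the value of `F` is in (the set of reals with the name) `a`.
`NoNew a s q`: no condition below `q` forces for any `F` that its value is in `a` and different from all
the values of the sequence `s`. `Rich a r`: this fails for all `q ≤ r` and all (measurable) `s`.

PROOFS.
* `InA.mono`, `InA.dense`, `InA.congr`: `fmem_mono`, `fmem_dense`, `fmem_congr_left` with `feq_nmR`.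
* `mix`: let `D` be the set of the `c ∈ Pset θ` such that `Le c r.val` and there is a measurable `F` with
  `InA a F c` (for `⟨c, _⟩ : Pc θ`) and `Fo θ c {∀ n, F ω ≠ s n ω}`; it is dense below `r` because of
  `Rich a r`. Let `C ⊆ D` be a countable maximal antichain (`exists_max`), choose `F c` for
  `c ∈ C` (`C` is not empty). `F ω = F (sel (fun c : C => ω ∈ body c)) ω`, measurable (`measR_sel`). For
  `c ∈ C`: `Fo θ c {F ω = F c ω}`: `body c ∩ body c'` is null for `c' ≠ c` in `C`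
  (`inter_nul_of_not_compat`), so for almost all `ω ∈ body c` the selected element is `c`. Hence
  `InA a F c` (`InA.congr`) and `Fo θ c {∀ n, F ω ≠ s n ω}`. Every `q ≤ r` has an extension in `D`,
  compatible with some `c ∈ C`, so has an extension below some `c ∈ C`: `InA.dense`,
  `fo_of_dense`.
* `exists_family_rich`: Zorn's lemma (`zorn_subset`) for the sets `Ψ` of measurable `F` with `InA a F r`
  and pairwise forced by `r` to be different (for `F ≠ F'` in `Ψ`). A maximal `Ψ` is not countable: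
  otherwise let `s` enumerate `Ψ ∪ {0}` (the zero function is measurable), take `F` from `mix`; then
  `Ψ ∪ {F}` is larger (`F ∉ Ψ` because `r` forces `F ω ≠ s n ω`).
* `meas_lower`: induction on the generation of the `σ`-algebra (`MeasurableSpace.generateFrom_induction`):
  a generator with coordinate `ξ < θ`: apply `hb` to `{ξ}`; countable unions: apply `hb` to the
  countable set of the levels (`Cardinal.mk_le_aleph0` and `ℵ₀ ≤ ℵ₁`), `Meas.mono`.
* `exists_nice`: take `Ψ` from `exists_family_rich`, a subset `Ψ'` of cardinality `ℵ₁`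
  (`Cardinal.le_mk_iff_exists_subset`), for each `F ∈ Ψ'` (and each `q : ℚ`) a level `ζ F q < θ` by
  `meas_lower`; by `hb` all are below some `δ < θ`. `t = (δ, s)` with `s` an injective sequence of
  elements of `Ψ'`. -/

namespace Pool.Agent.FSI

open Pool.Agent.ChoicelessEmb Pool.Agent.ChoicelessEmb.LName Pool.Agent.RFN Pool.Agent.RFN.GX

open scoped Cardinal

variable {κ : Type} [LinearOrder κ] [WellFoundedLT κ] {θ : κ}

/-- `p` forces that the value of `F` is in `a`. -/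
def InA (a : LName (Pc θ)) (F : Om κ → ℝ) (p : Pc θ) : Prop := fmem (nmR F) a p

/-- No new elements of `a` below `q`. -/
def NoNew (a : LName (Pc θ)) (s : ℕ → Om κ → ℝ) (q : Pc θ) : Prop :=
  ∀ q' ≤ q, ∀ F : Om κ → ℝ, MeasR θ F → InA a F q' → ¬ Fo θ q'.val {ω | ∀ n, F ω ≠ s n ω}

/-- Below `r` there are always new elements of `a`. -/
def Rich (a : LName (Pc θ)) (r : Pc θ) : Prop :=
  ∀ q ≤ r, ∀ s : ℕ → Om κ → ℝ, (∀ n, MeasR θ (s n)) → ¬ NoNew a s q

/-- Every set of at most `ℵ₁` elements below `θ` is bounded below `θ`. -/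
def Bdd (θ : κ) : Prop := ∀ S : Set κ, #S ≤ ℵ₁ → (∀ ξ ∈ S, ξ < θ) → ∃ δ < θ, ∀ ξ ∈ S, ξ < δ

variable {a : LName (Pc θ)} {F F' : Om κ → ℝ} {p q r : Pc θ} {s : ℕ → Om κ → ℝ}

theorem InA.mono (h : InA a F p) (hq : q ≤ p) : InA a F q :=
  fmem_mono h hq

theorem InA.dense (h : ∀ q ≤ p, ∃ r ≤ q, InA a F r) : InA a F p :=
  fmem_dense h

theorem InA.congr (h : InA a F p) (he : Fo θ p.val {ω | F' ω = F ω}) : InA a F' p := by
  refine fmem_congr_left (feq_nmR ?_) h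
  exact he.mono fun ω hω => Eq.symm hω

theorem mix (h : Rich a r) (hs : ∀ n, MeasR θ (s n)) :
    ∃ F, MeasR θ F ∧ InA a F r ∧ Fo θ r.val {ω | ∀ n, F ω ≠ s n ω} := by
  classical
  have key : ∀ q : Pc θ, q ≤ r → ∃ d : Pc θ, d ≤ q ∧ ∃ F : Om κ → ℝ, MeasR θ F ∧ InA a F d ∧
      Fo θ d.val {ω | ∀ n, F ω ≠ s n ω} := by
    intro q hq
    by_contra hc
    refine h q hq s hs ?_
    intro q' hq' F hF hI hFo
    exact hc ⟨q', hq', F, hF, hI, hFo⟩
  obtain ⟨C, hCD, hCc, hCa, hCm⟩ := exists_max (γ := θ)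
    (D := {c | ∃ d : Pc θ, d.val = c ∧ d ≤ r ∧ ∃ F : Om κ → ℝ, MeasR θ F ∧ InA a F d ∧
      Fo θ d.val {ω | ∀ n, F ω ≠ s n ω}}) (by rintro _ ⟨d, rfl, _⟩; exact d.mem)
  have hC : ∀ q : Pc θ, q ≤ r → ∃ c : C, ∃ e : Pc θ, e ≤ q ∧ Le e.val (c : Cond κ) := by
    intro q hq
    obtain ⟨d, hd, F, hF⟩ := key q hq
    obtain ⟨c, hc, e, he, hed, hec⟩ := hCm d.val ⟨d, rfl, hd.trans hq, F, hF⟩
    exact ⟨⟨c, hc⟩, ⟨e, he⟩, le_trans (show (⟨e, he⟩ : Pc θ) ≤ d from hed) hd, hec⟩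
  have hsp : ∀ c : C, ∃ d : Pc θ, d.val = (c : Cond κ) ∧ d ≤ r ∧ ∃ F : Om κ → ℝ, MeasR θ F ∧
      InA a F d ∧ Fo θ d.val {ω | ∀ n, F ω ≠ s n ω} := fun c => hCD c.2
  choose d hdc hdr G hGm hGI hGF using hsp
  obtain ⟨c0, _⟩ := hC r le_rfl
  have : Countable C := hCc.to_subtype
  letI : Inhabited C := ⟨c0⟩
  have hmem : ∀ c : C, (c : Cond κ) ∈ Pset θ := fun c => by
    rw [← hdc c]
    exact (d c).mem
  have hP : ∀ c : C, Meas θ {ω | ω ∈ body (c : Cond κ)} := fun c => meas_body (hmem c)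
  have hFm : MeasR θ (fun ω => G (sel (fun c : C => ω ∈ body (c : Cond κ))) ω) :=
    measR_sel (P := fun ω (c : C) => ω ∈ body (c : Cond κ)) hP hGm
  have heq : ∀ c : C, Fo θ (c : Cond κ)
      {ω | G (sel (fun c : C => ω ∈ body (c : Cond κ))) ω = G c ω} := by
    intro c
    have hn : (⋃ c' : {c' : C // c' ≠ c}, body (c : Cond κ) ∩ body (c'.1 : Cond κ)) ∈ Nul θ := by
      refine Nul.iUnion fun c' => inter_nul_of_not_compat (hmem c) (hmem c'.1) ?_
      intro hcomp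
      exact c'.2 (Subtype.ext (hCa _ c.2 _ c'.1.2 hcomp).symm)
    refine Nul.subset hn ?_
    rintro ω ⟨h1, h2⟩
    have h3 : ω ∈ body ((sel (fun c : C => ω ∈ body (c : Cond κ)) : C) : Cond κ) :=
      sel_spec (P := fun c : C => ω ∈ body (c : Cond κ)) ⟨c, h1⟩
    refine Set.mem_iUnion.2 ⟨⟨sel (fun c : C => ω ∈ body (c : Cond κ)), ?_⟩, h1, h3⟩
    intro h4
    apply h2
    show G (sel (fun c : C => ω ∈ body (c : Cond κ))) ω = G c ω
    rw [h4]
  have hI : ∀ c : C, InA a (fun ω => G (sel (fun c : C => ω ∈ body (c : Cond κ))) ω) (d c) := by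
    intro c
    refine (hGI c).congr ?_
    rw [hdc c]
    exact heq c
  have hFo : ∀ c : C, Fo θ (c : Cond κ)
      {ω | ∀ n, G (sel (fun c : C => ω ∈ body (c : Cond κ))) ω ≠ s n ω} := by
    intro c
    have h1 : Fo θ (c : Cond κ) {ω | ∀ n, G c ω ≠ s n ω} := by
      rw [← hdc c]
      exact hGF c
    refine ((heq c).inter h1).mono ?_
    rintro ω ⟨h2, h3⟩ n
    have h2' : G (sel (fun c : C => ω ∈ body (c : Cond κ))) ω = G c ω := h2
    rw [h2']
    exact h3 n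
  refine ⟨_, hFm, ?_, ?_⟩
  · refine InA.dense fun q hq => ?_
    obtain ⟨c, e, heq', hec⟩ := hC q hq
    refine ⟨e, heq', (hI c).mono ?_⟩
    rw [Pc.le_def, hdc c]
    exact hec
  · refine fo_of_dense r.mem fun q hq hqr => ?_
    obtain ⟨c, e, heq', hec⟩ := hC ⟨q, hq⟩ hqr
    exact ⟨e.val, e.mem, heq', (hFo c).le (hmem c) e.mem hec⟩

theorem exists_family_rich (h : Rich a r) : ∃ Ψ : Set (Om κ → ℝ), ¬ Ψ.Countable ∧
    (∀ F ∈ Ψ, MeasR θ F ∧ InA a F r) ∧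
      ∀ F ∈ Ψ, ∀ F' ∈ Ψ, F ≠ F' → Fo θ r.val {ω | F ω ≠ F' ω} := by
  classical
  obtain ⟨Ψ, hΨ⟩ := zorn_subset {Ψ : Set (Om κ → ℝ) | (∀ F ∈ Ψ, MeasR θ F ∧ InA a F r) ∧
      ∀ F ∈ Ψ, ∀ F' ∈ Ψ, F ≠ F' → Fo θ r.val {ω | F ω ≠ F' ω}} (by
    intro c hc hch
    refine ⟨⋃₀ c, ⟨?_, ?_⟩, fun t ht => Set.subset_sUnion_of_mem ht⟩
    · rintro F ⟨t, ht, hF⟩
      exact (hc ht).1 F hF
    · rintro F ⟨t, ht, hF⟩ F' ⟨t', ht', hF'⟩ hne
      rcases hch.total ht ht' with hs | hs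
      · exact (hc ht').2 F (hs hF) F' hF' hne
      · exact (hc ht).2 F hF F' (hs hF') hne)
  refine ⟨Ψ, ?_, hΨ.prop.1, hΨ.prop.2⟩
  intro hcount
  have hc' : (Ψ ∪ {fun _ => (0 : ℝ)}).Countable := hcount.union (Set.countable_singleton _)
  obtain ⟨s, hs⟩ := hc'.exists_eq_range ⟨_, Or.inr rfl⟩
  have hsm : ∀ n, MeasR θ (s n) := by
    intro n
    have h1 : s n ∈ Ψ ∪ {fun _ => (0 : ℝ)} := by
      rw [hs]
      exact ⟨n, rfl⟩
    rcases h1 with h1 | h1
    · exact (hΨ.prop.1 _ h1).1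
    · have h2 : s n = fun _ => (0 : ℝ) := h1
      rw [h2]
      exact fun q => meas_const _
  obtain ⟨F, hF, hI, hFo⟩ := mix h hsm
  have hmem : ∀ F' ∈ Ψ, ∃ n, s n = F' := by
    intro F' hF'
    have h1 : F' ∈ Ψ ∪ {fun _ => (0 : ℝ)} := Or.inl hF'
    rw [hs] at h1
    exact h1
  have hne : ∀ F' ∈ Ψ, Fo θ r.val {ω | F ω ≠ F' ω} := by
    intro F' hF'
    obtain ⟨n, rfl⟩ := hmem F' hF'
    exact hFo.mono fun ω hω => hω n
  have hFΨ : F ∉ Ψ := by
    intro hF'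
    refine not_fo_empty r.mem ((hne F hF').mono ?_)
    intro ω hω
    exact (hω rfl).elim
  apply hFΨ
  have hins : insert F Ψ ∈ {Ψ : Set (Om κ → ℝ) | (∀ F ∈ Ψ, MeasR θ F ∧ InA a F r) ∧
      ∀ F ∈ Ψ, ∀ F' ∈ Ψ, F ≠ F' → Fo θ r.val {ω | F ω ≠ F' ω}} := by
    refine ⟨?_, ?_⟩
    · rintro F' (rfl | hF')
      · exact ⟨hF, hI⟩
      · exact hΨ.prop.1 F' hF'
    · rintro F1 (rfl | hF1) F2 (rfl | hF2) h12
      · exact absurd rfl h12
      · exact hne F2 hF2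
      · exact (hne F1 hF1).mono fun ω hω => Ne.symm hω
      · exact hΨ.prop.2 F1 hF1 F2 hF2 h12
  exact hΨ.le_of_ge hins (Set.subset_insert F Ψ) (Set.mem_insert F Ψ)

theorem meas_lower (hb : Bdd θ) {A : Set (Om κ)} (hA : Meas θ A) : ∃ ζ < θ, Meas ζ A := by
  refine MeasurableSpace.generateFrom_induction _
    (fun A _ => ∃ ζ < θ, Meas ζ A) ?_ ?_ ?_ ?_ A hA
  · rintro _ ⟨ξ, hξ, i, e, rfl⟩ _
    obtain ⟨δ, hδ, hd⟩ := hb {ξ} (by
      rw [Cardinal.mk_singleton]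
      exact Cardinal.one_le_aleph0.trans (Cardinal.aleph0_le_aleph 1)) (by
      intro x hx
      rw [Set.mem_singleton_iff.1 hx]
      exact hξ)
    exact ⟨δ, hδ, meas_coord (hd ξ (Set.mem_singleton ξ)) i e⟩
  · obtain ⟨δ, hδ, _⟩ := hb ∅ (by
      rw [Cardinal.mk_eq_zero]
      exact zero_le) (by intro x hx; exact absurd hx (Set.notMem_empty x))
    exact ⟨δ, hδ, meas_empty⟩
  · rintro t _ ⟨ζ, hζ, ht⟩
    exact ⟨ζ, hζ, ht.compl⟩
  · intro f _ hf
    choose ζ hζ hm using hf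
    obtain ⟨δ, hδ, hd⟩ := hb (Set.range ζ) (by
      refine (Cardinal.mk_le_aleph0_iff.2 (Set.countable_range ζ).to_subtype).trans
        (Cardinal.aleph0_le_aleph 1)) (by
      rintro _ ⟨n, rfl⟩
      exact hζ n)
    exact ⟨δ, hδ, Meas.iUnion fun n => (hm n).mono (hd _ ⟨n, rfl⟩).le⟩

/-- A level `δ` and a sequence of elements of `a` of this level, where `a` has uncountably many
elements of this level (in the sense of families of names). -/
def Nice (a : LName (Pc θ)) (r : Pc θ) (t : κ × (ℕ → Om κ → ℝ)) : Prop :=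
  t.1 < θ ∧ (∃ Ψ : Set (Om κ → ℝ), ¬ Ψ.Countable ∧ (∀ F ∈ Ψ, MeasR t.1 F ∧ InA a F r) ∧
    ∀ F ∈ Ψ, ∀ F' ∈ Ψ, F ≠ F' → Fo θ r.val {ω | F ω ≠ F' ω}) ∧
  (∀ n, MeasR t.1 (t.2 n) ∧ InA a (t.2 n) r) ∧
  Fo θ r.val {ω | ∀ m n, m ≠ n → t.2 m ω ≠ t.2 n ω}

theorem exists_nice (hb : Bdd θ) (h : Rich a r) : ∃ t, Nice a r t := by
  classical
  obtain ⟨Ψ, hΨc, hΨ, hΨd⟩ := exists_family_rich h
  have h1 : ℵ₁ ≤ #Ψ := by
    rw [← Cardinal.succ_aleph0, Order.succ_le_iff]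
    by_contra hc
    exact hΨc (Cardinal.le_aleph0_iff_set_countable.1 (not_lt.1 hc))
  obtain ⟨Ψ', hsub, hcard⟩ := Cardinal.le_mk_iff_exists_subset.1 h1
  have hlow : ∀ x : Ψ' × ℚ, ∃ ζ < θ, Meas ζ {ω | (x.2 : ℝ) < x.1.1 ω} := fun x =>
    meas_lower hb ((hΨ x.1.1 (hsub x.1.2)).1 x.2)
  choose ζ hζ hm using hlow
  obtain ⟨δ, hδ, hd⟩ := hb (Set.range ζ) (by
    refine Cardinal.mk_range_le.trans ?_
    rw [Cardinal.mk_prod, Cardinal.lift_id, Cardinal.lift_id, hcard, Cardinal.mkRat]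
    exact (Cardinal.mul_le_max_of_aleph0_le_left (Cardinal.aleph0_le_aleph 1)).trans
      (max_le le_rfl (Cardinal.aleph0_le_aleph 1))) (by
    rintro _ ⟨x, rfl⟩
    exact hζ x)
  have hMR : ∀ F ∈ Ψ', MeasR δ F := by
    intro F hF q
    exact (hm (⟨F, hF⟩, q)).mono (hd _ ⟨_, rfl⟩).le
  have hnc : ¬ Ψ'.Countable := by
    intro hc
    have h2 := Cardinal.le_aleph0_iff_set_countable.2 hc
    rw [hcard] at h2
    exact absurd h2 (not_le.2 Cardinal.aleph0_lt_aleph_one)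
  have hinf : Ψ'.Infinite := fun hfin => hnc hfin.countable
  have : Infinite Ψ' := hinf.to_subtype
  let e := Infinite.natEmbedding Ψ'
  refine ⟨(δ, fun n => (e n).1), hδ, ⟨Ψ', hnc, fun F hF => ⟨hMR F hF, (hΨ F (hsub hF)).2⟩,
    fun F hF F' hF' => hΨd F (hsub hF) F' (hsub hF')⟩, ?_, ?_⟩
  · intro n
    exact ⟨hMR _ (e n).2, (hΨ _ (hsub (e n).2)).2⟩
  · refine Fo.all fun m => Fo.all fun n => ?_
    by_cases hmn : m = n
    · refine fo_of_subset fun ω _ hne => ?_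
      exact absurd hmn hne
    · refine (hΨd _ (hsub (e m).2) _ (hsub (e n).2) ?_).mono fun ω hω _ => hω
      intro h3
      exact hmn (e.injective (Subtype.ext h3))

end Pool.Agent.FSI
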