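import Pool.Agent.FSI.Calc

set_option autoImplicit false

/-! # Measurable functions with countably many values, measurable selection

`MeasF γ f`: all fibres of `f` are in the `σ`-algebra of the coordinates below `γ`.
`sel P` = the first `l` with `P l` in a fixed enumeration of the countable type `Λ`.

PROOFS. `MeasF.set`: `{ω | f ω ∈ T}` is the countable union over `l ∈ T` of the fibres. `MeasF.comp`:
the fibre of `F ∘ f` over `l'` is `{ω | f ω ∈ F ⁻¹' {l'}}`. `MeasF.rel`: `{ω | P (f ω) ω}` is the union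
over `l` of `{f ω = l} ∩ {P l ω}`. `MeasF.bind` : the same. `MeasF.pi`: `{ω | (fun i => f i ω) = g}` is
the intersection over `i` of `{f i ω = g i}`. `MeasF.sel`: `sel (P ω) = l` iff either
(`P ω l` and for all `l'` with `enc l' < enc l` not `P ω l'`) or (no `l'` satisfies `P ω l'` and
`l = default`). -/

namespace Pool.Agent.FSI

section

variable {Λ : Type} [Countable Λ]

/-- An injection into the natural numbers. -/
noncomputable def enc (Λ : Type) [Countable Λ] : Λ → ℕ := Classical.choose (exists_injective_nat Λ)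

theorem enc_inj : Function.Injective (enc Λ) := Classical.choose_spec (exists_injective_nat Λ)

open Classical in
/-- The first element with the property `P`. -/
noncomputable def sel [Inhabited Λ] (P : Λ → Prop) : Λ :=
  if h : ∃ l, P l ∧ ∀ l', P l' → enc Λ l ≤ enc Λ l' then Classical.choose h else default

private theorem sl_min {P : Λ → Prop} (h : ∃ l, P l) :
    ∃ l, P l ∧ ∀ l', P l' → enc Λ l ≤ enc Λ l' := by
  classical
  have h1 : ∃ n, ∃ l, P l ∧ enc Λ l = n := let ⟨l, hl⟩ := h; ⟨_, l, hl, rfl⟩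
  obtain ⟨l, hl, hn⟩ := Nat.find_spec h1
  exact ⟨l, hl, fun l' hl' => by rw [hn]; exact Nat.find_min' h1 ⟨l', hl', rfl⟩⟩

theorem sel_spec [Inhabited Λ] {P : Λ → Prop} (h : ∃ l, P l) : P (sel P) := by
  have hmin := sl_min h
  rw [sel, dif_pos hmin]
  exact (Classical.choose_spec hmin).1

private theorem sl_iff [Inhabited Λ] {P : Λ → Prop} {l : Λ} : sel P = l ↔
    (P l ∧ ∀ l', P l' → enc Λ l ≤ enc Λ l') ∨ ((∀ l', ¬ P l') ∧ l = default) := by
  by_cases h : ∃ l, P l ∧ ∀ l', P l' → enc Λ l ≤ enc Λ l'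
  · rw [sel, dif_pos h]
    have hs := Classical.choose_spec h
    constructor
    · rintro rfl
      exact Or.inl hs
    · rintro (h1 | h1)
      · exact enc_inj (le_antisymm (hs.2 _ h1.1) (h1.2 _ hs.1))
      · exact absurd hs.1 (h1.1 _)
  · rw [sel, dif_neg h]
    constructor
    · rintro rfl
      refine Or.inr ⟨fun l' hl' => h (sl_min ⟨l', hl'⟩), rfl⟩
    · rintro (h1 | h1)
      · exact absurd ⟨l, h1⟩ h
      · exact h1.2.symm

end

variable {κ : Type} [LinearOrder κ] {γ ξ : κ}

/-- Measurable functions (to countable sets). -/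
def MeasF (γ : κ) {Λ : Type} (f : Om κ → Λ) : Prop := ∀ l, Meas γ {ω | f ω = l}

variable {Λ Λ' ι : Type} {f : Om κ → Λ} {g : Om κ → Λ'}

theorem measF_const (l : Λ) : MeasF γ (fun _ : Om κ => l) := fun _ => meas_const _

theorem MeasF.mono (hf : MeasF ξ f) (h : ξ ≤ γ) : MeasF γ f := fun l => Meas.mono h (hf l)

theorem MeasF.set [Countable Λ] (hf : MeasF γ f) (T : Set Λ) : Meas γ {ω | f ω ∈ T} := by
  have e : {ω | f ω ∈ T} = {ω | ∃ l, f ω = l ∧ l ∈ T} := by
    ext ω
    constructor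
    · intro h
      exact ⟨_, rfl, h⟩
    · rintro ⟨l, h1, h2⟩
      show f ω ∈ T
      rw [h1]
      exact h2
  rw [e]
  exact Meas.ex fun l => Meas.and (hf l) (meas_const _)

theorem MeasF.comp [Countable Λ] (hf : MeasF γ f) (F : Λ → Λ') : MeasF γ fun ω => F (f ω) :=
  fun l' => hf.set (F ⁻¹' {l'})

theorem MeasF.rel [Countable Λ] (hf : MeasF γ f) {P : Λ → Om κ → Prop}
    (hP : ∀ l, Meas γ {ω | P l ω}) : Meas γ {ω | P (f ω) ω} := by
  have e : {ω | P (f ω) ω} = {ω | ∃ l, f ω = l ∧ P l ω} := by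
    ext ω
    constructor
    · intro h
      exact ⟨_, rfl, h⟩
    · rintro ⟨l, h1, h2⟩
      show P (f ω) ω
      rw [h1]
      exact h2
  rw [e]
  exact Meas.ex fun l => Meas.and (hf l) (hP l)

theorem MeasF.bind [Countable Λ] (hf : MeasF γ f) {h : Λ → Om κ → Λ'}
    (hh : ∀ l, MeasF γ (h l)) : MeasF γ fun ω => h (f ω) ω :=
  fun l' => hf.rel (P := fun l ω => h l ω = l') fun l => hh l l'

theorem MeasF.prod (hf : MeasF γ f) (hg : MeasF γ g) : MeasF γ fun ω => (f ω, g ω) := by
  rintro ⟨a, b⟩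
  have e : {ω | (f ω, g ω) = (a, b)} = {ω | f ω = a ∧ g ω = b} := by
    ext ω
    exact Prod.mk_inj
  rw [e]
  exact Meas.and (hf a) (hg b)

theorem MeasF.pi [Countable ι] {f : ι → Om κ → Λ} (hf : ∀ i, MeasF γ (f i)) :
    MeasF γ fun ω i => f i ω := by
  intro g
  have e : {ω | (fun i => f i ω) = g} = {ω | ∀ i, f i ω = g i} := by
    ext ω
    exact funext_iff
  rw [e]
  exact Meas.all fun i => hf i (g i)

open Classical in
theorem MeasF.ite {P : Om κ → Prop} (hP : Meas γ {ω | P ω}) {f g : Om κ → Λ} (hf : MeasF γ f)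
    (hg : MeasF γ g) : MeasF γ fun ω => if P ω then f ω else g ω := by
  intro l
  have e : {ω | (if P ω then f ω else g ω) = l} =
      {ω | (P ω ∧ f ω = l) ∨ (¬ P ω ∧ g ω = l)} := by
    ext ω
    show (if P ω then f ω else g ω) = l ↔ (P ω ∧ f ω = l) ∨ (¬ P ω ∧ g ω = l)
    by_cases h : P ω
    · simp [h]
    · simp [h]
  rw [e]
  exact Meas.or (Meas.and hP (hf l)) (Meas.and (Meas.not hP) (hg l))

theorem MeasF.eq [Countable Λ] {f g : Om κ → Λ} (hf : MeasF γ f) (hg : MeasF γ g) :
    Meas γ {ω | f ω = g ω} := by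
  have e : {ω | f ω = g ω} = {ω | ∃ l, f ω = l ∧ g ω = l} := by
    ext ω
    constructor
    · intro h
      exact ⟨g ω, h, rfl⟩
    · rintro ⟨l, h1, h2⟩
      exact h1.trans h2.symm
  rw [e]
  exact Meas.ex fun l => Meas.and (hf l) (hg l)

/-- subsets of a finite type as finsets -/
theorem measF_filter [Fintype ι] {P : ι → Om κ → Prop} (hP : ∀ i, Meas γ {ω | P i ω})
    [∀ ω, DecidablePred fun i => P i ω] :
    MeasF γ fun ω => Finset.univ.filter fun i => P i ω := by
  intro T
  have e : {ω | (Finset.univ.filter fun i => P i ω) = T} =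
      {ω | ∀ i, (P i ω → i ∈ T) ∧ (i ∈ T → P i ω)} := by
    ext ω
    constructor
    · intro h i
      have h' : (Finset.univ.filter fun i => P i ω) = T := h
      rw [← h']
      simp
    · intro h
      show (Finset.univ.filter fun i => P i ω) = T
      ext i
      rw [Finset.mem_filter]
      exact ⟨fun h1 => (h i).1 h1.2, fun h1 => ⟨Finset.mem_univ _, (h i).2 h1⟩⟩
  rw [e]
  exact Meas.all fun i => Meas.and (Meas.imp (hP i) (meas_const _))
    (Meas.imp (meas_const _) (hP i))

theorem MeasF.sel [Countable Λ] [Inhabited Λ] {P : Om κ → Λ → Prop}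
    (hP : ∀ l, Meas γ {ω | P ω l}) : MeasF γ fun ω => FSI.sel (P ω) := by
  intro l
  have e : {ω | FSI.sel (P ω) = l} =
      {ω | (P ω l ∧ ∀ l', P ω l' → enc Λ l ≤ enc Λ l') ∨ ((∀ l', ¬ P ω l') ∧ l = default)} := by
    ext ω
    exact sl_iff
  rw [e]
  exact Meas.or (Meas.and (hP l) (Meas.all fun l' => Meas.imp (hP l') (meas_const _)))
    (Meas.and (Meas.all fun l' => Meas.not (hP l')) (meas_const _))

end Pool.Agent.FSI
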