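import Pool.Agent.FSI.MPc
import Pool.Agent.FSI.MDefs
import Pool.Agent.FSI.Sel

set_option autoImplicit false

/-! # Names of sets of natural numbers and of reals

`MeasN γ G`, `MeasR γ F`: measurable functions with values sets of natural numbers, reals.
`nmS G` = the name of the value of `G` at the generic point; `FN u` = the measurable function with
`u` as a name (a subset of `ω`); `cutF F` = the Dedekind cuts of the values, `uncut` the inverse;
`nmR F` = the name of the value of `F`.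

PROOFS.
* `FN_meas`: `{ω | n ∈ FN u ω}` is the countable union of the bodies of the members of `antiN u n`.
* `fo_FN`: `←`: let `D` be the set of the conditions forcing `nN n ∈ u`, `antiN u n` a maximal antichain
  of it. If `p` forces, all `q ≤ p` do (`fmem_mono`) and are compatible with a member: `fo_predense`.
  `→`: by `fmem_dense`; let `q ≤ p`; `q` forces `⋃ c ∈ antiN u n, body c`. If `q` were incompatible with
  all `c` then `body q ∩ body c` is null for all of them (`inter_nul_of_not_compat`), so `body q` is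
  null, contradiction (`Fo.nonempty`, or `fo_select` and `compat_of_fo_body`). So there are
  `c ∈ antiN u n` and `s ≤ q, c`; `fmem_mono`.
* `fmem_nmS`: `←` `mem_ch_relG`, `fmem_of_ch`. `→`: `fmem (nN n) (nmS G) p` means that for all `q ≤ p`
  there are `s ≤ q` and `(w, d) ∈ ch (nmS G)` with `s ≤ d`, `feq (nN n) w s`; `w = nN m`, `m = n`
  (`feq_checkN`, `natZ_injective`), so `Fo θ d.val {n ∈ G ω}`, `Fo.le`; then `fo_of_dense`.
* `feq_nmS`: `feq_of_fmem`: let `(u, c) ∈ ch (nmS G)`, `q ≤ p, c`: `u = nN n`, `q` forces `n ∈ G ω` and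
  `G ω = G' ω`, so `(u, q) ∈ ch (nmS G')`, `fmem_of_ch`.
* `fo_eq_of_feq`: for each `n`, `{ω | n ∈ G ω ↔ n ∈ G' ω}` is forced by `p` (if not, some `q ≤ p` decides
  one of them positively, the other one negatively; `fmem_congr_right` and `fmem_nmS`); countable
  intersection.
* `uncut`: `uncut_cut`: a real is determined by its cut. `uncut_meas`: that `G ω` is the cut of a real
  is expressed with countable quantifiers (all members are codes, closed downwards, no greatest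
  member, not empty, not everything), and then `q < uncut G ω` iff `encode q ∈ G ω`; if `G ω` is not a cut
  then `uncut G ω = 0`. -/

namespace Pool.Agent.FSI

open Pool.Agent.ChoicelessEmb Pool.Agent.ChoicelessEmb.LName Pool.Agent.RFN Pool.Agent.RFN.GX

variable {κ : Type} [LinearOrder κ]

/-- Measurable functions with values in the sets of natural numbers. -/
def MeasN (γ : κ) (G : Om κ → Set ℕ) : Prop := ∀ n, Meas γ {ω | n ∈ G ω}

/-- Measurable real functions. -/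
def MeasR (γ : κ) (F : Om κ → ℝ) : Prop := ∀ q : ℚ, Meas γ {ω | (q : ℝ) < F ω}

/-- The Dedekind cut of a real, as a set of natural numbers. -/
def cut (r : ℝ) : Set ℕ := {n | ∃ q : ℚ, Encodable.encode q = n ∧ (q : ℝ) < r}

/-- The cuts of the values. -/
def cutF (F : Om κ → ℝ) : Om κ → Set ℕ := fun ω => cut (F ω)

open Classical in
/-- The reals with the given cuts. -/
noncomputable def uncut (G : Om κ → Set ℕ) : Om κ → ℝ := fun ω =>
  if h : ∃ r : ℝ, G ω = cut r then h.choose else 0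

private theorem mem_cut {q : ℚ} {r : ℝ} : Encodable.encode q ∈ cut r ↔ (q : ℝ) < r := by
  constructor
  · rintro ⟨q', hq', h⟩
    rwa [← Encodable.encode_injective hq']
  · intro h
    exact ⟨q, rfl, h⟩

theorem cut_inj : Function.Injective cut := by
  intro r r' h
  apply le_antisymm
  · by_contra h1
    obtain ⟨q, hq1, hq2⟩ := exists_rat_btwn (not_le.1 h1)
    have h2 : Encodable.encode q ∈ cut r := mem_cut.2 hq2
    rw [h] at h2
    exact absurd (mem_cut.1 h2) (not_lt.2 hq1.le)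
  · by_contra h1
    obtain ⟨q, hq1, hq2⟩ := exists_rat_btwn (not_le.1 h1)
    have h2 : Encodable.encode q ∈ cut r' := mem_cut.2 hq2
    rw [← h] at h2
    exact absurd (mem_cut.1 h2) (not_lt.2 hq1.le)

/-- The cuts among the sets of natural numbers. -/
private def IsCut (S : Set ℕ) : Prop :=
  (∀ n, n ∈ S → ∃ q : ℚ, Encodable.encode q = n) ∧
  (∀ q q' : ℚ, q' < q → Encodable.encode q ∈ S → Encodable.encode q' ∈ S) ∧
  (∀ q : ℚ, Encodable.encode q ∈ S → ∃ q' : ℚ, q < q' ∧ Encodable.encode q' ∈ S) ∧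
  (∃ q : ℚ, Encodable.encode q ∈ S) ∧ ∃ q : ℚ, ¬ Encodable.encode q ∈ S

private theorem isCut_iff {S : Set ℕ} : IsCut S ↔ ∃ r : ℝ, S = cut r := by
  constructor
  · rintro ⟨h1, h2, h3, ⟨q1, hq1⟩, ⟨q0, hq0⟩⟩
    have hb : ∀ q : ℚ, Encodable.encode q ∈ S → (q : ℝ) ≤ q0 := by
      intro q hq
      by_contra hc
      have hc' : q0 < q := by exact_mod_cast not_le.1 hc
      exact hq0 (h2 q q0 hc' hq)
    have hbd : BddAbove {x : ℝ | ∃ q : ℚ, Encodable.encode q ∈ S ∧ (q : ℝ) = x} := by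
      refine ⟨q0, ?_⟩
      rintro x ⟨q, hq, rfl⟩
      exact hb q hq
    refine ⟨sSup {x : ℝ | ∃ q : ℚ, Encodable.encode q ∈ S ∧ (q : ℝ) = x}, ?_⟩
    ext n
    constructor
    · intro hn
      obtain ⟨q, rfl⟩ := h1 n hn
      obtain ⟨q', hq', hS⟩ := h3 q hn
      refine mem_cut.2 (lt_of_lt_of_le (by exact_mod_cast hq') (le_csSup hbd ⟨q', hS, rfl⟩))
    · rintro ⟨q, rfl, hq⟩
      have hne : Set.Nonempty {x : ℝ | ∃ q : ℚ, Encodable.encode q ∈ S ∧ (q : ℝ) = x} :=
        ⟨(q1 : ℝ), q1, hq1, rfl⟩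
      obtain ⟨x, ⟨q', hq', rfl⟩, hlt⟩ := exists_lt_of_lt_csSup hne hq
      exact h2 q' q (by exact_mod_cast hlt) hq'
  · rintro ⟨r, rfl⟩
    refine ⟨?_, ?_, ?_, ?_, ?_⟩
    · rintro n ⟨q, hq, _⟩
      exact ⟨q, hq⟩
    · intro q q' h hq
      have h' : (q' : ℝ) < q := by exact_mod_cast h
      exact mem_cut.2 (h'.trans (mem_cut.1 hq))
    · intro q hq
      obtain ⟨q', h1, h2⟩ := exists_rat_btwn (mem_cut.1 hq)
      exact ⟨q', by exact_mod_cast h1, mem_cut.2 h2⟩
    · obtain ⟨q, hq⟩ := exists_rat_lt r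
      exact ⟨q, mem_cut.2 hq⟩
    · obtain ⟨q, hq⟩ := exists_rat_gt r
      exact ⟨q, fun h => absurd (mem_cut.1 h) (not_lt.2 hq.le)⟩

theorem MeasR.mono {γ δ : κ} {F : Om κ → ℝ} (h : MeasR δ F) (hd : δ ≤ γ) : MeasR γ F :=
  fun q => Meas.mono hd (h q)

theorem cutF_meas {γ : κ} {F : Om κ → ℝ} (h : MeasR γ F) : MeasN γ (cutF F) :=
  fun _ => Meas.ex fun q : ℚ => Meas.and (meas_const _) (h q)

private theorem isCut_meas {γ : κ} {G : Om κ → Set ℕ} (h : MeasN γ G) :
    Meas γ {ω | IsCut (G ω)} := by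
  refine Meas.and (Meas.all fun n => Meas.imp (h n) (meas_const _)) ?_
  refine Meas.and (Meas.all fun q : ℚ => Meas.all fun q' : ℚ => Meas.imp (meas_const _)
    (Meas.imp (h _) (h _))) ?_
  refine Meas.and (Meas.all fun q : ℚ => Meas.imp (h _)
    (Meas.ex fun q' : ℚ => Meas.and (meas_const _) (h _))) ?_
  exact Meas.and (Meas.ex fun q : ℚ => h _) (Meas.ex fun q : ℚ => Meas.not (h _))

private theorem uncut_spec {G : Om κ → Set ℕ} {ω : Om κ} {r : ℝ} (h : G ω = cut r) :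
    uncut G ω = r := by
  have h1 : ∃ r : ℝ, G ω = cut r := ⟨r, h⟩
  unfold uncut
  rw [dif_pos h1]
  exact cut_inj (h1.choose_spec.symm.trans h)

theorem uncut_meas {γ : κ} {G : Om κ → Set ℕ} (h : MeasN γ G) : MeasR γ (uncut G) := by
  intro q
  have e : {ω | (q : ℝ) < uncut G ω} = {ω | (IsCut (G ω) ∧ Encodable.encode q ∈ G ω) ∨
      (¬ IsCut (G ω) ∧ (q : ℝ) < 0)} := by
    ext ω
    rw [Set.mem_ofPred_eq, Set.mem_ofPred_eq]
    by_cases hc : IsCut (G ω)
    · obtain ⟨r, hr⟩ := isCut_iff.1 hc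
      rw [uncut_spec hr]
      constructor
      · intro h1
        refine Or.inl ⟨hc, ?_⟩
        rw [hr]
        exact mem_cut.2 h1
      · rintro (⟨_, h1⟩ | ⟨h1, _⟩)
        · rw [hr] at h1
          exact mem_cut.1 h1
        · exact absurd hc h1
    · have hz : uncut G ω = 0 := by
        unfold uncut
        rw [dif_neg fun h1 => hc (isCut_iff.2 h1)]
      rw [hz]
      constructor
      · intro h1
        exact Or.inr ⟨hc, h1⟩
      · rintro (⟨h1, _⟩ | ⟨_, h1⟩)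
        · exact absurd h1 hc
        · exact h1
  rw [e]
  exact Meas.or (Meas.and (isCut_meas h) (h _)) (Meas.and (Meas.not (isCut_meas h)) (meas_const _))

theorem uncut_cut {G : Om κ → Set ℕ} {ω : Om κ} {r : ℝ} (h : G ω = cut r) : uncut G ω = r :=
  uncut_spec h

theorem measR_eq {γ : κ} {F F' : Om κ → ℝ} (h : MeasR γ F) (h' : MeasR γ F') :
    Meas γ {ω | F ω = F' ω} := by
  have e : {ω | F ω = F' ω} =
      {ω | ∀ q : ℚ, ((q : ℝ) < F ω → (q : ℝ) < F' ω) ∧ ((q : ℝ) < F' ω → (q : ℝ) < F ω)} := by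
    ext ω
    rw [Set.mem_ofPred_eq, Set.mem_ofPred_eq]
    constructor
    · intro h q
      rw [h]
      exact ⟨id, id⟩
    · intro h
      apply le_antisymm
      · by_contra h1
        obtain ⟨q, hq1, hq2⟩ := exists_rat_btwn (not_le.1 h1)
        exact absurd ((h q).1 hq2) (not_lt.2 hq1.le)
      · by_contra h1
        obtain ⟨q, hq1, hq2⟩ := exists_rat_btwn (not_le.1 h1)
        exact absurd ((h q).2 hq2) (not_lt.2 hq1.le)
  rw [e]
  exact Meas.all fun q => Meas.and (Meas.imp (h q) (h' q)) (Meas.imp (h' q) (h q))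

open Classical in
/-- Definition by a countable case distinction. -/
theorem measR_sel {γ : κ} {ι : Type} [Countable ι] [Inhabited ι] {P : Om κ → ι → Prop}
    (hP : ∀ i, Meas γ {ω | P ω i}) {F : ι → Om κ → ℝ} (hF : ∀ i, MeasR γ (F i)) :
    MeasR γ fun ω => F (sel (P ω)) ω :=
  fun q => MeasF.rel (MeasF.sel hP) (P := fun i ω => (q : ℝ) < F i ω) fun i => hF i q

variable [WellFoundedLT κ] {θ : κ}

/-- The name of the value of `G`. -/
noncomputable def nmS (G : Om κ → Set ℕ) : LName (Pc θ) :=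
  relG nN fun n p => Fo θ p.val {ω | n ∈ G ω}

/-- The name of the value of `F`. -/
noncomputable def nmR (F : Om κ → ℝ) : LName (Pc θ) := nmS (cutF F)

/-- A maximal antichain of conditions forcing `n ∈ u`. -/
noncomputable def antiN (u : LName (Pc θ)) (n : ℕ) : Set (Cond κ) :=
  Classical.choose (exists_max (γ := θ) (D := {c | ∃ p : Pc θ, p.val = c ∧ fmem (nN n) u p})
    (by rintro _ ⟨p, rfl, _⟩; exact p.mem))

theorem antiN_spec (u : LName (Pc θ)) (n : ℕ) :
    antiN u n ⊆ {c | ∃ p : Pc θ, p.val = c ∧ fmem (nN n) u p} ∧ (antiN u n).Countable ∧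
      (∀ a ∈ antiN u n, ∀ b ∈ antiN u n, Compat θ a b → a = b) ∧
      ∀ d ∈ {c | ∃ p : Pc θ, p.val = c ∧ fmem (nN n) u p}, ∃ a ∈ antiN u n, Compat θ d a :=
  Classical.choose_spec (exists_max (γ := θ) (D := {c | ∃ p : Pc θ, p.val = c ∧ fmem (nN n) u p})
    (by rintro _ ⟨p, rfl, _⟩; exact p.mem))

/-- The function with the name `u`. -/
noncomputable def FN (u : LName (Pc θ)) : Om κ → Set ℕ := fun ω => {n | ∃ c ∈ antiN u n, ω ∈ body c}

private theorem antiN_sub (u : LName (Pc θ)) (n : ℕ) : antiN u n ⊆ Pset θ := by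
  intro c hc
  obtain ⟨p, rfl, _⟩ := (antiN_spec u n).1 hc
  exact p.mem

private theorem FN_eq (u : LName (Pc θ)) (n : ℕ) :
    {ω | n ∈ FN u ω} = ⋃ c ∈ antiN u n, body c := by
  ext ω
  rw [Set.mem_iUnion₂]
  constructor
  · rintro ⟨c, hc, h⟩
    exact ⟨c, hc, h⟩
  · rintro ⟨c, hc, h⟩
    exact ⟨c, hc, h⟩

theorem FN_meas (u : LName (Pc θ)) : MeasN θ (FN u) := by
  intro n
  rw [FN_eq]
  exact Meas.biUnion (antiN_spec u n).2.1 fun c hc => meas_body (antiN_sub u n hc)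

theorem fo_FN {u : LName (Pc θ)} {n : ℕ} {p : Pc θ} :
    Fo θ p.val {ω | n ∈ FN u ω} ↔ fmem (nN n) u p := by
  obtain ⟨h1, h2, _, h4⟩ := antiN_spec u n
  rw [FN_eq]
  constructor
  · intro h
    refine fmem_dense fun q hq => ?_
    have hq' : Fo θ q.val (⋃ c ∈ antiN u n, body c) := h.le p.mem q.mem hq
    obtain ⟨c, hc, r, hr, hr1, hr2⟩ : ∃ c ∈ antiN u n, Compat θ q.val c := by
      by_contra hcon
      push Not at hcon
      have h5 : (⋃ c ∈ antiN u n, body q.val ∩ body c) ∈ Nul θ :=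
        Nul.biUnion h2 fun c hc => inter_nul_of_not_compat q.mem (antiN_sub u n hc) (hcon c hc)
      refine (hyp θ).ne q.val q.mem (Nul.subset (Nul.union h5 hq') fun ω hω => ?_)
      by_cases hu : ω ∈ ⋃ c ∈ antiN u n, body c
      · obtain ⟨c, hc, hωc⟩ := Set.mem_iUnion₂.1 hu
        exact Or.inl (Set.mem_iUnion₂.2 ⟨c, hc, hω, hωc⟩)
      · exact Or.inr ⟨hω, hu⟩
    obtain ⟨s, rfl, hs⟩ := h1 hc
    exact ⟨⟨r, hr⟩, hr1, fmem_mono hs hr2⟩
  · intro h
    refine fo_predense p.mem h2 (antiN_sub u n) fun q hq hqp => ?_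
    exact h4 q ⟨⟨q, hq⟩, rfl, fmem_mono h hqp⟩

theorem fmem_nmS {G : Om κ → Set ℕ} {n : ℕ} {p : Pc θ} :
    fmem (nN n) (nmS G) p ↔ Fo θ p.val {ω | n ∈ G ω} := by
  constructor
  · intro h
    refine fo_of_dense p.mem fun q hq hqp => ?_
    obtain ⟨r, hr, w, d, hw, hd, he⟩ := h ⟨q, hq⟩ hqp
    obtain ⟨m, hm, rfl⟩ := mem_ch_relG.1 hw
    have hnm : n = m := natZ_injective (feq_checkN he)
    subst hnm
    exact ⟨r.val, r.mem, hr, hm.le d.mem r.mem hd⟩
  · intro h
    exact fmem_of_ch (mem_ch_relG.2 ⟨n, h, rfl⟩) le_rfl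

theorem feq_nmS {G G' : Om κ → Set ℕ} {p : Pc θ} (h : Fo θ p.val {ω | G ω = G' ω}) :
    feq (nmS G) (nmS G') p := by
  refine feq_of_fmem ?_ ?_
  · intro u c hu q hq hc
    obtain ⟨n, hn, rfl⟩ := mem_ch_relG.1 hu
    refine fmem_nmS.2 (((hn.le c.mem q.mem hc).inter (h.le p.mem q.mem hq)).mono ?_)
    rintro ω ⟨h1, h2⟩
    have h2' : G ω = G' ω := h2
    have h1' : n ∈ G ω := h1
    rw [h2'] at h1'
    exact h1'
  · intro u c hu q hq hc
    obtain ⟨n, hn, rfl⟩ := mem_ch_relG.1 hu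
    refine fmem_nmS.2 (((hn.le c.mem q.mem hc).inter (h.le p.mem q.mem hq)).mono ?_)
    rintro ω ⟨h1, h2⟩
    have h2' : G ω = G' ω := h2
    have h1' : n ∈ G' ω := h1
    rw [← h2'] at h1'
    exact h1'

theorem feq_nmR {F F' : Om κ → ℝ} {p : Pc θ} (h : Fo θ p.val {ω | F ω = F' ω}) :
    feq (nmR F) (nmR F') p := by
  refine feq_nmS (h.mono fun ω hω => ?_)
  have h1 : F ω = F' ω := hω
  show cut (F ω) = cut (F' ω)
  rw [h1]

theorem fo_eq_of_feq {G G' : Om κ → Set ℕ} (hG : MeasN θ G) (hG' : MeasN θ G') {p : Pc θ}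
    (h : feq (nmS G) (nmS G') p) : Fo θ p.val {ω | G ω = G' ω} := by
  have key : ∀ n : ℕ, Fo θ p.val {ω | (n ∈ G ω → n ∈ G' ω) ∧ (n ∈ G' ω → n ∈ G ω)} := by
    intro n
    by_contra hn
    obtain ⟨q, hq, hqp, hqf⟩ := not_fo
      (Meas.and (Meas.imp (hG n) (hG' n)) (Meas.imp (hG' n) (hG n))) p.mem hn
    obtain ⟨r, hr, hrq, hd⟩ := fo_dec (hG n) hq
    have hrp : (⟨r, hr⟩ : Pc θ) ≤ p := Le.trans hr hq p.mem hrq hqp
    have hrf := hqf.le hq hr hrq
    have h1 : feq (nmS G) (nmS G') ⟨r, hr⟩ := feq_mono h hrp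
    rcases hd with hd | hd
    · have h2 : Fo θ r {ω | n ∈ G' ω} :=
        (fmem_nmS (p := ⟨r, hr⟩)).1 (fmem_congr_right h1 ((fmem_nmS (p := ⟨r, hr⟩)).2 hd))
      obtain ⟨ω, _, ⟨h3, h4⟩, h5⟩ := ((hd.inter h2).inter hrf).nonempty hr
      exact h5 ⟨fun _ => h4, fun _ => h3⟩
    · have h2 : Fo θ r {ω | n ∈ G' ω} := by
        refine (hd.inter hrf).mono ?_
        rintro ω ⟨h3, h4⟩
        by_contra h5
        exact h4 ⟨fun h6 => absurd h6 h3, fun h6 => absurd h6 h5⟩
      have h3 : Fo θ r {ω | n ∈ G ω} :=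
        (fmem_nmS (p := ⟨r, hr⟩)).1
          (fmem_congr_right (feq_symm h1) ((fmem_nmS (p := ⟨r, hr⟩)).2 h2))
      exact h3.false hd hr
  refine (Fo.all key).mono fun ω hω => ?_
  have hω' : ∀ n, (n ∈ G ω → n ∈ G' ω) ∧ (n ∈ G' ω → n ∈ G ω) := hω
  show G ω = G' ω
  ext n
  exact ⟨(hω' n).1, (hω' n).2⟩

end Pool.Agent.FSI
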