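import Pool.Agent.FSI.Calc
import Pool.Agent.DX.Hull

set_option autoImplicit false

/-! # The forcing notion and its generic points

`Pc θ` = the conditions in `Pset θ`. `Gs g` = the set of the conditions of the filter `g`.

PROOFS.
* `filt_Gs`: `FiltW` from `IsFil` (`hg.top_mem`, `up`, `dir`).
* `exists_ext`: the stems of the members of `Gs g` at a fixed coordinate are pairwise comparable (a
  common lower bound extends both stems, `prefix_of_prefix` of `Br.lean`), so `ω ξ i = (p.st ξ)[i]` for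
  any member `p` with `ξ ∈ p.supp`, `i < (p.st ξ).length` (choice), a default value otherwise; the same
  construction is in `exists_generic` of `Main.lean`.
* `req_ae`: for `φ` with `Ae θ φ` choose (by `Classical.choose`, a function of `φ`) the sequence
  `D φ : ℕ → Set (Cond κ)` of dense sets. By `req_hop` the hull contains `D φ`, by `req_hconst` (and
  `Req.forall`) all `n : ℕ`, by `req_hop2` the sets `D φ n`, and by `req_hdec` (with the sets
  `{p : Pc θ | p.val ∈ A}`, `A : Set (Cond κ)`) and `GX.dec0_dense` (in `GEX/Base.lean`) some `p ∈ g0`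
  has `p.val ∈ D φ n`. So `φ (Gs g) ω` by the choice of `D φ`, `filt_Gs` and `GFil`.
* `req_nul`: `φ = fun _ ω => ω ∉ A` (`mem_Nul_iff`), `req_hop` for `A ↦ φ`.
* `req_fo`: the conditions `p ∈ g0` are in the hull: `Req.refl 0` with `Pr _ r y := y = ckT (Pc θ) r`.
  `ω ∈ body p.val` from `Ae θ fun G ω => p.val ∈ G → ω ∈ body p.val` (`(hyp θ).t1`), and
  `ω ∉ body p.val \ A` from `req_nul` with `req_hop2` for `(p, A) ↦ body p.val \ A`.
* `req_tr`: `req_hdec` for `T = Set (Om κ)` and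
  `{p : Pc θ | Meas θ A → Fo θ p.val A ∨ Fo θ p.val Aᶜ}` (dense, `fo_dec`): some `p ∈ g0` decides `A`; if
  it forces `Aᶜ` then `ω ∈ Aᶜ` by `req_fo` (and `req_hop` for the complement). -/

namespace Pool.Agent.FSI

open Pool.Agent.ChoicelessEmb Pool.Agent.RFN Pool.Agent.RFN.GX

variable {κ : Type} [LinearOrder κ] [WellFoundedLT κ]

/-- The conditions below `θ`. -/
structure Pc (θ : κ) : Type where
  /-- the condition -/
  val : Cond κ
  mem : val ∈ Pset θ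

variable {θ : κ}

instance instPrePc : Preorder (Pc θ) where
  le p q := Le p.val q.val
  le_refl p := Le.refl p.val
  le_trans p q r h1 h2 := h1.trans p.mem q.mem r.mem h2

instance instTopPc : OrderTop (Pc θ) where
  top := ⟨triv, triv_mem⟩
  le_top _ := le_triv

theorem Pc.le_def {p q : Pc θ} : p ≤ q ↔ Le p.val q.val := Iff.rfl

/-- The conditions of the filter. -/
def Gs (g : Set (Pc θ)) : Set (Cond κ) := {c | ∃ p ∈ g, p.val = c}

theorem filt_Gs {g : Set (Pc θ)} (hg : IsFil g) : Filt θ (Gs g) := by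
  refine ⟨?_, ⟨triv, ⊤, hg.top_mem, rfl⟩, ?_, ?_⟩
  · rintro c ⟨p, _, rfl⟩
    exact p.mem
  · rintro c ⟨p, hp, rfl⟩ q hq h
    exact ⟨⟨q, hq⟩, hg.up p ⟨q, hq⟩ hp h, rfl⟩
  · rintro c ⟨p, hp, rfl⟩ d ⟨q, hq, rfl⟩
    obtain ⟨r, hr, h1, h2⟩ := hg.dir p q hp hq
    exact ⟨r.val, ⟨r, hr, rfl⟩, h1, h2⟩

theorem exists_Ext {g : Set (Pc θ)} (hg : IsFil g) : ∃ ω : Om κ, Ext (Gs g) ω := by
  classical
  let ω : Om κ := fun ξ i =>
    if hx : ∃ p : Pc θ, p ∈ g ∧ ξ ∈ p.val.supp ∧ i < (p.val.st ξ).length then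
      (hx.choose.val.st ξ)[i]'(hx.choose_spec.2.2) else ⟨0, ∅⟩
  have hω : ∀ p ∈ g, ∀ ξ i, ξ ∈ p.val.supp → ∀ hi : i < (p.val.st ξ).length,
      ω ξ i = (p.val.st ξ)[i] := by
    intro p hp ξ i hξ hi
    have hx : ∃ p : Pc θ, p ∈ g ∧ ξ ∈ p.val.supp ∧ i < (p.val.st ξ).length := ⟨p, hp, hξ, hi⟩
    have h1 : ω ξ i = (hx.choose.val.st ξ)[i]'(hx.choose_spec.2.2) := dif_pos hx
    rw [h1]
    obtain ⟨r, _, h2, h3⟩ := hg.dir _ p hx.choose_spec.1 hp
    have h4 := (h2.2 ξ hx.choose_spec.2.1).1.getElem hx.choose_spec.2.2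
    have h5 := (h3.2 ξ hξ).1.getElem hi
    rw [h4, h5]
  refine ⟨ω, ?_⟩
  rintro c ⟨p, hp, rfl⟩ ξ hξ
  apply List.ext_getElem
  · simp [ini]
  · intro i h1 h2
    rw [← hω p hp ξ i hξ h2]
    simp [ini]

theorem req_ae : Req fun (X : Set (LName (Pc θ))) _ g =>
    ∀ φ : Set (Cond κ) → Om κ → Prop, Hu X φ → Ae θ φ → ∀ ω, Ext (Gs g) ω → φ (Gs g) ω := by
  classical
  let D : (Set (Cond κ) → Om κ → Prop) → ℕ → Set (Cond κ) := fun φ =>
    if h : Ae θ φ then h.choose else fun _ => ∅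
  have hD : ∀ φ (h : Ae θ φ), D φ = h.choose := fun φ h => dif_pos h
  refine ((req_hop (P := Pc θ) D).and ((Req.forall fun n : ℕ => req_hconst (P := Pc θ) n).and
    ((req_hop2 (P := Pc θ) fun (f : ℕ → Set (Cond κ)) (n : ℕ) => f n).and
      (req_hdec (P := Pc θ) fun A : Set (Cond κ) => {p : Pc θ | p.val ∈ A})))).mono ?_
  rintro X g0 g hg ⟨h1, h2, h3, h4⟩ φ hφ hae ω hω
  have hspec := hae.choose_spec
  rw [← hD φ hae] at hspec
  refine hspec.2 (Gs g) (filt_Gs hg.fil) (fun n => ?_) ω hω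
  obtain ⟨p, hp, hpD⟩ := dec0_dense (h4 (D φ n) (h3 (D φ) n (h1 φ hφ) (h2 n))) (by
    intro p
    obtain ⟨q, hq, hle⟩ := (hspec.1 n).2 p.val p.mem
    exact ⟨⟨q, (hspec.1 n).1 hq⟩, hle, hq⟩)
  exact ⟨p.val, ⟨p, hg.sub hp, rfl⟩, hpD⟩

theorem req_nul : Req fun (X : Set (LName (Pc θ))) _ g =>
    ∀ A : Set (Om κ), Hu X A → A ∈ Nul θ → ∀ ω, Ext (Gs g) ω → ω ∉ A := by
  refine ((req_ae (θ := θ)).and (req_hop (P := Pc θ) fun (A : Set (Om κ)) =>
    (fun (_ : Set (Cond κ)) (ω : Om κ) => ω ∉ A))).mono ?_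
  rintro X g0 g hg ⟨h1, h2⟩ A hA hN ω hω
  exact h1 _ (h2 A hA) (mem_Nul_iff.1 hN) ω hω

theorem req_fo : Req fun (X : Set (LName (Pc θ))) g0 g =>
    ∀ A : Set (Om κ), Hu X A → ∀ p ∈ g0, Fo θ p.val A → ∀ ω, Ext (Gs g) ω → ω ∈ A := by
  refine ((req_ae (θ := θ)).and ((req_nul (θ := θ)).and
    (((Req.refl (P := Pc θ) 0 fun _ r y => y = ckT (Pc θ) r).and
      (req_hop (P := Pc θ) fun (p : Pc θ) =>
        (fun (G : Set (Cond κ)) (ω : Om κ) => p.val ∈ G → ω ∈ body p.val))).and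
      (req_hop2 (P := Pc θ) fun (p : Pc θ) (A : Set (Om κ)) => body p.val \ A)))).mono ?_
  rintro X g0 g hg ⟨h1, h2, ⟨h3, h4⟩, h5⟩ A hA p hp hF ω hω
  have hpX : Hu X p := by
    obtain ⟨y, hy, h⟩ := h3 Fin.elim0 (fun i => i.elim0) p hp ⟨_, rfl⟩
    have h' : y = ckT (Pc θ) p := h
    unfold Hu
    rw [← h']
    exact hy
  have h6 : ω ∈ body p.val := h1 _ (h4 p hpX) ((hyp θ).t1 p.val p.mem) ω hω
    ⟨p, hg.sub hp, rfl⟩
  have h7 := h2 _ (h5 p A hpX hA) hF ω hω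
  by_contra hc
  exact h7 ⟨h6, hc⟩

theorem req_tr : Req fun (X : Set (LName (Pc θ))) g0 g =>
    ∀ A : Set (Om κ), Hu X A → Meas θ A → ∀ ω, Ext (Gs g) ω → ω ∈ A → ∃ p ∈ g0, Fo θ p.val A := by
  refine ((req_fo (θ := θ)).and ((req_hop (P := Pc θ) fun (A : Set (Om κ)) => Aᶜ).and
    (req_hdec (P := Pc θ) fun A : Set (Om κ) =>
      {p : Pc θ | Meas θ A → Fo θ p.val A ∨ Fo θ p.val Aᶜ}))).mono ?_
  rintro X g0 g hg ⟨h1, h2, h3⟩ A hA hM ω hω hωA
  obtain ⟨p, hp, hpD⟩ := dec0_dense (h3 A hA) (by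
    intro p
    obtain ⟨q, hq, hle, h⟩ := fo_dec hM p.mem
    exact ⟨⟨q, hq⟩, hle, fun _ => h⟩)
  rcases hpD hM with h | h
  · exact ⟨p, hp, h⟩
  · exact absurd hωA (h1 _ (h2 A hA) p hp h ω hω)

end Pool.Agent.FSI
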