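import Pool.Agent.FSI.MDict

set_option autoImplicit false

/-! # Sets which are not countable in the model

PROOF. `h.rich a ha`. In the first case let `q ∈ g0`, `s` in the hull, `NoNew a s q`. The sequence
`fun n => s n ω` is in the model (`seq_mem`); we show that its range contains `A`. Let `x ∈ A`,
`x = F ω` (`exists_fun`), `p ∈ g0` with `InA a F p` (`inA_g0`), `r ∈ g0` below `p` and `q`
(`hs.st.op.atom.dir0`). Then `Fo θ r.val (EqS F s)` by `fo_of_dense`: `EqS F s` is in `Meas θ`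
(`Meas.ex`, `measR_eq`); let `q' ≤ r`; by `fo_dec` some `r' ≤ q'` forces `EqS F s` or its complement
`{ω | ∀ n, F ω ≠ s n ω}`; the latter contradicts `NoNew a s q` (`InA.mono`). So `ω ∈ EqS F s` by `h.fo`,
`h.es`. -/

namespace Pool.Agent.FSI

open Pool.Agent.ChoicelessEmb Pool.Agent.ChoicelessEmb.LName Pool.Agent.RFN Pool.Agent.RFN.GX

variable {κ : Type} [LinearOrder κ] [WellFoundedLT κ] {θ : κ} {X : Set (LName (Pc θ))}
  {g : Set (Pc θ)} [hs : SB X g]

theorem rich_or_ctb (h : StF X hs.g0 g) {ω : Om κ} (hω : Ext (Gs g) ω) {a : LName (Pc θ)}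
    (ha : a ∈ X) {A : Set ℝ} (hA : val X g a = sZ A) :
    Ctb (Mod X g) A ∨ ∃ r ∈ hs.g0, Rich a r := by
  rcases h.rich a ha with ⟨q, hq, s, hsX, hsm, hno⟩ | hr
  · left
    refine ⟨fun n => s n ω, seq_mem h hω hsX hsm, ?_⟩
    intro x hx
    have hAM : sZ A ∈ Mod X g := ⟨a, ha, hA⟩
    obtain ⟨F, hF, hFm, hFx⟩ := exists_fun h hω hAM hx
    obtain ⟨p, hp, hpa⟩ := inA_g0 h hω ha hA hF hFm (by rw [hFx]; exact hx)
    obtain ⟨r, hr, hrp, hrq⟩ := hs.st.op.atom.dir0 (hs.st.op.atom.sub hp) (hs.st.op.atom.sub hq)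
    have hE : Meas θ (EqS F s) := Meas.ex fun n => measR_eq hFm (hsm n)
    have hfo : Fo θ r.val (EqS F s) := by
      refine fo_of_dense r.mem fun q' hq' hle => ?_
      obtain ⟨r', hr', hle', h1 | h1⟩ := fo_dec hE hq'
      · exact ⟨r', hr', hle', h1⟩
      · exfalso
        have h2 : (⟨r', hr'⟩ : Pc θ) ≤ r := Pc.le_def.2 (Le.trans hr' hq' r.mem hle' hle)
        refine hno ⟨r', hr'⟩ (h2.trans hrq) F hFm (hpa.mono (h2.trans hrp)) (h1.mono ?_)
        intro ω' hω' n e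
        exact hω' ⟨n, e⟩
    obtain ⟨n, hn⟩ := h.fo _ (h.es F s hF hsX) r hr hfo ω hω
    exact ⟨n, by rw [← hFx]; exact hn.symm⟩
  · right
    exact hr

end Pool.Agent.FSI
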