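import Pool.Agent.FSI.MMix
import Pool.Agent.FSI.MCoh

set_option autoImplicit false

/-! # The requirements for the model

PROOF of `req_StF`. A conjunction of requirements (`Req.and`, `Req.forall` for the countable
parameters `n`, `i`, `m`, `m'` : ℕ), then `Req.mono`:
* `base`: `req_stB` (`GEX/Base.lean`); `fo`, `tr`, `nul`: `req_fo`, `req_tr`, `req_nul`.
* `nS`, `nQ`, `nT`: `req_hname` (`DX/Hull.lean`); `lv`, `sq`, `ts`: `Req.forall`, `req_hop`; `ct`, `uc`, `ds`,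
  `c2`: `req_hop`; `es`, `c1`, `vj`: `req_hop2`; `fj`, `ij`: `req_hop2` for the formation of pairs
  (`Prod.mk`) and for the function of the two pairs.
* `fn`: as in `reqc_op`: `Req.op1 fun u => ckT _ (FN u)`.
* `rich`: `Req.dec1` for `D a = {q | ∃ s, (∀ n, MeasR θ (s n)) ∧ NoNew a s q}` and `Req.refl1` for
  `Pr a q w := ∃ s, w = ckT _ s ∧ (∀ n, MeasR θ (s n)) ∧ NoNew a s q`; in the second case of `Dec0` there
  is `r ∈ g0` such that no `q ≤ r` is in `D a`, which is `Rich a r`.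
* `nice`: `Req.refl1` with values `ckT (κ × (ℕ → Om κ → ℝ)) t`, and `req_hop` for the two projections.
* `b1`, `b2`: `req_nalt` with the parameter `t = (J, δ)` (pair in the hull by `req_hop2 Prod.mk`) and
  `t' = F`, `t' = (F, F')`; projections by `req_hop`. -/

namespace Pool.Agent.FSI

open Pool.Agent.ChoicelessEmb Pool.Agent.ChoicelessEmb.LName Pool.Agent.RFN Pool.Agent.RFN.GX

variable {κ : Type} [LinearOrder κ]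

/-- `F ω` is a member of the sequence. -/
def EqS (F : Om κ → ℝ) (s : ℕ → Om κ → ℝ) : Set (Om κ) := {ω | ∃ n, F ω = s n ω}

/-- The trace of `F ω` on `J ω` is finite. -/
def FinJ (J : Om κ → Set ℕ) (δ : κ) (F : Om κ → ℝ) : Set (Om κ) :=
  {ω | (J ω ∩ Ux δ F ω).Finite}

/-- The traces of `F ω` and `F' ω` on `J ω` are not comparable. -/
def IncJ (J : Om κ → Set ℕ) (δ : κ) (F F' : Om κ → ℝ) : Set (Om κ) :=
  {ω | ¬ (((J ω ∩ Ux δ F ω) \ Ux δ F' ω).Finite ∨ ((J ω ∩ Ux δ F' ω) \ Ux δ F ω).Finite)}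

/-- All indices in `J ω` are valid. -/
def ValJ (J : Om κ → Set ℕ) (δ : κ) : Set (Om κ) := {ω | J ω ⊆ Vl δ ω}

/-- The open set with the (valid) index `i` contains the rational interval with the code `(m, m')`. -/
def TS (δ : κ) (i m m' : ℕ) : Set (Om κ) :=
  {ω | i ∈ Vl δ ω ∧ ∃ q q' : ℚ, Encodable.encode q = m ∧ Encodable.encode q' = m' ∧
    Set.Ioc (q : ℝ) q' ⊆ UU (ω δ (idx i).1) (idx i).2}

/-- The set of `coh1`. -/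
def C1 (δ : κ) (y : Om κ → ℝ) : Set (Om κ) := {ω | ¬ ∀ N : ℕ, ∃ n, N ≤ n ∧ y ω ∉ UU (ω δ n) ∅}

/-- The set of `coh2`. -/
def C2 (δ : κ) : Set (Om κ) := {ω | ¬ ∀ K : ℕ, ∃ N : ℕ, ∀ n, N ≤ n → K ≤ (ω δ n).1}

/-- The members of the sequence are pairwise different. -/
def Ds (s : ℕ → Om κ → ℝ) : Set (Om κ) := {ω | ∀ m n, m ≠ n → s m ω ≠ s n ω}

variable [WellFoundedLT κ] {θ : κ}

/-- The name of the sequence of the values of `s`. -/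
noncomputable def nmQ (s : ℕ → Om κ → ℝ) : LName (Pc θ) :=
  relG (fun n : ℕ => opairN (nN n) (nmR (s n))) fun _ _ => True

/-- The name of the set of the `(i, (m, m'))` with `TS`. -/
noncomputable def nmT (δ : κ) : LName (Pc θ) :=
  relG (nm2 nN (nm2 nN nN)) fun t p => Fo θ p.val (TS δ t.1 t.2.1 t.2.2)

/-- The requirements. -/
structure StF (X : Set (LName (Pc θ))) (g0 g : Set (Pc θ)) : Prop where
  base : StB X g0 g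
  fo : ∀ A : Set (Om κ), Hu X A → ∀ p ∈ g0, Fo θ p.val A → ∀ ω, Ext (Gs g) ω → ω ∈ A
  tr : ∀ A : Set (Om κ), Hu X A → Meas θ A → ∀ ω, Ext (Gs g) ω → ω ∈ A →
    ∃ p ∈ g0, Fo θ p.val A
  nul : ∀ A : Set (Om κ), Hu X A → A ∈ Nul θ → ∀ ω, Ext (Gs g) ω → ω ∉ A
  nS : ∀ G : Om κ → Set ℕ, Hu X G → nmS G ∈ X
  lv : ∀ G : Om κ → Set ℕ, Hu X G → ∀ n, Hu X {ω | n ∈ G ω}
  fn : ∀ u ∈ X, Hu X (FN u)
  ct : ∀ F : Om κ → ℝ, Hu X F → Hu X (cutF F)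
  uc : ∀ G : Om κ → Set ℕ, Hu X G → Hu X (uncut G)
  sq : ∀ s : ℕ → Om κ → ℝ, Hu X s → ∀ n, Hu X (s n)
  nQ : ∀ s : ℕ → Om κ → ℝ, Hu X s → nmQ s ∈ X
  es : ∀ (F : Om κ → ℝ) (s : ℕ → Om κ → ℝ), Hu X F → Hu X s → Hu X (EqS F s)
  ds : ∀ s : ℕ → Om κ → ℝ, Hu X s → Hu X (Ds s)
  c1 : ∀ (δ : κ) (y : Om κ → ℝ), Hu X δ → Hu X y → Hu X (C1 δ y)
  c2 : ∀ δ : κ, Hu X δ → Hu X (C2 δ)
  nT : ∀ δ : κ, Hu X δ → nmT δ ∈ X
  ts : ∀ δ : κ, Hu X δ → ∀ i m m', Hu X (TS δ i m m')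
  vj : ∀ (J : Om κ → Set ℕ) (δ : κ), Hu X J → Hu X δ → Hu X (ValJ J δ)
  fj : ∀ (J : Om κ → Set ℕ) (δ : κ) (F : Om κ → ℝ), Hu X J → Hu X δ → Hu X F → Hu X (FinJ J δ F)
  ij : ∀ (J : Om κ → Set ℕ) (δ : κ) (F F' : Om κ → ℝ), Hu X J → Hu X δ → Hu X F → Hu X F' →
    Hu X (IncJ J δ F F')
  rich : ∀ a ∈ X, (∃ q ∈ g0, ∃ s : ℕ → Om κ → ℝ, Hu X s ∧ (∀ n, MeasR θ (s n)) ∧ NoNew a s q) ∨
    ∃ r ∈ g0, Rich a r
  nice : ∀ a ∈ X, ∀ r ∈ g0, (∃ t, Nice a r t) → ∃ (δ : κ) (s : ℕ → Om κ → ℝ), Hu X δ ∧ Hu X s ∧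
    Nice a r (δ, s)
  b1 : ∀ a ∈ X, ∀ (J : Om κ → Set ℕ) (δ : κ), Hu X J → Hu X δ →
    (∃ p ∈ g0, ∃ F : Om κ → ℝ, Hu X F ∧ MeasR θ F ∧ InA a F p ∧ Fo θ p.val (FinJ J δ F)) ∨
    ∃ r ∈ g0, ∀ q ≤ r, ∀ F : Om κ → ℝ, MeasR θ F → InA a F q → ¬ Fo θ q.val (FinJ J δ F)
  b2 : ∀ a ∈ X, ∀ (J : Om κ → Set ℕ) (δ : κ), Hu X J → Hu X δ →
    (∃ p ∈ g0, ∃ F F' : Om κ → ℝ, Hu X F ∧ Hu X F' ∧ MeasR θ F ∧ MeasR θ F' ∧ InA a F p ∧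
      InA a F' p ∧ Fo θ p.val (IncJ J δ F F')) ∨
    ∃ r ∈ g0, ∀ q ≤ r, ∀ F F' : Om κ → ℝ, MeasR θ F → MeasR θ F' → InA a F q → InA a F' q →
      ¬ Fo θ q.val (IncJ J δ F F')

theorem req_StF : Req fun (X : Set (LName (Pc θ))) g0 g => StF X g0 g := by
  have hbase := req_stB (P := Pc θ)
  have hfo := req_fo (θ := θ)
  have htr := req_tr (θ := θ)
  have hnul := req_nul (θ := θ)
  have h_nS := req_hname (P := Pc θ) (T := Om κ → Set ℕ) nmS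
  have h_lv := Req.forall fun n : ℕ => req_hop (P := Pc θ)
    (fun G : Om κ → Set ℕ => {ω : Om κ | n ∈ G ω})
  have h_fn := Req.op1 fun u : LName (Pc θ) => ckT _ (FN u)
  have h_ct := req_hop (P := Pc θ) (fun F : Om κ → ℝ => cutF F)
  have h_uc := req_hop (P := Pc θ) (fun G : Om κ → Set ℕ => uncut G)
  have h_sq := Req.forall fun n : ℕ => req_hop (P := Pc θ) (fun s : ℕ → Om κ → ℝ => s n)
  have h_nQ := req_hname (P := Pc θ) (T := ℕ → Om κ → ℝ) nmQ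
  have h_es := req_hop2 (P := Pc θ) (fun (F : Om κ → ℝ) (s : ℕ → Om κ → ℝ) => EqS F s)
  have h_ds := req_hop (P := Pc θ) (fun s : ℕ → Om κ → ℝ => Ds s)
  have h_c1 := req_hop2 (P := Pc θ) (fun (δ : κ) (y : Om κ → ℝ) => C1 δ y)
  have h_c2 := req_hop (P := Pc θ) (fun δ : κ => C2 δ)
  have h_nT := req_hname (P := Pc θ) (T := κ) nmT
  have h_ts := Req.forall fun i : ℕ × ℕ × ℕ => req_hop (P := Pc θ)
    (fun δ : κ => TS δ i.1 i.2.1 i.2.2)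
  have h_vj := req_hop2 (P := Pc θ) (fun (J : Om κ → Set ℕ) (δ : κ) => ValJ J δ)
  have h_pJ := req_hop2 (P := Pc θ) (fun (J : Om κ → Set ℕ) (δ : κ) => (J, δ))
  have h_fj := req_hop2 (P := Pc θ)
    (fun (t : (Om κ → Set ℕ) × κ) (F : Om κ → ℝ) => FinJ t.1 t.2 F)
  have h_pF := req_hop2 (P := Pc θ) (fun (F F' : Om κ → ℝ) => (F, F'))
  have h_ij := req_hop2 (P := Pc θ)
    (fun (t : (Om κ → Set ℕ) × κ) (F : (Om κ → ℝ) × (Om κ → ℝ)) => IncJ t.1 t.2 F.1 F.2)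
  have h_r1 := Req.dec1 fun a : LName (Pc θ) =>
    {q : Pc θ | ∃ s : ℕ → Om κ → ℝ, (∀ n, MeasR θ (s n)) ∧ NoNew a s q}
  have h_r2 := Req.refl1 fun (a : LName (Pc θ)) (q : Pc θ) (w : LName (Pc θ)) =>
    ∃ s : ℕ → Om κ → ℝ, w = ckT _ s ∧ (∀ n, MeasR θ (s n)) ∧ NoNew a s q
  have h_n := Req.refl1 fun (a : LName (Pc θ)) (r : Pc θ) (w : LName (Pc θ)) =>
    ∃ t : κ × (ℕ → Om κ → ℝ), w = ckT _ t ∧ Nice a r t
  have h_p1 := req_hop (P := Pc θ) (fun t : κ × (ℕ → Om κ → ℝ) => t.1)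
  have h_p2 := req_hop (P := Pc θ) (fun t : κ × (ℕ → Om κ → ℝ) => t.2)
  have h_b1 := req_nalt fun (a : LName (Pc θ)) (t : (Om κ → Set ℕ) × κ) (F : Om κ → ℝ) =>
    {p : Pc θ | MeasR θ F ∧ InA a F p ∧ Fo θ p.val (FinJ t.1 t.2 F)}
  have h_b2 := req_nalt fun (a : LName (Pc θ)) (t : (Om κ → Set ℕ) × κ)
      (F : (Om κ → ℝ) × (Om κ → ℝ)) =>
    {p : Pc θ | MeasR θ F.1 ∧ MeasR θ F.2 ∧ InA a F.1 p ∧ InA a F.2 p ∧
      Fo θ p.val (IncJ t.1 t.2 F.1 F.2)}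
  have h_q1 := req_hop (P := Pc θ) (fun F : (Om κ → ℝ) × (Om κ → ℝ) => F.1)
  have h_q2 := req_hop (P := Pc θ) (fun F : (Om κ → ℝ) × (Om κ → ℝ) => F.2)
  refine (((((hbase.and hfo).and (htr.and hnul)).and ((h_nS.and h_lv).and (h_fn.and h_ct))).and
    (((h_uc.and h_sq).and (h_nQ.and h_es)).and ((h_ds.and h_c1).and (h_c2.and h_nT)))).and
    ((((h_ts.and h_vj).and (h_pJ.and h_fj)).and ((h_pF.and h_ij).and (h_r1.and h_r2))).and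
    (((h_n.and h_p1).and (h_p2.and h_b1)).and ((h_b2.and h_q1).and h_q2)))).mono ?_
  rintro X g0 g _ ⟨⟨⟨⟨⟨hbase, hfo⟩, ⟨htr, hnul⟩⟩, ⟨⟨h_nS, h_lv⟩, ⟨h_fn, h_ct⟩⟩⟩,
    ⟨⟨⟨h_uc, h_sq⟩, ⟨h_nQ, h_es⟩⟩, ⟨⟨h_ds, h_c1⟩, ⟨h_c2, h_nT⟩⟩⟩⟩,
    ⟨⟨⟨⟨h_ts, h_vj⟩, ⟨h_pJ, h_fj⟩⟩, ⟨⟨h_pF, h_ij⟩, ⟨h_r1, h_r2⟩⟩⟩,
    ⟨⟨⟨h_n, h_p1⟩, ⟨h_p2, h_b1⟩⟩, ⟨⟨h_b2, h_q1⟩, h_q2⟩⟩⟩⟩
  exact
    { base := hbase
      fo := hfo
      tr := htr
      nul := hnul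
      nS := h_nS
      lv := fun G hG n => h_lv n G hG
      fn := h_fn
      ct := h_ct
      uc := h_uc
      sq := fun s hs n => h_sq n s hs
      nQ := h_nQ
      es := fun F s hF hs => h_es F s hF hs
      ds := h_ds
      c1 := fun δ y hδ hy => h_c1 δ y hδ hy
      c2 := h_c2
      nT := h_nT
      ts := fun δ hδ i m m' => h_ts (i, m, m') δ hδ
      vj := fun J δ hJ hδ => h_vj J δ hJ hδ
      fj := fun J δ F hJ hδ hF => h_fj (J, δ) F (h_pJ J δ hJ hδ) hF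
      ij := fun J δ F F' hJ hδ hF hF' => h_ij (J, δ) (F, F') (h_pJ J δ hJ hδ) (h_pF F F' hF hF')
      rich := by
        intro a ha
        obtain ⟨q, hq, h | h⟩ := h_r1 a ha
        · left
          obtain ⟨s, h1, h2⟩ := h
          obtain ⟨w, hw, s', rfl, h3, h4⟩ := h_r2 a ha q hq ⟨_, s, rfl, h1, h2⟩
          exact ⟨q, hq, s', hw, h3, h4⟩
        · right
          exact ⟨q, hq, fun q' hq' s hs hn => h q' hq' ⟨s, hs, hn⟩⟩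
      nice := by
        rintro a ha r hr ⟨t, ht⟩
        obtain ⟨w, hw, t', rfl, h1⟩ := h_n a ha r hr ⟨_, t, rfl, ht⟩
        exact ⟨t'.1, t'.2, h_p1 t' hw, h_p2 t' hw, h1⟩
      b1 := by
        intro a ha J δ hJ hδ
        obtain ⟨p, hp, F, hF, h⟩ | ⟨p, hp, h⟩ := h_b1 a ha (J, δ) (h_pJ J δ hJ hδ)
        · exact Or.inl ⟨p, hp, F, hF, h⟩
        · exact Or.inr ⟨p, hp, fun q hq F h1 h2 h3 => h q hq F ⟨h1, h2, h3⟩⟩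
      b2 := by
        intro a ha J δ hJ hδ
        obtain ⟨p, hp, F, hF, h⟩ | ⟨p, hp, h⟩ := h_b2 a ha (J, δ) (h_pJ J δ hJ hδ)
        · exact Or.inl ⟨p, hp, F.1, F.2, h_q1 F hF, h_q2 F hF, h⟩
        · exact Or.inr ⟨p, hp, fun q hq F F' h1 h2 h3 h4 h5 => h q hq (F, F') ⟨h1, h2, h3, h4, h5⟩⟩ }

end Pool.Agent.FSI
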