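import Pool.Agent.FSI.T2

set_option autoImplicit false

/-! # The induction: `Hyp γ` for all `γ`

PROOFS.
* `exists_generic` (Rasiowa-Sikorski): given `Ae γ φ` with dense sets `D n` and `p ∈ Pset γ` choose
  `p = p 0`, `p (n + 1) ∈ D n`, `Le (p (n + 1)) (p n)`; `G` = all `q ∈ Pset γ` with `Le (p n) q` for some
  `n` is a filter (`trans_of`, `Le.refl`); the stems of the members of `G` at a fixed coordinate `ξ` are
  pairwise comparable (`Le` extends stems, directedness), so there is `ω` with `Ext G ω`: put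
  `ω ξ i = (q.st ξ)[i]` for any `q ∈ G` with `ξ ∈ q.supp` and `i < (q.st ξ).length` (choice), default
  otherwise.
* `ne_of`: if `body p ∈ Nul γ` combine `mem_Nul_iff` with `t1_of` for `p` and `exists_generic`.
* `dec_of`: let `C` be the set of all `A` such that for all `p ∈ Pset γ` there is `q ≤ p` with
  `body q \ A ∈ Nul γ ∨ body q ∩ A ∈ Nul γ`. Show that it contains the generators
  `{ω | ω ξ i = e}`, `ξ < γ`: by `exists_ext` take `q ≤ p` with `i < (q.st ξ).length`, `ξ ∈ q.supp`; then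
  `body q` is contained in the set or in its complement (`empty_mem_Nul`). Complements: clear.
  Countable unions `⋃ A n`: if some `q ≤ p` and some `n` have `body q \ A n ∈ Nul γ` we are done.
  Otherwise for every `n` the `q ≤ p` with `body q ∩ A n ∈ Nul γ` are dense below `p`; show
  `body p ∩ A n ∈ Nul γ` for each `n` (then `body p ∩ ⋃ A n` is null): as in `Hyp.not_fo`: let `C` be a
  maximal antichain (countable) of conditions `q ≤ p` with `body q ∩ A n ∈ Nul γ`; generically, if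
  `ω ∈ body p` then `p ∈ G` (`t2_of`), `G` contains some `c ∈ C`, `ω ∈ body c` (`t1_of`) and
  `ω ∉ body c ∩ A n`. Use `MeasurableSpace.generateFrom_induction`.
* `hyp`: well-founded induction (`WellFounded.induction` / `WellFoundedLT.induction`). -/

namespace Pool.Agent.FSI

variable {κ : Type} [LinearOrder κ] [WellFoundedLT κ] {γ : κ} {p : Cond κ}

theorem exists_generic (h : ∀ ξ < γ, Hyp ξ) {φ : Set (Cond κ) → Om κ → Prop} (hφ : Ae γ φ)
    (hp : p ∈ Pset γ) : ∃ G ω, Filt γ G ∧ p ∈ G ∧ Ext G ω ∧ φ G ω := by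
  classical
  obtain ⟨D, hD, hφ⟩ := hφ
  have step : ∀ (n : ℕ) (q : Cond κ), q ∈ Pset γ → ∃ r, r ∈ Pset γ ∧ r ∈ D n ∧ Le r q := by
    intro n q hq
    obtain ⟨r, hr, hle⟩ := (hD n).2 q hq
    exact ⟨r, (hD n).1 hr, hr, hle⟩
  choose! f hf1 hf2 hf3 using step
  obtain ⟨s, hs0, hs⟩ : ∃ s : ℕ → Cond κ, s 0 = p ∧ ∀ n, s (n + 1) = f n (s n) :=
    ⟨fun n => Nat.rec p (fun n q => f n q) n, rfl, fun n => rfl⟩
  have hsP : ∀ n, s n ∈ Pset γ := by
    intro n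
    induction n with
    | zero => rw [hs0]; exact hp
    | succ n ih => rw [hs n]; exact hf1 n _ ih
  have hsD : ∀ n, s (n + 1) ∈ D n := fun n => by rw [hs n]; exact hf2 n _ (hsP n)
  have hsL : ∀ n, Le (s (n + 1)) (s n) := fun n => by
    have := hf3 n _ (hsP n)
    rw [← hs n] at this
    exact this
  have hsM : ∀ m n, m ≤ n → Le (s n) (s m) := by
    intro m n hmn
    induction n, hmn using Nat.le_induction with
    | base => exact Le.refl _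
    | succ n _ ih => exact trans_of h (hsP _) (hsP _) (hsP _) (hsL n) ih
  let G : Set (Cond κ) := {q | q ∈ Pset γ ∧ ∃ n, Le (s n) q}
  have hG : Filt γ G := by
    refine ⟨fun q hq => hq.1, ⟨p, hp, 0, ?_⟩, ?_, ?_⟩
    · rw [hs0]; exact Le.refl p
    · rintro q ⟨hq, n, hn⟩ r hr hle
      exact ⟨hr, n, trans_of h (hsP n) hq hr hn hle⟩
    · rintro q ⟨hq, n, hn⟩ r ⟨hr, m, hm⟩
      refine ⟨s (max n m), ⟨hsP _, _, Le.refl _⟩, ?_, ?_⟩
      · exact trans_of h (hsP _) (hsP n) hq (hsM _ _ (le_max_left _ _)) hn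
      · exact trans_of h (hsP _) (hsP m) hr (hsM _ _ (le_max_right _ _)) hm
  have hGD : ∀ n, (G ∩ D n).Nonempty := fun n =>
    ⟨s (n + 1), ⟨hsP _, n + 1, Le.refl _⟩, hsD n⟩
  have hpre : ∀ m n, m ≤ n → ∀ ξ ∈ (s m).supp, (s m).st ξ <+: (s n).st ξ ∧ ξ ∈ (s n).supp :=
    fun m n hmn ξ hξ => ⟨((hsM m n hmn).2 ξ hξ).1, (hsM m n hmn).1 hξ⟩
  let ω : Om κ := fun ξ i =>
    if hx : ∃ n, ξ ∈ (s n).supp ∧ i < ((s n).st ξ).length then
      ((s (Nat.find hx)).st ξ)[i]'(Nat.find_spec hx).2 else ⟨0, ∅⟩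
  have hω : ∀ n ξ i, ξ ∈ (s n).supp → ∀ hi : i < ((s n).st ξ).length,
      ω ξ i = ((s n).st ξ)[i] := by
    intro n ξ i hξ hi
    have hx : ∃ n, ξ ∈ (s n).supp ∧ i < ((s n).st ξ).length := ⟨n, hξ, hi⟩
    have h1 : ω ξ i = ((s (Nat.find hx)).st ξ)[i]'(Nat.find_spec hx).2 := dif_pos hx
    rw [h1]
    have h2 := (hpre (Nat.find hx) n (Nat.find_min' hx ⟨hξ, hi⟩) ξ (Nat.find_spec hx).1).1
    exact h2.getElem _
  have hE : Ext G ω := by
    rintro q ⟨hq, n, hn⟩ ξ hξ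
    have h1 : ξ ∈ (s n).supp := hn.1 hξ
    have h2 : q.st ξ <+: (s n).st ξ := (hn.2 ξ hξ).1
    refine List.ext_getElem (by simp [ini]) ?_
    intro i h3 h4
    have h5 : i < ((s n).st ξ).length := lt_of_lt_of_le h4 h2.length_le
    rw [h2.getElem h4, ← hω n ξ i h1 h5]
    simp [ini]
  refine ⟨G, ω, hG, ⟨hp, 0, ?_⟩, hE, hφ G hG hGD ω hE⟩
  rw [hs0]
  exact Le.refl p

theorem ne_of (h : ∀ ξ < γ, Hyp ξ) (hp : p ∈ Pset γ) : body p ∉ Nul γ := by
  intro hn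
  obtain ⟨G, ω, _, hpG, _, h1, h2⟩ :=
    exists_generic h ((mem_Nul_iff.1 hn).and (t1_of h hp)) hp
  exact h1 (h2 hpG)

/-- If densely many conditions below `p` force `A` then `p` forces `A`. -/
theorem of_dense_of (h : ∀ ξ < γ, Hyp ξ) {A : Set (Om κ)} (hp : p ∈ Pset γ)
    (hA : ∀ q ∈ Pset γ, Le q p → ∃ r ∈ Pset γ, Le r q ∧ body r \ A ∈ Nul γ) :
    body p \ A ∈ Nul γ := by
  obtain ⟨C, hCD, hC, -, hmax⟩ := exists_max (γ := γ)
    (D := {q | q ∈ Pset γ ∧ Le q p ∧ body q \ A ∈ Nul γ}) fun q hq => hq.1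
  have hD : Den γ {r | r ∈ Pset γ ∧ ((∃ c ∈ C, Le r c) ∨ ¬ Compat γ r p)} := by
    refine ⟨fun r hr => hr.1, fun r hr => ?_⟩
    by_cases hc : Compat γ r p
    · obtain ⟨q, hq, hqr, hqp⟩ := hc
      obtain ⟨q', hq', h1, h2⟩ := hA q hq hqp
      obtain ⟨a, ha, t, ht, h3, h4⟩ := hmax q' ⟨hq', trans_of h hq' hq hp h1 hqp, h2⟩
      exact ⟨t, ⟨ht, Or.inl ⟨a, ha, h4⟩⟩,
        trans_of h ht hq hr (trans_of h ht hq' hq h3 h1) hqr⟩
    · exact ⟨r, ⟨hr, Or.inr hc⟩, Le.refl r⟩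
  have h1 : Ae γ fun G ω => ∀ c ∈ C, c ∈ G → ω ∈ body c :=
    Ae.ball (φ := fun c G ω => c ∈ G → ω ∈ body c) hC fun c hc => t1_of h (hCD hc).1
  have h2 : Ae γ fun _ ω => ∀ c ∈ C, ω ∉ body c \ A :=
    Ae.ball (φ := fun c _ ω => ω ∉ body c \ A) hC fun c hc => mem_Nul_iff.1 (hCD hc).2.2
  rw [mem_Nul_iff]
  refine ((((Ae.filt γ).and (Ae.dense hD)).and (h1.and h2)).and (t2_of h hp)).mono ?_
  rintro G ω ⟨⟨⟨⟨hG, _⟩, ⟨r, hrG, hr, hrD⟩⟩, h3, h4⟩, h5⟩ ⟨h6, h7⟩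
  have hpG : p ∈ G := h5 h6
  rcases hrD with ⟨c, hc, hrc⟩ | hrD
  · have hcG : c ∈ G := hG.up r hrG c (hCD hc).1 hrc
    exact h4 c hc ⟨h3 c hc hcG, h7⟩
  · obtain ⟨t, ht, h8, h9⟩ := hG.dir r hrG p hpG
    exact hrD ⟨t, hG.sub ht, h8, h9⟩

theorem dec_of (h : ∀ ξ < γ, Hyp ξ) {A : Set (Om κ)} (hA : Meas γ A) (hp : p ∈ Pset γ) :
    ∃ q ∈ Pset γ, Le q p ∧ (body q \ A ∈ Nul γ ∨ body q ∩ A ∈ Nul γ) := by
  suffices H : ∀ p ∈ Pset γ, ∃ q ∈ Pset γ, Le q p ∧ (body q \ A ∈ Nul γ ∨ body q ∩ A ∈ Nul γ) from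
    H p hp
  clear hp
  refine MeasurableSpace.generateFrom_induction
    (C := {A | ∃ ξ < γ, ∃ (i : ℕ) (e : E), A = {ω : Om κ | ω ξ i = e}})
    (p := fun A _ => ∀ p ∈ Pset γ, ∃ q ∈ Pset γ, Le q p ∧
      (body q \ A ∈ Nul γ ∨ body q ∩ A ∈ Nul γ)) ?_ ?_ ?_ ?_ A hA
  · rintro _ ⟨ξ, hξ, i, e, rfl⟩ - p hp
    obtain ⟨q, hq, hqp, h1, h2⟩ := exists_ext h hp hξ (i + 1)
    have key : ∀ ω ∈ body q, ω ξ i = (q.st ξ)[i] := by
      intro ω hω
      have h3 := (hω ξ h1).1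
      have h4 : (ini (ω ξ) (q.st ξ).length)[i]? = (q.st ξ)[i]? := by rw [h3]
      rw [List.getElem?_eq_getElem h2, List.getElem?_eq_getElem (by simpa [ini] using h2)] at h4
      simpa [ini] using h4
    refine ⟨q, hq, hqp, ?_⟩
    by_cases he : (q.st ξ)[i] = e
    · left
      refine Nul.subset (empty_mem_Nul γ) ?_
      rintro ω ⟨hω, hn⟩
      exact hn ((key ω hω).trans he)
    · right
      refine Nul.subset (empty_mem_Nul γ) ?_
      rintro ω ⟨hω, hn⟩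
      exact he ((key ω hω).symm.trans hn)
  · intro p hp
    refine ⟨p, hp, Le.refl p, Or.inr ?_⟩
    rw [Set.inter_empty]
    exact empty_mem_Nul γ
  · intro A _ ih p hp
    obtain ⟨q, hq, hqp, h1⟩ := ih p hp
    refine ⟨q, hq, hqp, ?_⟩
    rcases h1 with h1 | h1
    · right
      exact Nul.subset h1 fun ω hω => ⟨hω.1, hω.2⟩
    · left
      exact Nul.subset h1 fun ω hω => ⟨hω.1, not_not.1 hω.2⟩
  · intro f _ ih p hp
    by_cases hc : ∃ n, ∃ q ∈ Pset γ, Le q p ∧ body q \ f n ∈ Nul γ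
    · obtain ⟨n, q, hq, hqp, h1⟩ := hc
      refine ⟨q, hq, hqp, Or.inl (Nul.subset h1 fun ω hω => ⟨hω.1, fun h2 => hω.2 ?_⟩)⟩
      exact Set.mem_iUnion.2 ⟨n, h2⟩
    · push Not at hc
      refine ⟨p, hp, Le.refl p, Or.inr ?_⟩
      have h1 : ∀ n, body p \ (f n)ᶜ ∈ Nul γ := by
        intro n
        refine of_dense_of h hp fun q hq hqp => ?_
        obtain ⟨r, hr, hrq, h2⟩ := ih n q hq
        rcases h2 with h2 | h2
        · exact absurd h2 (hc n r hr (trans_of h hr hq hp hrq hqp))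
        · exact ⟨r, hr, hrq, Nul.subset h2 fun ω hω => ⟨hω.1, not_not.1 hω.2⟩⟩
      refine Nul.subset (Nul.iUnion h1) ?_
      rintro ω ⟨h2, h3⟩
      obtain ⟨n, hn⟩ := Set.mem_iUnion.1 h3
      exact Set.mem_iUnion.2 ⟨n, h2, fun h4 => h4 hn⟩

theorem hyp (γ : κ) : Hyp γ := by
  induction γ using WellFoundedLT.induction with
  | ind γ h =>
    exact ⟨fun p hp q hq r hr => trans_of h hp hq hr, fun q hq => t1_of h hq,
      fun q hq => t2_of h hq, fun A hA p hp => dec_of h hA hp, fun p hp => ne_of h hp⟩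

end Pool.Agent.FSI
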