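import Pool.Agent.FSI.Big
import Pool.Agent.FSI.Br

set_option autoImplicit false

/-! # Measurable sets of points

PROOFS. All closure properties are those of the `σ`-algebra `B γ` (unfold `Meas`).
`Meas.mono`: `MeasurableSpace.generateFrom_mono` (or `generateFrom_le`). `meas_coord`:
`MeasurableSpace.measurableSet_generateFrom`. `meas_ini`: `{ω | ini (ω ξ) n = t}` is empty if
`t.length ≠ n` and otherwise a finite intersection of the sets `{ω | ω ξ i = t[i]}`. `meas_path`: if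
`s <+: t` it is the finite intersection over `i < t.length`, `s.length ≤ i` of
`{ω | t[i] ∈ φ ω (t.take i)}`. `meas_br`: `ω ξ i ∈ φ ω (ini (ω ξ) i)` is the countable union over
`(t, e)` of `{ini (ω ξ) i = t} ∩ {ω ξ i = e} ∩ {e ∈ φ ω t}`. `meas_big`: `Big (S ω)` is
`∀ m, ∃ K, ∀ k ≥ K, m * cnt k (S ω)ᶜ ≤ 2 ^ (2 ^ k)`, and `{ω | cnt k (S ω) = j}` is measurable, because
it is the union over the finsets `T` of `Finset (Fin (2 ^ k))` with `j` elements of
`⋂ W, {ω | ⟨k, W⟩ ∈ S ω ↔ W ∈ T}` (`meas_cnt`). -/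

namespace Pool.Agent.FSI

variable {κ : Type} [LinearOrder κ] {γ ξ : κ} {A A' : Set (Om κ)}

theorem Meas.mono (h : ξ ≤ γ) (hA : Meas ξ A) : Meas γ A := by
  have h1 : B (κ := κ) ξ ≤ B γ := MeasurableSpace.generateFrom_mono (by
    rintro A ⟨η, hη, i, e, rfl⟩
    exact ⟨η, hη.trans_le h, i, e, rfl⟩)
  exact h1 _ hA

theorem Meas.compl (hA : Meas γ A) : Meas γ Aᶜ :=
  @MeasurableSet.compl (Om κ) _ (B γ) hA

theorem Meas.inter (hA : Meas γ A) (hA' : Meas γ A') : Meas γ (A ∩ A') :=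
  @MeasurableSet.inter (Om κ) (B γ) _ _ hA hA'

theorem Meas.union (hA : Meas γ A) (hA' : Meas γ A') : Meas γ (A ∪ A') :=
  @MeasurableSet.union (Om κ) (B γ) _ _ hA hA'

theorem Meas.diff (hA : Meas γ A) (hA' : Meas γ A') : Meas γ (A \ A') :=
  @MeasurableSet.diff (Om κ) (B γ) _ _ hA hA'

theorem Meas.iUnion {ι : Type} [Countable ι] {f : ι → Set (Om κ)} (h : ∀ i, Meas γ (f i)) :
    Meas γ (⋃ i, f i) :=
  @MeasurableSet.iUnion (Om κ) ι (B γ) _ _ h

theorem Meas.iInter {ι : Type} [Countable ι] {f : ι → Set (Om κ)} (h : ∀ i, Meas γ (f i)) :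
    Meas γ (⋂ i, f i) :=
  @MeasurableSet.iInter (Om κ) ι (B γ) _ _ h

theorem Meas.biUnion {ι : Type} {S : Set ι} (hS : S.Countable) {f : ι → Set (Om κ)}
    (h : ∀ i ∈ S, Meas γ (f i)) : Meas γ (⋃ i ∈ S, f i) :=
  @MeasurableSet.biUnion (Om κ) ι (B γ) f S hS h

theorem meas_univ : Meas γ (Set.univ : Set (Om κ)) :=
  @MeasurableSet.univ (Om κ) (B γ)

theorem meas_empty : Meas γ (∅ : Set (Om κ)) :=
  @MeasurableSet.empty (Om κ) (B γ)

/-- a set defined by a proposition which does not depend on the point -/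
theorem meas_const (P : Prop) : Meas γ {_ω : Om κ | P} := by
  by_cases h : P
  · have : {_ω : Om κ | P} = Set.univ := by ext; simp [h]
    rw [this]; exact meas_univ
  · have : {_ω : Om κ | P} = ∅ := by ext; simp [h]
    rw [this]; exact meas_empty

theorem Meas.and {P Q : Om κ → Prop} (h : Meas γ {ω | P ω}) (h' : Meas γ {ω | Q ω}) :
    Meas γ {ω | P ω ∧ Q ω} :=
  Meas.inter h h'

theorem Meas.or {P Q : Om κ → Prop} (h : Meas γ {ω | P ω}) (h' : Meas γ {ω | Q ω}) :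
    Meas γ {ω | P ω ∨ Q ω} :=
  Meas.union h h'

theorem Meas.not {P : Om κ → Prop} (h : Meas γ {ω | P ω}) : Meas γ {ω | ¬ P ω} :=
  Meas.compl h

theorem Meas.imp {P Q : Om κ → Prop} (h : Meas γ {ω | P ω}) (h' : Meas γ {ω | Q ω}) :
    Meas γ {ω | P ω → Q ω} := by
  have e : {ω | P ω → Q ω} = {ω | ¬ P ω ∨ Q ω} := by
    ext ω
    exact imp_iff_not_or
  rw [e]
  exact Meas.or (Meas.not h) h'

theorem Meas.all {ι : Type} [Countable ι] {P : ι → Om κ → Prop} (h : ∀ i, Meas γ {ω | P i ω}) :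
    Meas γ {ω | ∀ i, P i ω} := by
  have e : {ω | ∀ i, P i ω} = ⋂ i, {ω | P i ω} := by
    ext ω
    simp
  rw [e]
  exact Meas.iInter h

theorem Meas.ex {ι : Type} [Countable ι] {P : ι → Om κ → Prop} (h : ∀ i, Meas γ {ω | P i ω}) :
    Meas γ {ω | ∃ i, P i ω} := by
  have e : {ω | ∃ i, P i ω} = ⋃ i, {ω | P i ω} := by
    ext ω
    simp
  rw [e]
  exact Meas.iUnion h

private theorem ms_allProp {P : Prop} {Q : P → Om κ → Prop} (h : ∀ hp, Meas γ {ω | Q hp ω}) :
    Meas γ {ω | ∀ hp, Q hp ω} := by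
  by_cases hP : P
  · have e : {ω | ∀ hp, Q hp ω} = {ω | Q hP ω} := by
      ext ω
      exact ⟨fun h => h hP, fun h _ => h⟩
    rw [e]
    exact h hP
  · have e : {ω | ∀ hp, Q hp ω} = Set.univ := by
      ext ω
      exact ⟨fun _ => trivial, fun _ hp => absurd hp hP⟩
    rw [e]
    exact meas_univ

theorem meas_coord (h : ξ < γ) (i : ℕ) (e : E) : Meas γ {ω : Om κ | ω ξ i = e} :=
  MeasurableSpace.measurableSet_generateFrom ⟨ξ, h, i, e, rfl⟩

theorem meas_ini (h : ξ < γ) (n : ℕ) (t : List E) : Meas γ {ω : Om κ | ini (ω ξ) n = t} := by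
  by_cases hn : n = t.length
  · subst hn
    simp only [ini_eq_iff]
    exact Meas.all fun i => ms_allProp fun hi => meas_coord h i _
  · have e : {ω : Om κ | ini (ω ξ) n = t} = ∅ := by
      ext ω
      constructor
      · intro h1
        exact absurd (by rw [← (h1 : ini (ω ξ) n = t), ini_length]) hn
      · intro h1
        exact absurd h1 (Set.notMem_empty _)
    rw [e]
    exact meas_empty

theorem meas_path {φ : Om κ → List E → Set E} (h : ∀ t e, Meas γ {ω | e ∈ φ ω t})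
    (s t : List E) : Meas γ {ω | Path (φ ω) s t} :=
  Meas.and (meas_const _)
    (Meas.all fun _ => ms_allProp fun _ => Meas.imp (meas_const _) (h _ _))

theorem meas_br (hξ : ξ < γ) {φ : Om κ → List E → Set E} (h : ∀ t e, Meas ξ {ω | e ∈ φ ω t})
    (s : List E) : Meas γ {ω | Br s (φ ω) (ω ξ)} := by
  refine Meas.and (meas_ini hξ _ _) (Meas.all fun i => Meas.imp (meas_const _) ?_)
  have e : {ω : Om κ | ω ξ i ∈ φ ω (ini (ω ξ) i)} =
      {ω | ∃ (t : List E) (e : E), ini (ω ξ) i = t ∧ ω ξ i = e ∧ e ∈ φ ω t} := by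
    ext ω
    constructor
    · intro h1
      exact ⟨_, _, rfl, rfl, h1⟩
    · rintro ⟨t, e, h1, h2, h3⟩
      show ω ξ i ∈ φ ω (ini (ω ξ) i)
      rw [h1, h2]
      exact h3
  rw [e]
  exact Meas.ex fun t => Meas.ex fun e => Meas.and (meas_ini hξ _ _)
    (Meas.and (meas_coord hξ _ _) (Meas.mono hξ.le (h t e)))

theorem meas_cnt {S : Om κ → Set E} (h : ∀ e, Meas γ {ω | e ∈ S ω}) (k j : ℕ) :
    Meas γ {ω | cnt k (S ω) = j} := by
  classical
  have e : {ω | cnt k (S ω) = j} = {ω | ∃ T : Finset (Finset (Fin (2 ^ k))), T.card = j ∧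
      ∀ W : Finset (Fin (2 ^ k)), (((⟨k, W⟩ : E) ∈ S ω → W ∈ T) ∧ (W ∈ T → (⟨k, W⟩ : E) ∈ S ω))} := by
    ext ω
    constructor
    · intro h1
      refine ⟨Finset.univ.filter fun W => (⟨k, W⟩ : E) ∈ S ω, ?_, fun W => ⟨fun h2 => ?_, fun h2 => ?_⟩⟩
      · rw [← (h1 : cnt k (S ω) = j), cnt]
      · exact Finset.mem_filter.2 ⟨Finset.mem_univ _, h2⟩
      · exact (Finset.mem_filter.1 h2).2
    · rintro ⟨T, hT, h2⟩
      show cnt k (S ω) = j
      rw [← hT, cnt]
      congr 1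
      ext W
      constructor
      · intro h3
        exact (h2 W).1 (Finset.mem_filter.1 h3).2
      · intro h3
        exact Finset.mem_filter.2 ⟨Finset.mem_univ _, (h2 W).2 h3⟩
  rw [e]
  exact Meas.ex fun T => Meas.and (meas_const _) (Meas.all fun W =>
    Meas.and (Meas.imp (h _) (meas_const _)) (Meas.imp (meas_const _) (h _)))

private theorem ms_cntProp {S : Om κ → Set E} (h : ∀ e, Meas γ {ω | e ∈ S ω}) (k : ℕ)
    (P : ℕ → Prop) : Meas γ {ω | P (cnt k (S ω))} := by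
  have e : {ω | P (cnt k (S ω))} = {ω | ∃ j, cnt k (S ω) = j ∧ P j} := by
    ext ω
    constructor
    · intro h1
      exact ⟨_, rfl, h1⟩
    · rintro ⟨j, h1, h2⟩
      show P (cnt k (S ω))
      rw [h1]
      exact h2
  rw [e]
  exact Meas.ex fun j => Meas.and (meas_cnt h k j) (meas_const _)

theorem meas_big {S : Om κ → Set E} (h : ∀ e, Meas γ {ω | e ∈ S ω}) :
    Meas γ {ω | Big (S ω)} := by
  have h' : ∀ e, Meas γ {ω | e ∈ (S ω)ᶜ} := fun e => Meas.not (h e)
  exact Meas.all fun m => Meas.ex fun K => Meas.all fun k => Meas.imp (meas_const _)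
    (ms_cntProp h' k fun j => m * j ≤ 2 ^ (2 ^ k))

theorem meas_pos {S : Om κ → Set E} (h : ∀ e, Meas γ {ω | e ∈ S ω}) :
    Meas γ {ω | Pos (S ω)} :=
  Meas.ex fun m => Meas.all fun _ => Meas.ex fun k => Meas.and (meas_const _)
    (ms_cntProp h k fun j => 2 ^ (2 ^ k) < m * j)

/-- bodies are measurable -/
theorem meas_body {p : Cond κ} (hp : p ∈ Pset γ) : Meas γ (body p) := by
  have e : body p = {ω | ∀ ξ : {ξ // ξ ∈ p.supp}, Br (p.st ξ) (p.nm ξ ω) (ω ξ)} := by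
    ext ω
    constructor
    · intro h ξ
      exact h ξ.1 ξ.2
    · intro h ξ hξ
      exact h ⟨ξ, hξ⟩
  rw [e]
  exact Meas.all fun ξ => meas_br (hp ξ.1 ξ.2) (p.meas ξ.1 ξ.2) _

/-- the points where the path from `q.st γ` to `t` is allowed by `q` -/
theorem meas_path_nm {q : Cond κ} (h : γ ∈ q.supp) (t : List E) :
    Meas γ {ω | Path (q.nm γ ω) (q.st γ) t} :=
  meas_path (q.meas γ h) _ _

end Pool.Agent.FSI
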