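import Pool.Agent.FSI.Ms

set_option autoImplicit false

/-! # Operations on conditions

`triv` trivial condition, `glue γ d r` = `d` below `γ` and `r` from `γ` on, `meet p q` = union of the
supports, stems of `p` where defined, intersection of the promises, `upd p γ s φ` = change at the
coordinate `γ`. All facts are about supports, stems, promises and bodies; the order comes in
`Order.lean`.

PROOFS: unfold and case distinctions. `body_restr_glue`: for `δ ≤ γ` the conditions
`restr (glue γ d r) δ` and `restr d δ` have the same support, and the same stems and promises on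
it. `body_glue_subset`: if `d ∈ Pset γ` then `d.supp` is contained in the support of the glue. -/

namespace Pool.Agent.FSI

variable {κ : Type} [LinearOrder κ]

/-- The trivial condition. -/
def triv : Cond κ where
  supp := ∅
  st := fun _ => []
  nm := fun _ _ _ => Set.univ
  meas := by simp
  big := by simp

/-- `d` below `γ`, `r` from `γ` on. -/
def glue (γ : κ) (d r : Cond κ) : Cond κ where
  supp := d.supp.filter (· < γ) ∪ r.supp.filter (fun ξ => ¬ ξ < γ)
  st := fun ξ => if ξ < γ then d.st ξ else r.st ξ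
  nm := fun ξ => if ξ < γ then d.nm ξ else r.nm ξ
  meas := by
    intro ξ h t e
    rw [Finset.mem_union, Finset.mem_filter, Finset.mem_filter] at h
    by_cases hξ : ξ < γ
    · simp only [if_pos hξ]
      exact d.meas ξ (by tauto) t e
    · simp only [if_neg hξ]
      exact r.meas ξ (by tauto) t e
  big := by
    intro ξ h ω t
    rw [Finset.mem_union, Finset.mem_filter, Finset.mem_filter] at h
    by_cases hξ : ξ < γ
    · simp only [if_pos hξ]
      exact d.big ξ (by tauto) ω t
    · simp only [if_neg hξ]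
      exact r.big ξ (by tauto) ω t

/-- Union of two conditions: stems of `p` if defined, intersection of the promises. -/
def meet (p q : Cond κ) : Cond κ where
  supp := p.supp ∪ q.supp
  st := fun ξ => if ξ ∈ p.supp then p.st ξ else q.st ξ
  nm := fun ξ ω t => {e | (ξ ∈ p.supp → e ∈ p.nm ξ ω t) ∧ (ξ ∈ q.supp → e ∈ q.nm ξ ω t)}
  meas := by
    intro ξ h t e
    refine Meas.and ?_ ?_
    · by_cases hp : ξ ∈ p.supp
      · simpa only [hp, true_imp_iff] using p.meas ξ hp t e
      · simpa only [hp, false_imp_iff] using meas_const _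
    · by_cases hq : ξ ∈ q.supp
      · simpa only [hq, true_imp_iff] using q.meas ξ hq t e
      · simpa only [hq, false_imp_iff] using meas_const _
  big := by
    intro ξ h ω t
    have h1 : Big {e | ξ ∈ p.supp → e ∈ p.nm ξ ω t} := by
      by_cases hp : ξ ∈ p.supp
      · exact (p.big ξ hp ω t).mono fun e he _ => he
      · exact big_univ.mono fun e _ h => absurd h hp
    have h2 : Big {e | ξ ∈ q.supp → e ∈ q.nm ξ ω t} := by
      by_cases hq : ξ ∈ q.supp
      · exact (q.big ξ hq ω t).mono fun e he _ => he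
      · exact big_univ.mono fun e _ h => absurd h hq
    exact h1.inter h2

/-- Change at the coordinate `γ`. -/
def upd (p : Cond κ) (γ : κ) (s : List E) (φ : Om κ → List E → Set E)
    (hm : ∀ t e, Meas γ {ω | e ∈ φ ω t}) (hb : ∀ ω t, Big (φ ω t)) : Cond κ where
  supp := insert γ p.supp
  st := fun ξ => if ξ = γ then s else p.st ξ
  nm := fun ξ => if ξ = γ then φ else p.nm ξ
  meas := by
    intro ξ h t e
    by_cases hξ : ξ = γ
    · subst hξ
      simpa only [if_true] using hm t e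
    · simp only [if_neg hξ]
      exact p.meas ξ (Finset.mem_of_mem_insert_of_ne h hξ) t e
  big := by
    intro ξ h ω t
    by_cases hξ : ξ = γ
    · subst hξ
      simpa only [if_true] using hb ω t
    · simp only [if_neg hξ]
      exact p.big ξ (Finset.mem_of_mem_insert_of_ne h hξ) ω t

variable {γ δ ξ : κ} {p q d r : Cond κ} {s : List E} {φ : Om κ → List E → Set E}
  {hm : ∀ t e, Meas γ {ω | e ∈ φ ω t}} {hb : ∀ ω t, Big (φ ω t)}

theorem triv_mem : (triv : Cond κ) ∈ Pset γ := by
  intro ξ h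
  exact absurd h (Finset.notMem_empty ξ)

theorem body_triv : body (triv : Cond κ) = Set.univ := by
  ext ω
  constructor
  · intro _
    trivial
  · intro _ ξ h
    exact absurd h (Finset.notMem_empty ξ)

theorem mem_restr_supp : ξ ∈ (restr p γ).supp ↔ ξ ∈ p.supp ∧ ξ < γ := Finset.mem_filter

theorem restr_mem : restr p γ ∈ Pset γ := fun _ h => (mem_restr_supp.1 h).2

theorem Pset_mono (h : δ ≤ γ) : (Pset δ : Set (Cond κ)) ⊆ Pset γ := fun _ hp ξ hξ =>
  (hp ξ hξ).trans_le h

private theorem Ops_ext {p q : Cond κ} (h : p.supp = q.supp) (h1 : p.st = q.st)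
    (h2 : p.nm = q.nm) : p = q := by
  cases p
  cases q
  cases h
  cases h1
  cases h2
  rfl

theorem restr_restr (h : δ ≤ γ) : restr (restr p γ) δ = restr p δ := by
  refine Ops_ext ?_ rfl rfl
  ext ξ
  rw [mem_restr_supp, mem_restr_supp, mem_restr_supp]
  constructor
  · rintro ⟨⟨h1, _⟩, h2⟩
    exact ⟨h1, h2⟩
  · rintro ⟨h1, h2⟩
    exact ⟨⟨h1, h2.trans_le h⟩, h2⟩

theorem restr_eq (h : p ∈ Pset γ) : restr p γ = p := by
  refine Ops_ext ?_ rfl rfl
  ext ξ
  rw [mem_restr_supp]
  exact ⟨fun h1 => h1.1, fun h1 => ⟨h1, h ξ h1⟩⟩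

/-- bodies depend only on stems and promises in the support -/
theorem body_congr (h : p.supp = q.supp) (h1 : ∀ ξ ∈ p.supp, p.st ξ = q.st ξ)
    (h2 : ∀ ξ ∈ p.supp, p.nm ξ = q.nm ξ) : body p = body q := by
  ext ω
  constructor
  · intro hω ξ hξ
    rw [← h] at hξ
    rw [← h1 ξ hξ, ← h2 ξ hξ]
    exact hω ξ hξ
  · intro hω ξ hξ
    rw [h1 ξ hξ, h2 ξ hξ]
    rw [h] at hξ
    exact hω ξ hξ

theorem body_subset_restr : body p ⊆ body (restr p γ) :=
  fun _ hω ξ hξ => hω ξ (mem_restr_supp.1 hξ).1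

theorem mem_glue_supp : ξ ∈ (glue γ d r).supp ↔ (ξ < γ ∧ ξ ∈ d.supp) ∨ (¬ ξ < γ ∧ ξ ∈ r.supp) := by
  show ξ ∈ d.supp.filter (· < γ) ∪ r.supp.filter (fun ξ => ¬ ξ < γ) ↔ _
  rw [Finset.mem_union, Finset.mem_filter, Finset.mem_filter]
  tauto

theorem glue_mem (h : γ ≤ δ) (hr : r ∈ Pset δ) : glue γ d r ∈ Pset δ := by
  intro ξ hξ
  rcases mem_glue_supp.1 hξ with h1 | h1
  · exact h1.1.trans_le h
  · exact hr ξ h1.2

theorem body_restr_glue (h : δ ≤ γ) : body (restr (glue γ d r) δ) = body (restr d δ) := by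
  refine body_congr ?_ ?_ ?_
  · ext ξ
    rw [mem_restr_supp, mem_restr_supp, mem_glue_supp]
    constructor
    · rintro ⟨h1 | h1, h2⟩
      · exact ⟨h1.2, h2⟩
      · exact absurd (h2.trans_le h) h1.1
    · rintro ⟨h1, h2⟩
      exact ⟨Or.inl ⟨h2.trans_le h, h1⟩, h2⟩
  · intro ξ hξ
    have h1 : ξ < γ := (mem_restr_supp.1 hξ).2.trans_le h
    show (if ξ < γ then d.st ξ else r.st ξ) = d.st ξ
    rw [if_pos h1]
  · intro ξ hξ
    have h1 : ξ < γ := (mem_restr_supp.1 hξ).2.trans_le h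
    show (if ξ < γ then d.nm ξ else r.nm ξ) = d.nm ξ
    rw [if_pos h1]

theorem body_glue_subset (hd : d ∈ Pset γ) : body (glue γ d r) ⊆ body d := by
  intro ω hω ξ hξ
  have h1 : ξ < γ := hd ξ hξ
  have h2 := hω ξ (mem_glue_supp.2 (Or.inl ⟨h1, hξ⟩))
  have e1 : (glue γ d r).st ξ = d.st ξ := if_pos h1
  have e2 : (glue γ d r).nm ξ = d.nm ξ := if_pos h1
  rw [e1, e2] at h2
  exact h2

theorem mem_meet_supp : ξ ∈ (meet p q).supp ↔ ξ ∈ p.supp ∨ ξ ∈ q.supp := Finset.mem_union

theorem meet_mem (hp : p ∈ Pset γ) (hq : q ∈ Pset γ) : meet p q ∈ Pset γ := by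
  intro ξ hξ
  rcases mem_meet_supp.1 hξ with h | h
  · exact hp ξ h
  · exact hq ξ h

theorem body_restr_upd (h : δ ≤ γ) : body (restr (upd p γ s φ hm hb) δ) = body (restr p δ) := by
  refine body_congr ?_ ?_ ?_
  · ext ξ
    rw [mem_restr_supp, mem_restr_supp]
    show ξ ∈ insert γ p.supp ∧ ξ < δ ↔ _
    rw [Finset.mem_insert]
    constructor
    · rintro ⟨h1 | h1, h2⟩
      · rw [h1] at h2
        exact absurd h2 (not_lt.2 h)
      · exact ⟨h1, h2⟩
    · rintro ⟨h1, h2⟩
      exact ⟨Or.inr h1, h2⟩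
  · intro ξ hξ
    have h1 : ξ ≠ γ := ((mem_restr_supp.1 hξ).2.trans_le h).ne
    show (if ξ = γ then s else p.st ξ) = p.st ξ
    rw [if_neg h1]
  · intro ξ hξ
    have h1 : ξ ≠ γ := ((mem_restr_supp.1 hξ).2.trans_le h).ne
    show (if ξ = γ then φ else p.nm ξ) = p.nm ξ
    rw [if_neg h1]

theorem upd_mem (h : γ < δ) (hp : p ∈ Pset δ) : upd p γ s φ hm hb ∈ Pset δ := by
  intro ξ hξ
  rcases Finset.mem_insert.1 hξ with h1 | h1
  · rw [h1]
    exact h
  · exact hp ξ h1

/-- `ω` is in the body of `p` iff it is in the body of the restriction and a branch at all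
coordinates of the support from `γ` on -/
theorem mem_body_iff {ω : Om κ} : ω ∈ body p ↔ ω ∈ body (restr p γ) ∧
    ∀ ξ ∈ p.supp, ¬ ξ < γ → Br (p.st ξ) (p.nm ξ ω) (ω ξ) := by
  constructor
  · intro h
    exact ⟨body_subset_restr h, fun ξ hξ _ => h ξ hξ⟩
  · rintro ⟨h1, h2⟩ ξ hξ
    by_cases h : ξ < γ
    · exact h1 ξ (mem_restr_supp.2 ⟨hξ, h⟩)
    · exact h2 ξ hξ h

end Pool.Agent.FSI
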