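import Pool.Agent.FSI.SepR
import Pool.Agent.FSI.Cheb
import Pool.Agent.FSI.AvgBig

set_option autoImplicit false

/-! # The own step at a point

PROOFS. `N = F.card`, `T = t.length`, `old = decO t`.
* `own_one`: let `e = ⟨k, W⟩`, `k` so large that the `x z` are separated (`exists_sep`), `l` a
  sub-probability with support in `decO (t ++ [e])`. For `i ∈ l.support ∩ old`: `i ∈ bO (t ++ [e]) (x z)`
  iff `i ∈ b0` (`bO_snoc_old`, `h0`). For `i ∈ l.support \ old`: `(idx i).1 = T` and `(idx i).2` is valid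
  (`decO_snoc`), so of at most `T` elements, and `i ∈ bO (t ++ [e]) (x z)` iff
  `(x z ∈ UU e (idx i).2 ↔ σ)` (`bO_snoc_new`). Exchange of sums (all sums over `l.support`):
  `∑ z ∈ F, V (bO (t ++ [e]) (x z)) l = N * V b0 (res old l) + ∑ i ∈ l.support \ old, l i * (c_i - N / 4)`
  where `c_i` = the number of the `z ∈ F` with `i ∈ bO (t ++ [e]) (x z)`. [Write `V b l = 1 / 4 +
  ∑ i, l i * (1_b i - 1 / 4)`.] If `W` is balanced then `c_i ≥ N / 4` by `card_new`, so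
  `N * V b0 (res old l) ≤ ∑ z ∈ F, V (bO (t ++ [e]) (x z)) l`. In any case `c_i ≥ 0`, so
  `N * V b0 (res old l) ≤ ∑ z ∈ F, V (..) l + N / 4`.
* `ownPW`: let `k1` be large enough for `exists_sep` and for `avg_big` (applied to `φ z`, `m`, `η` for
  each `z ∈ F`). For `k ≥ k1` with `2 ^ (2 ^ k) < m * cnt k D`; `Dk = lev k D`, `K = Dk.card = cnt k D > 0`.
  The number `U` of the unbalanced `W` (`cheb` with `c z = cz k ⌊2 ^ k * x z⌋`, injective by `cz_ne`,
  `Fintype.card (Fin (2 ^ k)) = 2 ^ k`) satisfies `U * N ≤ 16 * 2 ^ (2 ^ k) < 16 * m * K`.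
  `N * V b0 (avg ..) = (1 / K) ∑ W, N * V b0 (res old (f e))` (`V_avg`)
  `≤ (1 / K) ∑ W, ∑ z, V (..) (f e) + (1 / K) * U * N / 4 ≤ N * (r + η) + 4 * m`, where the first part is
  `∑ z` of the averages, each `≤ r + η` by `avg_big`, and `(1 / K) * U * N / 4 ≤ 16 * m / 4 = 4 * m`.
  Divide by `N` and use `4 * m ≤ η * N`. -/

namespace Pool.Agent.FSI

open Classical in
private theorem own_V (b : Set ℕ) (l : ℕ →₀ ℚ) :
    V b l = ∑ i ∈ l.support, ((if i ∈ b then l i else 0) - l i / 4) + 1 / 4 := by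
  unfold V
  rw [mass_eq_sum l.support (Finset.Subset.refl _), mass_eq_sum (b := Set.univ) l.support
    (Finset.Subset.refl _), Finset.sum_sub_distrib, ← Finset.sum_div]
  simp only [Set.mem_univ, if_true]
  ring

open Classical in
private theorem own_Vres (b d : Set ℕ) (l : ℕ →₀ ℚ) :
    V b (res d l) = ∑ i ∈ l.support, ((if i ∈ b ∧ i ∈ d then l i else 0) -
      (if i ∈ d then l i else 0) / 4) + 1 / 4 := by
  unfold V
  rw [mass_res, mass_res, mass_eq_sum l.support (Finset.Subset.refl _),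
    mass_eq_sum (b := Set.univ ∩ d) l.support
    (Finset.Subset.refl _), Finset.sum_sub_distrib, ← Finset.sum_div]
  simp only [Set.mem_univ, Set.mem_inter_iff, true_and]
  ring

open Classical in
private theorem own_sum {ι : Type*} (F : Finset ι) (b : ι → Set ℕ) (l : ℕ →₀ ℚ) :
    ∑ z ∈ F, V (b z) l =
      ∑ i ∈ l.support, (l i * (F.filter fun z => i ∈ b z).card - F.card * (l i / 4)) +
        (F.card : ℚ) / 4 := by
  simp only [own_V]
  rw [Finset.sum_add_distrib, Finset.sum_comm, Finset.sum_const, nsmul_eq_mul]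
  congr 1
  · refine Finset.sum_congr rfl fun i _ => ?_
    rw [Finset.sum_sub_distrib, Finset.sum_const, nsmul_eq_mul, ← Finset.sum_filter,
      Finset.sum_const, nsmul_eq_mul]
    ring
  · ring

open Classical in
private theorem own_old {ι : Type*} (F : Finset ι) (b : ι → Set ℕ) (b0 d : Set ℕ) (l : ℕ →₀ ℚ)
    (i : ℕ) (h : ∀ z ∈ F, (i ∈ b z ↔ i ∈ b0)) (hi : i ∈ d) :
    l i * (F.filter fun z => i ∈ b z).card - F.card * (l i / 4) = (F.card : ℚ) *
      ((if i ∈ b0 ∧ i ∈ d then l i else 0) - (if i ∈ d then l i else 0) / 4) := by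
  by_cases hb : i ∈ b0
  · rw [Finset.filter_true_of_mem fun z hz => (h z hz).2 hb, if_pos ⟨hb, hi⟩, if_pos hi]
    ring
  · rw [Finset.filter_false_of_mem fun z hz h' => hb ((h z hz).1 h'), if_neg fun h' => hb h'.1,
      if_pos hi, Finset.card_empty]
    push_cast
    ring

open Classical in
private theorem own_abs {ι : Type*} (F : Finset ι) (b : ι → Set ℕ) (b0 d : Set ℕ) {l : ℕ →₀ ℚ}
    (hl : IsSub l) (h : ∀ z ∈ F, ∀ i ∈ d, (i ∈ b z ↔ i ∈ b0)) :
    ((∀ i ∈ l.support, i ∉ d → F.card ≤ 4 * (F.filter fun z => i ∈ b z).card) →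
      (F.card : ℚ) * V b0 (res d l) ≤ ∑ z ∈ F, V (b z) l) ∧
    (F.card : ℚ) * V b0 (res d l) ≤ ∑ z ∈ F, V (b z) l + (F.card : ℚ) / 4 := by
  have hN0 : (0 : ℚ) ≤ F.card := Nat.cast_nonneg _
  have hmass : ∑ i ∈ l.support, l i ≤ 1 := by
    have h1 := hl.2
    rw [mass_eq_sum (b := Set.univ) l.support (Finset.Subset.refl _)] at h1
    simpa only [Set.mem_univ, if_true] using h1
  have hnew0 : ∀ i, i ∉ d →
      (F.card : ℚ) * ((if i ∈ b0 ∧ i ∈ d then l i else 0) - (if i ∈ d then l i else 0) / 4) = 0 := by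
    intro i hi
    rw [if_neg fun h => hi h.2, if_neg hi]
    ring
  constructor
  · intro hbal
    rw [own_Vres, own_sum, mul_add, Finset.mul_sum]
    have h1 : ∑ i ∈ l.support, (F.card : ℚ) * ((if i ∈ b0 ∧ i ∈ d then l i else 0) -
        (if i ∈ d then l i else 0) / 4) ≤
        ∑ i ∈ l.support, (l i * (F.filter fun z => i ∈ b z).card - F.card * (l i / 4)) := by
      refine Finset.sum_le_sum fun i hi => ?_
      by_cases hd : i ∈ d
      · rw [own_old F b b0 d l i (fun z hz => h z hz i hd) hd]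
      · rw [hnew0 i hd]
        have h6 : (F.card : ℚ) ≤ 4 * ((F.filter fun z => i ∈ b z).card : ℚ) := by
          exact_mod_cast hbal i hi hd
        have h7 : 0 ≤ l i := hl.1 i
        nlinarith
    linarith
  · rw [own_Vres, own_sum, mul_add, Finset.mul_sum]
    have h1 : ∑ i ∈ l.support, ((F.card : ℚ) * ((if i ∈ b0 ∧ i ∈ d then l i else 0) -
        (if i ∈ d then l i else 0) / 4) - F.card / 4 * l i) ≤
        ∑ i ∈ l.support, (l i * (F.filter fun z => i ∈ b z).card - F.card * (l i / 4)) := by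
      refine Finset.sum_le_sum fun i hi => ?_
      have h7 : 0 ≤ l i := hl.1 i
      by_cases hd : i ∈ d
      · rw [own_old F b b0 d l i (fun z hz => h z hz i hd) hd]
        have : 0 ≤ (F.card : ℚ) / 4 * l i := by positivity
        linarith
      · rw [hnew0 i hd]
        have : 0 ≤ l i * ((F.filter fun z => i ∈ b z).card : ℚ) := by positivity
        linarith
    rw [Finset.sum_sub_distrib, ← Finset.mul_sum (s := l.support) (f := fun i => l i)] at h1
    have h2 : (F.card : ℚ) / 4 * ∑ i ∈ l.support, l i ≤ F.card / 4 * 1 :=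
      mul_le_mul_of_nonneg_left hmass (by positivity)
    linarith

open Classical in
theorem own_one (σ : Prop) {ι : Type*} (F : Finset ι) (x : ι → ℝ) {k : ℕ}
    (hx : ∀ z ∈ F, ∀ c : ℤ, 2 ^ k * x z ≠ c)
    (hs : ∀ z ∈ F, ∀ z' ∈ F, z ≠ z' → 2 ≤ |2 ^ k * x z - 2 ^ k * x z'|) (t : List E)
    (ht : 8 * t.length ≤ F.card) (b0 : Set ℕ)
    (h0 : ∀ z ∈ F, ∀ i ∈ decO t, (i ∈ bO σ t (x z) ↔ i ∈ b0)) (W : Finset (Fin (2 ^ k)))
    {l : ℕ →₀ ℚ} (hl : IsSub l) (hl' : ∀ i ∈ l.support, i ∈ decO (t ++ [⟨k, W⟩])) :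
    (F.card : ℚ) * V b0 (res (decO t) l) ≤ ∑ z ∈ F, V (bO σ (t ++ [⟨k, W⟩]) (x z)) l +
      if 4 * |2 * ((F.filter fun z => cz k ⌊2 ^ k * x z⌋ ∈ W).card : ℤ) - F.card| ≤ F.card
      then 0 else (F.card : ℚ) / 4 := by
  have h1 := own_abs F (fun z => bO σ (t ++ [⟨k, W⟩]) (x z)) b0 (decO t) hl (by
    intro z hz i hi
    exact (bO_snoc_old (x := x z) (σ := σ) (e := ⟨k, W⟩) hi.1).trans (h0 z hz i hi))
  by_cases hW : 4 * |2 * ((F.filter fun z => cz k ⌊2 ^ k * x z⌋ ∈ W).card : ℤ) - F.card| ≤ F.card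
  · rw [if_pos hW, add_zero]
    apply h1.1
    intro i hi hd
    have h2 := decO_snoc.1 (hl' i hi)
    rcases h2 with h2 | ⟨h2, h3⟩
    · exact absurd h2 hd
    · have h4 := card_new F x hx hs (idx i).2
        (le_trans (Nat.mul_le_mul_left 8 h3.1) ht) W hW σ
      refine h4.trans (Nat.mul_le_mul_left 4 (Finset.card_le_card ?_))
      intro z hz
      rw [Finset.mem_filter] at hz ⊢
      exact ⟨hz.1, (bO_snoc_new (x := x z) (σ := σ) (e := ⟨k, W⟩) h2).2 hz.2⟩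
  · rw [if_neg hW]
    exact h1.2

private theorem own_ite {T : Type*} [Fintype T] (L : Finset T) (p : T → Prop) [DecidablePred p]
    {c : ℚ}
    (hc : 0 ≤ c) : ∑ W ∈ L, (if p W then 0 else c) ≤
      ((Finset.univ.filter fun W => ¬ p W).card : ℚ) * c := by
  have h1 : ∑ W ∈ L, (if p W then 0 else c) = ∑ W ∈ L.filter fun W => ¬ p W, c := by
    rw [Finset.sum_filter]
    refine Finset.sum_congr rfl fun W _ => ?_
    by_cases h : p W
    · rw [if_pos h, if_neg (not_not.2 h)]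
    · rw [if_neg h, if_pos h]
  rw [h1, Finset.sum_const, nsmul_eq_mul]
  refine mul_le_mul_of_nonneg_right ?_ hc
  exact_mod_cast Finset.card_le_card (Finset.filter_subset_filter _ (Finset.subset_univ L))

private theorem own_first {ι T : Type*} (F : Finset ι) (L : Finset T) (g : ι → T → ℚ)
    (hL : (0 : ℚ) < L.card) {c : ℚ} (h : ∀ z ∈ F, (L.card : ℚ)⁻¹ * ∑ W ∈ L, g z W ≤ c) :
    ∑ z ∈ F, ∑ W ∈ L, g z W ≤ L.card * (F.card * c) := by
  have h1 : ∀ z ∈ F, ∑ W ∈ L, g z W ≤ L.card * c := fun z hz => (inv_mul_le_iff₀ hL).1 (h z hz)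
  refine (Finset.sum_le_sum h1).trans (le_of_eq ?_)
  rw [Finset.sum_const, nsmul_eq_mul]
  ring

/-- the arithmetic of the averages -/
private theorem own_arith {N K S A Q r η m U : ℚ} (hN : 0 < N) (hK : 0 < K)
    (h1 : N * S ≤ A + Q) (h2 : A ≤ K * (N * (r + η))) (h3 : Q ≤ U * (N / 4))
    (h4 : U * N ≤ 16 * (m * K)) (h5 : 4 * m ≤ η * N) : K⁻¹ * S ≤ r + 2 * η := by
  rw [inv_mul_le_iff₀ hK]
  have h6 : K * (4 * m) ≤ K * (η * N) := mul_le_mul_of_nonneg_left h5 hK.le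
  have h7 : N * S ≤ N * (K * (r + 2 * η)) := by linarith
  exact le_of_mul_le_mul_left h7 hN

theorem ownPW (σ : Prop) {ι : Type*} (F : Finset ι) (hF : F.Nonempty) (x : ι → ℝ) (a : ℤ)
    (hinj : Set.InjOn x F) (hfl : ∀ z ∈ F, ⌊x z⌋ = a)
    (hnd : ∀ z ∈ F, ∀ (k : ℕ) (c : ℤ), 2 ^ k * x z ≠ c) (t : List E)
    (ht : 8 * t.length ≤ F.card) (D : Set E) (f : E → ℕ →₀ ℚ)
    (hf : ∀ e ∈ D, IsSub (f e) ∧ ∀ i ∈ (f e).support, i ∈ decO (t ++ [e])) (φ : ι → Set E)
    (hφ : ∀ z ∈ F, Big (φ z)) {r : ℚ} (hr : 0 ≤ r)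
    (hV : ∀ z ∈ F, ∀ e ∈ D, e ∈ φ z → V (bO σ (t ++ [e]) (x z)) (f e) ≤ r) (b0 : Set ℕ)
    (h0 : ∀ z ∈ F, ∀ i ∈ decO t, (i ∈ bO σ t (x z) ↔ i ∈ b0)) (m : ℕ) {η : ℚ} (hη : 0 < η)
    (hm : 4 * (m : ℚ) ≤ η * F.card) :
    ∃ k1 : ℕ, ∀ k, k1 ≤ k → 2 ^ (2 ^ k) < m * cnt k D →
      V b0 (avg (lev k D) fun W => res (decO t) (f ⟨k, W⟩)) ≤ r + 2 * η := by
  classical
  obtain ⟨ks, hks⟩ := exists_sep F x hinj
  have hz : ∀ z : ι, ∃ k1 : ℕ, z ∈ F → ∀ k, k1 ≤ k → ∀ D : Set E, 2 ^ (2 ^ k) < m * cnt k D →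
      ∀ (g : E → ℚ) (r : ℚ), 0 ≤ r → (∀ e ∈ D, g e ≤ 1) → (∀ e ∈ D, e ∈ φ z → g e ≤ r) →
      ((lev k D).card : ℚ)⁻¹ * ∑ W ∈ lev k D, g ⟨k, W⟩ ≤ r + η := by
    intro z
    by_cases hzF : z ∈ F
    · obtain ⟨k1, hk1⟩ := avg_big (hφ z hzF) m hη
      exact ⟨k1, fun _ => hk1⟩
    · exact ⟨0, fun h => absurd h hzF⟩
  choose kz hkz using hz
  refine ⟨max ks (F.sup kz), fun k hk hD => ?_⟩
  have hk1 : ks ≤ k := le_trans (le_max_left _ _) hk
  have hk2 : ∀ z ∈ F, kz z ≤ k := fun z hzF =>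
    le_trans (Finset.le_sup hzF) (le_trans (le_max_right _ _) hk)
  have hne : (lev k D).Nonempty := lev_nonempty hD
  have hK0 : (0 : ℚ) < (lev k D).card := by
    have := hne.card_pos
    positivity
  have hN0 : (0 : ℚ) < F.card := by
    have := hF.card_pos
    positivity
  have hsep := hks k hk1
  -- the pointwise inequality
  have hone : ∀ W ∈ lev k D, (F.card : ℚ) * V b0 (res (decO t) (f ⟨k, W⟩)) ≤
      ∑ z ∈ F, V (bO σ (t ++ [⟨k, W⟩]) (x z)) (f ⟨k, W⟩) +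
      if 4 * |2 * ((F.filter fun z => cz k ⌊2 ^ k * x z⌋ ∈ W).card : ℤ) - F.card| ≤ F.card
      then 0 else (F.card : ℚ) / 4 := by
    intro W hW
    have h1 := hf ⟨k, W⟩ (mem_lev.1 hW)
    have h2 := own_one σ F x (fun z hzF c => hnd z hzF k c) hsep t ht b0 h0 W h1.1 h1.2
    refine h2.trans (le_of_eq ?_)
    congr 1
  have hsum := Finset.sum_le_sum hone
  rw [← Finset.mul_sum, Finset.sum_add_distrib, Finset.sum_comm] at hsum
  -- first part
  have hfirst := own_first F (lev k D) (fun z W => V (bO σ (t ++ [⟨k, W⟩]) (x z)) (f ⟨k, W⟩))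
    (c := r + η) hK0 (by
      intro z hzF
      exact hkz z hzF k (hk2 z hzF) D hD (fun e => V (bO σ (t ++ [e]) (x z)) (f e)) r hr
        (fun e he => (hf e he).1.V_le_one) (fun e he hφe => hV z hzF e he hφe))
  -- second part
  have hinjc : Set.InjOn (fun z => cz k ⌊2 ^ k * x z⌋) F := by
    intro z hzF z' hzF' heq
    by_contra hne'
    exact cz_ne (hfl z hzF) (hfl z' hzF') (hsep z hzF z' hzF' hne') heq
  have hcheb := cheb (T := Fin (2 ^ k)) F (fun z => cz k ⌊2 ^ k * x z⌋) hinjc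
  rw [Fintype.card_fin] at hcheb
  have hsecond := own_ite (lev k D) (fun W => 4 * |2 * ((F.filter fun z =>
    cz k ⌊2 ^ k * x z⌋ ∈ W).card : ℤ) - F.card| ≤ F.card) (c := (F.card : ℚ) / 4) (by positivity)
  set U : ℕ := (Finset.univ.filter fun W : Finset (Fin (2 ^ k)) => ¬ (4 * |2 * ((F.filter fun z =>
    cz k ⌊2 ^ k * x z⌋ ∈ W).card : ℤ) - F.card| ≤ F.card)).card with hU
  have hcheb' : U * F.card ≤ 16 * 2 ^ 2 ^ k := by
    refine le_trans (Nat.mul_le_mul_right _ (Finset.card_le_card ?_)) hcheb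
    intro W hW
    rw [Finset.mem_filter] at hW ⊢
    refine ⟨Finset.mem_univ _, ?_⟩
    have h1 := Int.not_le.1 hW.2
    convert h1
  have h2 : (U : ℚ) * F.card ≤ 16 * (m * (lev k D).card) := by
    have h3 : U * F.card ≤ 16 * (m * cnt k D) := by omega
    rw [← card_lev] at h3
    exact_mod_cast h3
  rw [V_avg hne]
  exact own_arith hN0 hK0 hsum hfirst hsecond h2 hm

end Pool.Agent.FSI
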