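import Pool.Agent.FSI.Viol

set_option autoImplicit false

/-! # Reduction to a lower level

PROOF of `red`. For each `j` let `E_j` be the set of the `q ∈ Pset γ'` for which there are
`r ∈ Pset γ` and `l` with `restr r γ' = q` and `Fo γ r {ω | ν j ω = l}`. `E_j` is dense below every
`q ∈ Pset γ'`: `fo_value` (for `q` as an element of `Pset γ`) gives `r ≤ q` deciding `ν j`, and
`restr r γ' ≤ q` (`Le.restr_left`). Let `A_j ⊆ E_j` be a countable maximal antichain of `Pset γ'`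
(`exists_max`); for `q ∈ A_j` choose `R j q`, `L j q`. Since `body (R j q)` meets `{ν j ω = L j q}`
(`Fo.nonempty`), `L j q` is a probability with support in `[j, ∞)`. Let
`c j ω = sel (fun q : A_j => ω ∈ body q)` (on the countable type `A_j`, or on `Option A_j` if `A_j` could
be empty: it is not, as `E_j` is nonempty) and `ν' j ω = L j (c j ω)` (`MeasF.sel`, `MeasF.comp`,
`meas_body`). Let `U` be the union of the supports of all `R j q`, `q ∈ A_j`: countable. For every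
`ξ ≥ γ'` at most one `z ∈ S` has `ξ ∈ (p z).supp` (`hd`), so the set `C` of the `z ∈ S` such that
`(p z).supp` contains some `ξ ∈ U`, `γ' ≤ ξ`, is countable. `S' = S \ C`.
To show for `z ∈ S'`: `Fo γ' (restr (p z) γ') {ω | mass (b z ω) (ν' j ω) ≤ ε}`. The set is measurable
(`meas_mass_le`). Otherwise (`not_fo`) there is `e ≤ restr (p z) γ'` in `Pset γ'` forcing
`ε < mass (b z ω) (ν' j ω)`. By `fo_predense` (any `q ≤ e` has an extension in `E_j`, compatible with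
some member of `A_j`) `e` forces `⋃ q ∈ A_j, body q`; by `fo_value` there are `e1 ≤ e` and `q ∈ A_j`
with `Fo γ' e1 {ω | c j ω = q}`, hence `Fo γ' e1 (body q)` (`sel_spec`), so `e1`, `q` are compatible
(`compat_of_fo_body`): `e2 ≤ e1, q`. Put `t = glue γ' e2 (meet (R j q) (p z))`. By `amalg_left`
(`restr (R j q) γ' = q`) `Le t (R j q)`; by `amalg_right` `Le t (p z)`, because no `ξ ≥ γ'` is in both
supports. `t ∈ Pset γ` (`glue_mem`, `meet_mem`), `Le t e2` (`glue_le`). At a point of `body t`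
(`Fo.nonempty` for the intersection of the forced sets, `Fo.le`, `Fo.level`):
`ν j ω = L j q = ν' j ω`, `mass (b z ω) (ν j ω) ≤ ε < mass (b z ω) (ν' j ω)`. Contradiction. -/

namespace Pool.Agent.FSI

variable {κ : Type} [LinearOrder κ] [WellFoundedLT κ] {Z : Type*} {p0 p : Z → Cond κ}
  {b : Z → Om κ → Set ℕ} {γ γ' : κ} {ε : ℚ} {S : Set Z} {ν : ℕ → Om κ → ℕ →₀ ℚ}

theorem red (hγ : γ' ≤ γ) (hp0 : ∀ z, p0 z ∈ Pset γ') (hb : ∀ z i, Meas γ' {ω | i ∈ b z ω})
    (h : VData p0 b γ ε S p ν)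
    (hd : ∀ z ∈ S, ∀ z' ∈ S, z ≠ z' → ∀ ξ ∈ (p z).supp, ξ ∈ (p z').supp → ξ < γ') :
    ∃ S' ⊆ S, ∃ ν', VData p0 b γ' ε S' (fun z => restr (p z) γ') ν' := by
  classical
  let Ej : ℕ → Set (Cond κ) := fun j => {q | q ∈ Pset γ' ∧ ∃ r ∈ Pset γ, ∃ l : ℕ →₀ ℚ,
    restr r γ' = q ∧ Fo γ r {ω | ν j ω = l}}
  have hEj : ∀ j, Ej j ⊆ Pset γ' := fun j q hq => hq.1
  have hdense : ∀ j, ∀ q ∈ Pset γ', ∃ q' ∈ Ej j, Le q' q := by
    intro j q hq
    obtain ⟨l, r, hr, h1, h2⟩ := fo_value (Pset_mono hγ hq) (h.meas j)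
    exact ⟨restr r γ', ⟨restr_mem, r, hr, l, rfl, h2⟩, Le.restr_left h1 hq⟩
  choose A hA1 hA2 hA3 hA4 using fun j => exists_max (hEj j)
  have hA0 : ∀ j, A j ⊆ Pset γ' := fun j => (hA1 j).trans (hEj j)
  have hAne : ∀ j, (A j).Nonempty := by
    intro j
    obtain ⟨q, hq, -⟩ := hdense j triv triv_mem
    obtain ⟨a, ha, -⟩ := hA4 j q hq
    exact ⟨a, ha⟩
  choose R hR1 L hR2 hR3 using fun j (q : A j) => (hA1 j q.2).2
  have hcount : ∀ j, Countable (A j) := fun j => (hA2 j).to_subtype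
  have hinh : ∀ j, Inhabited (A j) := fun j => ⟨⟨(hAne j).some, (hAne j).some_mem⟩⟩
  let c : ∀ j, Om κ → A j := fun j ω => sel (fun q : A j => ω ∈ body q.1)
  have hc : ∀ j, MeasF γ' (c j) := fun j => MeasF.sel (fun q => meas_body (hA0 j q.2))
  have hm : ∀ j, MeasF γ' (fun ω => L j (c j ω)) := fun j => (hc j).comp (L j)
  let U : Set κ := ⋃ j, ⋃ q : A j, ((R j q).supp : Set κ)
  have hU : U.Countable :=
    Set.countable_iUnion fun j => Set.countable_iUnion fun q => (R j q).supp.countable_toSet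
  let C : Set Z := {z | z ∈ S ∧ ∃ ξ ∈ U, γ' ≤ ξ ∧ ξ ∈ (p z).supp}
  have hC : C.Countable := by
    have h1 : C ⊆ ⋃ ξ ∈ U, {z | z ∈ S ∧ γ' ≤ ξ ∧ ξ ∈ (p z).supp} := by
      rintro z ⟨hz, ξ, hξ, h2, h3⟩
      exact Set.mem_biUnion hξ ⟨hz, h2, h3⟩
    refine (Set.Countable.biUnion hU fun ξ _ => ?_).mono h1
    refine Set.Subsingleton.countable ?_
    rintro z ⟨hz, h2, h3⟩ z' ⟨hz', h2', h3'⟩
    by_contra hne
    exact absurd (hd z hz z' hz' hne ξ h3 h3') (not_lt.2 h2)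
  refine ⟨S \ C, Set.sdiff_subset, fun j ω => L j (c j ω), ?_, fun z _ => restr_mem,
    fun z hz => Le.restr_left (h.le z hz.1) (hp0 z), hm, fun j ω => ?_, fun j ω => ?_, ?_⟩
  · intro h1
    refine h.unc ((h1.union hC).mono ?_)
    intro z hz
    by_cases h2 : z ∈ C
    · exact Or.inr h2
    · exact Or.inl ⟨hz, h2⟩
  · obtain ⟨ω', -, h1⟩ := (hR3 j (c j ω)).nonempty (hR1 j (c j ω))
    have h2 : ν j ω' = L j (c j ω) := h1
    rw [← h2]
    exact h.prob j ω'
  · obtain ⟨ω', -, h1⟩ := (hR3 j (c j ω)).nonempty (hR1 j (c j ω))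
    have h2 : ν j ω' = L j (c j ω) := h1
    rw [← h2]
    exact h.supp j ω'
  · rintro z ⟨hz, hzC⟩ j
    by_contra hn
    obtain ⟨e, he, h1, h2⟩ := not_fo (meas_mass_le (hb z) (hm j) ε) restr_mem hn
    have h3 : Fo γ' e (⋃ a ∈ A j, body a) := by
      refine fo_predense he (hA2 j) (hA0 j) fun q hq _ => ?_
      obtain ⟨q', hq', h4⟩ := hdense j q hq
      obtain ⟨a, ha, r, hr, h5, h6⟩ := hA4 j q' hq'
      exact ⟨a, ha, r, hr, Le.trans hr (hEj j hq') hq h5 h4, h6⟩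
    obtain ⟨q, e1, he1, h4, h5⟩ := fo_value he (hc j)
    have h6 : Fo γ' e1 (body q.1) := by
      refine ((h3.le he he1 h4).inter h5).mono ?_
      rintro ω ⟨h7, h8⟩
      obtain ⟨a, ha, h9⟩ := Set.mem_iUnion₂.1 h7
      have h10 : ω ∈ body (c j ω).1 :=
        sel_spec (P := fun q : A j => ω ∈ body q.1) ⟨⟨a, ha⟩, h9⟩
      have h11 : c j ω = q := h8
      rw [h11] at h10
      exact h10
    have hq0 : q.1 ∈ Pset γ' := hA0 j q.2
    obtain ⟨e2, he2, h7, h8⟩ := compat_of_fo_body he1 hq0 h6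
    have h9 : Le e2 e := Le.trans he2 he1 he h7 h4
    have h10 : Le e2 (restr (p z) γ') := Le.trans he2 he restr_mem h9 h1
    have hno : ∀ ξ ∈ (p z).supp, γ' ≤ ξ → ξ ∉ (R j q).supp := by
      intro ξ h11 h12 h13
      exact hzC ⟨hz, ξ, Set.mem_iUnion.2 ⟨j, Set.mem_iUnion.2 ⟨q, h13⟩⟩, h12, h11⟩
    have ht : glue γ' e2 (meet (R j q) (p z)) ∈ Pset γ :=
      glue_mem hγ (meet_mem (hR1 j q) (h.mem z hz))
    have ht1 : Le (glue γ' e2 (meet (R j q) (p z))) (R j q) := by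
      refine amalg_left he2 ?_
      rw [hR2 j q]
      exact h8
    have ht2 : Le (glue γ' e2 (meet (R j q) (p z))) (p z) := by
      refine amalg_right he2 h10 ?_ ?_
      · intro ξ h11 h12 h13
        exact absurd h13 (hno ξ h11 h12.le)
      · intro h11 h12
        exact absurd h12 (hno γ' h11 le_rfl)
    have ht3 : Le (glue γ' e2 (meet (R j q) (p z))) e2 := glue_le he2
    have he2' : e2 ∈ Pset γ := Pset_mono hγ he2
    have F1 := (hR3 j q).le (hR1 j q) ht ht1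
    have F2 := (h.fo z hz j).le (h.mem z hz) ht ht2
    have F3 := (h5.level hγ).le (Pset_mono hγ he1) ht
      (Le.trans ht he2' (Pset_mono hγ he1) ht3 h7)
    have F4 := (h2.level hγ).le (Pset_mono hγ he) ht
      (Le.trans ht he2' (Pset_mono hγ he) ht3 h9)
    obtain ⟨ω, -, ⟨g1, g2⟩, g3, g4⟩ := ((F1.inter F2).inter (F3.inter F4)).nonempty ht
    refine g4 ?_
    have g1' : ν j ω = L j q := g1
    have g2' : mass (b z ω) (ν j ω) ≤ ε := g2
    have g3' : c j ω = q := g3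
    show mass (b z ω) (L j (c j ω)) ≤ ε
    rw [g3', ← g1']
    exact g2'

end Pool.Agent.FSI
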