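import Pool.Agent.FSI.Geo

set_option autoImplicit false

/-! # Separated reals and balanced sets of cells

PROOFS.
* `exists_sep`: the finitely many positive numbers `|x z - x z'|` have a positive lower bound `d`; take
  `k1` with `2 ≤ 2 ^ k1 * d`.
* `cz_ne`: `⌊x⌋ = ⌊x'⌋ = a` gives `2 ^ k * a ≤ ⌊2 ^ k * x⌋ < 2 ^ k * (a + 1)`, the same for `x'`, so
  `⌊2 ^ k * x⌋` and `⌊2 ^ k * x'⌋` differ by less than `2 ^ k`; they are different because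
  `|2 ^ k * x - 2 ^ k * x'| ≥ 2`; hence their residues are different.
* `mem_UU`: for `2 ^ k * x` not an integer, the only `a` with `a < 2 ^ k * x < a + 1` is the floor.
* `card_double`: for each `a ∈ O` at most one `z ∈ F` has `2 ^ k * x z` in the interval
  `(a - 1, a + 1)` of length `2`; use `Finset.card_le_card_of_injOn` or `card_biUnion_le`.
* `card_new`: let `X` be the number of the `z ∈ F` with `cz k ⌊2 ^ k * x z⌋ ∈ W`,
  `4 * |2 * X - N| ≤ N`, so `3 * N ≤ 8 * X ≤ 5 * N`. If `σ` is true the set contains these `z`. If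
  `σ` is false it contains the `z` with `cz k ⌊2 ^ k * x z⌋ ∉ W` which are in no double interval:
  at least `N - X - O.card ≥ N - 5 * N / 8 - N / 8 = N / 4`. -/

namespace Pool.Agent.FSI

theorem exists_sep {ι : Type*} (F : Finset ι) (x : ι → ℝ) (hx : Set.InjOn x F) :
    ∃ k1 : ℕ, ∀ k, k1 ≤ k → ∀ z ∈ F, ∀ z' ∈ F, z ≠ z' → 2 ≤ |2 ^ k * x z - 2 ^ k * x z'| := by
  have key : ∀ p : ι × ι, ∃ k1 : ℕ, p.1 ∈ F → p.2 ∈ F → p.1 ≠ p.2 →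
      2 ≤ 2 ^ k1 * |x p.1 - x p.2| := by
    intro p
    by_cases h : p.1 ∈ F ∧ p.2 ∈ F ∧ p.1 ≠ p.2
    · obtain ⟨h1, h2, h3⟩ := h
      have hne : x p.1 - x p.2 ≠ 0 := fun h0 => h3 (hx h1 h2 (sub_eq_zero.1 h0))
      have hpos : 0 < |x p.1 - x p.2| := abs_pos.2 hne
      obtain ⟨n, hn⟩ := pow_unbounded_of_one_lt (2 / |x p.1 - x p.2|) (one_lt_two : (1 : ℝ) < 2)
      refine ⟨n, fun _ _ _ => ?_⟩
      rw [div_lt_iff₀ hpos] at hn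
      exact hn.le
    · exact ⟨0, fun h1 h2 h3 => absurd ⟨h1, h2, h3⟩ h⟩
  choose f hf using key
  refine ⟨(F ×ˢ F).sup f, fun k hk z hz z' hz' hne => ?_⟩
  have h1 : f (z, z') ≤ k := le_trans (Finset.le_sup (f := f) (Finset.mk_mem_product hz hz')) hk
  have h2 := hf (z, z') hz hz' hne
  rw [← mul_sub, abs_mul, abs_of_pos (by positivity : (0 : ℝ) < 2 ^ k)]
  refine le_trans h2 (mul_le_mul_of_nonneg_right ?_ (abs_nonneg _))
  exact pow_le_pow_right₀ (by norm_num) h1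

theorem cz_ne {x x' : ℝ} {a : ℤ} {k : ℕ} (h : ⌊x⌋ = a) (h' : ⌊x'⌋ = a)
    (hs : 2 ≤ |2 ^ k * x - 2 ^ k * x'|) : cz k ⌊2 ^ k * x⌋ ≠ cz k ⌊2 ^ k * x'⌋ := by
  intro he
  have h2 : (0 : ℝ) < 2 ^ k := by positivity
  rw [Int.floor_eq_iff] at h h'
  have e1 : (2 : ℝ) ^ k * a ≤ 2 ^ k * x := mul_le_mul_of_nonneg_left h.1 h2.le
  have e2 : (2 : ℝ) ^ k * x < 2 ^ k * (a + 1) := mul_lt_mul_of_pos_left h.2 h2
  have e3 : (2 : ℝ) ^ k * a ≤ 2 ^ k * x' := mul_le_mul_of_nonneg_left h'.1 h2.le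
  have e4 : (2 : ℝ) ^ k * x' < 2 ^ k * (a + 1) := mul_lt_mul_of_pos_left h'.2 h2
  have f1 : (2 : ℤ) ^ k * a ≤ ⌊2 ^ k * x⌋ := Int.le_floor.2 (by push_cast; exact e1)
  have f2 : ⌊2 ^ k * x⌋ < (2 : ℤ) ^ k * (a + 1) := Int.floor_lt.2 (by push_cast; exact e2)
  have f3 : (2 : ℤ) ^ k * a ≤ ⌊2 ^ k * x'⌋ := Int.le_floor.2 (by push_cast; exact e3)
  have f4 : ⌊2 ^ k * x'⌋ < (2 : ℤ) ^ k * (a + 1) := Int.floor_lt.2 (by push_cast; exact e4)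
  have hP : (0 : ℤ) < 2 ^ k := by positivity
  have hmod : ⌊2 ^ k * x⌋ % 2 ^ k = ⌊2 ^ k * x'⌋ % 2 ^ k := by
    have := congrArg Fin.val he
    unfold cz at this
    simp only at this
    have n1 := Int.emod_nonneg ⌊2 ^ k * x⌋ hP.ne'
    have n2 := Int.emod_nonneg ⌊2 ^ k * x'⌋ hP.ne'
    omega
  have heq : ⌊2 ^ k * x⌋ = ⌊2 ^ k * x'⌋ := by
    have hd : (2 : ℤ) ^ k ∣ ⌊2 ^ k * x⌋ - ⌊2 ^ k * x'⌋ :=
      Int.ModEq.dvd (show ⌊2 ^ k * x'⌋ ≡ ⌊2 ^ k * x⌋ [ZMOD 2 ^ k] from hmod.symm)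
    have hlt : |⌊2 ^ k * x⌋ - ⌊2 ^ k * x'⌋| < (2 : ℤ) ^ k := by
      rw [abs_lt]
      have : (2 : ℤ) ^ k * (a + 1) = 2 ^ k * a + 2 ^ k := by ring
      constructor <;> linarith
    have := Int.eq_zero_of_abs_lt_dvd hd hlt
    omega
  have g1 := Int.floor_le ((2 : ℝ) ^ k * x)
  have g2 := Int.lt_floor_add_one ((2 : ℝ) ^ k * x)
  have g3 := Int.floor_le ((2 : ℝ) ^ k * x')
  have g4 := Int.lt_floor_add_one ((2 : ℝ) ^ k * x')
  rw [heq] at g1 g2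
  have : |2 ^ k * x - 2 ^ k * x'| < 1 := by
    rw [abs_lt]
    constructor <;> linarith
  linarith

theorem mem_UU {x : ℝ} {k : ℕ} (hx : ∀ c : ℤ, 2 ^ k * x ≠ c) (W : Finset (Fin (2 ^ k)))
    (O : Finset ℤ) : x ∈ UU ⟨k, W⟩ O ↔ cz k ⌊2 ^ k * x⌋ ∈ W ∨
      ∃ a ∈ O, (a : ℝ) - 1 < 2 ^ k * x ∧ 2 ^ k * x < a + 1 := by
  have : (∃ a : ℤ, cz k a ∈ W ∧ (a : ℝ) < 2 ^ k * x ∧ 2 ^ k * x < a + 1) ↔
      cz k ⌊2 ^ k * x⌋ ∈ W := by
    constructor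
    · rintro ⟨a, h1, h2, h3⟩
      have : ⌊2 ^ k * x⌋ = a := Int.floor_eq_iff.2 ⟨h2.le, h3⟩
      rw [this]
      exact h1
    · intro h
      exact ⟨_, h, lt_of_le_of_ne (Int.floor_le _) (hx _).symm, Int.lt_floor_add_one _⟩
  unfold UU
  exact or_congr this Iff.rfl

open Classical in
theorem card_double {ι : Type*} (F : Finset ι) (x : ι → ℝ) {k : ℕ}
    (hs : ∀ z ∈ F, ∀ z' ∈ F, z ≠ z' → 2 ≤ |2 ^ k * x z - 2 ^ k * x z'|) (O : Finset ℤ) :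
    (F.filter fun z => ∃ a ∈ O, (a : ℝ) - 1 < 2 ^ k * x z ∧ 2 ^ k * x z < a + 1).card ≤ O.card := by
  have hc : ∀ z : ι, ∃ a : ℤ, (∃ a ∈ O, (a : ℝ) - 1 < 2 ^ k * x z ∧ 2 ^ k * x z < a + 1) →
      a ∈ O ∧ (a : ℝ) - 1 < 2 ^ k * x z ∧ 2 ^ k * x z < a + 1 := by
    intro z
    by_cases h : ∃ a ∈ O, (a : ℝ) - 1 < 2 ^ k * x z ∧ 2 ^ k * x z < a + 1
    · obtain ⟨a, h1, h2⟩ := h
      exact ⟨a, fun _ => ⟨h1, h2⟩⟩
    · exact ⟨0, fun h' => absurd h' h⟩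
  choose f hf using hc
  refine Finset.card_le_card_of_injOn f ?_ ?_
  · intro z hz
    rw [Finset.mem_coe, Finset.mem_filter] at hz
    exact (hf z hz.2).1
  · intro z hz z' hz' he
    rw [Finset.mem_coe, Finset.mem_filter] at hz hz'
    by_contra hne
    have h1 := hf z hz.2
    have h2 := hf z' hz'.2
    have h3 := hs z hz.1 z' hz'.1 hne
    rw [← he] at h2
    have : |2 ^ k * x z - 2 ^ k * x z'| < 2 := by
      rw [abs_lt]
      constructor <;> linarith [h1.2.1, h1.2.2, h2.2.1, h2.2.2]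
    linarith

open Classical in
theorem card_new {ι : Type*} (F : Finset ι) (x : ι → ℝ) {k : ℕ} (hx : ∀ z ∈ F, ∀ c : ℤ, 2 ^ k * x z ≠ c)
    (hs : ∀ z ∈ F, ∀ z' ∈ F, z ≠ z' → 2 ≤ |2 ^ k * x z - 2 ^ k * x z'|) (O : Finset ℤ)
    (hO : 8 * O.card ≤ F.card) (W : Finset (Fin (2 ^ k)))
    (hW : 4 * |2 * ((F.filter fun z => cz k ⌊2 ^ k * x z⌋ ∈ W).card : ℤ) - F.card| ≤ F.card)
    (σ : Prop) : F.card ≤ 4 * (F.filter fun z => (x z ∈ UU ⟨k, W⟩ O ↔ σ)).card := by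
  set X := (F.filter fun z => cz k ⌊2 ^ k * x z⌋ ∈ W).card with hX
  have hb := abs_le.1 (show |2 * (X : ℤ) - F.card| ≤ F.card / 4 by omega)
  have h3 : 3 * F.card ≤ 8 * X + 0 ∧ 8 * X ≤ 5 * F.card := by
    have h4 : 4 * (2 * (X : ℤ) - F.card) ≤ F.card := le_trans (by
      have := le_abs_self (2 * (X : ℤ) - F.card); linarith) hW
    have h5 : 4 * (-(2 * (X : ℤ) - F.card)) ≤ F.card := le_trans (by
      have := neg_le_abs (2 * (X : ℤ) - F.card); linarith) hW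
    constructor <;> omega
  by_cases hσ : σ
  · have hsub : (F.filter fun z => cz k ⌊2 ^ k * x z⌋ ∈ W) ⊆
        F.filter fun z => (x z ∈ UU ⟨k, W⟩ O ↔ σ) := by
      intro z hz
      rw [Finset.mem_filter] at hz ⊢
      refine ⟨hz.1, ?_⟩
      rw [mem_UU (hx z hz.1)]
      exact ⟨fun _ => hσ, fun _ => Or.inl hz.2⟩
    have := Finset.card_le_card hsub
    omega
  · have hsub : F ⊆ ((F.filter fun z => (x z ∈ UU ⟨k, W⟩ O ↔ σ)) ∪
        (F.filter fun z => cz k ⌊2 ^ k * x z⌋ ∈ W)) ∪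
        (F.filter fun z => ∃ a ∈ O, (a : ℝ) - 1 < 2 ^ k * x z ∧ 2 ^ k * x z < a + 1) := by
      intro z hz
      by_cases h1 : cz k ⌊2 ^ k * x z⌋ ∈ W
      · exact Finset.mem_union_left _ (Finset.mem_union_right _ (Finset.mem_filter.2 ⟨hz, h1⟩))
      by_cases h2 : ∃ a ∈ O, (a : ℝ) - 1 < 2 ^ k * x z ∧ 2 ^ k * x z < a + 1
      · exact Finset.mem_union_right _ (Finset.mem_filter.2 ⟨hz, h2⟩)
      refine Finset.mem_union_left _ (Finset.mem_union_left _ (Finset.mem_filter.2 ⟨hz, ?_⟩))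
      rw [mem_UU (hx z hz)]
      exact ⟨fun h => (h.elim h1 h2).elim, fun h => absurd h hσ⟩
    have h4 := Finset.card_le_card hsub
    have h5 := Finset.card_union_le ((F.filter fun z => (x z ∈ UU ⟨k, W⟩ O ↔ σ)) ∪
        (F.filter fun z => cz k ⌊2 ^ k * x z⌋ ∈ W))
        (F.filter fun z => ∃ a ∈ O, (a : ℝ) - 1 < 2 ^ k * x z ∧ 2 ^ k * x z < a + 1)
    have h6 := Finset.card_union_le (F.filter fun z => (x z ∈ UU ⟨k, W⟩ O ↔ σ))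
        (F.filter fun z => cz k ⌊2 ^ k * x z⌋ ∈ W)
    have h7 := card_double F x hs O
    omega

end Pool.Agent.FSI
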