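import Pool.Agent.FSI.CoreL

set_option autoImplicit false

/-! # The later steps

PROOF of `step_later`. `Y = laterSys ρ S p s b ε ..`. `Res ρ' b` is clear (`dec t = univ`, `b t = b`).
By `core_later` and `claim1`, `claim2` we get `(Gd j n s)ᶜ ∈ Nul ρ` for all `j`, `n`. Choose `n` with
`bd n < 1 / 4` and the countable set `C` of `exists_ctb`. Let
`lam j ω = sel fun l => l ∈ Lam j s ∧ ω ∈ GG s l (bd n)` and `ν' j ω = nrm (lam j ω)` if
`lam j ω ∈ Lam j s ∧ mass univ (lam j ω) ≠ 0`, else `Finsupp.single j 1`. It is measurable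
(`MeasF.sel`, `MeasF.comp`), a probability (`nrm_isProb`) with support in `[j, ∞)` (`nrm_support`). By
`claim3` and `nrm_spec` (with `mass_ne_zero`) for `z ∈ S \ C`:
`Fo ρ (restr (p z) ρ) {ω | mass (b z ω) (ν' j ω) ≤ bd n}`. So
`VData p0 b ρ (bd n) (S \ C) (fun z => restr (p z) ρ) ν'` (`Le.restr_left` for `Le (p z) (p0 z)`;
`S \ C` is not countable), contradicting `hK`. -/

namespace Pool.Agent.FSI

variable {κ : Type} [LinearOrder κ] [WellFoundedLT κ] {Z : Type*}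

theorem exists_bd {κ : Type} [LinearOrder κ] [WellFoundedLT κ] {Z : Type*} (Y : Sys κ Z)
    (h : Y.ε < 1 / 4) : ∃ n, Y.bd n < 1 / 4 := by
  obtain ⟨n, hn⟩ := exists_nat_one_div_lt (K := ℚ) (ε := 1 / 4 - Y.ε) (by linarith)
  refine ⟨n, ?_⟩
  unfold Sys.bd
  linarith

theorem step_later {ρ ρ' : κ} {S : Set Z} {p p0 : Z → Cond κ} {s : List E} {b : Z → Om κ → Set ℕ}
    {ε : ℚ} {ν : ℕ → Om κ → ℕ →₀ ℚ} (hsuc : Suc ρ ρ') (hp0 : ∀ z, p0 z ∈ Pset ρ)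
    (hb : ∀ z i, Meas ρ {ω | i ∈ b z ω}) (hε : 0 ≤ ε) (hε' : ε < 1 / 4)
    (h : VData p0 b ρ' ε S p ν) (hρ : ∀ z ∈ S, ρ ∈ (p z).supp) (hs : ∀ z ∈ S, (p z).st ρ = s)
    (hK : ¬ Viol p0 b ρ) : False := by
  classical
  have hcore := core_later hρ hs hb hε hp0 h.le hK
  set Y := laterSys ρ S p s b ε hρ hs hb hε with hY
  have hR : Y.Res ρ' b :=
    ⟨hsuc, h.mem, fun _ _ _ _ _ _ => Iff.rfl,
      fun i => ⟨0, fun t _ hi => absurd (Set.mem_univ i) hi⟩⟩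
  obtain ⟨n, hn⟩ := exists_bd Y hε'
  obtain ⟨C, hCc, hC⟩ := Y.exists_ctb
  have hG : ∀ j, (Y.Gd j n Y.s)ᶜ ∈ Nul Y.ρ := fun j =>
    Y.claim2 hR j (fun n t => Y.claim1 hcore j n t) (h.meas j) (h.prob j) (h.supp j)
      (fun z hz => h.fo z hz j) n
  let F : ℕ → (ℕ →₀ ℚ) → (ℕ →₀ ℚ) := fun j l =>
    if l ∈ Y.Lam j Y.s ∧ mass Set.univ l ≠ 0 then nrm l else Finsupp.single j 1
  let ν' : ℕ → Om κ → ℕ →₀ ℚ := fun j ω =>
    F j (sel fun l => l ∈ Y.Lam j Y.s ∧ ω ∈ Y.GG Y.s l (Y.bd n))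
  have hF : ∀ j l, IsProb (F j l) ∧ ∀ i ∈ (F j l).support, j ≤ i := by
    intro j l
    by_cases hl : l ∈ Y.Lam j Y.s ∧ mass Set.univ l ≠ 0
    · have e : F j l = nrm l := if_pos hl
      rw [e]
      exact ⟨nrm_isProb hl.1.1.1 hl.2, fun i hi => (hl.1.2 i (nrm_support hi)).1⟩
    · have e : F j l = Finsupp.single j 1 := if_neg hl
      rw [e]
      refine ⟨isProb_single j, fun i hi => ?_⟩
      have h2 := Finsupp.support_single_subset hi
      rw [Finset.mem_singleton] at h2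
      exact h2.ge
  refine hK ⟨Y.bd n, Y.bd_nonneg n, hn, S \ C, fun z => restr (p z) ρ, ν', ?_⟩
  refine ⟨?_, fun z _ => restr_mem, fun z hz => Le.restr_left (h.le z hz.1) (hp0 z), ?_,
    fun j ω => (hF j _).1, fun j ω => (hF j _).2, ?_⟩
  · intro hc
    apply h.unc
    refine (hc.union hCc).mono ?_
    intro z hz
    by_cases hzC : z ∈ C
    · exact Or.inr hzC
    · exact Or.inl ⟨hz, hzC⟩
  · intro j
    exact (MeasF.sel (P := fun ω l => l ∈ Y.Lam j Y.s ∧ ω ∈ Y.GG Y.s l (Y.bd n)) fun l =>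
      Meas.and (meas_const _) Y.GG_meas).comp (F j)
  · intro z hz j
    refine (Y.claim3 j n (hG j) hC hz.1 hz.2).mono ?_
    rintro ω ⟨h1, h2⟩
    have h3 := mass_ne_zero h1.1 hn h2
    have h4 := (nrm_spec h1.1 hn h2).2
    have e : ν' j ω = nrm (sel fun l => l ∈ Y.Lam j Y.s ∧ ω ∈ Y.GG Y.s l (Y.bd n)) :=
      if_pos ⟨h1, h3⟩
    show mass (b z ω) (ν' j ω) ≤ Y.bd n
    rw [e]
    exact h4

end Pool.Agent.FSI
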