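import Pool.Agent.FSI.CoreO
import Pool.Agent.FSI.StepL

set_option autoImplicit false

/-! # The own step

PROOF of `step_own`. `Y = ownSys X σ S p s ε ..`; `Res δ' (bD X σ)` from `decO_bF`, `res_bF` (with
`L i = (idx i).1 + 1`). By `core_own`, `claim1`, `claim2`: `(Gd j n s)ᶜ ∈ Nul δ` for all `j`, `n`. Choose
`n` with `bd n < 1 / 4` (`exists_bd`) and `j` larger than all elements of `decO s`. Then the only element
of `Lam j s` is `0`. Take the countable `C` of `exists_ctb` and `z ∈ S \ C`. By `claim3` and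
`Fo.nonempty` there is `ω` with `sel .. ∈ Lam j s`, so `sel .. = 0`, and
`1 / 4 = V b 0 ≤ bd n < 1 / 4` (`V_zero`), contradiction.

PROOF of `thmK`. Strong induction on `γ`. Let `VData X.p0 (bD X σ) γ ε S p ν`, `0 ≤ ε < 1 / 4`.
(1) Let `p1 z = p z` if `X.δ ∈ (p z).supp`, else `upd (p z) X.δ [] (fun _ _ => univ)`; `Le (p1 z) (p z)`
(`upd_le_of_notMem`, `Le.refl`), `VData.stronger`.
(2) `delta` for `p1` on `S`: `S' ⊆ S`, root `R`. `X.δ ∈ R` since `S'` has two different elements. Let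
`ρ = max R ≥ X.δ`; `ρ < γ` as `R ⊆ (p1 z).supp`, so there is `ρ'` with `Suc ρ ρ'` (`exists_suc`), `ρ' ≤ γ`.
(3) `red` with `γ' = ρ'` (`bF_meas`, `Pset_mono`; two different supports intersect in `R ⊆ [0, ρ]`)
gives `S'' ⊆ S'` and `ν'`, conditions `restr (p1 z) ρ'`, with `ρ` in the support
(`mem_restr_supp`) and equal stems at `ρ` (the stem function of `restr` is that of `p1 z`).
(4) If `ρ = X.δ` use `step_own`; otherwise `X.δ < ρ` and `step_later` with the induction hypothesis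
at `ρ`. -/

namespace Pool.Agent.FSI

variable {κ : Type} [LinearOrder κ] [WellFoundedLT κ] {Z : Type*}

private theorem ownSys_res (X : Dat κ Z) (σ : Prop) {δ' : κ} {ε : ℚ} {S : Set Z} {p : Z → Cond κ}
    {s : List E} {ν : ℕ → Om κ → ℕ →₀ ℚ} (hsuc : Suc X.δ δ') (hε : 0 ≤ ε)
    (h : VData X.p0 (bD X σ) δ' ε S p ν) (hρ : ∀ z ∈ S, X.δ ∈ (p z).supp)
    (hs : ∀ z ∈ S, (p z).st X.δ = s) :
    (ownSys X σ S p s ε hρ hs hε).Res δ' (bD X σ) where
  suc := hsuc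
  mem := fun z hz => h.mem z hz
  dec := fun _ _ _ _ hini hi => decO_bF hini hi
  res := fun i => ⟨(idx i).1 + 1, fun _ ht hi _ _ hini => res_bF hini hi (Nat.lt_of_succ_le ht)⟩

theorem step_own (X : Dat κ Z) (σ : Prop) {δ' : κ} {ε : ℚ} {S : Set Z} {p : Z → Cond κ} {s : List E}
    {ν : ℕ → Om κ → ℕ →₀ ℚ} (hsuc : Suc X.δ δ') (hε : 0 ≤ ε) (hε' : ε < 1 / 4)
    (h : VData X.p0 (bD X σ) δ' ε S p ν) (hρ : ∀ z ∈ S, X.δ ∈ (p z).supp)
    (hs : ∀ z ∈ S, (p z).st X.δ = s) : False := by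
  obtain ⟨n, hn⟩ := exists_bd (ownSys X σ S p s ε hρ hs hε) hε'
  obtain ⟨M, hM⟩ := exists_decO_bound s
  have hcore : (ownSys X σ S p s ε hρ hs hε).Core := core_own X σ hρ hs hε fun z hz => h.le z hz
  have hR := ownSys_res X σ hsuc hε h hρ hs
  have hG := (ownSys X σ S p s ε hρ hs hε).claim2 hR M
    ((ownSys X σ S p s ε hρ hs hε).claim1 hcore M) (h.meas M) (h.prob M) (h.supp M)
    (fun z hz => h.fo z hz M) n
  obtain ⟨C, hC, hC'⟩ := (ownSys X σ S p s ε hρ hs hε).exists_ctb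
  obtain ⟨z, hz, hzC⟩ : ∃ z ∈ S, z ∉ C := by
    by_contra hcon
    push Not at hcon
    exact h.unc (hC.mono hcon)
  have h3 := (ownSys X σ S p s ε hρ hs hε).claim3 M n hG hC' hz hzC
  obtain ⟨ω, -, h4, h5⟩ := h3.nonempty restr_mem
  have h6 : (sel fun l => l ∈ (ownSys X σ S p s ε hρ hs hε).Lam M s ∧
      ω ∈ (ownSys X σ S p s ε hρ hs hε).GG s l ((ownSys X σ S p s ε hρ hs hε).bd n)) = 0 := by
    rw [← Finsupp.support_eq_empty, Finset.eq_empty_iff_forall_notMem]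
    intro i hi
    have h7 := h4.2 i hi
    exact absurd (hM i h7.2) (not_lt.2 h7.1)
  have h8 : V ((ownSys X σ S p s ε hρ hs hε).b s z ω) 0 ≤ (ownSys X σ S p s ε hρ hs hε).bd n := by
    rw [← h6]
    exact h5
  rw [V_zero] at h8
  exact absurd hn (not_lt.2 h8)

theorem bD_meas (X : Dat κ Z) (σ : Prop) {γ : κ} (h : X.δ < γ) (z : Z) (i : ℕ) :
    Meas γ {ω | i ∈ bD X σ z ω} :=
  bF_meas (X.hx z) h σ i

end Pool.Agent.FSI
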