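import Pool.Agent.FSI.Viol

set_option autoImplicit false

/-! # Good conditions

`Sys`: a set `S` of indices, conditions `p z` which all have the coordinate `ρ` in the support with
stem `s`, and for each extension `t` of `s` a set `dec t` of decided indices and names
`b t z` of sets (measurable at `ρ`).

`GoodC t l r`: the conditions `q ∈ Pset ρ` such that for all but countably many `z ∈ S` the set of the
points of `body q ∩ body (restr (p z) ρ)` where the path from `s` to `t` is allowed by the promise of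
`p z` at `ρ` and `r < V (b t z) l` is null. `GG t l r` = the union of the bodies of a countable maximal
antichain of good conditions. `Gd j n t` = the union of the `GG t l (ε + 1 / (n + 1))` for `l` a
sub-probability with support in `dec t ∩ [j, ∞)`.

PROOFS.
* `GG_meas`, `Gd_meas`: countable unions (`ℕ →₀ ℚ` is countable).
* `GoodC_le`: if `q ∈ GoodC`, `q' ≤ q` then `body q' ⊆ body q` modulo `Nul ρ` (`fo_body_of_le`).
* `fo_GG`: `fo_predense` with the antichain: every `q' ≤ q` is in `GoodC`, hence compatible with a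
  member.
* `exists_ctb`: for every `c` in the countable antichain of `(t, l, r)` take the countable set of
  exceptions; `C` = the union of all of them over the countably many `t`, `l`, `r`. For `z ∉ C` the set
  where the statement fails is a countable union of null sets.
* `goodC_of_fo`: contrapositive form: if `q ∈ Pset ρ` is not in `GoodC t l r` and `C` is countable then
  the set `S1` of the `z ∈ S \ C` for which the set in the definition is not null is not countable, and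
  for `z ∈ S1` there is `p' z ∈ Pset ρ`, `Le (p' z) q`, `Le (p' z) (restr (p z) ρ)` which forces
  the path and `r < V`: `fo_nonnul` for `q` and the measurable set
  `body (restr (p z) ρ) ∩ {..}` gives `q1 ≤ q`, `compat_of_fo_body` a common extension. -/

namespace Pool.Agent.FSI

/-- The data at a coordinate `ρ`. -/
structure Sys (κ : Type) [LinearOrder κ] [WellFoundedLT κ] (Z : Type*) where
  /-- the coordinate -/
  ρ : κ
  /-- the set of indices -/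
  S : Set Z
  /-- the conditions -/
  p : Z → Cond κ
  /-- the common stem at `ρ` -/
  s : List E
  /-- decided indices -/
  dec : List E → Set ℕ
  /-- the sets as decided by an extension of the stem -/
  b : List E → Z → Om κ → Set ℕ
  /-- the bound -/
  ε : ℚ
  hρ : ∀ z ∈ S, ρ ∈ (p z).supp
  hs : ∀ z ∈ S, (p z).st ρ = s
  hb : ∀ t z i, Meas ρ {ω | i ∈ b t z ω}
  hε : 0 ≤ ε

variable {κ : Type} [LinearOrder κ] [WellFoundedLT κ] {Z : Type*} (Y : Sys κ Z)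

namespace Sys

/-- The path to `t` is allowed by the condition `p z`. -/
def Pa (t : List E) (z : Z) : Set (Om κ) := {ω | Path ((Y.p z).nm Y.ρ ω) Y.s t}

/-- The cost is larger than `r`. -/
def Hi (t : List E) (l : ℕ →₀ ℚ) (r : ℚ) (z : Z) : Set (Om κ) := {ω | r < V (Y.b t z ω) l}

/-- Good conditions. -/
def GoodC (t : List E) (l : ℕ →₀ ℚ) (r : ℚ) : Set (Cond κ) :=
  {q | q ∈ Pset Y.ρ ∧ ∃ C : Set Z, C.Countable ∧ ∀ z ∈ Y.S, z ∉ C →
    body q ∩ body (restr (Y.p z) Y.ρ) ∩ (Y.Pa t z ∩ Y.Hi t l r z) ∈ Nul Y.ρ}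

/-- A maximal antichain of good conditions. -/
noncomputable def anti (t : List E) (l : ℕ →₀ ℚ) (r : ℚ) : Set (Cond κ) :=
  Classical.choose (exists_max (γ := Y.ρ) (D := Y.GoodC t l r) fun _ h => h.1)

theorem anti_spec (t : List E) (l : ℕ →₀ ℚ) (r : ℚ) :
    Y.anti t l r ⊆ Y.GoodC t l r ∧ (Y.anti t l r).Countable ∧
      (∀ a ∈ Y.anti t l r, ∀ b ∈ Y.anti t l r, Compat Y.ρ a b → a = b) ∧
      ∀ d ∈ Y.GoodC t l r, ∃ a ∈ Y.anti t l r, Compat Y.ρ d a :=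
  Classical.choose_spec (exists_max (γ := Y.ρ) (D := Y.GoodC t l r) fun _ h => h.1)

/-- The generic filter contains a good condition. -/
def GG (t : List E) (l : ℕ →₀ ℚ) (r : ℚ) : Set (Om κ) := ⋃ c ∈ Y.anti t l r, body c

/-- Sub-probabilities with decided support in `[j, ∞)`. -/
def Lam (j : ℕ) (t : List E) : Set (ℕ →₀ ℚ) := {l | IsSub l ∧ ∀ i ∈ l.support, j ≤ i ∧ i ∈ Y.dec t}

/-- The bounds. -/
def bd (n : ℕ) : ℚ := Y.ε + 1 / ((n : ℚ) + 1)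

/-- `t` is good for `j` up to `n`. -/
def Gd (j n : ℕ) (t : List E) : Set (Om κ) := {ω | ∃ l ∈ Y.Lam j t, ω ∈ Y.GG t l (Y.bd n)}

theorem Pa_meas {t : List E} {z : Z} (hz : z ∈ Y.S) : Meas Y.ρ (Y.Pa t z) :=
  meas_path ((Y.p z).meas Y.ρ (Y.hρ z hz)) _ _

theorem Hi_meas {t : List E} {l : ℕ →₀ ℚ} {r : ℚ} {z : Z} : Meas Y.ρ (Y.Hi t l r z) :=
  meas_lt_V (Y.hb t z) l r

theorem bd_nonneg (n : ℕ) : 0 ≤ Y.bd n := by
  have := Y.hε
  unfold bd
  positivity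

theorem GG_meas {t : List E} {l : ℕ →₀ ℚ} {r : ℚ} : Meas Y.ρ (Y.GG t l r) := by
  refine Meas.biUnion (Y.anti_spec t l r).2.1 fun c hc => ?_
  exact meas_body ((Y.anti_spec t l r).1 hc).1

theorem Gd_meas {j n : ℕ} {t : List E} : Meas Y.ρ (Y.Gd j n t) := by
  have h : Meas Y.ρ {ω | ∃ l : ℕ →₀ ℚ, l ∈ Y.Lam j t ∧ ω ∈ Y.GG t l (Y.bd n)} :=
    Meas.ex fun l => Meas.and (meas_const _) Y.GG_meas
  exact h

theorem GoodC_le {t : List E} {l : ℕ →₀ ℚ} {r : ℚ} {q q' : Cond κ} (h : q ∈ Y.GoodC t l r)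
    (hq' : q' ∈ Pset Y.ρ) (hle : Le q' q) : q' ∈ Y.GoodC t l r := by
  obtain ⟨hq, C, hC, hz⟩ := h
  refine ⟨hq', C, hC, fun z hz1 hz2 => ?_⟩
  have h1 : body q' \ body q ∈ Nul Y.ρ := fo_body_of_le hq' hq hle
  refine Nul.subset (Nul.union h1 (hz z hz1 hz2)) fun ω hω => ?_
  by_cases h2 : ω ∈ body q
  · exact Or.inr ⟨⟨h2, hω.1.2⟩, hω.2⟩
  · exact Or.inl ⟨hω.1.1, h2⟩

theorem fo_GG {t : List E} {l : ℕ →₀ ℚ} {r : ℚ} {q : Cond κ} (h : q ∈ Y.GoodC t l r) :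
    Fo Y.ρ q (Y.GG t l r) := by
  refine fo_predense h.1 (Y.anti_spec t l r).2.1 (fun c hc => ((Y.anti_spec t l r).1 hc).1)
    fun q' hq' hle => ?_
  exact (Y.anti_spec t l r).2.2.2 q' (Y.GoodC_le h hq' hle)

theorem exists_ctb : ∃ C : Set Z, C.Countable ∧ ∀ z ∈ Y.S, z ∉ C →
    Fo Y.ρ (restr (Y.p z) Y.ρ) {ω | ∀ t l r, ω ∈ Y.GG t l r → ω ∈ Y.Pa t z →
      V (Y.b t z ω) l ≤ r} := by
  classical
  have h1 : ∀ t l r, ∀ c ∈ Y.anti t l r, ∃ C : Set Z, C.Countable ∧ ∀ z ∈ Y.S, z ∉ C →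
      body c ∩ body (restr (Y.p z) Y.ρ) ∩ (Y.Pa t z ∩ Y.Hi t l r z) ∈ Nul Y.ρ :=
    fun t l r c hc => ((Y.anti_spec t l r).1 hc).2
  choose! C hC hz using h1
  refine ⟨⋃ x : List E × (ℕ →₀ ℚ) × ℚ, ⋃ c ∈ Y.anti x.1 x.2.1 x.2.2, C x.1 x.2.1 x.2.2 c,
    Set.countable_iUnion fun x => Set.Countable.biUnion (Y.anti_spec _ _ _).2.1
      fun c hc => hC _ _ _ c hc, fun z hzS hzC => ?_⟩
  have h2 : ∀ x : List E × (ℕ →₀ ℚ) × ℚ, (⋃ c ∈ Y.anti x.1 x.2.1 x.2.2,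
      body c ∩ body (restr (Y.p z) Y.ρ) ∩ (Y.Pa x.1 z ∩ Y.Hi x.1 x.2.1 x.2.2 z)) ∈ Nul Y.ρ := by
    intro x
    refine Nul.biUnion (Y.anti_spec _ _ _).2.1 fun c hc => hz _ _ _ c hc z hzS fun hzc => hzC ?_
    exact Set.mem_iUnion.2 ⟨x, Set.mem_iUnion₂.2 ⟨c, hc, hzc⟩⟩
  refine Nul.subset (Nul.iUnion h2) fun ω hω => ?_
  obtain ⟨hω1, hω2⟩ := hω
  simp only [Set.mem_ofPred_eq, not_forall, not_le] at hω2
  obtain ⟨t, l, r, hG, hP, hV⟩ := hω2
  obtain ⟨c, hc, hcω⟩ := Set.mem_iUnion₂.1 hG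
  exact Set.mem_iUnion.2 ⟨(t, l, r), Set.mem_iUnion₂.2 ⟨c, hc, ⟨hcω, hω1⟩, hP, hV⟩⟩

theorem exists_family {t : List E} {l : ℕ →₀ ℚ} {r : ℚ} {q : Cond κ} (hq : q ∈ Pset Y.ρ)
    (h : q ∉ Y.GoodC t l r) {C : Set Z} (hC : C.Countable) :
    ∃ S1 ⊆ Y.S \ C, ¬ S1.Countable ∧ ∃ p' : Z → Cond κ, (∀ z ∈ S1, p' z ∈ Pset Y.ρ) ∧
      (∀ z ∈ S1, Le (p' z) q) ∧ (∀ z ∈ S1, Le (p' z) (restr (Y.p z) Y.ρ)) ∧
      ∀ z ∈ S1, Fo Y.ρ (p' z) (Y.Pa t z ∩ Y.Hi t l r z) := by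
  classical
  refine ⟨{z | z ∈ Y.S \ C ∧
    body q ∩ body (restr (Y.p z) Y.ρ) ∩ (Y.Pa t z ∩ Y.Hi t l r z) ∉ Nul Y.ρ},
    fun z hz => hz.1, fun hc => h ⟨hq, C ∪ _, hC.union hc, fun z hz hz' => ?_⟩, ?_⟩
  · by_contra hn
    exact hz' (Or.inr ⟨⟨hz, fun h' => hz' (Or.inl h')⟩, hn⟩)
  have key : ∀ z, z ∈ {z | z ∈ Y.S \ C ∧
      body q ∩ body (restr (Y.p z) Y.ρ) ∩ (Y.Pa t z ∩ Y.Hi t l r z) ∉ Nul Y.ρ} →
      ∃ p' : Cond κ, p' ∈ Pset Y.ρ ∧ Le p' q ∧ Le p' (restr (Y.p z) Y.ρ) ∧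
        Fo Y.ρ p' (Y.Pa t z ∩ Y.Hi t l r z) := by
    rintro z ⟨⟨hzS, -⟩, hz⟩
    rw [Set.inter_assoc] at hz
    have hm : Meas Y.ρ (body (restr (Y.p z) Y.ρ) ∩ (Y.Pa t z ∩ Y.Hi t l r z)) :=
      (meas_body restr_mem).inter ((Y.Pa_meas hzS).inter Y.Hi_meas)
    obtain ⟨q1, hq1, hle, hfo⟩ := fo_nonnul hm hq hz
    obtain ⟨r1, hr1, hr2, hr3⟩ :=
      compat_of_fo_body hq1 restr_mem (hfo.mono Set.inter_subset_left)
    exact ⟨r1, hr1, Le.trans hr1 hq1 hq hr2 hle, hr3,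
      (hfo.mono Set.inter_subset_right).le hq1 hr1 hr2⟩
  have : Nonempty (Cond κ) := ⟨triv⟩
  choose! p' h1 h2 h3 h4 using key
  exact ⟨p', h1, h2, h3, h4⟩

end Sys

end Pool.Agent.FSI
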