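import Pool.Agent.FSI.Trans

set_option autoImplicit false

/-! # Members of a generic filter contain the generic point

PROOF of `t1_of`. If `q.supp` is empty the body is everything. Let `ξ` be the maximum of `q.supp`,
`ξ < γ`. For each `n` let `D n` be the set of the `r ∈ Pset γ` with (`Le r q`, `ξ ∈ r.supp` and
`n ≤ (r.st ξ).length`) or (`¬ Compat γ r q`); it is dense in `Pset γ` (`exists_ext` and `trans_of`;
if `r ≤ p`, `p` compatible with `q`, take a common extension first). Let `C n ⊆ D n` be a maximal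
antichain (`exists_max`), countable; `{r ∈ Pset γ | ∃ c ∈ C n, Le r c}` is dense. The generic filter
`G` satisfies (countably many requirements, `Ae.all`, `Ae.ball`, `Ae.and`, `Ae.proj`):
(i) `Filt γ G`, `Ext G ω` (`Ae.filt`); (ii) `G` meets `{r | ∃ c ∈ C n, Le r c}`, so contains some
`c ∈ C n`; (iii) `restr q ξ ∈ G ∩ Pset ξ → ω ∈ body (restr q ξ)` (`(h ξ).t1`), and the same for
`restr c ξ`, `c ∈ C n`; (iv) for `c ∈ C n` with `Le c q`: `ω ∉ body (restr c ξ) ∩ badAt ξ c q` (it is in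
`Nul ξ`, `Nul_mono`, `mem_Nul_iff`). Let `q ∈ G`. Then `restr q ξ ∈ G`, so `ω ∈ body (restr q ξ)`. For
the coordinate `ξ`: `ini (ω ξ) (q.st ξ).length = q.st ξ` by `Ext`. For `i ≥ (q.st ξ).length` take
`c ∈ C (i + 1) ∩ G`; it is compatible with `q` (directedness of `G` and `Filt`), so `Le c q`,
`i + 1 ≤ (c.st ξ).length`; `restr c ξ ∈ G`, `ω ∈ body (restr c ξ)`, so `ω ∉ badAt ξ c q`, i.e. the path
from `q.st ξ` to `c.st ξ` is allowed by `q.nm ξ ω`; `ω ξ` extends `c.st ξ`, so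
`ω ξ i = (c.st ξ)[i] ∈ q.nm ξ ω ((c.st ξ).take i) = q.nm ξ ω (ini (ω ξ) i)`. The support of `q` is
that of `restr q ξ` plus `ξ` (`mem_body_iff`). -/

namespace Pool.Agent.FSI

variable {κ : Type} [LinearOrder κ] [WellFoundedLT κ] {γ : κ} {q : Cond κ}

theorem t1_of (h : ∀ ξ < γ, Hyp ξ) (hq : q ∈ Pset γ) :
    Ae γ fun G ω => q ∈ G → ω ∈ body q := by
  classical
  by_cases hne : q.supp = ∅
  · refine (Ae.filt γ).mono fun G ω _ _ => ?_
    intro ξ hξ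
    rw [hne] at hξ
    exact absurd hξ (Finset.notMem_empty ξ)
  have hne' : q.supp.Nonempty := Finset.nonempty_iff_ne_empty.2 hne
  set ξ := q.supp.max' hne' with hξdef
  have hξq : ξ ∈ q.supp := q.supp.max'_mem hne'
  have hξγ : ξ < γ := hq ξ hξq
  let D : ℕ → Set (Cond κ) := fun n => {r | r ∈ Pset γ ∧
    ((Le r q ∧ ξ ∈ r.supp ∧ n ≤ (r.st ξ).length) ∨ ¬ Compat γ r q)}
  have hDsub : ∀ n, D n ⊆ Pset γ := fun n r hr => hr.1
  have hDden : ∀ n, ∀ p ∈ Pset γ, ∃ r ∈ D n, Le r p := by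
    intro n p hp
    by_cases hc : Compat γ p q
    · obtain ⟨r, hr, hrp, hrq⟩ := hc
      obtain ⟨r', hr', hr'r, hξr', hlen⟩ := exists_ext h hr hξγ n
      exact ⟨r', ⟨hr', Or.inl ⟨trans_of h hr' hr hq hr'r hrq, hξr', hlen⟩⟩,
        trans_of h hr' hr hp hr'r hrp⟩
    · exact ⟨p, ⟨hp, Or.inr hc⟩, Le.refl p⟩
  choose C hCsub hCcount _ hCmax using fun n => exists_max (hDsub n)
  let F : ℕ → Set (Cond κ) := fun n => {r | r ∈ Pset γ ∧ ∃ c ∈ C n, Le r c}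
  have hF : ∀ n, Den γ (F n) := by
    intro n
    refine ⟨fun r hr => hr.1, fun p hp => ?_⟩
    obtain ⟨d, hd, hdp⟩ := hDden n p hp
    obtain ⟨a, ha, r, hr, hrd, hra⟩ := hCmax n d hd
    exact ⟨r, ⟨hr, a, ha, hra⟩, trans_of h hr (hDsub n hd) hp hrd hdp⟩
  have hCγ : ∀ n, ∀ c ∈ C n, c ∈ Pset γ := fun n c hc => hDsub n (hCsub n hc)
  -- the requirements
  have a1 : Ae γ fun G _ => ∀ n, (G ∩ F n).Nonempty := Ae.all fun n => Ae.dense (hF n)
  have a2 : ∀ c : Cond κ, Ae γ fun G ω => restr c ξ ∈ G ∩ Pset ξ → ω ∈ body (restr c ξ) := fun c =>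
    Ae.proj ((h ξ hξγ).t1 (restr c ξ) restr_mem) hξγ.le
  have a3 : Ae γ fun G ω => ∀ n, ∀ c ∈ C n, restr c ξ ∈ G ∩ Pset ξ → ω ∈ body (restr c ξ) :=
    Ae.all fun n => Ae.ball (hCcount n) fun c _ => a2 c
  have a4 : Ae γ fun _ ω => ∀ n, ∀ c ∈ C n, Le c q → ω ∉ body (restr c ξ) ∩ badAt ξ c q := by
    refine Ae.all fun n => Ae.ball (hCcount n) fun c _ => ?_
    by_cases hcq : Le c q
    · have h1 : body (restr c ξ) ∩ badAt ξ c q ∈ Nul ξ := (hcq.2 ξ hξq).2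
      exact (mem_Nul_iff.1 (Nul_mono hξγ.le h1)).mono fun G ω h2 _ => h2
    · exact (Ae.filt γ).mono fun G ω _ h2 => absurd h2 hcq
  refine (((Ae.filt γ).and a1).and ((a2 q).and (a3.and a4))).mono ?_
  rintro G ω ⟨⟨⟨hG, hext⟩, b1⟩, b2, b3, b4⟩ hqG
  have hup : ∀ p ∈ G, ∀ r ∈ Pset γ, Le p r → r ∈ G := hG.up
  have hrestr : ∀ c ∈ G, restr c ξ ∈ G ∩ Pset ξ := fun c hc =>
    ⟨hup c hc _ (Pset_mono hξγ.le restr_mem) le_restr, restr_mem⟩
  rw [mem_body_iff (γ := ξ)]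
  refine ⟨b2 (hrestr q hqG), ?_⟩
  intro ζ hζ hζξ
  have hζe : ζ = ξ := le_antisymm (Finset.le_max' _ _ hζ) (not_lt.1 hζξ)
  rw [hζe]
  refine ⟨hext q hqG ξ hξq, ?_⟩
  intro i hi
  obtain ⟨r, hrG, hrγ, c, hcC, hrc⟩ := b1 (i + 1)
  have hcG : c ∈ G := hup r hrG c (hCγ _ c hcC) hrc
  have hcq : Le c q ∧ ξ ∈ c.supp ∧ i + 1 ≤ (c.st ξ).length := by
    rcases (hCsub _ hcC).2 with h1 | h1
    · exact h1
    · exfalso
      apply h1
      obtain ⟨r', hr', h2, h3⟩ := hG.dir c hcG q hqG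
      exact ⟨r', hG.sub hr', h2, h3⟩
  obtain ⟨hle, hξc, hlen⟩ := hcq
  have h5 := b4 _ c hcC hle
  have h6 := b3 _ c hcC (hrestr c hcG)
  have h7 : Ok (q.st ξ) (q.nm ξ ω) (c.st ξ) (c.nm ξ ω) := by
    by_contra h8
    exact h5 ⟨h6, h8⟩
  have h8 := h7.1.2 i (by omega) hi
  have h9 : ini (ω ξ) (c.st ξ).length = c.st ξ := hext c hcG ξ hξc
  have h10 : ω ξ i = (c.st ξ)[i]'(by omega) := ini_eq_iff.1 h9 i (by omega)
  have h11 : (c.st ξ).take i = ini (ω ξ) i := by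
    rw [← h9, ini_take, min_eq_left (by omega)]
  rw [← h10, h11] at h8
  exact h8

end Pool.Agent.FSI
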