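import Pool.Agent.FSI.T1

set_option autoImplicit false

/-! # A condition whose body contains the generic point is in the generic filter

PROOF of `t2_of`. If `q.supp` is empty then `Le p q` for all `p`, so `q ∈ G`. Let `ξ` be the maximum of
`q.supp`. Let `D` be the set of the `r ∈ Pset γ` with `Le r q` or (`¬ Compat γ r q`, `ξ ∈ r.supp` and
`(q.st ξ).length ≤ (r.st ξ).length`); dense (`exists_ext`, `trans_of`). `C ⊆ D` maximal antichain,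
countable. For `c ∈ C` put `Bc = {ω | Path (q.nm ξ ω) (q.st ξ) (c.st ξ)}`, `Meas ξ Bc`
(`meas_path_nm`), `Dc = {b ∈ Pset ξ | body b \ Bc ∈ Nul ξ ∨ body b ∩ Bc ∈ Nul ξ}` is dense in `Pset ξ`
(`(h ξ).dec`), `Cc ⊆ Dc` a maximal antichain of `Pset ξ`. Generic requirements: (i) `Filt`, `Ext`;
(ii) `G` meets `{r | ∃ c ∈ C, Le r c}`; (iii) for `c ∈ C`: `c ∈ G → ω ∈ body c` is not needed, only
stems; (iv) `ω ∈ body (restr q ξ) → restr q ξ ∈ G` (`(h ξ).t2` and `Ae.proj`); (v) for `c ∈ C`: `G`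
meets (the lift of) `{b ∈ Pset ξ | ∃ b' ∈ Cc, Le b b'}` so contains some `b' ∈ Cc`; for `b' ∈ Cc`:
`b' ∈ G → ω ∈ body b'` (`(h ξ).t1`, `Ae.proj`), and if `body b' ∩ Bc ∈ Nul ξ` then
`ω ∉ body b' ∩ Bc`. Now let `ω ∈ body q`; then `ω ∈ body (restr q ξ)`, so `restr q ξ ∈ G`. Take
`c ∈ C ∩ G`. If `Le c q` then `q ∈ G`. Otherwise `¬ Compat γ c q`; `ω ξ` extends `c.st ξ` (`Ext`) and
`q.st ξ`, so `q.st ξ <+: c.st ξ` (`pre_of_le`) and the path is allowed by `q.nm ξ ω` as `ω ∈ body q`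
(`Br.path` with `n = (c.st ξ).length`): `ω ∈ Bc`. Take `b' ∈ Cc ∩ G`; not `body b' ∩ Bc ∈ Nul ξ`, so
`body b' \ Bc ∈ Nul ξ`. Take `t ∈ G` below `c`, `b'` and `restr q ξ` (twice directed, transitivity), and
`t' = restr t ξ`. By `amalg_left`, `amalg_right` with `e = t'`, `p = c`, `q = q` the condition
`glue ξ t' (meet c q)` is in `Pset γ` and below `c` and `q`: hypotheses: `Le t' (restr c ξ)`,
`Le t' (restr q ξ)`, `q.supp` has no element above `ξ`, and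
`body t' ∩ {ω | ¬ Path ..} ⊆ (body t' \ body b') ∪ (body b' \ Bc)` is null (`(h ξ).r1`). This
contradicts the incompatibility. -/

namespace Pool.Agent.FSI

variable {κ : Type} [LinearOrder κ] [WellFoundedLT κ] {γ : κ} {q : Cond κ}

theorem t2_of (h : ∀ ξ < γ, Hyp ξ) (hq : q ∈ Pset γ) :
    Ae γ fun G ω => ω ∈ body q → q ∈ G := by
  classical
  by_cases hemp : q.supp = ∅
  · refine (Ae.filt γ).mono ?_
    rintro G ω ⟨hF, _⟩ _
    obtain ⟨p, hp⟩ := FiltW.ne hF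
    refine FiltW.up hF p hp q hq ⟨?_, ?_⟩
    · rw [hemp]
      exact Finset.empty_subset _
    · intro ζ hζ
      rw [hemp] at hζ
      exact absurd hζ (Finset.notMem_empty _)
  have hne : q.supp.Nonempty := Finset.nonempty_iff_ne_empty.mpr hemp
  obtain ⟨ξ, hξmem, hξmax⟩ : ∃ ξ ∈ q.supp, ∀ ζ ∈ q.supp, ζ ≤ ξ :=
    ⟨q.supp.max' hne, q.supp.max'_mem hne, fun ζ hζ => q.supp.le_max' ζ hζ⟩
  have hξ : ξ < γ := hq ξ hξmem
  have hH := h ξ hξ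
  have hmono : (Pset ξ : Set (Cond κ)) ⊆ Pset γ := Pset_mono hξ.le
  -- the dense set and its maximal antichain
  set D : Set (Cond κ) := {r | r ∈ Pset γ ∧ (Le r q ∨
    (¬ Compat γ r q ∧ ξ ∈ r.supp ∧ (q.st ξ).length ≤ (r.st ξ).length))} with hD
  have hDd : ∀ p ∈ Pset γ, ∃ r ∈ D, Le r p := by
    intro p hp
    by_cases hc : Compat γ p q
    · obtain ⟨r, hr, hrp, hrq⟩ := hc
      exact ⟨r, ⟨hr, Or.inl hrq⟩, hrp⟩
    · obtain ⟨r, hr, hrp, hrs, hrl⟩ := exists_ext h hp hξ (q.st ξ).length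
      refine ⟨r, ⟨hr, Or.inr ⟨?_, hrs, hrl⟩⟩, hrp⟩
      rintro ⟨s, hs, hsr, hsq⟩
      exact hc ⟨s, hs, trans_of h hs hr hp hsr hrp, hsq⟩
  obtain ⟨C, hCD, hCc, _, hCm⟩ := exists_max (γ := γ) (D := D) (fun r hr => hr.1)
  have hCP : ∀ c ∈ C, c ∈ Pset γ := fun c hc => (hCD hc).1
  have hDC : Den γ {r | r ∈ Pset γ ∧ ∃ c ∈ C, Le r c} := by
    refine ⟨fun r hr => hr.1, ?_⟩
    intro p hp
    obtain ⟨d, hd, hdp⟩ := hDd p hp
    obtain ⟨c, hc, s, hs, hsd, hsc⟩ := hCm d hd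
    exact ⟨s, ⟨hs, c, hc, hsc⟩, trans_of h hs hd.1 hp hsd hdp⟩
  -- for each condition the set `Bc` and the antichain deciding it
  set Bc : Cond κ → Set (Om κ) := fun c => {ω | Path (q.nm ξ ω) (q.st ξ) (c.st ξ)} with hBc
  have hBm : ∀ c, Meas ξ (Bc c) := fun c => meas_path_nm hξmem (c.st ξ)
  choose Cc hCc1 hCc2 _ hCc4 using fun c : Cond κ => exists_max (γ := ξ)
    (D := {b | b ∈ Pset ξ ∧ (body b \ Bc c ∈ Nul ξ ∨ body b ∩ Bc c ∈ Nul ξ)}) (fun r hr => hr.1)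
  have hDCc : ∀ c, Den ξ {b | b ∈ Pset ξ ∧ ∃ b' ∈ Cc c, Le b b'} := by
    intro c
    refine ⟨fun r hr => hr.1, ?_⟩
    intro p hp
    obtain ⟨d, hd, hdp, hdd⟩ := hH.dec (Bc c) (hBm c) p hp
    obtain ⟨b', hb', s, hs, hsd, hsb⟩ := hCc4 c d ⟨hd, hdd⟩
    exact ⟨s, ⟨hs, b', hb', hsb⟩, hH.trans s hs d hd p hp hsd hdp⟩
  have hAe1 : ∀ c ∈ C, Ae γ fun G ω => ((G ∩ Pset ξ) ∩
      {b | b ∈ Pset ξ ∧ ∃ b' ∈ Cc c, Le b b'}).Nonempty ∧
      ∀ b' ∈ Cc c, (b' ∈ G ∩ Pset ξ → ω ∈ body b') ∧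
        (body b' ∩ Bc c ∈ Nul ξ → ω ∉ body b' ∩ Bc c) := by
    intro c _
    refine Ae.and (Ae.proj (φ := fun G _ => (G ∩ {b | b ∈ Pset ξ ∧ ∃ b' ∈ Cc c, Le b b'}).Nonempty)
      (Ae.dense (hDCc c)) hξ.le) ?_
    refine Ae.ball (hCc2 c) (φ := fun b' G ω => (b' ∈ G ∩ Pset ξ → ω ∈ body b') ∧
        (body b' ∩ Bc c ∈ Nul ξ → ω ∉ body b' ∩ Bc c)) ?_
    intro b' hb'
    refine Ae.and (Ae.proj (φ := fun G ω => b' ∈ G → ω ∈ body b') (hH.t1 b' (hCc1 c hb').1) hξ.le)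
      ?_
    by_cases hn : body b' ∩ Bc c ∈ Nul ξ
    · exact (mem_Nul_iff.mp (Nul_mono hξ.le hn)).mono fun _ _ hω _ => hω
    · exact (Ae.filt γ).mono fun _ _ _ hn' => absurd hn' hn
  have hAe := (Ae.filt γ).and ((Ae.dense hDC).and
    ((Ae.proj (φ := fun G ω => ω ∈ body (restr q ξ) → restr q ξ ∈ G)
      (hH.t2 (restr q ξ) restr_mem) hξ.le).and (Ae.ball hCc hAe1)))
  refine hAe.mono ?_
  rintro G ω ⟨⟨hF, hExt⟩, ⟨r, hrG, hrP, c, hcC, hrc⟩, hiv, hv⟩ hω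
  have hGP := FiltW.sub hF
  have hcP := hCP c hcC
  have hcG : c ∈ G := FiltW.up hF r hrG c hcP hrc
  have hqr : restr q ξ ∈ G := (hiv (body_subset_restr hω)).1
  rcases (hCD hcC).2 with hcq | ⟨hncomp, hξc, _hlen⟩
  · exact FiltW.up hF c hcG q hq hcq
  · exfalso
    have hini := hExt c hcG ξ hξc
    have hpath : Path (q.nm ξ ω) (q.st ξ) (c.st ξ) := by
      have h1 := Br.path (n := (c.st ξ).length) (hω ξ hξmem) _hlen
      rw [hini] at h1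
      exact h1
    have hωB : ω ∈ Bc c := hpath
    obtain ⟨⟨b, ⟨hbG, hbP⟩, _, b', hb', hbb'⟩, hv2⟩ := hv c hcC
    have hb'P : b' ∈ Pset ξ := (hCc1 c hb').1
    have hb'G : b' ∈ G := FiltW.up hF b hbG b' (hmono hb'P) hbb'
    have hωb' : ω ∈ body b' := (hv2 b' hb').1 ⟨hb'G, hb'P⟩
    have hnull : body b' \ Bc c ∈ Nul ξ := by
      rcases (hCc1 c hb').2 with h1 | h1
      · exact h1
      · exact absurd ⟨hωb', hωB⟩ ((hv2 b' hb').2 h1)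
    obtain ⟨t1, ht1G, ht1c, ht1b⟩ := FiltW.dir hF c hcG b' hb'G
    obtain ⟨t, htG, htt1, htq⟩ := FiltW.dir hF t1 ht1G (restr q ξ) hqr
    have htP := hGP htG
    have htc : Le t c := trans_of h htP (hGP ht1G) hcP htt1 ht1c
    have htb : Le t b' := trans_of h htP (hGP ht1G) (hmono hb'P) htt1 ht1b
    have hle1 : Le (restr t ξ) (restr c ξ) := Le.restr htc
    have hle2 : Le (restr t ξ) (restr q ξ) := Le.restr_left htq restr_mem
    have hle3 : Le (restr t ξ) b' := Le.restr_left htb hb'P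
    apply hncomp
    refine ⟨glue ξ (restr t ξ) (meet c q), glue_mem hξ.le (meet_mem hcP hq),
      amalg_left restr_mem hle1, amalg_right restr_mem hle2 ?_ ?_⟩
    · intro ζ hζ hlt _
      exact absurd hlt (not_lt.mpr (hξmax ζ hζ))
    · intro _ _
      refine ⟨hpath.1, ?_⟩
      refine Nul.subset (Nul.union (hH.r1 restr_mem hb'P hle3) hnull) ?_
      rintro ω' ⟨hω'1, hω'2⟩
      by_cases hb : ω' ∈ body b'
      · exact Or.inr ⟨hb, hω'2⟩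
      · exact Or.inl ⟨hω'1, hb⟩

end Pool.Agent.FSI
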