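import Pool.Agent.FSI.StepO
import Pool.Agent.FSI.Red

set_option autoImplicit false

/-! # There are no violations

PROOF of `thmK`: in the header of `StepO.lean`.

PROOF of `thmK_set`. `ν j ω` = the point mass at `sel (fun i : ℕ => IsLeast {i | i ∈ J ω ∧ max j m ≤ i} i)`
if this set is nonempty, at `j` otherwise (measurable: `MeasF.ite`, `MeasF.sel`, `MeasF.comp`). It is a
probability with support in `[j, ∞)`. Where `J ω` is infinite the point `i` of the support is in `J ω`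
and `m ≤ i`, so `i ∉ bD X σ z ω` and `mass (bD X σ z ω) (ν j ω) = 0`. So this is a violation with
`ε = 0`. -/

namespace Pool.Agent.FSI

variable {κ : Type} [LinearOrder κ] [WellFoundedLT κ] {Z : Type*}

theorem thmK (X : Dat κ Z) (σ : Prop) (γ : κ) (hγ : X.δ < γ) : ¬ Viol X.p0 (bD X σ) γ := by
  classical
  induction γ using WellFoundedLT.induction with
  | ind γ ih =>
    rintro ⟨ε, hε, hε', S, p, ν, h⟩
    have key : ∀ z, ∃ q : Cond κ, Le q (p z) ∧ X.δ ∈ q.supp ∧ (p z ∈ Pset γ → q ∈ Pset γ) := by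
      intro z
      by_cases hz : X.δ ∈ (p z).supp
      · exact ⟨p z, Le.refl _, hz, id⟩
      · exact ⟨upd (p z) X.δ [] (fun _ _ => Set.univ) (fun _ _ => meas_const _)
          (fun _ _ => big_univ), upd_le_of_notMem hz, Finset.mem_insert_self _ _,
          fun hp => upd_mem hγ hp⟩
    choose p1 hp1le hp1δ hp1m using key
    have h1 : VData X.p0 (bD X σ) γ ε S p1 ν :=
      h.stronger (fun z => Pset_mono hγ.le (X.hp0 z)) (fun z hz => hp1m z (h.mem z hz))
        (fun z _ => hp1le z)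
    obtain ⟨S', hS', hS'c, R, hR1, hR2, hR3⟩ := delta h1.unc p1
    have hne : S'.Nonempty := by
      rw [Set.nonempty_iff_ne_empty]
      rintro rfl
      exact hS'c Set.countable_empty
    obtain ⟨a, ha⟩ := hne
    obtain ⟨b, hb, hba⟩ : ∃ b ∈ S', b ≠ a := by
      by_contra hcon
      push Not at hcon
      exact hS'c ((Set.countable_singleton a).mono fun j hj => hcon j hj)
    have hδR : X.δ ∈ R := by
      rw [← hR2 a ha b hb hba.symm]
      exact Finset.mem_inter.2 ⟨hp1δ a, hp1δ b⟩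
    have hRne : R.Nonempty := ⟨_, hδR⟩
    obtain ⟨ρ, hρR, hmax⟩ : ∃ ρ ∈ R, ∀ ξ ∈ R, ξ ≤ ρ :=
      ⟨R.max' hRne, R.max'_mem hRne, fun ξ hξ => R.le_max' ξ hξ⟩
    have hδρ : X.δ ≤ ρ := hmax _ hδR
    have hργ : ρ < γ := h1.mem a (hS' ha) ρ (hR1 a ha hρR)
    obtain ⟨ρ', hsuc⟩ := exists_suc hργ
    have hδρ' : X.δ < ρ' := hδρ.trans_lt hsuc.lt
    obtain ⟨S'', hS'', ν', h2⟩ := red (γ' := ρ') (hsuc.le hργ)
      (fun z => Pset_mono hδρ'.le (X.hp0 z)) (fun z i => bD_meas X σ hδρ' z i)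
      (h1.subset hS' hS'c) (by
        intro z hz z' hz' hzz ξ hξ hξ'
        refine (hsuc ξ).2 (hmax ξ ?_)
        rw [← hR2 z hz z' hz' hzz]
        exact Finset.mem_inter.2 ⟨hξ, hξ'⟩)
    have hsupp : ∀ z ∈ S'', ρ ∈ (restr (p1 z) ρ').supp := fun z hz =>
      mem_restr_supp.2 ⟨hR1 z (hS'' hz) hρR, hsuc.lt⟩
    have hst : ∀ z ∈ S'', (restr (p1 z) ρ').st ρ = (p1 a).st ρ := fun z hz =>
      hR3 z (hS'' hz) a ha ρ hρR
    rcases eq_or_lt_of_le hδρ with he | hlt
    · rw [← he] at hsuc hsupp hst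
      exact step_own X σ hsuc hε hε' h2 hsupp hst
    · exact step_later hsuc (fun z => Pset_mono hlt.le (X.hp0 z))
        (fun z i => bD_meas X σ hlt z i) hε hε' h2 hsupp hst (ih ρ hργ hlt)

/-- An infinite set of valid indices in which almost all decide membership in the same way. -/
theorem thmK_set (X : Dat κ Z) (σ : Prop) {γ : κ} (hγ : X.δ < γ) {S : Set Z} (hS : ¬ S.Countable)
    {p : Z → Cond κ} (hp : ∀ z ∈ S, p z ∈ Pset γ) (hle : ∀ z ∈ S, Le (p z) (X.p0 z)) (m : ℕ)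
    {J : Om κ → Set ℕ} (hJ : ∀ i, Meas γ {ω | i ∈ J ω})
    (hinf : ∀ z ∈ S, Fo γ (p z) {ω | (J ω).Infinite})
    (h : ∀ z ∈ S, Fo γ (p z) {ω | ∀ i ∈ J ω, m ≤ i → i ∉ bD X σ z ω}) : False := by
  classical
  have hP : ∀ (j i : ℕ), Meas γ {ω | i ∈ J ω ∧ max j m ≤ i} := fun j i =>
    Meas.and (hJ i) (meas_const _)
  have hE : ∀ j : ℕ, Meas γ {ω | ∃ i, i ∈ J ω ∧ max j m ≤ i} := fun j => Meas.ex fun i => hP j i
  refine thmK X σ γ hγ ⟨0, le_rfl, by norm_num, S, p, fun j ω =>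
    if ∃ i, i ∈ J ω ∧ max j m ≤ i then
      Finsupp.single (sel fun i : ℕ => i ∈ J ω ∧ max j m ≤ i) (1 : ℚ)
    else Finsupp.single j 1, hS, hp, hle, ?_, ?_, ?_, ?_⟩
  · intro j
    refine MeasF.ite (hE j) ?_ (measF_const _)
    exact MeasF.comp (MeasF.sel (hP j)) fun i => Finsupp.single i (1 : ℚ)
  · intro j ω
    split_ifs
    · exact isProb_single _
    · exact isProb_single _
  · intro j ω i hi
    split_ifs at hi with hc
    · have h1 := Finsupp.support_single_subset hi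
      rw [Finset.mem_singleton] at h1
      have h2 := sel_spec (P := fun i : ℕ => i ∈ J ω ∧ max j m ≤ i) hc
      rw [h1]
      exact le_trans (le_max_left _ _) h2.2
    · have h1 := Finsupp.support_single_subset hi
      rw [Finset.mem_singleton] at h1
      exact h1.ge
  · intro z hz j
    refine ((hinf z hz).inter (h z hz)).mono ?_
    rintro ω ⟨h1, h2⟩
    have hc : ∃ i, i ∈ J ω ∧ max j m ≤ i := by
      obtain ⟨i, hi, hi'⟩ := (h1 : (J ω).Infinite).exists_gt (max j m)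
      exact ⟨i, hi, hi'.le⟩
    have h3 := sel_spec (P := fun i : ℕ => i ∈ J ω ∧ max j m ≤ i) hc
    have h4 : sel (fun i : ℕ => i ∈ J ω ∧ max j m ≤ i) ∉ bD X σ z ω :=
      (h2 : ∀ i ∈ J ω, m ≤ i → i ∉ bD X σ z ω) _ h3.1 (le_trans (le_max_right _ _) h3.2)
    show mass (bD X σ z ω) (if ∃ i, i ∈ J ω ∧ max j m ≤ i then
      Finsupp.single (sel fun i : ℕ => i ∈ J ω ∧ max j m ≤ i) (1 : ℚ)
      else Finsupp.single j 1) ≤ 0
    rw [if_pos hc, mass, Finsupp.sum_single_index (by simp)]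
    rw [if_neg h4]

end Pool.Agent.FSI
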