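import Pool.Agent.FSI.Hyp

set_option autoImplicit false

/-! # Transitivity and extension of stems, from the lower levels

PROOFS.
* `trans_of`: for `ξ ∈ r.supp` we have `ξ < γ`, and `badAt ξ p r ⊆ badAt ξ p q ∪ badAt ξ q r`
  (`Ok.trans`), so `body (restr p ξ) ∩ badAt ξ p r` is contained in
  `(body (restr p ξ) ∩ badAt ξ p q) ∪ (body (restr p ξ) \ body (restr q ξ)) ∪
  (body (restr q ξ) ∩ badAt ξ q r)`; the middle set is null at `ξ` by `Hyp.r1` at `ξ` for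
  `Le.restr`.
* `ext_one`: one more element of the stem at `ξ < γ`, where `ξ ∈ p.supp`: the sets
  `A e = {ω | e ∈ p.nm ξ ω (p.st ξ)}` (`e : E`) cover everything (`Big.exists_mem`), so by
  `Hyp.iUnion_select` at level `ξ` there are `e` and `p' ≤ restr p ξ` in `Pset ξ` with
  `body p' \ A e ∈ Nul ξ`. Take `q = glue ξ p' (upd p ξ (p.st ξ ++ [e]) (p.nm ξ) ..)`. `Le q p`: use
  `LeW` directly: below `ξ` from `Le p' (restr p ξ)`, at `ξ` the path condition holds where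
  `e ∈ p.nm ξ ω (p.st ξ)` (`Path.refl`, `Path.snoc`), above `ξ` nothing changes.
* `exists_ext`: if `ξ ∉ p.supp` first add `ξ` with empty stem and promise `univ`
  (`upd_le_of_notMem`); then induction on `n` with `ext_one` and transitivity (`trans_of`). -/

namespace Pool.Agent.FSI

variable {κ : Type} [LinearOrder κ] [WellFoundedLT κ] {γ ξ : κ} {p q r : Cond κ}

theorem trans_of (h : ∀ ξ < γ, Hyp ξ) (hp : p ∈ Pset γ) (hq : q ∈ Pset γ) (hr : r ∈ Pset γ)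
    (h1 : Le p q) (h2 : Le q r) : Le p r := by
  refine ⟨h2.1.trans h1.1, fun ξ hξ => ?_⟩
  have hξq : ξ ∈ q.supp := h2.1 hξ
  have hξγ : ξ < γ := hr ξ hξ
  obtain ⟨ha1, ha2⟩ := h1.2 ξ hξq
  obtain ⟨hb1, hb2⟩ := h2.2 ξ hξ
  refine ⟨hb1.trans ha1, ?_⟩
  have hc : body (restr p ξ) \ body (restr q ξ) ∈ Nul ξ :=
    (h ξ hξγ).r1 restr_mem restr_mem (Le.restr h1)
  refine Nul.subset (Nul.union (Nul.union ha2 hc) hb2) ?_
  rintro ω ⟨hω1, hω2⟩
  by_cases hq1 : ω ∈ badAt ξ p q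
  · exact Or.inl (Or.inl ⟨hω1, hq1⟩)
  by_cases hq2 : ω ∈ body (restr q ξ)
  · refine Or.inr ⟨hq2, ?_⟩
    intro hok
    apply hω2
    have hok' : Ok (q.st ξ) (q.nm ξ ω) (p.st ξ) (p.nm ξ ω) := not_not.1 hq1
    exact Ok.trans hok hok'
  · exact Or.inl (Or.inr ⟨hω1, hq2⟩)

theorem ext_one (h : ∀ ξ < γ, Hyp ξ) (hp : p ∈ Pset γ) (hξ : ξ ∈ p.supp) :
    ∃ q ∈ Pset γ, Le q p ∧ ∃ e, q.st ξ = p.st ξ ++ [e] := by
  have hξγ : ξ < γ := hp ξ hξ
  obtain ⟨A, hA⟩ : ∃ A : E → Set (Om κ), ∀ e, A e = {ω | e ∈ p.nm ξ ω (p.st ξ)} := ⟨_, fun _ => rfl⟩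
  have hAm : ∀ e, Meas ξ (A e) := by
    intro e
    rw [hA]
    exact p.meas ξ hξ (p.st ξ) e
  have hcov : body (restr p ξ) \ (⋃ e, A e) ∈ Nul ξ := by
    refine Nul.subset (empty_mem_Nul ξ) ?_
    rintro ω ⟨_, hω⟩
    obtain ⟨e, he, _⟩ := (p.big ξ hξ ω (p.st ξ)).exists_mem 0
    exact absurd (Set.mem_iUnion.2 ⟨e, by rw [hA]; exact he⟩) hω
  obtain ⟨e, p', hp', hle, hnul⟩ := (h ξ hξγ).iUnion_select restr_mem hAm hcov
  have hm : ∀ t e, Meas ξ {ω | e ∈ p.nm ξ ω t} := p.meas ξ hξ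
  have hb : ∀ ω t, Big (p.nm ξ ω t) := p.big ξ hξ
  refine ⟨glue ξ p' (upd p ξ (p.st ξ ++ [e]) (p.nm ξ) hm hb), glue_mem hξγ.le (upd_mem hξγ hp),
    ⟨?_, ?_⟩, e, ?_⟩
  · intro η hη
    rw [mem_glue_supp]
    by_cases hηξ : η < ξ
    · left
      exact ⟨hηξ, hle.1 (mem_restr_supp.2 ⟨hη, hηξ⟩)⟩
    · right
      exact ⟨hηξ, Finset.mem_insert_of_mem hη⟩
  · intro η hη
    rcases lt_trichotomy η ξ with hηξ | hηξ | hηξ
    · have hη' : η ∈ (restr p ξ).supp := mem_restr_supp.2 ⟨hη, hηξ⟩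
      obtain ⟨h1, h2⟩ := hle.2 η hη'
      have e1 : (glue ξ p' (upd p ξ (p.st ξ ++ [e]) (p.nm ξ) hm hb)).st η = p'.st η := if_pos hηξ
      have e2 : (glue ξ p' (upd p ξ (p.st ξ ++ [e]) (p.nm ξ) hm hb)).nm η = p'.nm η := if_pos hηξ
      refine ⟨by rw [e1]; exact h1, ?_⟩
      rw [body_restr_glue hηξ.le]
      have e3 : badAt η (glue ξ p' (upd p ξ (p.st ξ ++ [e]) (p.nm ξ) hm hb)) p =
          badAt η p' (restr p ξ) := by
        unfold badAt
        rw [e1, e2]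
        rfl
      rw [e3]
      exact h2
    · subst hηξ
      have e1 : (glue η p' (upd p η (p.st η ++ [e]) (p.nm η) hm hb)).st η = p.st η ++ [e] := by
        have : (glue η p' (upd p η (p.st η ++ [e]) (p.nm η) hm hb)).st η =
          (upd p η (p.st η ++ [e]) (p.nm η) hm hb).st η := if_neg (lt_irrefl η)
        rw [this]
        exact if_pos rfl
      have e2 : (glue η p' (upd p η (p.st η ++ [e]) (p.nm η) hm hb)).nm η = p.nm η := by
        have : (glue η p' (upd p η (p.st η ++ [e]) (p.nm η) hm hb)).nm η =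
          (upd p η (p.st η ++ [e]) (p.nm η) hm hb).nm η := if_neg (lt_irrefl η)
        rw [this]
        exact if_pos rfl
      refine ⟨by rw [e1]; exact List.prefix_append _ _, ?_⟩
      rw [body_restr_glue (le_refl η), restr_eq hp']
      refine Nul.subset hnul ?_
      rintro ω ⟨hω1, hω2⟩
      refine ⟨hω1, fun hωA => hω2 ?_⟩
      rw [hA] at hωA
      rw [e1, e2]
      exact ⟨Path.snoc Path.refl hωA, fun u _ => le_refl _⟩
    · have hn : ¬ η < ξ := not_lt.2 hηξ.le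
      have e1 : (glue ξ p' (upd p ξ (p.st ξ ++ [e]) (p.nm ξ) hm hb)).st η = p.st η := by
        have : (glue ξ p' (upd p ξ (p.st ξ ++ [e]) (p.nm ξ) hm hb)).st η =
          (upd p ξ (p.st ξ ++ [e]) (p.nm ξ) hm hb).st η := if_neg hn
        rw [this]
        exact if_neg hηξ.ne'
      have e2 : (glue ξ p' (upd p ξ (p.st ξ ++ [e]) (p.nm ξ) hm hb)).nm η = p.nm η := by
        have : (glue ξ p' (upd p ξ (p.st ξ ++ [e]) (p.nm ξ) hm hb)).nm η =
          (upd p ξ (p.st ξ ++ [e]) (p.nm ξ) hm hb).nm η := if_neg hn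
        rw [this]
        exact if_neg hηξ.ne'
      refine ⟨by rw [e1], ?_⟩
      refine Nul.subset (empty_mem_Nul η) ?_
      rintro ω ⟨_, hω2⟩
      exfalso
      apply hω2
      rw [e1, e2]
      exact Ok.refl
  · have : (glue ξ p' (upd p ξ (p.st ξ ++ [e]) (p.nm ξ) hm hb)).st ξ =
      (upd p ξ (p.st ξ ++ [e]) (p.nm ξ) hm hb).st ξ := if_neg (lt_irrefl ξ)
    rw [this]
    exact if_pos rfl

theorem exists_ext (h : ∀ ξ < γ, Hyp ξ) (hp : p ∈ Pset γ) (hξ : ξ < γ) (n : ℕ) :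
    ∃ q ∈ Pset γ, Le q p ∧ ξ ∈ q.supp ∧ n ≤ (q.st ξ).length := by
  induction n with
  | zero =>
    by_cases hs : ξ ∈ p.supp
    · exact ⟨p, hp, Le.refl p, hs, Nat.zero_le _⟩
    · refine ⟨upd p ξ [] (fun _ _ => Set.univ) (fun t e => meas_const _) (fun ω t => big_univ),
        upd_mem hξ hp, upd_le_of_notMem hs, Finset.mem_insert_self _ _, Nat.zero_le _⟩
  | succ n ih =>
    obtain ⟨q, hq, hqp, hqs, hqn⟩ := ih
    obtain ⟨q', hq', hq'q, e, he⟩ := ext_one h hq hqs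
    refine ⟨q', hq', trans_of h hq' hq hp hq'q hqp, hq'q.1 hqs, ?_⟩
    rw [he, List.length_append, List.length_singleton]
    omega

end Pool.Agent.FSI
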