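import Pool.Agent.FSI.Sel
import Pool.Agent.FSI.LamT

set_option autoImplicit false

/-! # Violations

`VData p0 b γ ε S p ν`: an uncountable set `S` of indices, conditions `p z ∈ Pset γ` below `p0 z`,
and names `ν j` of probabilities with support in `[j, ∞)` such that `p z` forces
`mass (b z) (ν j) ≤ ε`.

PROOFS. `measF_mass`: `mass (b ω) l` is a function of the finset `l.support.filter (· ∈ b ω)`
(`mass_eq_sum`), whose fibres are finite intersections of the sets `{i ∈ b ω}` and their complements;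
values of the function `ω ↦ l.support.filter (· ∈ b ω)` are finsets of `ℕ` (countable type). -/

namespace Pool.Agent.FSI

section

variable {κ : Type} [LinearOrder κ]

/-- `ρ'` is the successor of `ρ`. -/
def Suc (ρ ρ' : κ) : Prop := ∀ ξ, ξ < ρ' ↔ ξ ≤ ρ

theorem Suc.lt {ρ ρ' : κ} (h : Suc ρ ρ') : ρ < ρ' := (h ρ).2 le_rfl

theorem Suc.le {ρ ρ' γ : κ} (h : Suc ρ ρ') (hγ : ρ < γ) : ρ' ≤ γ := by
  by_contra h'
  exact absurd ((h γ).1 (not_le.1 h')) (not_le.2 hγ)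

theorem exists_suc [WellFoundedLT κ] {ρ γ : κ} (h : ρ < γ) : ∃ ρ', Suc ρ ρ' := by
  have hne : {x : κ | ρ < x}.Nonempty := ⟨γ, h⟩
  refine ⟨(wellFounded_lt (α := κ)).min {x : κ | ρ < x} hne, fun ξ => ⟨fun h1 => ?_, fun h1 => ?_⟩⟩
  · by_contra h2
    exact (wellFounded_lt (α := κ)).not_lt_min {x : κ | ρ < x} (not_le.1 h2) h1
  · exact lt_of_le_of_lt h1 ((wellFounded_lt (α := κ)).min_mem {x : κ | ρ < x} hne)

variable {γ : κ} {b : Om κ → Set ℕ} {f : Om κ → ℕ →₀ ℚ}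

open Classical in
theorem measF_support (hb : ∀ i, Meas γ {ω | i ∈ b ω}) (T : Finset ℕ) :
    MeasF γ fun ω => T.filter (· ∈ b ω) := by
  induction T using Finset.induction_on with
  | empty => exact measF_const (γ := γ) (∅ : Finset ℕ)
  | insert a T _ ih =>
    have h1 := MeasF.ite (hb a) (MeasF.comp ih (fun S => insert a S)) ih
    have h2 : (fun ω => (insert a T).filter (· ∈ b ω)) = fun ω =>
        if a ∈ b ω then insert a (T.filter (· ∈ b ω)) else T.filter (· ∈ b ω) := by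
      funext ω
      rw [Finset.filter_insert]
    rw [h2]
    exact h1

theorem measF_mass (hb : ∀ i, Meas γ {ω | i ∈ b ω}) (l : ℕ →₀ ℚ) :
    MeasF γ fun ω => mass (b ω) l := by
  classical
  have h1 := MeasF.comp (measF_support hb l.support) (fun S : Finset ℕ => ∑ i ∈ S, l i)
  have h2 : (fun ω => mass (b ω) l) = fun ω => ∑ i ∈ l.support.filter (· ∈ b ω), l i := by
    funext ω
    rw [mass_eq_sum l.support (Finset.Subset.refl _), Finset.sum_filter]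
  rw [h2]
  exact h1

theorem measF_V (hb : ∀ i, Meas γ {ω | i ∈ b ω}) (l : ℕ →₀ ℚ) : MeasF γ fun ω => V (b ω) l :=
  MeasF.comp (measF_mass hb l) (fun x : ℚ => x + (1 - mass Set.univ l) / 4)

theorem meas_mass_le (hb : ∀ i, Meas γ {ω | i ∈ b ω}) (hf : MeasF γ f) (ε : ℚ) :
    Meas γ {ω | mass (b ω) (f ω) ≤ ε} :=
  MeasF.rel (P := fun l ω => mass (b ω) l ≤ ε) hf
    fun l => MeasF.set (measF_mass hb l) {x : ℚ | x ≤ ε}

theorem meas_lt_V (hb : ∀ i, Meas γ {ω | i ∈ b ω}) (l : ℕ →₀ ℚ) (ε : ℚ) :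
    Meas γ {ω | ε < V (b ω) l} :=
  MeasF.set (measF_V hb l) {x : ℚ | ε < x}

end

variable {κ : Type} [LinearOrder κ] [WellFoundedLT κ]

/-- The data of a violation. -/
structure VData {Z : Type*} (p0 : Z → Cond κ) (b : Z → Om κ → Set ℕ) (γ : κ) (ε : ℚ) (S : Set Z)
    (p : Z → Cond κ) (ν : ℕ → Om κ → ℕ →₀ ℚ) : Prop where
  unc : ¬ S.Countable
  mem : ∀ z ∈ S, p z ∈ Pset γ
  le : ∀ z ∈ S, Le (p z) (p0 z)
  meas : ∀ j, MeasF γ (ν j)
  prob : ∀ j ω, IsProb (ν j ω)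
  supp : ∀ j ω, ∀ i ∈ (ν j ω).support, j ≤ i
  fo : ∀ z ∈ S, ∀ j, Fo γ (p z) {ω | mass (b z ω) (ν j ω) ≤ ε}

/-- There is a violation with a bound smaller than one quarter. -/
def Viol {Z : Type*} (p0 : Z → Cond κ) (b : Z → Om κ → Set ℕ) (γ : κ) : Prop :=
  ∃ ε : ℚ, 0 ≤ ε ∧ ε < 1 / 4 ∧ ∃ S p ν, VData p0 b γ ε S p ν

variable {Z : Type*} {p0 p : Z → Cond κ} {b : Z → Om κ → Set ℕ} {γ : κ} {ε ε' : ℚ}
  {S S' : Set Z} {ν : ℕ → Om κ → ℕ →₀ ℚ}

theorem VData.subset (h : VData p0 b γ ε S p ν) (hS : S' ⊆ S) (hc : ¬ S'.Countable) :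
    VData p0 b γ ε S' p ν :=
  ⟨hc, fun z hz => h.mem z (hS hz), fun z hz => h.le z (hS hz), h.meas, h.prob, h.supp,
    fun z hz => h.fo z (hS hz)⟩

/-- stronger conditions -/
theorem VData.stronger (h : VData p0 b γ ε S p ν) {p' : Z → Cond κ} (hp0 : ∀ z, p0 z ∈ Pset γ)
    (hm : ∀ z ∈ S, p' z ∈ Pset γ) (hp : ∀ z ∈ S, Le (p' z) (p z)) : VData p0 b γ ε S p' ν :=
  ⟨h.unc, hm, fun z hz => (hp z hz).trans (hm z hz) (h.mem z hz) (hp0 z) (h.le z hz), h.meas,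
    h.prob, h.supp, fun z hz j => (h.fo z hz j).le (h.mem z hz) (hm z hz) (hp z hz)⟩

end Pool.Agent.FSI
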